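import Mathlib

/-! Vector spaces with a family of operators: definitions. -/

namespace EO

open Module

variable {k : Type*} [Field k] {V : Type*} [AddCommGroup V] [Module k V] {σ : Type*}

/-- `W` is stable under all operators. -/
def Stab (T : σ → End k V) (W : Submodule k V) : Prop := ∀ i, ∀ v ∈ W, T i v ∈ W

/-- Every stable subspace containing `s` contains `R`. -/
def GenBy (T : σ → End k V) (s : Set V) (R : Submodule k V) : Prop :=
  ∀ W, Stab T W → s ⊆ W → R ≤ W

/-- Finitely generated under the operators. -/
def FGT (T : σ → End k V) : Prop := ∃ s : Finset V, GenBy T s ⊤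

/-- Every stable subspace is finitely generated under the operators. -/
def Noe (T : σ → End k V) : Prop :=
  ∀ R, Stab T R → ∃ s : Finset V, (s : Set V) ⊆ R ∧ GenBy T s R

/-- A grading for which `T i` is homogeneous of degree `d i`. -/
structure Gr (T : σ → End k V) (q : ℕ → End k V) (d : σ → ℕ) : Prop where
  sum : ∀ v, ∃ N, ∀ N' ≥ N, v = ∑ n ∈ Finset.range N', q n v
  idem : ∀ n v, q n (q n v) = q n v
  orth : ∀ m n v, m ≠ n → q m (q n v) = 0
  shift : ∀ i n v, q (n + d i) (T i v) = T i (q n v)
  low : ∀ i n v, n < d i → q n (T i v) = 0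

end EO
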