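import Pool.Agent.P.MP_42c3cc_al.Ab0

/-! Vector spaces with a family of operators: the basis theorem and its consequences. -/

namespace EO

open Module

variable {k : Type*} [Field k] {V : Type*} [AddCommGroup V] [Module k V] {σ : Type*}

open scoped IsMulCommutative in
theorem Ab1_hom {T : σ → End k V} (hc : ∀ i j, Commute (T i) (T j)) :
    ∃ ψ : MvPolynomial σ k →ₐ[k] End k V, ∀ i, ψ (MvPolynomial.X i) = T i := by
  have : IsMulCommutative (Algebra.adjoin k (Set.range T)) := Algebra.isMulCommutative_adjoin k (by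
    rintro _ ⟨i, rfl⟩ _ ⟨j, rfl⟩
    exact hc i j)
  exact ⟨(Algebra.adjoin k (Set.range T)).val.comp (MvPolynomial.aeval fun i =>
    (⟨T i, Algebra.subset_adjoin ⟨i, rfl⟩⟩ : Algebra.adjoin k (Set.range T))), fun i => by simp⟩

theorem Ab1_pow {a b : End k V} {c : k} (h : a * b = c • (b * a)) (m : ℕ) :
    a ^ m * b = c ^ m • (b * a ^ m) ∧ a * b ^ m = c ^ m • (b ^ m * a) := by
  induction m with
  | zero => simp
  | succ m ih =>
    constructor
    · rw [pow_succ' a, mul_assoc, ih.1, mul_smul_comm, ← mul_assoc, h, smul_mul_assoc, smul_smul,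
        mul_assoc, pow_succ c]
    · rw [pow_succ b, ← mul_assoc, ih.2, smul_mul_assoc, mul_assoc, h, mul_smul_comm, smul_smul,
        ← mul_assoc, pow_succ c]

theorem Ab1_step [DecidableEq σ] {T : σ → End k V} (i : σ)
    (hc : ∀ j, ∃ c : k, T i * T j = c • (T j * T i)) {q : ℕ} (hq : 0 < q) (h : FGT T) :
    FGT (Function.update T i (T i ^ q)) := by
  classical
  obtain ⟨s, hs⟩ := h
  refine ⟨(Finset.range q ×ˢ s).image fun p => (T i ^ p.1) p.2, fun W hW hs' x _ => ?_⟩
  have key := hs (⨅ r : Fin q, W.comap (T i ^ (r : ℕ))) (fun j v hv => ?_) fun v hv => ?_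
  · simpa using (Submodule.mem_iInf _).1 (key (Submodule.mem_top (x := x))) ⟨0, hq⟩
  · rw [Submodule.mem_iInf] at hv ⊢
    intro r
    rw [Submodule.mem_comap, ← Module.End.mul_apply]
    by_cases e : j = i
    · subst e
      rw [← pow_succ]
      by_cases e' : r + 1 < q
      · exact hv ⟨r + 1, e'⟩
      · have h1 := hW j v (by simpa using hv ⟨0, hq⟩)
        rwa [Function.update_self, ← show r + 1 = q by omega] at h1
    · obtain ⟨c, h1⟩ := hc j
      have h2 := hW j _ (hv r)
      rw [Function.update_of_ne e] at h2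
      rw [(Ab1_pow h1 r).1]
      exact W.smul_mem _ h2
  · exact (Submodule.mem_iInf _).2 fun r => hs' (Finset.mem_coe.2 (Finset.mem_image.2
      ⟨(r, v), Finset.mem_product.2 ⟨Finset.mem_range.2 r.2, hv⟩, rfl⟩))

theorem Ab1_fgt [Finite σ] {T : σ → End k V} (hc : ∀ i j, ∃ c : k, T i * T j = c • (T j * T i))
    (q : σ → ℕ) (hq : ∀ i, 0 < q i) (h : FGT T) : FGT fun i => T i ^ q i := by
  classical
  have key : ∀ J : Finset σ, FGT fun i => T i ^ (if i ∈ J then q i else 1) := by
    intro J
    induction J using Finset.induction_on with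
    | empty => simpa using h
    | insert i J hi ih =>
      have h1 := Ab1_step i (fun j => by
        obtain ⟨c, h1⟩ := hc i j
        exact ⟨_, (Ab1_pow (Ab1_pow h1 _).1 _).2⟩) (hq i) ih
      refine Eq.mp (congrArg FGT ?_) h1
      funext j
      by_cases e : j = i
      · subst e
        simp [hi]
      · simp [e]
  have := Fintype.ofFinite σ
  simpa using key Finset.univ

theorem hilbert [Finite σ] {T : σ → End k V} (hc : ∀ i j, Commute (T i) (T j)) (h : FGT T) :
    Noe T := by
  obtain ⟨ψ, hψ⟩ := Ab1_hom hc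
  let _ : Module (MvPolynomial σ k) V := Module.compHom V ψ.toRingHom
  have sm : ∀ (p : MvPolynomial σ k) (v : V), p • v = ψ p v := fun _ _ => rfl
  have up : ∀ W : Submodule k V, Stab T W → ∃ N : Submodule (MvPolynomial σ k) V,
      (N : Set V) = W := fun W hW =>
    ⟨⟨W.toAddSubmonoid, fun p => by
      induction p using MvPolynomial.induction_on with
      | C c =>
        intro v hv
        rw [sm, MvPolynomial.algHom_C]
        exact W.smul_mem c hv
      | add p q hp hq =>
        intro v hv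
        rw [add_smul]
        exact W.add_mem (hp hv) (hq hv)
      | mul_X p i hp =>
        intro v hv
        rw [mul_smul, sm (MvPolynomial.X i), hψ]
        exact hp (hW i v hv)⟩, rfl⟩
  have : Module.Finite (MvPolynomial σ k) V := by
    obtain ⟨s, hs⟩ := h
    let W : Submodule k V := ⟨(Submodule.span (MvPolynomial σ k) (s : Set V)).toAddSubmonoid,
      fun c v hv => by
        have := (Submodule.span (MvPolynomial σ k) (s : Set V)).smul_mem (MvPolynomial.C c) hv
        rwa [sm, MvPolynomial.algHom_C] at this⟩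
    refine ⟨s, top_le_iff.1 fun v _ => hs W (fun i v hv => ?_) Submodule.subset_span
      (Submodule.mem_top (x := v))⟩
    have := (Submodule.span (MvPolynomial σ k) (s : Set V)).smul_mem (MvPolynomial.X i) hv
    rwa [sm, hψ] at this
  intro R hR
  obtain ⟨N, hN⟩ := up R hR
  obtain ⟨s, hs⟩ := IsNoetherian.noetherian N
  refine ⟨s, hN ▸ hs ▸ Submodule.subset_span, fun W hW hs' => ?_⟩
  obtain ⟨N', hN'⟩ := up W hW
  change (R : Set V) ⊆ W
  rw [← hN, ← hN', ← hs]
  exact Submodule.span_le.2 (hN' ▸ hs')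

theorem fd_of_torsion [Finite σ] {T : σ → End k V} (hc : ∀ i j, Commute (T i) (T j)) (h : FGT T)
    (ht : ∀ i v, ∃ e, (T i ^ e) v = 0) : FiniteDimensional k V := by
  have nil : ∀ i, ∃ e, 0 < e ∧ T i ^ e = 0 := fun i => by
    obtain ⟨s, hs⟩ := h
    choose e he using ht i
    refine ⟨s.sup e + 1, Nat.succ_pos _, LinearMap.ker_eq_top.1 (top_le_iff.1
      (hs _ (fun j v hv => ?_) fun v hv => ?_))⟩
    · rw [LinearMap.mem_ker] at hv ⊢
      rw [← Module.End.mul_apply, ((hc i j).pow_left _).eq, Module.End.mul_apply, hv, map_zero]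
    · exact Module.End.pow_map_zero_of_le ((Finset.le_sup hv).trans (Nat.le_succ _)) (he v)
  choose q hq hq' using nil
  obtain ⟨s, hs⟩ := Ab1_fgt (fun i j => ⟨1, by rw [one_smul, (hc i j).eq]⟩) q hq h
  exact ⟨s, top_le_iff.1 (hs _ (fun i v _ => by simp [hq']) Submodule.subset_span)⟩

theorem fgt_pow [Finite σ] {T : σ → End k V} (hc : ∀ i j, ∃ c : k, T i * T j = c • (T j * T i))
    (q : σ → ℕ) (hq : ∀ i, 0 < q i) (h : FGT T) : FGT fun i => T i ^ q i := Ab1_fgt hc q hq h

end EO
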