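import Pool.Agent.P.MP_42c3cc_al.Ab0

/-! Vector spaces with a family of operators: exact sequences and gradings. -/

namespace EO

open Module

variable {k : Type*} [Field k] {V : Type*} [AddCommGroup V] [Module k V] {σ : Type*}
  {V' : Type*} [AddCommGroup V'] [Module k V'] {V'' : Type*} [AddCommGroup V''] [Module k V'']

theorem Noe.fgt {T : σ → End k V} (h : Noe T) : FGT T :=
  let ⟨s, _, hs⟩ := h ⊤ fun _ _ _ => trivial
  ⟨s, hs⟩

theorem Ab2_span (U : Submodule k V) [FiniteDimensional k U] :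
    ∃ s : Finset V, ∀ W : Submodule k V, (s : Set V) ⊆ W → U ≤ W :=
  let ⟨s, hs⟩ := (Submodule.FG.of_finite : U.FG)
  ⟨s, fun _ h => hs ▸ Submodule.span_le.2 h⟩

theorem Ab2_comap {T : σ → End k V} {T' : σ → End k V'} (f : V →ₗ[k] V')
    (hf : ∀ i v, f (T i v) = T' i (f v)) {W : Submodule k V'} (hW : Stab T' W) :
    Stab T (W.comap f) := fun i v hv => by
  rw [Submodule.mem_comap, hf]
  exact hW i _ hv

theorem Ab2_map {T : σ → End k V} {T' : σ → End k V'} (f : V →ₗ[k] V')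
    (hf : ∀ i v, f (T i v) = T' i (f v)) {W : Submodule k V} (hW : Stab T W) :
    Stab T' (W.map f) := by
  rintro i _ ⟨v, hv, rfl⟩
  exact ⟨_, hW i v hv, hf i v⟩

theorem Ab2_lift {T : σ → End k V} {T' : σ → End k V'} (g : V →ₗ[k] V')
    (hg : ∀ i v, g (T i v) = T' i (g v)) (h : Noe T') : ∃ t : Finset V, ∀ W, Stab T W →
      (t : Set V) ⊆ W → LinearMap.ker g ≤ W → W = ⊤ := by
  classical
  obtain ⟨s, hs, hs'⟩ := h _ (Ab2_map g hg (W := ⊤) fun _ _ _ => trivial)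
  choose! y hy using fun z (hz : z ∈ s) => (hs hz : ∃ v, v ∈ (⊤ : Submodule k V) ∧ g v = z)
  refine ⟨s.image y, fun W hW ht hk => top_unique fun v _ => ?_⟩
  obtain ⟨w, hw, e⟩ := hs' _ (Ab2_map g hg hW) (fun z hz => ⟨y z, ht (by
    exact_mod_cast Finset.mem_image_of_mem y hz), (hy z hz).2⟩) ⟨v, trivial, rfl⟩
  have := W.add_mem hw (hk (LinearMap.sub_mem_ker_iff.2 e.symm))
  rwa [add_sub_cancel] at this

theorem Ab2_zero {T : σ → End k V} {q : ℕ → End k V} {d : σ → ℕ} (hg : Gr T q d) (v : V) :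
    ∃ N, ∀ n ≥ N, q n v = 0 := by
  obtain ⟨N, hN⟩ := hg.sum v
  refine ⟨N, fun n hn => ?_⟩
  rw [hN N le_rfl, map_sum]
  exact Finset.sum_eq_zero fun m hm => hg.orth n m v (by have := Finset.mem_range.1 hm; omega)

theorem Ab2_mem {T : σ → End k V} {q : ℕ → End k V} {d : σ → ℕ} (hg : Gr T q d)
    {W : Submodule k V} {v : V} (h : ∀ n, q n v ∈ W) : v ∈ W := by
  obtain ⟨N, hN⟩ := hg.sum v
  rw [hN N le_rfl]
  exact W.sum_mem fun n _ => h n

theorem Ab2_stab {T : σ → End k V} {q : ℕ → End k V} {d : σ → ℕ} (hg : Gr T q d)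
    {W : Submodule k V} (hW : Stab T W) : Stab T (⨅ n, W.comap (q n)) := fun i v hv => by
  simp only [Submodule.mem_iInf, Submodule.mem_comap] at hv ⊢
  intro n
  rcases lt_or_ge n (d i) with h | h
  · rw [hg.low i n v h]
    exact W.zero_mem
  · obtain ⟨m, rfl⟩ := Nat.exists_eq_add_of_le' h
    rw [hg.shift]
    exact hW i _ (hv m)

theorem Ab2_comp {T : σ → End k V} {q : ℕ → End k V} {d : σ → ℕ} (hg : Gr T q d) (s : Finset V) :
    ∃ s' : Finset V, (∀ v ∈ s', ∃ n, q n v = v) ∧ ∀ W : Submodule k V, (s' : Set V) ⊆ W →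
      (s : Set V) ⊆ (⨅ n, W.comap (q n) : Submodule k V) := by
  classical
  choose N hN using Ab2_zero hg
  refine ⟨s.biUnion fun v => (Finset.range (N v)).image fun n => q n v, fun v hv => ?_,
    fun W hW v hv => (Submodule.mem_iInf _).2 fun n => ?_⟩
  · obtain ⟨u, -, hu⟩ := Finset.mem_biUnion.1 hv
    obtain ⟨n, -, rfl⟩ := Finset.mem_image.1 hu
    exact ⟨n, hg.idem n u⟩
  · rcases lt_or_ge n (N v) with h | h
    · exact hW (Finset.mem_coe.2 (Finset.mem_biUnion.2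
        ⟨v, hv, Finset.mem_image_of_mem _ (Finset.mem_range.2 h)⟩))
    · rw [Submodule.mem_comap, hN v n h]
      exact W.zero_mem

theorem fgt_of_fd [FiniteDimensional k V] (T : σ → End k V) : FGT T :=
  let ⟨s, hs⟩ := Ab2_span (⊤ : Submodule k V)
  ⟨s, fun W _ h => hs W h⟩

theorem fgt_mono {σ' : Type*} {T : σ → End k V} {T' : σ' → End k V}
    (e : ∀ i, ∃ j, T i = T' j) (h : FGT T) : FGT T' := by
  obtain ⟨s, hs⟩ := h
  refine ⟨s, fun W hW => hs W fun i v hv => ?_⟩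
  obtain ⟨j, hj⟩ := e i
  rw [hj]
  exact hW j v hv

theorem fgt_exact {T : σ → End k V} {T' : σ → End k V'} {T'' : σ → End k V''} (f : V →ₗ[k] V')
    (g : V' →ₗ[k] V'') (hf : ∀ i v, f (T i v) = T' i (f v)) (hg : ∀ i v, g (T' i v) = T'' i (g v))
    (hex : LinearMap.ker g ≤ LinearMap.range f) (h : FGT T) (h'' : Noe T'') : FGT T' := by
  classical
  obtain ⟨s, hs⟩ := h
  obtain ⟨t, ht⟩ := Ab2_lift g hg h''
  refine ⟨s.image f ∪ t, fun W hW hsW => (ht W hW (fun v hv => hsW (by simp [show v ∈ t from hv]))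
    (hex.trans ?_)).ge⟩
  rintro _ ⟨v, rfl⟩
  exact hs _ (Ab2_comap f hf hW) (fun v hv => hsW (Finset.mem_coe.2 (Finset.mem_union_left _
    (Finset.mem_image_of_mem f hv)))) trivial

theorem fgt_range {T : σ → End k V} {T' : σ → End k V'} (f : V →ₗ[k] V')
    (hf : ∀ i v, f (T i v) = T' i (f v)) (U : Submodule k V') [FiniteDimensional k U]
    (hU : LinearMap.range f ⊔ U = ⊤) (h : FGT T) : FGT T' := by
  classical
  obtain ⟨s, hs⟩ := h
  obtain ⟨t, ht⟩ := Ab2_span U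
  refine ⟨s.image f ∪ t, fun W hW hsW => hU.ge.trans
    (sup_le ?_ (ht W fun v hv => hsW (by simp [show v ∈ t from hv])))⟩
  rintro _ ⟨v, rfl⟩
  exact hs _ (Ab2_comap f hf hW) (fun v hv => hsW (Finset.mem_coe.2 (Finset.mem_union_left _
    (Finset.mem_image_of_mem f hv)))) trivial

theorem Noe.chain {T : σ → End k V} (h : Noe T) (y : ℕ → V) :
    ∃ j, ∀ W, Stab T W → (∀ l < j, y l ∈ W) → y j ∈ W := by
  let C : ℕ → Submodule k V := fun j => sInf {W | Stab T W ∧ ∀ l < j, y l ∈ W}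
  have hC : ∀ j, Stab T (C j) := fun j i v hv =>
    Submodule.mem_sInf.2 fun W hW => hW.1 i v (Submodule.mem_sInf.1 hv W hW)
  have hm : Monotone C := fun i j hij =>
    sInf_le_sInf fun W hW => ⟨hW.1, fun l hl => hW.2 l (hl.trans_le hij)⟩
  have hi : ∀ v, v ∈ iSup C ↔ ∃ j, v ∈ C j := fun v =>
    Submodule.mem_iSup_of_directed C hm.directed_le
  obtain ⟨s, hs, hs'⟩ := h (iSup C) fun i v hv =>
    (hi _).2 (((hi v).1 hv).imp fun j hj => hC j i v hj)
  choose! N hN using fun v (hv : v ∈ s) => (hi v).1 (hs hv)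
  refine ⟨s.sup N, fun W hW hy => ?_⟩
  have e : y (s.sup N) ∈ iSup C := (hi _).2 ⟨s.sup N + 1,
    Submodule.mem_sInf.2 fun W hW => hW.2 _ (Nat.lt_succ_self _)⟩
  exact Submodule.mem_sInf.1 (hs' _ (hC (s.sup N))
    (fun v hv => hm (Finset.le_sup hv) (hN v hv)) e) W ⟨hW, hy⟩

theorem nak {T : σ → End k V} {q : ℕ → End k V} {d : σ → ℕ} (hg : Gr T q d) (i : σ) (hi : 0 < d i)
    (s : Finset V) (h : ∀ W, Stab T W → (s : Set V) ⊆ W → W ⊔ LinearMap.range (T i) = ⊤) :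
    FGT T := by
  obtain ⟨s', -, hs'⟩ := Ab2_comp hg s
  refine ⟨s', fun W hW hs v _ => Ab2_mem hg fun n => ?_⟩
  have e := h _ (Ab2_stab hg hW) (hs' W hs)
  induction n using Nat.strong_induction_on generalizing v with
  | _ n ih =>
    obtain ⟨w, hw, _, ⟨u, rfl⟩, rfl⟩ := Submodule.mem_sup.1 (e.ge (Submodule.mem_top (x := v)))
    rw [map_add]
    refine W.add_mem ((Submodule.mem_iInf _).1 hw n) ?_
    rcases lt_or_ge n (d i) with h | h
    · rw [hg.low i n u h]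
      exact W.zero_mem
    · obtain ⟨m, rfl⟩ := Nat.exists_eq_add_of_le' h
      rw [hg.shift]
      exact hW i _ (ih m (by omega) u trivial)

/-- The step through a cone: `φ` and `g` are part of a long exact sequence. -/
theorem fgt_cone {T : σ → End k V} {T' : σ → End k V'} {T'' : σ → End k V''} {q : ℕ → End k V}
    {d : σ → ℕ} (hg : Gr T q d) (i : σ) (hi : 0 < d i) (hc : ∀ j, Commute (T i) (T j))
    (φ : V →ₗ[k] V') (g : V' →ₗ[k] V'') (Ψ : V' →ₗ[k] V)
    (hg' : ∀ j v, g (T' j v) = T'' j (g v)) (hΨ : ∀ j v, Ψ (T' j v) = T j (Ψ v))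
    (hex : LinearMap.ker g ≤ LinearMap.range φ) (hφ : ∀ v, Ψ (φ v) = T i v)
    (U : Submodule k V) [FiniteDimensional k U] (hU : LinearMap.range Ψ ⊔ U = ⊤) (h : Noe T'') :
    FGT T := by
  classical
  obtain ⟨t, ht⟩ := Ab2_lift g hg' h
  obtain ⟨b, hb⟩ := Ab2_span U
  refine nak hg i hi (t.image Ψ ∪ b) fun W hW hs => top_unique (hU.ge.trans (sup_le ?_
    ((hb W fun v hv => hs (by simp [show v ∈ b from hv])).trans le_sup_left)))
  have st : Stab T (W ⊔ LinearMap.range (T i)) := fun j v hv => by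
    obtain ⟨w, hw, _, ⟨u, rfl⟩, rfl⟩ := Submodule.mem_sup.1 hv
    rw [map_add]
    exact Submodule.add_mem_sup (hW j w hw) ⟨T j u, LinearMap.congr_fun (hc j).eq u⟩
  rintro _ ⟨v, rfl⟩
  refine (ht _ (Ab2_comap Ψ hΨ st) (fun v hv => Submodule.mem_sup_left (hs (Finset.mem_coe.2
    (Finset.mem_union_left _ (Finset.mem_image_of_mem Ψ hv))))) (hex.trans ?_)).ge
      (Submodule.mem_top (x := v))
  rintro _ ⟨u, rfl⟩
  exact Submodule.mem_sup_right ⟨u, (hφ u).symm⟩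

theorem Gr.homog_gen {T : σ → End k V} {q : ℕ → End k V} {d : σ → ℕ} (hg : Gr T q d) (h : FGT T) :
    ∃ s : Finset V, (∀ v ∈ s, ∃ n, q n v = v) ∧ GenBy T s ⊤ := by
  obtain ⟨s, hs⟩ := h
  obtain ⟨s', h1, hs'⟩ := Ab2_comp hg s
  exact ⟨s', h1, fun W hW h v hv => Ab2_mem hg
    ((Submodule.mem_iInf _).1 (hs _ (Ab2_stab hg hW) (hs' W h) hv))⟩

theorem Gr.bounded [FiniteDimensional k V] {T : σ → End k V} {q : ℕ → End k V} {d : σ → ℕ}
    (hg : Gr T q d) : ∃ N, ∀ n > N, ∀ v, q n v = 0 := by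
  obtain ⟨s, hs⟩ := Ab2_span (⊤ : Submodule k V)
  choose N hN using Ab2_zero hg
  exact ⟨s.sup N, fun n hn v => hs (LinearMap.ker (q n))
    (fun u hu => hN u n ((Finset.le_sup hu).trans hn.le)) trivial⟩

end EO
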