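import Pool.Agent.P.MP_42c3cc_al.V0

/-! The long exact sequence. -/

noncomputable section

namespace EO

open TensorAlgebra LinearMap Module
open scoped TensorProduct

universe u

variable {k : Type u} [Field k] {A : Type u} [Ring A] [Algebra k A]
  {X Y Z : Type u} [AddCommGroup X] [Module k X] [AddCommGroup Y] [Module k Y]
  [AddCommGroup Z] [Module k Z] {B : Type u} [Ring B] [Algebra k B]

theorem exists_conn (ε : A →ₐ[k] k) {ρX : A →ₐ[k] End k X} {ρY : A →ₐ[k] End k Y}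
    {ρZ : A →ₐ[k] End k Z} {i : X →ₗ[k] Y} {p : Y →ₗ[k] Z} (h : SES ρX ρY ρZ i p) :
    ∃ c, Conn ε h c := by
  obtain ⟨s, hs⟩ := p.exists_rightInverse_of_surjective (LinearMap.range_eq_top.2 h.surj)
  obtain ⟨t, ht⟩ := i.exists_leftInverse_of_injective (LinearMap.ker_eq_bot.2 h.inj)
  have ps : ∀ z : C k A Z, post p (post s z) = z := fun z => by rw [post_post, hs, post_id]
  have pi : ∀ x : C k A X, post p (post i x) = 0 := fun x => LinearMap.ext fun w =>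
    (h.ex.ge (LinearMap.mem_range_self i (x w)) : p (i (x w)) = 0)
  have it : ∀ g : C k A Y, post p g = 0 → post i (post t g) = g := fun g hg =>
    LinearMap.ext fun w => by
      obtain ⟨x, hx⟩ : g w ∈ LinearMap.range i := h.ex ▸ LinearMap.congr_fun hg w
      rw [post_apply, post_apply, ← hx]
      exact congrArg i (LinearMap.congr_fun ht x)
  obtain ⟨Φ, hΦ⟩ : ∃ Φ : C k A Z →ₗ[k] C k A X, ∀ z, Φ z = post t (dl ε ρY (post s z)) :=
    ⟨post t ∘ₗ dl ε ρY ∘ₗ post s, fun _ => rfl⟩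
  have iΦ : ∀ z, dl ε ρZ z = 0 → post i (Φ z) = dl ε ρY (post s z) := fun z hz => by
    rw [hΦ]
    exact it _ (by rw [post_dl ε h.hp, ps, hz])
  have hZ : ∀ z ∈ Zc ε ρZ, Φ z ∈ Zc ε ρX := fun z hz =>
    mem_Zc.2 ⟨hΦ z ▸ post_Bd _ (del_Bd _ _ (post_Bd _ hz.1)),
      post_eq_zero h.inj (by rw [post_dl ε h.hi, iΦ z (mem_Zc.1 hz).2, dl_dl])⟩
  have R : ∀ (g : C k A Y) (z : C k A Z) (x : C k A X), g ∈ Bd → post p g = z →
      dl ε ρY g = post i x → Φ z - x ∈ Bc ε ρX := fun g z x hg e1 e2 => by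
    have hz : dl ε ρZ z = 0 := by rw [← e1, ← post_dl ε h.hp, e2, pi]
    refine ⟨post t (post s z - g),
      post_Bd _ (Submodule.sub_mem _ (post_Bd _ (e1 ▸ post_Bd _ hg)) hg), ?_⟩
    rw [← sub_eq_zero]
    refine post_eq_zero h.inj ?_
    rw [map_sub, post_dl ε h.hi, it _ (by rw [map_sub, ps, e1, sub_self]), map_sub, map_sub,
      iΦ z hz, e2, sub_self]
  have hB : ∀ z ∈ Bc ε ρZ, Φ z ∈ Bc ε ρX := by
    rintro _ ⟨w, hw, rfl⟩
    simpa using R (dl ε ρY (post s w)) _ 0 (del_Bd _ _ (post_Bd _ hw))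
      (by rw [post_dl ε h.hp, ps]) (by rw [dl_dl, map_zero])
  have rel : ∀ (g : C k A Y) (z : Zc ε ρZ) (x : Zc ε ρX), g ∈ Bd → post p g = z.1 →
      dl ε ρY g = post i x.1 → liftV Φ hZ hB (cl ε ρZ z) = cl ε ρX x := fun g z x hg e1 e2 => by
    rw [liftV_cl, cl_eq]
    exact R g _ _ hg e1 e2
  refine ⟨liftV Φ hZ hB, rel, fun a v => ?_, fun n v => ?_, fun v => ?_, ?_, ?_, ?_⟩
  · obtain ⟨z, rfl⟩ := cl_surj v
    rw [T_cl, liftV_cl Φ hZ hB z, T_cl]
    refine rel (cr (post s z.1) a.1) _ _ (cup_Bd _ (post_Bd _ z.2.1) a.2.1) ?_ ?_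
    · rw [post_cr, ps]
    · rw [dl_cr, (mem_Zc.1 a.2).2, map_zero, add_zero, post_cr, iΦ _ (mem_Zc.1 z.2).2]
  · obtain ⟨z, rfl⟩ := cl_surj v
    rw [prV_cl, liftV_cl Φ hZ hB z, prV_cl]
    refine rel (pr n (post s z.1)) _ _ (Cn_le_Bd n (pr_mem n _)) ?_ ?_
    · rw [← pr_post, ps]
    · rw [← pr_post, iΦ _ (mem_Zc.1 z.2).2]
      exact (pr_del n _ _ _).symm
  · obtain ⟨z, rfl⟩ := cl_surj v
    rw [liftV_cl, prV_cl, cl_eq_zero]
    have e : pr 0 (Φ z.1) = 0 := by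
      rw [hΦ, pr_post, show pr 0 (dl ε ρY (post s z.1)) = 0 from pr_zero_del _ _ _, map_zero]
    exact (congrArg (· ∈ Bc ε ρX) e).mpr (Submodule.zero_mem _)
  · ext v
    constructor
    · intro hv
      obtain ⟨x, rfl⟩ := cl_surj v
      rw [LinearMap.mem_ker, postV_cl, cl_eq_zero] at hv
      obtain ⟨g, hg, e⟩ := hv
      exact ⟨cl ε ρZ ⟨post p g, mem_Zc.2 ⟨post_Bd _ hg, by rw [← post_dl ε h.hp, e, pi]⟩⟩,
        rel g _ _ hg rfl e⟩
    · rintro ⟨v, rfl⟩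
      obtain ⟨z, rfl⟩ := cl_surj v
      rw [LinearMap.mem_ker, liftV_cl, postV_cl, cl_eq_zero]
      exact ⟨post s z.1, post_Bd _ z.2.1, (iΦ _ (mem_Zc.1 z.2).2).symm⟩
  · ext v
    constructor
    · intro hv
      obtain ⟨y, rfl⟩ := cl_surj v
      rw [LinearMap.mem_ker, postV_cl, cl_eq_zero] at hv
      obtain ⟨w, hw, e⟩ := hv
      have e1 : post i (post t (y.1 - dl ε ρY (post s w))) = y.1 - dl ε ρY (post s w) :=
        it _ (by rw [map_sub, post_dl ε h.hp, ps, e, sub_self])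
      refine ⟨cl ε ρX ⟨post t (y.1 - dl ε ρY (post s w)), mem_Zc.2
        ⟨post_Bd _ (Submodule.sub_mem _ y.2.1 (del_Bd _ _ (post_Bd _ hw))),
          post_eq_zero h.inj (by
            rw [post_dl ε h.hi, e1, map_sub, dl_dl, (mem_Zc.1 y.2).2, sub_self])⟩⟩, ?_⟩
      rw [postV_cl, eq_comm, cl_eq]
      exact ⟨post s w, post_Bd _ hw,
        (sub_sub_cancel _ _).symm.trans (congrArg (y.1 - ·) e1.symm)⟩
    · rintro ⟨v, rfl⟩
      obtain ⟨x, rfl⟩ := cl_surj v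
      rw [LinearMap.mem_ker, postV_cl, postV_cl, cl_eq_zero]
      exact (congrArg (· ∈ Bc ε ρZ) (pi x.1)).mpr (Submodule.zero_mem _)
  · ext v
    constructor
    · intro hv
      obtain ⟨z, rfl⟩ := cl_surj v
      rw [LinearMap.mem_ker, liftV_cl, cl_eq_zero] at hv
      obtain ⟨e, he, e1⟩ := hv
      refine ⟨cl ε ρY ⟨post s z.1 - post i e, mem_Zc.2
        ⟨Submodule.sub_mem _ (post_Bd _ z.2.1) (post_Bd _ he), by
          rw [map_sub, ← post_dl ε h.hi, e1, iΦ _ (mem_Zc.1 z.2).2, sub_self]⟩⟩, ?_⟩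
      rw [postV_cl]
      congr 1
      exact Subtype.ext (by simp only [map_sub, ps, pi, sub_zero])
    · rintro ⟨v, rfl⟩
      obtain ⟨y, rfl⟩ := cl_surj v
      rw [LinearMap.mem_ker, postV_cl, rel y.1 _ 0 y.2.1 rfl (by simpa using (mem_Zc.1 y.2).2),
        map_zero]

end EO
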