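import Pool.Agent.P.MP_42c3cc_al.V1
import Pool.Agent.P.MP_42c3cc_al.Les
import Pool.Agent.P.MP_42c3cc_al.Ab2

/-! Acyclic modules and dimension shifting. -/

noncomputable section

namespace EO

open TensorAlgebra LinearMap Module
open scoped TensorProduct

universe u

variable {k : Type u} [Field k] {A : Type u} [Ring A] [Algebra k A]
  {X Y Z : Type u} [AddCommGroup X] [Module k X] [AddCommGroup Y] [Module k Y]
  [AddCommGroup Z] [Module k Z] {B : Type u} [Ring B] [Algebra k B]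

variable {ε : A →ₐ[k] k}

theorem van_iff {ρ : A →ₐ[k] End k X} {m : ℕ} :
    Van ε ρ m ↔ ∀ n > m, ∀ f ∈ Cn n, dl ε ρ f = 0 → f ∈ Bc ε ρ := by
  constructor
  · intro h n hn f hf h0
    have h1 := prV_cl_of_mem (f := ⟨f, mem_Zc.2 ⟨Cn_le_Bd n hf, h0⟩⟩) hf
    rw [h n hn] at h1
    exact cl_eq_zero.1 h1.symm
  · intro h n hn v
    obtain ⟨f, hf, e⟩ := exists_homog n v
    rw [← e]
    exact cl_eq_zero.2 (h n hn f.1 hf (mem_Zc.1 f.2).2)

theorem van_of_retr {ρ : A →ₐ[k] End k X} (r : (A →ₗ[k] X) →ₗ[k] X) (hr : Eqv (coind A X) ρ r)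
    (h : ∀ x, r (io ρ x) = x) : Van ε ρ 0 := by
  refine van_iff.2 fun n hn f hf h0 => ?_
  obtain ⟨m, rfl⟩ := Nat.exists_eq_succ_of_ne_zero hn.ne'
  refine mem_Bc.2 ⟨post r (cur f), post_Bd _ (Cn_le_Bd m (cur_mem hf)), ?_⟩
  rw [← post_dl ε hr, dl_cur ε ρ f (apply_one_eq_zero hf hn), h0, map_zero, sub_zero]
  exact LinearMap.ext fun x => h (f x)

theorem van_coind {K : Type u} [Ring K] [Algebra k K] {j : K →ₐ[k] A} (hj : Proj j)
    (εK : K →ₐ[k] k) (X : Type u) [AddCommGroup X] [Module k X] :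
    Van εK ((coind A X).comp j) 0 := by
  obtain ⟨s, h1, h2⟩ := hj
  refine van_of_retr
    { toFun := fun Φ => TensorProduct.lift Φ.flip ∘ₗ s
      map_add' := fun Φ Ψ => LinearMap.ext fun a => ?_
      map_smul' := fun c Φ => LinearMap.ext fun a => ?_ } (fun y Φ => LinearMap.ext fun a => ?_)
    fun φ => LinearMap.ext fun a => ?_
  · simp only [LinearMap.comp_apply, LinearMap.add_apply]
    induction s a using TensorProduct.induction_on with
    | zero => simp
    | tmul b x => simp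
    | add u v hu hv => simp only [map_add, hu, hv]; abel
  · simp only [LinearMap.comp_apply, LinearMap.smul_apply, RingHom.id_apply]
    induction s a using TensorProduct.induction_on with
    | zero => simp
    | tmul b x => simp
    | add u v hu hv => simp only [map_add, hu, hv, smul_add]
  · change TensorProduct.lift (coind K (A →ₗ[k] X) y Φ).flip (s a) =
      TensorProduct.lift Φ.flip (s (a * j y))
    rw [h2]
    induction s a using TensorProduct.induction_on with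
    | zero => simp
    | tmul b x => simp
    | add u v hu hv => simp only [map_add, hu, hv, add_mul]
  · change TensorProduct.lift (io ((coind A X).comp j) φ).flip (s a) = φ a
    conv_rhs => rw [← h1 a]
    induction s a using TensorProduct.induction_on with
    | zero => simp
    | tmul b x => simp [io]
    | add u v hu hv => simp only [map_add, hu, hv]

theorem proj_id : Proj (AlgHom.id k A) :=
  ⟨TensorProduct.mk k A A 1, fun a => by simp, fun a x => by simp⟩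

theorem van_coind_self (X : Type u) [AddCommGroup X] [Module k X] : Van ε (coind A X) 0 :=
  van_coind proj_id ε X

theorem T_eq_zero_of_van {ρ : A →ₐ[k] End k X} (h : Van ε ρ 0) {a : Zk ε} {e : ℕ}
    (ha : a.1 ∈ Cn e) (he : 0 < e) : T ε ρ a = 0 := by
  have hg := gr_V ρ (fun _ : Unit => a) (fun _ => e) fun _ => ha
  refine LinearMap.ker_eq_top.1 (eq_top_of_prV _ fun n v => ?_)
  rw [LinearMap.mem_ker, ← hg.shift () n v]
  exact h _ (by omega) _

theorem Acyc_idem (ρ : A →ₐ[k] End k X) (n : ℕ) (v : V ε ρ) :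
    prV ε ρ n (prV ε ρ n v) = prV ε ρ n v := by
  obtain ⟨f, hf, e⟩ := exists_homog n v
  rw [← e, prV_cl_of_mem hf]

section
variable {ρX : A →ₐ[k] End k X} {ρY : A →ₐ[k] End k Y} {ρZ : A →ₐ[k] End k Z}
  {i : X →ₗ[k] Y} {p : Y →ₗ[k] Z} {h : SES ρX ρY ρZ i p} {c : V ε ρZ →ₗ[k] V ε ρX}

theorem Conn.surj (hc : Conn ε h c) (hY : Van ε ρY 0) (n : ℕ) (v : V ε ρX) :
    ∃ z, prV ε ρZ n z = z ∧ c z = prV ε ρX (n + 1) v := by
  have h1 : prV ε ρX (n + 1) v ∈ LinearMap.ker (postV ε h.hi) := by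
    rw [LinearMap.mem_ker, postV_prV]
    exact hY _ (Nat.succ_pos n) _
  rw [hc.exX] at h1
  obtain ⟨z, hz⟩ := h1
  exact ⟨prV ε ρZ n z, Acyc_idem _ _ _, by rw [hc.deg, hz, Acyc_idem]⟩

theorem Conn.ker_T (hc : Conn ε h c) (hY : Van ε ρY 0) {a : Zk ε} {e : ℕ} (ha : a.1 ∈ Cn e)
    (he : 0 < e) {z : V ε ρZ} (hz : c z = 0) : T ε ρZ a z = 0 := by
  have h1 : z ∈ LinearMap.ker c := hz
  rw [hc.exZ] at h1
  obtain ⟨y, rfl⟩ := h1
  rw [← postV_T, T_eq_zero_of_van hY ha he, LinearMap.zero_apply, map_zero]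

theorem van_shift (h : SES ρX ρY ρZ i p) (hY : Van ε ρY 0) {m : ℕ} (hX : Van ε ρX (m + 1)) :
    Van ε ρZ m := by
  obtain ⟨c, hc⟩ := exists_conn ε h
  intro n hn z
  have h1 : prV ε ρZ n z ∈ LinearMap.ker c := by
    rw [LinearMap.mem_ker, hc.deg]
    exact hX _ (Nat.succ_lt_succ hn) _
  rw [hc.exZ] at h1
  obtain ⟨y, hy⟩ := h1
  rw [← Acyc_idem, ← hy, ← postV_prV, hY n (by omega), map_zero]

theorem fgt_shift [FiniteDimensional k A] [FiniteDimensional k X] (h : SES ρX ρY ρZ i p)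
    (hY : Van ε ρY 0) {σ : Type} (θ : σ → Zk ε) (hZ : FGT fun s => T ε ρZ (θ s)) :
    FGT fun s => T ε ρX (θ s) := by
  obtain ⟨c, hc⟩ := exists_conn ε h
  obtain ⟨U, hU, hU'⟩ := fd_low (ε := ε) ρX 1
  refine fgt_range c (fun s v => hc.hT _ v) U (eq_top_of_prV _ fun n v => ?_) hZ
  cases n with
  | zero => exact Submodule.mem_sup_right (hU' 0 Nat.one_pos v)
  | succ n =>
    obtain ⟨z, -, hz⟩ := hc.surj hY n v
    exact Submodule.mem_sup_left ⟨z, hz⟩

end

theorem fgAll_pull {φ : B →ₐ[k] A} (hφ : Function.Bijective φ) {σ : Type} {θ : σ → Zk ε}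
    (h : FGAll ε θ) : FGAll (ε.comp φ) fun i => pullZ φ (θ i) := by
  intro M _ _ _ ρ
  let ψ : A →ₐ[k] B := (AlgEquiv.ofBijective φ hφ).symm
  have e1 : φ.comp ψ = AlgHom.id k A :=
    AlgHom.ext fun a => (AlgEquiv.ofBijective φ hφ).apply_symm_apply a
  have e2 : ψ.comp φ = AlgHom.id k B :=
    AlgHom.ext fun a => (AlgEquiv.ofBijective φ hφ).symm_apply_apply a
  obtain ⟨ρ', rfl⟩ : ∃ ρ' : A →ₐ[k] End k M, ρ'.comp φ = ρ :=
    ⟨ρ.comp ψ, by rw [AlgHom.comp_assoc, e2, AlgHom.comp_id]⟩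
  refine fgt_range (pullV ε ρ' φ) (fun s v => pullV_T _ _ _ v) ⊥ ?_ (h M ρ')
  rw [sup_bot_eq, LinearMap.range_eq_top]
  intro v
  obtain ⟨g, rfl⟩ := cl_surj v
  have hg := pull_mem_Zc ψ g.2
  rw [AlgHom.comp_assoc, AlgHom.comp_assoc, e1, AlgHom.comp_id, AlgHom.comp_id] at hg
  refine ⟨cl ε ρ' ⟨_, hg⟩, ?_⟩
  rw [pullV_cl]
  refine congrArg _ (Subtype.ext ?_)
  change pull φ.toLinearMap (pull ψ.toLinearMap g.1) = g.1
  rw [pull_pull, ← AlgHom.comp_toLinearMap, e2, AlgHom.toLinearMap_id, pull_id]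

end EO
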