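import Mathlib

open CategoryTheory CategoryTheory.Abelian

universe u

namespace Pool.Agent.P.MP_42c3cc_al

/-- The ground field as a module through the counit. -/
noncomputable def triv (k : Type u) [Field k] (A : Type u) [Ring A] [HopfAlgebra k A] :
    ModuleCat.{u} A :=
  @ModuleCat.of A _ k _ (Module.compHom k (Bialgebra.counitAlgHom k A).toRingHom)

/-- For every finitely generated module `M`, `Ext(k, M)` is generated by finitely many homogeneous
elements over the Yoneda ring `Ext(k, k)`. -/
def FG (k : Type u) [Field k] (A : Type u) [Ring A] [HopfAlgebra k A] : Prop :=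
  ∀ M : ModuleCat.{u} A, Module.Finite A M →
    ∃ (r : ℕ) (d : Fin r → ℕ) (x : ∀ i : Fin r, Ext (triv k A) M (d i)),
      ∀ (n : ℕ) (y : Ext (triv k A) M n), y ∈ AddSubgroup.closure
        {z | ∃ (i : Fin r) (m : ℕ) (a : Ext (triv k A) (triv k A) m) (h : m + d i = n),
          z = a.comp (x i) h}

end Pool.Agent.P.MP_42c3cc_al
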