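import Pool.Agent.P.MP_42c3cc_al.V0
import Pool.Agent.P.MP_42c3cc_al.Defs

/-! The standard complex computes Ext. -/

noncomputable section

namespace EO

open TensorAlgebra LinearMap Module
open scoped TensorProduct

universe u

open CategoryTheory CategoryTheory.Abelian

variable {k : Type u} [Field k] {A : Type u} [Ring A] [Algebra k A]

/-- The module attached to a representation. -/
def md {M : Type u} [AddCommGroup M] [Module k M] (ρ : A →ₐ[k] End k M) : ModuleCat.{u} A :=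
  @ModuleCat.of A _ M _ (Module.compHom M ρ.toRingHom)

/-- Cocycles of degree `n`. -/
def Zn (ε : A →ₐ[k] k) {M : Type u} [AddCommGroup M] [Module k M] (ρ : A →ₐ[k] End k M) (n : ℕ) :
    Submodule k (C k A M) := Cn n ⊓ LinearMap.ker (dl ε ρ)

section
variable {M N P : Type u} [AddCommGroup M] [Module k M] [AddCommGroup N] [Module k N]
  [AddCommGroup P] [Module k P]

/-- An equivariant linear map as a linear map over `A`. -/
def Br1_lin {ρ : A →ₐ[k] End k M} {ρ' : A →ₐ[k] End k N} {φ : M →ₗ[k] N} (h : Eqv ρ ρ' φ) :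
    (md ρ) →ₗ[A] (md ρ') where
  toFun := fun x => φ x
  map_add' := fun x y => φ.map_add x y
  map_smul' := fun a x => h a x

/-- An equivariant linear map as a morphism of modules. -/
def Br1_hom {ρ : A →ₐ[k] End k M} {ρ' : A →ₐ[k] End k N} {φ : M →ₗ[k] N} (h : Eqv ρ ρ' φ) :
    md ρ ⟶ md ρ' := ModuleCat.ofHom (X := md ρ) (Y := md ρ') (Br1_lin h)

/-- The underlying function of a morphism. -/
def Br1_fn {ρ : A →ₐ[k] End k M} {ρ' : A →ₐ[k] End k N} (f : md ρ ⟶ md ρ') : M → N :=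
  (ModuleCat.Hom.hom f : md ρ → md ρ')

theorem Br1_fn_hom {ρ : A →ₐ[k] End k M} {ρ' : A →ₐ[k] End k N} {φ : M →ₗ[k] N} (h : Eqv ρ ρ' φ)
    (x : M) : Br1_fn (Br1_hom h) x = φ x := rfl

theorem Br1_fn_comp {ρ : A →ₐ[k] End k M} {ρ' : A →ₐ[k] End k N} {ρ'' : A →ₐ[k] End k P}
    (f : md ρ ⟶ md ρ') (g : md ρ' ⟶ md ρ'') (x : M) :
    Br1_fn (f ≫ g) x = Br1_fn g (Br1_fn f x) := rfl

theorem Br1_fn_add {ρ : A →ₐ[k] End k M} {ρ' : A →ₐ[k] End k N} (f g : md ρ ⟶ md ρ') (x : M) :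
    Br1_fn (f + g) x = Br1_fn f x + Br1_fn g x := rfl

theorem Br1_fn_zero {ρ : A →ₐ[k] End k M} {ρ' : A →ₐ[k] End k N} (x : M) :
    Br1_fn (0 : md ρ ⟶ md ρ') x = 0 := rfl

theorem Br1_fn_smul {ρ : A →ₐ[k] End k M} {ρ' : A →ₐ[k] End k N} (f : md ρ ⟶ md ρ') (a : A)
    (x : M) : Br1_fn f (ρ a x) = ρ' a (Br1_fn f x) :=
  (ModuleCat.Hom.hom f).map_smul a x

theorem Br1_hom_ext {ρ : A →ₐ[k] End k M} {ρ' : A →ₐ[k] End k N} {f g : md ρ ⟶ md ρ'}
    (h : ∀ x : M, Br1_fn f x = Br1_fn g x) : f = g :=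
  ModuleCat.hom_ext (LinearMap.ext h)

theorem Br1_q_zero (ρ : A →ₐ[k] End k M) (y : A →ₗ[k] M) :
    (LinearMap.range (io ρ)).mkQ y = 0 ↔ ∃ x, io ρ x = y :=
  Submodule.Quotient.mk_eq_zero (LinearMap.range (io ρ))

/-- The short exact sequence of the cosyzygy. -/
def Br1_sc (ρ : A →ₐ[k] End k M) : ShortComplex (ModuleCat.{u} A) :=
  ShortComplex.mk (Br1_hom (io_eqv ρ)) (Br1_hom (ses_Sg ρ).hp) (Br1_hom_ext fun x => by
    rw [Br1_fn_comp, Br1_fn_hom, Br1_fn_hom, Br1_fn_zero]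
    exact (Br1_q_zero ρ _).2 ⟨x, rfl⟩)

theorem Br1_se (ρ : A →ₐ[k] End k M) : (Br1_sc ρ).ShortExact := by
  have h1 : Function.Exact (Br1_fn (Br1_hom (io_eqv ρ))) (Br1_fn (Br1_hom (ses_Sg ρ).hp)) :=
    fun y => Br1_q_zero ρ y
  have h2 : Function.Injective (Br1_fn (Br1_hom (io_eqv ρ))) := io_inj ρ
  have h3 : Function.Surjective (Br1_fn (Br1_hom (ses_Sg ρ).hp)) :=
    Submodule.mkQ_surjective (LinearMap.range (io ρ))
  exact ModuleCat.shortComplex_shortExact (Br1_sc ρ) h1 h2 h3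

/-- The class of the extension. -/
def Br1_ext (ρ : A →ₐ[k] End k M) : Ext (md (sgRep ρ)) (md ρ) 1 := (Br1_se ρ).extClass

theorem Br1_inj (M : Type u) [AddCommGroup M] [Module k M] :
    CategoryTheory.Injective (md (coind (k := k) A M)) := by
  have hB : Module.Baer A (md (coind (k := k) A M)) := by
    intro I g
    let g0 : I → (A →ₗ[k] M) := fun n => g n
    have hs : ∀ (b : A) (n : I), g0 (b • n) = coind A M b (g0 n) := fun b n => g.map_smul b n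
    have ha : ∀ n n' : I, g0 (n + n') = g0 n + g0 n' := fun n n' => g.map_add n n'
    let ψ0 : (I.restrictScalars k) →ₗ[k] M :=
      { toFun := fun n => g0 ⟨n.1, n.2⟩ 1
        map_add' := fun n n' => by
          have := ha ⟨n.1, n.2⟩ ⟨n'.1, n'.2⟩
          exact LinearMap.congr_fun this 1
        map_smul' := fun c n => by
          have h1 := LinearMap.congr_fun (hs (algebraMap k A c) ⟨n.1, n.2⟩) 1
          have h2 : (⟨(c • n).1, (c • n).2⟩ : I) = algebraMap k A c • (⟨n.1, n.2⟩ : I) :=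
            Subtype.ext (Algebra.smul_def c n.1)
          rw [h2, h1, coind_apply, one_mul, Algebra.algebraMap_eq_smul_one, map_smul]
          rfl }
    obtain ⟨ψ, hψ⟩ := ψ0.exists_extend
    refine ⟨LinearMap.toSpanSingleton A (md (coind (k := k) A M)) ψ, fun x hx => ?_⟩
    change coind A M x ψ = g0 ⟨x, hx⟩
    refine LinearMap.ext fun b => ?_
    have h1 := LinearMap.congr_fun hψ ⟨b * x, I.mul_mem_left b hx⟩
    have h2 := LinearMap.congr_fun (hs b ⟨x, hx⟩) 1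
    rw [coind_apply, one_mul] at h2
    rw [coind_apply, ← h2]
    exact h1
  exact @Module.injective_object_of_injective_module A (md (coind (k := k) A M)) _ _ _ hB.injective

theorem Br1_ex1 (ρ : A →ₐ[k] End k M) {X : ModuleCat.{u} A} {n : ℕ} (x : Ext X (md ρ) (n + 1)) :
    ∃ y : Ext X (md (sgRep ρ)) n, y.comp (Br1_ext ρ) rfl = x := by
  have : CategoryTheory.Injective (Br1_sc ρ).X₂ := Br1_inj M
  exact Ext.covariant_sequence_exact₁ X (Br1_se ρ) x (Ext.eq_zero_of_injective _) rfl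

theorem Br1_ex3 (ρ : A →ₐ[k] End k M) {X : ModuleCat.{u} A} {n : ℕ} (y : Ext X (md (sgRep ρ)) n)
    (h : y.comp (Br1_ext ρ) rfl = 0) :
    ∃ x : Ext X (md (coind (k := k) A M)) n,
      x.comp (Ext.mk₀ (Br1_hom (ses_Sg ρ).hp)) (add_zero n) = y :=
  Ext.covariant_sequence_exact₃ X (Br1_se ρ) y rfl h

theorem Br1_q_ext (ρ : A →ₐ[k] End k M) :
    (Ext.mk₀ (Br1_hom (ses_Sg ρ).hp)).comp (Br1_ext ρ) (zero_add 1) = 0 :=
  (Br1_se ρ).comp_extClass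

/-- The map induced on cosyzygies. -/
def Br1_bar {ρ : A →ₐ[k] End k M} {ρ' : A →ₐ[k] End k N} {φ : M →ₗ[k] N} (h : Eqv ρ ρ' φ) :
    Sg ρ →ₗ[k] Sg ρ' :=
  Submodule.mapQ _ _ (LinearMap.llcomp k A M N φ) (by
    rintro _ ⟨x, rfl⟩
    exact ⟨φ x, LinearMap.ext fun a => (h a x).symm⟩)

theorem Br1_co_eqv (φ : M →ₗ[k] N) :
    Eqv (coind A M) (coind A N) (LinearMap.llcomp k A M N φ) := fun _ _ => rfl

theorem Br1_bar_eqv {ρ : A →ₐ[k] End k M} {ρ' : A →ₐ[k] End k N} {φ : M →ₗ[k] N}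
    (h : Eqv ρ ρ' φ) : Eqv (sgRep ρ) (sgRep ρ') (Br1_bar h) := by
  intro a x
  obtain ⟨y, rfl⟩ := Submodule.mkQ_surjective _ x
  rfl

theorem Br1_comm1 {ρ : A →ₐ[k] End k M} {ρ' : A →ₐ[k] End k N} {φ : M →ₗ[k] N}
    (h : Eqv ρ ρ' φ) :
    Br1_hom h ≫ Br1_hom (io_eqv ρ') = Br1_hom (io_eqv ρ) ≫ Br1_hom (Br1_co_eqv φ) :=
  Br1_hom_ext fun x => by
    rw [Br1_fn_comp, Br1_fn_comp, Br1_fn_hom, Br1_fn_hom, Br1_fn_hom, Br1_fn_hom]
    exact LinearMap.ext fun a => (h a x).symm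

theorem Br1_comm2 {ρ : A →ₐ[k] End k M} {ρ' : A →ₐ[k] End k N} {φ : M →ₗ[k] N}
    (h : Eqv ρ ρ' φ) :
    Br1_hom (Br1_co_eqv φ) ≫ Br1_hom (ses_Sg ρ').hp =
      Br1_hom (ses_Sg ρ).hp ≫ Br1_hom (Br1_bar_eqv h) :=
  Br1_hom_ext fun x => by
    rw [Br1_fn_comp, Br1_fn_comp, Br1_fn_hom, Br1_fn_hom, Br1_fn_hom, Br1_fn_hom]
    rfl

theorem Br1_ext_nat {ρ : A →ₐ[k] End k M} {ρ' : A →ₐ[k] End k N} {φ : M →ₗ[k] N}
    (h : Eqv ρ ρ' φ) :
    (Br1_ext ρ).comp (Ext.mk₀ (Br1_hom h)) (add_zero 1) =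
      (Ext.mk₀ (Br1_hom (Br1_bar_eqv h))).comp (Br1_ext ρ') (zero_add 1) :=
  ShortComplex.ShortExact.extClass_naturality (Br1_se ρ) (Br1_se ρ')
    { τ₁ := Br1_hom h
      τ₂ := Br1_hom (Br1_co_eqv φ)
      τ₃ := Br1_hom (Br1_bar_eqv h)
      comm₁₂ := Br1_comm1 h
      comm₂₃ := Br1_comm2 h }

theorem Br1_mem {ε : A →ₐ[k] k} {ρ : A →ₐ[k] End k M} {n : ℕ} {f : C k A M} :
    f ∈ Zn ε ρ n ↔ f ∈ Cn n ∧ dl ε ρ f = 0 := Iff.rfl

theorem Br1_dl_mem (ε : A →ₐ[k] k) (ρ : A →ₐ[k] End k M) {n : ℕ} {f : C k A M} (h : f ∈ Cn n) :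
    dl ε ρ f ∈ Cn (n + 1) := del_mem _ _ h

theorem Br1_dl_Bd (ε : A →ₐ[k] k) (ρ : A →ₐ[k] End k M) {f : C k A M} (h : f ∈ Bd) :
    dl ε ρ f ∈ Bd := del_Bd _ _ h

theorem Br1_q_io (ρ : A →ₐ[k] End k M) (f : C k A M) :
    post (LinearMap.range (io ρ)).mkQ (post (io ρ) f) = 0 :=
  LinearMap.ext fun x => (Br1_q_zero ρ _).2 ⟨f x, rfl⟩

theorem Br1_dl_cur {ε : A →ₐ[k] k} {ρ : A →ₐ[k] End k M} {n : ℕ} (f : Zn ε ρ (n + 1)) :
    dl ε (coind A M) (cur f.1) = post (io ρ) f.1 := by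
  rw [dl_cur ε ρ f.1 (apply_one_eq_zero (Br1_mem.1 f.2).1 n.succ_pos), (Br1_mem.1 f.2).2, map_zero,
    sub_zero]
  rfl

/-- Evaluation at one. -/
def Br1_ev (k A M : Type u) [Field k] [Ring A] [Algebra k A] [AddCommGroup M] [Module k M] :
    (A →ₗ[k] M) →ₗ[k] M := LinearMap.applyₗ (1 : A)

theorem Br1_io_ev (ρ : A →ₐ[k] End k M) {g : C k A (A →ₗ[k] M)}
    (h : post (LinearMap.range (io ρ)).mkQ g = 0) :
    post (io ρ) (post (Br1_ev k A M) g) = g := by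
  refine LinearMap.ext fun x => ?_
  obtain ⟨y, hy⟩ := (Br1_q_zero ρ (g x)).1 (LinearMap.congr_fun h x)
  change io ρ (g x 1) = g x
  rw [← hy]
  simp [io]

/-- Dimension shift on cocycles. -/
def Br1_sh (ε : A →ₐ[k] k) (ρ : A →ₐ[k] End k M) (n : ℕ) :
    Zn ε ρ (n + 1) →+ Zn ε (sgRep ρ) n where
  toFun f := ⟨post (LinearMap.range (io ρ)).mkQ (cur f.1), Br1_mem.2
    ⟨post_mem _ (cur_mem (Br1_mem.1 f.2).1), by
      rw [← post_dl ε (ses_Sg ρ).hp, Br1_dl_cur, Br1_q_io]⟩⟩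
  map_zero' := Subtype.ext (by simp)
  map_add' f g := Subtype.ext (by simp)

theorem Br1_sh_coe (ε : A →ₐ[k] k) (ρ : A →ₐ[k] End k M) (n : ℕ) (f : Zn ε ρ (n + 1)) :
    (Br1_sh ε ρ n f).1 = post (LinearMap.range (io ρ)).mkQ (cur f.1) := rfl

theorem Br1_eqv0 {ε : A →ₐ[k] k} {ρ : A →ₐ[k] End k M} (f : Zn ε ρ 0) :
    Eqv (trv ε k) ρ (LinearMap.toSpanSingleton k M (f.1 1)) := by
  have h : ∀ a, ρ a (f.1 1) = ε a • f.1 1 := by
    rw [← dl_cst ε ρ, ← eq_cst (Br1_mem.1 f.2).1]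
    exact (Br1_mem.1 f.2).2
  intro a t
  rw [LinearMap.toSpanSingleton_apply, LinearMap.toSpanSingleton_apply, map_smul, h, trv_apply,
    smul_eq_mul, mul_comm, mul_smul]

/-- The comparison map in degree zero. -/
def Br1_th0 (ε : A →ₐ[k] k) (ρ : A →ₐ[k] End k M) : Zn ε ρ 0 →+ Ext (md (trv ε k)) (md ρ) 0 :=
  AddMonoidHom.mk' (fun f => Ext.mk₀ (Br1_hom (Br1_eqv0 f))) (fun f g => by
    rw [← Ext.mk₀_add]
    congr 1
    refine Br1_hom_ext fun t => ?_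
    rw [Br1_fn_add, Br1_fn_hom, Br1_fn_hom, Br1_fn_hom]
    exact smul_add t (f.1 1) (g.1 1))

end

/-- The comparison map. -/
def Br1_th (ε : A →ₐ[k] k) : ∀ (n : ℕ) (M : Type u) [AddCommGroup M] [Module k M]
    (ρ : A →ₐ[k] End k M), Zn ε ρ n →+ Ext (md (trv ε k)) (md ρ) n
  | 0, _, _, _, ρ => Br1_th0 ε ρ
  | n + 1, _, _, _, ρ => (AddMonoidHom.mk' (fun y : Ext (md (trv ε k)) (md (sgRep ρ)) n =>
      y.comp (Br1_ext ρ) rfl) (fun _ _ => Ext.add_comp _ _ _ _)).comp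
        ((Br1_th ε n (Sg ρ) (sgRep ρ)).comp (Br1_sh ε ρ n))

theorem Br1_th_zero (ε : A →ₐ[k] k) {M : Type u} [AddCommGroup M] [Module k M]
    (ρ : A →ₐ[k] End k M) (f : Zn ε ρ 0) :
    Br1_th ε 0 M ρ f = Ext.mk₀ (Br1_hom (Br1_eqv0 f)) := rfl

theorem Br1_th_succ (ε : A →ₐ[k] k) (n : ℕ) {M : Type u} [AddCommGroup M] [Module k M]
    (ρ : A →ₐ[k] End k M) (f : Zn ε ρ (n + 1)) :
    Br1_th ε (n + 1) M ρ f =
      (Br1_th ε n (Sg ρ) (sgRep ρ) (Br1_sh ε ρ n f)).comp (Br1_ext ρ) rfl := rfl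

theorem Br1_nat (ε : A →ₐ[k] k) (n : ℕ) : ∀ {M N : Type u} [AddCommGroup M] [Module k M]
    [AddCommGroup N] [Module k N] {ρ : A →ₐ[k] End k M} {ρ' : A →ₐ[k] End k N} {φ : M →ₗ[k] N}
    (h : Eqv ρ ρ' φ) (f : Zn ε ρ n) (g : Zn ε ρ' n), g.1 = post φ f.1 →
      Br1_th ε n N ρ' g = (Br1_th ε n M ρ f).comp (Ext.mk₀ (Br1_hom h)) (add_zero n) := by
  induction n with
  | zero =>
    intro M N _ _ _ _ ρ ρ' φ h f g hg
    rw [Br1_th_zero, Br1_th_zero, Ext.mk₀_comp_mk₀]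
    congr 1
    refine Br1_hom_ext fun t => ?_
    rw [Br1_fn_comp, Br1_fn_hom, Br1_fn_hom, Br1_fn_hom]
    change t • g.1 1 = φ (t • f.1 1)
    rw [hg, map_smul, post_apply]
  | succ n ih =>
    intro M N _ _ _ _ ρ ρ' φ h f g hg
    have e : (Br1_sh ε ρ' n g).1 = post (Br1_bar h) (Br1_sh ε ρ n f).1 := by
      rw [Br1_sh_coe, Br1_sh_coe, hg]
      rfl
    rw [Br1_th_succ, Br1_th_succ, ih (Br1_bar_eqv h) _ _ e, Ext.comp_assoc_of_second_deg_zero,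
      ← Br1_ext_nat h, Ext.comp_assoc_of_third_deg_zero]

theorem Br1_kill (ε : A →ₐ[k] k) (n : ℕ) {M : Type u} [AddCommGroup M] [Module k M]
    (ρ : A →ₐ[k] End k M) (G : Zn ε (coind A M) n) (z : Zn ε (sgRep ρ) n)
    (h : z.1 = post (LinearMap.range (io ρ)).mkQ G.1) :
    (Br1_th ε n (Sg ρ) (sgRep ρ) z).comp (Br1_ext ρ) rfl = 0 := by
  rw [Br1_nat ε n (ses_Sg ρ).hp G z h, Ext.comp_assoc_of_second_deg_zero, Br1_q_ext, Ext.comp_zero]

theorem Br1_surj (ε : A →ₐ[k] k) (n : ℕ) : ∀ (M : Type u) [AddCommGroup M] [Module k M]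
    (ρ : A →ₐ[k] End k M), Function.Surjective (Br1_th ε n M ρ) := by
  induction n with
  | zero =>
    intro M _ _ ρ x
    obtain ⟨φ, rfl⟩ := (Ext.mk₀_bijective _ _).2 x
    obtain ⟨φ0, hφ0⟩ : ∃ φ0 : k → M, φ0 = Br1_fn φ := ⟨_, rfl⟩
    have hs : ∀ (a : A) (t : k), φ0 (ε a • t) = ρ a (φ0 t) := fun a t => by
      have h1 := Br1_fn_smul φ a t
      rwa [trv_apply, ← hφ0] at h1
    have hk : ∀ t : k, φ0 t = t • φ0 1 := fun t => by
      have h1 := hs (algebraMap k A t) 1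
      rw [AlgHom.commutes, AlgHom.commutes, Module.algebraMap_end_apply, Algebra.algebraMap_self,
        RingHom.id_apply, smul_eq_mul, mul_one] at h1
      exact h1
    refine ⟨⟨cst (φ0 1), Br1_mem.2 ⟨cst_mem _, (dl_cst ε ρ _).2 fun a => ?_⟩⟩, ?_⟩
    · rw [← hs, hk, smul_eq_mul, mul_one]
    · rw [Br1_th_zero]
      congr 1
      refine Br1_hom_ext fun t => ?_
      rw [Br1_fn_hom, ← hφ0]
      change t • (cst (φ0 1) : C k A M) 1 = φ0 t
      rw [cst_one, ← hk]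
  | succ n ih =>
    intro M _ _ ρ x
    obtain ⟨y, rfl⟩ := Br1_ex1 ρ x
    obtain ⟨z, rfl⟩ := ih _ (sgRep ρ) y
    obtain ⟨s, hs⟩ := (LinearMap.range (io ρ)).mkQ.exists_rightInverse_of_surjective
      (Submodule.range_mkQ _)
    have hz : post (LinearMap.range (io ρ)).mkQ (post s z.1) = z.1 := by
      rw [post_post, hs, post_id]
    have hg : post s z.1 ∈ Cn n := post_mem _ (Br1_mem.1 z.2).1
    have h1 : post (LinearMap.range (io ρ)).mkQ (dl ε (coind A M) (post s z.1)) = 0 := by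
      rw [post_dl ε (ses_Sg ρ).hp, hz, (Br1_mem.1 z.2).2]
    have h2 := Br1_io_ev ρ h1
    have h4 := post_mem (Br1_ev k A M) (Br1_dl_mem ε (coind A M) hg)
    have h5 : post (io ρ) (dl ε ρ (post (Br1_ev k A M) (dl ε (coind A M) (post s z.1)))) = 0 := by
      rw [post_dl ε (io_eqv ρ), h2, dl_dl]
    let f : Zn ε ρ (n + 1) := ⟨_, Br1_mem.2 ⟨h4, post_eq_zero (io_inj ρ) h5⟩⟩
    let G : Zn ε (coind A M) n := ⟨cur f.1 - post s z.1, Br1_mem.2
      ⟨Submodule.sub_mem _ (cur_mem (Br1_mem.1 f.2).1) hg, by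
        rw [map_sub, Br1_dl_cur, h2, sub_self]⟩⟩
    refine ⟨f, ?_⟩
    have h3 := Br1_kill ε n ρ G (Br1_sh ε ρ n f - z) (by
      change (Br1_sh ε ρ n f).1 - z.1 = post _ (cur f.1 - post s z.1)
      rw [map_sub, hz, Br1_sh_coe])
    rw [AddMonoidHom.map_sub, sub_eq_add_neg, Ext.add_comp, Ext.neg_comp, ← sub_eq_add_neg,
      sub_eq_zero] at h3
    rw [Br1_th_succ, h3]

theorem Br1_ker (ε : A →ₐ[k] k) (n : ℕ) : ∀ (M : Type u) [AddCommGroup M] [Module k M]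
    (ρ : A →ₐ[k] End k M) (f : Zn ε ρ n), Br1_th ε n M ρ f = 0 ↔ f.1 ∈ Bc ε ρ := by
  induction n with
  | zero =>
    intro M _ _ ρ f
    rw [Br1_th_zero, Ext.mk₀_eq_zero_iff]
    constructor
    · intro h
      have h1 := Br1_fn_hom (Br1_eqv0 f) 1
      rw [h, Br1_fn_zero, LinearMap.toSpanSingleton_apply, one_smul, eq_comm] at h1
      rw [eq_cst (Br1_mem.1 f.2).1, h1, map_zero]
      exact Submodule.zero_mem _
    · rintro ⟨g, -, hg⟩
      refine Br1_hom_ext fun t => ?_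
      rw [Br1_fn_hom, Br1_fn_zero]
      change t • f.1 1 = 0
      rw [← hg, show dl ε ρ g 1 = 0 from del_one _ _ g, smul_zero]
  | succ n ih =>
    intro M _ _ ρ f
    rw [Br1_th_succ]
    constructor
    · intro h
      obtain ⟨x, hx⟩ := Br1_ex3 ρ _ h
      obtain ⟨G, rfl⟩ := Br1_surj ε n _ (coind A M) x
      let z : Zn ε (sgRep ρ) n := ⟨post (LinearMap.range (io ρ)).mkQ G.1, Br1_mem.2
        ⟨post_mem _ (Br1_mem.1 G.2).1, by
          rw [← post_dl ε (ses_Sg ρ).hp, (Br1_mem.1 G.2).2, map_zero]⟩⟩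
      rw [← Br1_nat ε n (ses_Sg ρ).hp G z rfl, ← sub_eq_zero, ← AddMonoidHom.map_sub,
        ih] at hx
      obtain ⟨e, he, he'⟩ := hx
      obtain ⟨s, hs⟩ := (LinearMap.range (io ρ)).mkQ.exists_rightInverse_of_surjective
        (Submodule.range_mkQ _)
      have hz : post (LinearMap.range (io ρ)).mkQ (post s e) = e := by
        rw [post_post, hs, post_id]
      have h1 : post (LinearMap.range (io ρ)).mkQ
          (cur f.1 - G.1 + dl ε (coind A M) (post s e)) = 0 := by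
        rw [map_add, map_sub, post_dl ε (ses_Sg ρ).hp, hz, he']
        change (Br1_sh ε ρ n f).1 - z.1 + (z.1 - (Br1_sh ε ρ n f).1) = 0
        abel
      have h2 := Br1_io_ev ρ h1
      have h3 := Br1_dl_Bd ε (coind A M) (post_Bd s he)
      have h4 := Submodule.add_mem _ (Submodule.sub_mem _
          (Cn_le_Bd n (cur_mem (Br1_mem.1 f.2).1)) (Cn_le_Bd n (Br1_mem.1 G.2).1)) h3
      refine ⟨_, post_Bd (Br1_ev k A M) h4, ?_⟩
      rw [← sub_eq_zero]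
      refine post_eq_zero (io_inj ρ) ?_
      rw [map_sub, post_dl ε (io_eqv ρ), h2, map_add, map_sub, dl_dl, Br1_dl_cur,
        (Br1_mem.1 G.2).2]
      abel
    · rintro ⟨e, -, he⟩
      have h1 : dl ε ρ (pr n e) = f.1 := by
        have h2 : pr (n + 1) (dl ε ρ e) = dl ε ρ (pr n e) := pr_del n _ _ e
        rw [← h2, he, pr_of_mem (Br1_mem.1 f.2).1]
      let G : Zn ε (coind A M) n := ⟨cur f.1 - post (io ρ) (pr n e), Br1_mem.2
        ⟨Submodule.sub_mem _ (cur_mem (Br1_mem.1 f.2).1) (post_mem _ (pr_mem n e)), by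
          rw [map_sub, Br1_dl_cur, ← post_dl ε (io_eqv ρ), h1, sub_self]⟩⟩
      refine Br1_kill ε n ρ G _ ?_
      change _ = post _ (cur f.1 - post (io ρ) (pr n e))
      rw [map_sub, Br1_q_io, sub_zero, Br1_sh_coe]

theorem Br1_mul (ε : A →ₐ[k] k) (m : ℕ) (a : Zn ε (trv ε k) m) (n : ℕ) :
    ∀ (M : Type u) [AddCommGroup M] [Module k M] (ρ : A →ₐ[k] End k M) (f : Zn ε ρ n)
      (g : Zn ε ρ (m + n)), g.1 = cr f.1 a.1 →
      Br1_th ε (m + n) M ρ g = (Br1_th ε m k (trv ε k) a).comp (Br1_th ε n M ρ f) rfl := by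
  induction n with
  | zero =>
    intro M _ _ ρ f g hg
    rw [Br1_th_zero]
    refine Br1_nat ε m (Br1_eqv0 f) a g ?_
    rw [hg]
    conv_lhs => rw [eq_cst (Br1_mem.1 f.2).1]
    exact cup_cst_left _ _ _
  | succ n ih =>
    intro M _ _ ρ f g hg
    have e : (Br1_sh ε ρ (m + n) g).1 = cr (Br1_sh ε ρ n f).1 a.1 := by
      rw [Br1_sh_coe, Br1_sh_coe, hg,
        cur_cr _ (apply_one_eq_zero (Br1_mem.1 f.2).1 n.succ_pos), post_cr]
    have h1 := Br1_th_succ ε (m + n) ρ g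
    rw [ih _ _ _ _ e, Ext.comp_assoc _ _ _ rfl rfl (add_assoc m n 1)] at h1
    rw [Br1_th_succ ε n ρ f]
    exact h1

theorem exists_theta (ε : A →ₐ[k] k) :
    ∃ Θ : ∀ (n : ℕ) (M : Type u) [AddCommGroup M] [Module k M] (ρ : A →ₐ[k] End k M),
        Zn ε ρ n →+ Ext (md (trv ε k)) (md ρ) n,
      ∀ (n : ℕ) (M : Type u) [AddCommGroup M] [Module k M] (ρ : A →ₐ[k] End k M),
        Function.Surjective (Θ n M ρ) ∧ (∀ f, Θ n M ρ f = 0 ↔ f.1 ∈ Bc ε ρ) ∧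
        ∀ (m r : ℕ) (h : m + n = r) (f : Zn ε ρ n) (a : Zn ε (trv ε k) m) (g : Zn ε ρ r),
          g.1 = cr f.1 a.1 → Θ r M ρ g = (Θ m k (trv ε k) a).comp (Θ n M ρ f) h :=
  ⟨Br1_th ε, fun n M _ _ ρ => ⟨Br1_surj ε n M ρ, Br1_ker ε n M ρ, fun m r h f a g hg => by
    subst h
    exact Br1_mul ε m a n M ρ f g hg⟩⟩

end EO
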