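import Pool.Agent.P.MP_42c3cc_al.Br1

/-! Finite generation in terms of cochains. -/

noncomputable section

namespace EO

open TensorAlgebra LinearMap Module
open scoped TensorProduct

universe u

open Pool.Agent.P.MP_42c3cc_al

section Aux

open CategoryTheory CategoryTheory.Abelian

variable {k : Type u} [Field k] {A : Type u} [Ring A] [Algebra k A]

/-- Finite generation of `Ext(T, M)` over `Ext(T, T)`. -/
def Br2_FG (T M : ModuleCat.{u} A) : Prop :=
  ∃ (r : ℕ) (d : Fin r → ℕ) (x : ∀ i : Fin r, Ext T M (d i)),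
    ∀ (n : ℕ) (y : Ext T M n), y ∈ AddSubgroup.closure
      {z | ∃ (i : Fin r) (m : ℕ) (a : Ext T T m) (h : m + d i = n), z = a.comp (x i) h}

theorem Br2_cr {ε : A →ₐ[k] k} {M : Type u} [AddCommGroup M] [Module k M] {ρ : A →ₐ[k] End k M}
    {m n r : ℕ} (h : m + n = r) {f : C k A M} (hf : f ∈ Zn ε ρ n) {a : C k A k}
    (ha : a ∈ Zn ε (trv ε k) m) : cr f a ∈ Zn ε ρ r := by
  refine ⟨?_, ?_⟩
  · rw [← h, add_comm]
    exact cup_mem _ hf.1 ha.1
  · have h1 : dl ε ρ f = 0 := hf.2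
    have h2 : dl ε (trv ε k) a = 0 := ha.2
    show dl ε ρ (cr f a) = 0
    rw [dl_cr, h1, h2]
    simp

theorem Br2_key (ε : A →ₐ[k] k) {M : Type u} [AddCommGroup M] [Module k M]
    (ρ : A →ₐ[k] End k M) : Br2_FG (md (trv ε k)) (md ρ) ↔ FGc ε ρ := by
  obtain ⟨Θ, hΘ⟩ := exists_theta ε
  constructor
  · rintro ⟨r, d, x, hx⟩
    choose x' hx' using fun i => (hΘ (d i) M ρ).1 (x i)
    refine ⟨r, d, fun i => (x' i).1, fun i => (x' i).2, fun n y hy hy' => ?_⟩
    have key : ∀ w ∈ AddSubgroup.closure {z | ∃ (i : Fin r) (m : ℕ)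
        (a : Ext (md (trv ε k)) (md (trv ε k)) m) (h : m + d i = n), z = a.comp (x i) h},
        ∃ g : Zn ε ρ n, g.1 ∈ AddSubgroup.closure {z | ∃ (i : Fin r) (m : ℕ) (a : C k A k),
          a ∈ Cn m ∧ dl ε (trv ε k) a = 0 ∧ m + d i = n ∧ z = cr (x' i).1 a} ∧ Θ n M ρ g = w := by
      intro w hw
      induction hw using AddSubgroup.closure_induction with
      | mem w hw =>
        obtain ⟨i, m, a, h, rfl⟩ := hw
        obtain ⟨a', rfl⟩ := (hΘ m k (trv ε k)).1 a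
        refine ⟨⟨cr (x' i).1 a'.1, Br2_cr h (x' i).2 a'.2⟩,
          AddSubgroup.subset_closure ⟨i, m, a'.1, a'.2.1, a'.2.2, h, rfl⟩, ?_⟩
        rw [(hΘ (d i) M ρ).2.2 m n h (x' i) a' _ rfl, hx']
      | zero => exact ⟨0, zero_mem _, map_zero _⟩
      | add u v _ _ hu hv =>
        obtain ⟨g, hg, rfl⟩ := hu
        obtain ⟨g', hg', rfl⟩ := hv
        exact ⟨g + g', add_mem hg hg', map_add _ _ _⟩
      | neg u _ hu =>
        obtain ⟨g, hg, rfl⟩ := hu
        exact ⟨-g, neg_mem hg, map_neg _ _⟩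
    obtain ⟨g, hg, he⟩ := key _ (hx n (Θ n M ρ ⟨y, hy, hy'⟩))
    have h0 := ((hΘ n M ρ).2.1 (⟨y, hy, hy'⟩ - g)).1 (by rw [map_sub, he, sub_self])
    refine AddSubgroup.mem_sup.2 ⟨g.1, hg, y - g.1, h0, by abel⟩
  · rintro ⟨r, d, x, hx, hgen⟩
    refine ⟨r, d, fun i => Θ (d i) M ρ ⟨x i, hx i⟩, fun n y => ?_⟩
    obtain ⟨f, rfl⟩ := (hΘ n M ρ).1 y
    have key : ∀ g ∈ AddSubgroup.closure {z | ∃ (i : Fin r) (m : ℕ) (a : C k A k),
        a ∈ Cn m ∧ dl ε (trv ε k) a = 0 ∧ m + d i = n ∧ z = cr (x i) a},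
        ∃ g' : Zn ε ρ n, g'.1 = g ∧ Θ n M ρ g' ∈ AddSubgroup.closure {z | ∃ (i : Fin r) (m : ℕ)
          (a : Ext (md (trv ε k)) (md (trv ε k)) m) (h : m + d i = n),
            z = a.comp (Θ (d i) M ρ ⟨x i, hx i⟩) h} := by
      intro g hg
      induction hg using AddSubgroup.closure_induction with
      | mem w hw =>
        obtain ⟨i, m, a, ha, ha', h, rfl⟩ := hw
        refine ⟨⟨cr (x i) a, Br2_cr h (hx i) ⟨ha, ha'⟩⟩, rfl, AddSubgroup.subset_closure
          ⟨i, m, Θ m k (trv ε k) ⟨a, ha, ha'⟩, h, ?_⟩⟩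
        exact (hΘ (d i) M ρ).2.2 m n h ⟨x i, hx i⟩ ⟨a, ha, ha'⟩ _ rfl
      | zero => exact ⟨0, rfl, by rw [map_zero]; exact zero_mem _⟩
      | add u v _ _ hu hv =>
        obtain ⟨g, rfl, hg⟩ := hu
        obtain ⟨g', rfl, hg'⟩ := hv
        exact ⟨g + g', rfl, by rw [map_add]; exact add_mem hg hg'⟩
      | neg u _ hu =>
        obtain ⟨g, rfl, hg⟩ := hu
        exact ⟨-g, rfl, by rw [map_neg]; exact neg_mem hg⟩
    obtain ⟨g, hg, b, hb, he⟩ := AddSubgroup.mem_sup.1 (hgen n f.1 f.2.1 f.2.2)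
    obtain ⟨g', rfl, hg'⟩ := key g hg
    have h0 := ((hΘ n M ρ).2.1 (f - g')).2 (by
      have : (f - g').1 = b := by rw [Submodule.coe_sub, ← he]; abel
      rw [this]
      exact hb)
    rw [map_sub, sub_eq_zero] at h0
    rwa [h0]

theorem Br2_md (M : ModuleCat.{u} A) : ∃ (_ : Module k M) (_ : IsScalarTower k A M)
    (ρ : A →ₐ[k] End k M), md ρ = M := by
  let : Module k M := Module.compHom M (algebraMap k A)
  have : IsScalarTower k A M := IsScalarTower.of_algebraMap_smul fun _ _ => rfl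
  refine ⟨inferInstance, inferInstance, Algebra.lsmul k k M, ?_⟩
  exact congrArg (fun inst => @ModuleCat.of A _ M _ inst) (Module.ext' _ _ fun _ _ => rfl)

theorem Br2_fin {M : Type u} [AddCommGroup M] [Module k M] [FiniteDimensional k M]
    (ρ : A →ₐ[k] End k M) : Module.Finite A (md ρ) := by
  let : Module A M := Module.compHom M ρ.toRingHom
  have : IsScalarTower k A M := ⟨fun c a x => by
    change ρ (c • a) x = c • ρ a x
    rw [map_smul, LinearMap.smul_apply]⟩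
  exact Module.Finite.of_restrictScalars_finite k A M

end Aux

theorem fg_iff (k : Type u) [Field k] (A : Type u) [Ring A] [HopfAlgebra k A]
    [FiniteDimensional k A] : FG k A ↔ FGcAll (Bialgebra.counitAlgHom k A) := by
  have e : triv k A = md (trv (Bialgebra.counitAlgHom k A) k) :=
    congrArg (fun inst => @ModuleCat.of A _ k _ inst) (Module.ext' _ _ fun a x =>
      (trv_apply (Bialgebra.counitAlgHom k A) a x).symm)
  change (∀ M : ModuleCat.{u} A, Module.Finite A M → Br2_FG (triv k A) M) ↔ _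
  rw [e]
  constructor
  · intro h M _ _ _ ρ
    exact (Br2_key _ ρ).1 (h _ (Br2_fin ρ))
  · intro h M hM
    obtain ⟨_, _, ρ, hρ⟩ := Br2_md (k := k) M
    have : FiniteDimensional k M := Module.Finite.trans A M
    rw [← hρ]
    exact (Br2_key _ ρ).2 (h M ρ)

end EO
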