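import Mathlib

/-! Cochains of an algebra as linear maps on the tensor algebra: definitions and recursions. -/

noncomputable section

namespace EO

open TensorAlgebra LinearMap Module
open scoped TensorProduct

universe u

variable (k : Type u) [Field k] (A : Type u) [Ring A] [Algebra k A]

/-- All cochains with values in `X`. -/
abbrev C (X : Type u) [AddCommGroup X] [Module k X] : Type u := TensorAlgebra k A →ₗ[k] X

variable {k A} {X Y Z S : Type u} [AddCommGroup X] [Module k X] [AddCommGroup Y] [Module k Y]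
  [AddCommGroup Z] [Module k Z] [AddCommGroup S] [Module k S]

/-- Fix the first argument. -/
def tl : A →ₗ[k] C k A X →ₗ[k] C k A X :=
  (LinearMap.llcomp k _ _ X).flip ∘ₗ (LinearMap.mul k (TensorAlgebra k A)) ∘ₗ ι k

theorem tl_apply (a : A) (f : C k A X) (x : TensorAlgebra k A) : tl a f x = f (ι k a * x) := rfl

theorem word_ind {P : TensorAlgebra k A → Prop} (h1 : P 1) (hm : ∀ a x, P x → P (ι k a * x))
    (ha : ∀ x y, P x → P y → P (x + y)) (hs : ∀ (c : k) x, P x → P (c • x))
    (x : TensorAlgebra k A) : P x := by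
  suffices h : ∀ y, P y → P (x * y) by simpa using h 1 h1
  induction x using TensorAlgebra.induction with
  | algebraMap r => intro y hy; simpa [Algebra.algebraMap_eq_smul_one] using hs r y hy
  | ι a => exact hm a
  | mul a b iha ihb => intro y hy; rw [mul_assoc]; exact iha _ (ihb y hy)
  | add a b iha ihb => intro y hy; rw [add_mul]; exact ha _ _ (iha y hy) (ihb y hy)

/-- Equality of two families of cochains by induction on words. -/
theorem ext_fam {α : Sort*} (F G : α → C k A X) (h1 : ∀ i, F i 1 = G i 1)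
    (h : ∀ x, (∀ i, F i x = G i x) → ∀ a i, tl a (F i) x = tl a (G i) x) (i : α) : F i = G i := by
  refine LinearMap.ext fun x => ?_
  induction x using word_ind generalizing i with
  | h1 => exact h1 i
  | hm a x ih => exact h x ih a i
  | ha x y ihx ihy => simp [ihx, ihy]
  | hs c x ih => simp [ih]

theorem ext_tl {f g : C k A X} (h1 : f 1 = g 1) (h : ∀ a, tl a f = tl a g) : f = g :=
  ext_fam (fun _ : Unit => f) (fun _ => g) (fun _ => h1) (fun _ _ a _ => by rw [h a]) ()

/-- Corecursion. -/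
def unfold (o : S →ₗ[k] X) (t : A →ₗ[k] End k S) : S →ₗ[k] C k A X :=
  (LinearMap.llcomp k _ S X o ∘ₗ (LinearMap.lcomp k S
    ((MulOpposite.opLinearEquiv k).symm.toLinearMap ∘ₗ
      (TensorAlgebra.lift k ((MulOpposite.opLinearEquiv k).toLinearMap ∘ₗ t)).toLinearMap))) ∘ₗ
    LinearMap.applyₗ

@[simp] theorem unfold_one (o : S →ₗ[k] X) (t : A →ₗ[k] End k S) (s : S) :
    unfold o t s 1 = o s := by simp [unfold]

@[simp] theorem tl_unfold (o : S →ₗ[k] X) (t : A →ₗ[k] End k S) (a : A) (s : S) :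
    tl a (unfold o t s) = unfold o t (t a s) := by
  refine LinearMap.ext fun x => ?_
  simp [unfold, tl_apply]

/-- The solution of `F s = g + (recursive part)`: states are pairs. -/
def rec2 (o : S →ₗ[k] X) (e : A →ₗ[k] S →ₗ[k] C k A X) (t : A →ₗ[k] End k S) :
    C k A X × S →ₗ[k] C k A X :=
  unfold (LinearMap.coprod (LinearMap.applyₗ 1) o)
    { toFun := fun a => LinearMap.prod (LinearMap.coprod (tl a) (e a)) (t a ∘ₗ LinearMap.snd k _ _)
      map_add' := fun a b => by ext <;> simp
      map_smul' := fun c a => by ext <;> simp }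

/-- The linear map `F` with `F s 1 = o s` and `tl a (F s) = e a s + F (t a s)`. -/
def corec (o : S →ₗ[k] X) (e : A →ₗ[k] S →ₗ[k] C k A X) (t : A →ₗ[k] End k S) :
    S →ₗ[k] C k A X := rec2 o e t ∘ₗ LinearMap.inr k _ _

@[simp] theorem corec_one (o : S →ₗ[k] X) (e : A →ₗ[k] S →ₗ[k] C k A X) (t : A →ₗ[k] End k S)
    (s : S) : corec o e t s 1 = o s := by simp [corec, rec2]

theorem rec2_inl (o : S →ₗ[k] X) (e : A →ₗ[k] S →ₗ[k] C k A X) (t : A →ₗ[k] End k S)
    (g : C k A X) : rec2 o e t (g, 0) = g :=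
  ext_fam (fun g => rec2 o e t (g, 0)) (fun g => g) (fun g => by simp [rec2])
    (fun x ih a g => by
      have := ih (tl a g)
      simpa [rec2] using this) g

theorem tl_corec (o : S →ₗ[k] X) (e : A →ₗ[k] S →ₗ[k] C k A X) (t : A →ₗ[k] End k S)
    (a : A) (s : S) : tl a (corec o e t s) = e a s + corec o e t (t a s) := by
  have h : tl a (corec o e t s) = rec2 o e t ((e a s, 0) + (0, t a s)) := by simp [corec, rec2]
  rw [h, map_add, rec2_inl]
  rfl

/-- The cochain with value `x` at the empty word and tails `φ a`. -/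
def mkC : X × (A →ₗ[k] C k A X) →ₗ[k] C k A X :=
  corec (LinearMap.fst k _ _) (LinearMap.snd k X (A →ₗ[k] C k A X)).flip 0

@[simp] theorem mkC_one (p : X × (A →ₗ[k] C k A X)) : mkC p 1 = p.1 := by simp [mkC]

@[simp] theorem tl_mkC (a : A) (p : X × (A →ₗ[k] C k A X)) : tl a (mkC p) = p.2 a := by
  simp [mkC, tl_corec]

/-- Constant (degree zero) cochains. -/
def cst : X →ₗ[k] C k A X := mkC ∘ₗ LinearMap.inl k _ _

@[simp] theorem cst_one (x : X) : (cst x : C k A X) 1 = x := by simp [cst]
@[simp] theorem tl_cst (a : A) (x : X) : tl a (cst x : C k A X) = 0 := by simp [cst]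

/-- The cochain with value zero at the empty word and tails `φ a`. -/
def cons : (A →ₗ[k] C k A X) →ₗ[k] C k A X := mkC ∘ₗ LinearMap.inr k _ _

@[simp] theorem cons_one (φ : A →ₗ[k] C k A X) : cons φ 1 = 0 := by simp [cons]
@[simp] theorem tl_cons (a : A) (φ : A →ₗ[k] C k A X) : tl a (cons φ) = φ a := by simp [cons]

/-- Change of values. -/
def post : (X →ₗ[k] Y) →ₗ[k] C k A X →ₗ[k] C k A Y := LinearMap.llcomp k _ X Y

@[simp] theorem post_apply (φ : X →ₗ[k] Y) (f : C k A X) (x : TensorAlgebra k A) :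
    post φ f x = φ (f x) := rfl
@[simp] theorem tl_post (a : A) (φ : X →ₗ[k] Y) (f : C k A X) :
    tl a (post φ f) = post φ (tl a f) := rfl

section
variable {B : Type u} [Ring B] [Algebra k B]

/-- Change of arguments along a linear map. -/
def pull (φ : B →ₗ[k] A) : C k A X →ₗ[k] C k B X :=
  LinearMap.lcomp k X (TensorAlgebra.lift k (ι k ∘ₗ φ)).toLinearMap

@[simp] theorem pull_one (φ : B →ₗ[k] A) (f : C k A X) : pull φ f 1 = f 1 := by simp [pull]
@[simp] theorem tl_pull (φ : B →ₗ[k] A) (b : B) (f : C k A X) :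
    tl b (pull φ f) = pull φ (tl (φ b) f) := by
  refine LinearMap.ext fun x => ?_
  simp [pull, tl_apply]

end

/-- Multiply the part of degree `n` by `s ^ n`. -/
def sg (s : k) : C k A X →ₗ[k] C k A X := pull (s • LinearMap.id)

@[simp] theorem sg_one (s : k) (f : C k A X) : sg s f 1 = f 1 := by simp [sg]
@[simp] theorem tl_sg (s : k) (a : A) (f : C k A X) : tl a (sg s f) = s • sg s (tl a f) := by
  simp [sg]

/-- Absorb `a` into the first argument (into the value, by `r`, for the empty word). -/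
def ab (r : A →ₗ[k] End k X) : A →ₗ[k] C k A X →ₗ[k] C k A X where
  toFun a := mkC ∘ₗ LinearMap.prod (r a ∘ₗ LinearMap.applyₗ 1)
    (tl ∘ₗ LinearMap.mulLeft k a).flip
  map_add' a b := LinearMap.ext fun f => ext_tl (by simp) fun c => by simp [add_mul]
  map_smul' c a := LinearMap.ext fun f => ext_tl (by simp) fun c => by simp

@[simp] theorem ab_one (r : A →ₗ[k] End k X) (a : A) (f : C k A X) : ab r a f 1 = r a (f 1) := by
  simp [ab]
@[simp] theorem tl_ab (r : A →ₗ[k] End k X) (a b : A) (f : C k A X) :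
    tl b (ab r a f) = tl (a * b) f := by simp [ab]

/-- The differential without the term of the left action. -/
def dr (r : A →ₗ[k] End k X) : C k A X →ₗ[k] C k A X := corec 0 (-ab r) (-tl)

@[simp] theorem dr_one (r : A →ₗ[k] End k X) (f : C k A X) : dr r f 1 = 0 := by simp [dr]
theorem tl_dr (r : A →ₗ[k] End k X) (a : A) (f : C k A X) :
    tl a (dr r f) = -ab r a f - dr r (tl a f) := by simp [dr, tl_corec, sub_eq_add_neg]

/-- The term of the left action. -/
def lam (l : A →ₗ[k] End k X) : C k A X →ₗ[k] C k A X := cons ∘ₗ (post ∘ₗ l).flip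

@[simp] theorem lam_one (l : A →ₗ[k] End k X) (f : C k A X) : lam l f 1 = 0 := by simp [lam]
@[simp] theorem tl_lam (l : A →ₗ[k] End k X) (a : A) (f : C k A X) :
    tl a (lam l f) = post (l a) f := by simp [lam]

/-- The differential of the standard complex for the left action `l` and the right action `r`. -/
def del (l r : A →ₗ[k] End k X) : C k A X →ₗ[k] C k A X := lam l + dr r

@[simp] theorem del_one (l r : A →ₗ[k] End k X) (f : C k A X) : del l r f 1 = 0 := by simp [del]
theorem tl_del (l r : A →ₗ[k] End k X) (a : A) (f : C k A X) :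
    tl a (del l r f) = post (l a) f - ab r a f - dr r (tl a f) := by
  simp [del, tl_dr]; abel

/-- The cup product for the pairing `B`. -/
def cup (B : X →ₗ[k] Y →ₗ[k] Z) : C k A X →ₗ[k] C k A Y →ₗ[k] C k A Z :=
  TensorProduct.curry (corec
    (TensorProduct.lift (B.compl₁₂ (LinearMap.applyₗ 1) (LinearMap.applyₗ 1)))
    { toFun := fun a => TensorProduct.lift
        ((post ∘ₗ B).compl₁₂ (LinearMap.applyₗ (1 : TensorAlgebra k A)) (tl a))
      map_add' := fun a b => TensorProduct.ext' fun f g => by simp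
      map_smul' := fun c a => TensorProduct.ext' fun f g => by simp }
    (LinearMap.rTensorHom (C k A Y) ∘ₗ tl))

@[simp] theorem cup_one (B : X →ₗ[k] Y →ₗ[k] Z) (f : C k A X) (g : C k A Y) :
    cup B f g 1 = B (f 1) (g 1) := by simp [cup]
theorem tl_cup (B : X →ₗ[k] Y →ₗ[k] Z) (a : A) (f : C k A X) (g : C k A Y) :
    tl a (cup B f g) = post (B (f 1)) (tl a g) + cup B (tl a f) g := by
  simp [cup, tl_corec]

/-- Move the first argument into the value. -/
def cur : C k A X →ₗ[k] C k A (A →ₗ[k] X) :=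
  (LinearMap.lflip (R := k) (R₀ := k)).toLinearMap ∘ₗ (tl (k := k) (A := A) (X := X)).flip

@[simp] theorem cur_apply (f : C k A X) (x : TensorAlgebra k A) (a : A) :
    cur f x a = tl a f x := rfl

/-- Insert `h` at the front. -/
def front (h : C k A A) : C k A X →ₗ[k] C k A X := cup LinearMap.applyₗ h ∘ₗ cur

/-- Sum over all insertions of `h`, with sign `s` for each argument passed. -/
def ins (s : k) (h : C k A A) : C k A X →ₗ[k] C k A X :=
  corec (LinearMap.applyₗ 1 ∘ₗ front h) (tl.compl₂ (front h)) (s • tl)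

theorem ins_one (s : k) (h : C k A A) (f : C k A X) : ins s h f 1 = tl (h 1) f 1 := by
  simp [ins, front]
theorem tl_ins (s : k) (h : C k A A) (a : A) (f : C k A X) :
    tl a (ins s h f) = tl a (front h f) + s • ins s h (tl a f) := by
  simp [ins, tl_corec]

/-- Homogeneous cochains of degree `n`. -/
def Cn : ℕ → Submodule k (C k A X)
  | 0 => ⨅ a : A, LinearMap.ker (tl a)
  | n + 1 => LinearMap.ker (LinearMap.applyₗ 1) ⊓ ⨅ a : A, (Cn n).comap (tl a)

theorem mem_Cn_zero {f : C k A X} : f ∈ Cn 0 ↔ ∀ a, tl a f = 0 := by simp [Cn]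
theorem mem_Cn_succ {n : ℕ} {f : C k A X} : f ∈ Cn (n + 1) ↔ f 1 = 0 ∧ ∀ a, tl a f ∈ Cn n := by
  simp [Cn]

/-- The part of degree `n`. -/
def pr : ℕ → C k A X →ₗ[k] C k A X
  | 0 => cst ∘ₗ LinearMap.applyₗ 1
  | n + 1 => cons ∘ₗ (tl.compr₂ (pr n)).flip

@[simp] theorem pr_zero (f : C k A X) : pr 0 f = cst (f 1) := rfl
@[simp] theorem pr_succ_one (n : ℕ) (f : C k A X) : pr (n + 1) f 1 = 0 := by simp [pr]
@[simp] theorem tl_pr_succ (n : ℕ) (a : A) (f : C k A X) :
    tl a (pr (n + 1) f) = pr n (tl a f) := by simp [pr]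

/-- Finite sums of homogeneous cochains. -/
def Bd : Submodule k (C k A X) := ⨆ n, Cn n

/-- A bilinear map as a cochain of degree two. -/
def mk2 (v : A →ₗ[k] A →ₗ[k] X) : C k A X :=
  cons (cons ∘ₗ (v.compr₂ (cst : X →ₗ[k] C k A X)))

@[simp] theorem mk2_one (v : A →ₗ[k] A →ₗ[k] X) : mk2 v 1 = 0 := by simp [mk2]
@[simp] theorem tl_mk2_one (v : A →ₗ[k] A →ₗ[k] X) (a : A) : tl a (mk2 v) 1 = 0 := by simp [mk2]
@[simp] theorem tl_tl_mk2 (v : A →ₗ[k] A →ₗ[k] X) (a b : A) :
    tl b (tl a (mk2 v)) = cst (v a b) := by simp [mk2]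

/-- Product with a scalar cochain on the right. -/
def cr : C k A X →ₗ[k] C k A k →ₗ[k] C k A X := cup (LinearMap.lsmul k X).flip

/-- Powers of a scalar cochain. -/
def cpow (v : C k A k) : ℕ → C k A k
  | 0 => cst 1
  | n + 1 => cr (cpow v n) v

/-- The Hochschild differential on cochains with values in `A`. -/
def dH : C k A A →ₗ[k] C k A A := del (LinearMap.mul k A) (LinearMap.mul k A).flip

/-- The trivial representation attached to an augmentation. -/
def trv (ε : A →ₐ[k] k) (X : Type u) [AddCommGroup X] [Module k X] : A →ₐ[k] End k X :=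
  (Algebra.ofId k (End k X)).comp ε

@[simp] theorem trv_apply (ε : A →ₐ[k] k) (a : A) (x : X) : trv ε X a x = ε a • x := by
  simp [trv, Algebra.ofId_apply]

/-- The differential of the standard complex computing the cohomology of the module `ρ`. -/
def dl (ε : A →ₐ[k] k) (ρ : A →ₐ[k] End k X) : C k A X →ₗ[k] C k A X :=
  del ρ.toLinearMap (trv ε X).toLinearMap

end EO
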