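import Pool.Agent.P.MP_42c3cc_al.C0

/-! Functoriality and the cup product. -/

noncomputable section

namespace EO

open TensorAlgebra LinearMap Module
open scoped TensorProduct

universe u

variable {k : Type u} [Field k] {A : Type u} [Ring A] [Algebra k A]
  {X Y Z : Type u} [AddCommGroup X] [Module k X] [AddCommGroup Y] [Module k Y]
  [AddCommGroup Z] [Module k Z] {B : Type u} [Ring B] [Algebra k B]

theorem post_post (ψ : Y →ₗ[k] Z) (φ : X →ₗ[k] Y) (f : C k A X) :
    post ψ (post φ f) = post (ψ ∘ₗ φ) f := rfl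

theorem post_id (f : C k A X) : post LinearMap.id f = f := rfl

theorem post_pull (φ : X →ₗ[k] Y) (ψ : B →ₗ[k] A) (f : C k A X) :
    post φ (pull ψ f) = pull ψ (post φ f) := rfl

theorem post_sg (φ : X →ₗ[k] Y) (s : k) (f : C k A X) : post φ (sg s f) = sg s (post φ f) := rfl

theorem pull_pull {B' : Type u} [Ring B'] [Algebra k B'] (ψ : B' →ₗ[k] B) (φ : B →ₗ[k] A)
    (f : C k A X) : pull ψ (pull φ f) = pull (φ ∘ₗ ψ) f :=
  ext_fam (fun f => pull ψ (pull φ f)) (fun f => pull (φ ∘ₗ ψ) f) (fun f => by simp)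
    (fun x ih a f => by
      rw [tl_pull, tl_pull, tl_pull]
      exact ih _) f

theorem pull_id (f : C k A X) : pull LinearMap.id f = f :=
  ext_fam (fun f => pull LinearMap.id f) (fun f => f) (fun f => by simp)
    (fun x ih a f => by
      rw [tl_pull]
      exact ih _) f

theorem pull_sg (φ : B →ₗ[k] A) (s : k) (f : C k A X) : pull φ (sg s f) = sg s (pull φ f) := by
  have h : (s • LinearMap.id : A →ₗ[k] A) ∘ₗ φ = φ ∘ₗ (s • LinearMap.id : B →ₗ[k] B) :=
    LinearMap.ext fun b => by simp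
  rw [sg, sg, pull_pull, pull_pull, h]

theorem sg_sg (s t : k) (f : C k A X) : sg s (sg t f) = sg (s * t) f := by
  have h : (t • LinearMap.id : A →ₗ[k] A) ∘ₗ (s • LinearMap.id : A →ₗ[k] A) =
      (s * t) • LinearMap.id := LinearMap.ext fun b => by simp [mul_smul, smul_comm s t]
  rw [sg, sg, sg, pull_pull, h]

theorem sg_one_eq (f : C k A X) : sg (1 : k) f = f := by
  rw [sg, one_smul, pull_id]

theorem post_cst (φ : X →ₗ[k] Y) (x : X) : post φ (cst x : C k A X) = cst (φ x) :=
  ext_tl (by simp) fun a => by simp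

theorem pull_cst (φ : B →ₗ[k] A) (x : X) : pull φ (cst x : C k A X) = cst x :=
  ext_tl (by simp) fun a => by simp

theorem sg_cst (s : k) (x : X) : sg s (cst x : C k A X) = cst x :=
  pull_cst _ x

theorem post_eq_zero {φ : X →ₗ[k] Y} (hφ : Function.Injective φ) {f : C k A X}
    (h : post φ f = 0) : f = 0 :=
  LinearMap.ext fun x => hφ (by simpa using LinearMap.congr_fun h x)

theorem pull_eq_zero {φ : B →ₗ[k] A} (hφ : Function.Surjective φ) {f : C k A X}
    (h : pull φ f = 0) : f = 0 := by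
  refine ext_fam (fun g : {g : C k A X // pull φ g = 0} => g.1) (fun _ => 0) (fun g => ?_)
    (fun x ih a g => ?_) ⟨f, h⟩
  · exact (pull_one φ g.1).symm.trans (LinearMap.congr_fun g.2 1)
  · obtain ⟨b, rfl⟩ := hφ a
    have h1 : pull φ (tl (φ b) g.1) = 0 := by rw [← tl_pull, g.2, map_zero]
    rw [map_zero]
    exact ih ⟨_, h1⟩

theorem cup_cst_left (P : X →ₗ[k] Y →ₗ[k] Z) (x : X) (g : C k A Y) :
    cup P (cst x) g = post (P x) g :=
  ext_tl (by simp) fun a => by simp [tl_cup]

theorem cup_cst_right (P : X →ₗ[k] Y →ₗ[k] Z) (f : C k A X) (y : Y) :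
    cup P f (cst y) = post (P.flip y) f :=
  ext_fam (fun f => cup P f (cst y)) (fun f => post (P.flip y) f) (fun f => by simp)
    (fun x ih a f => by
      rw [tl_cup, tl_cst, map_zero, zero_add, tl_post]
      exact ih _) f

theorem post_cup {W : Type u} [AddCommGroup W] [Module k W] (φ : Z →ₗ[k] W)
    (P : X →ₗ[k] Y →ₗ[k] Z) (f : C k A X) (g : C k A Y) :
    post φ (cup P f g) = cup (P.compr₂ φ) f g :=
  ext_fam (fun f => post φ (cup P f g)) (fun f => cup (P.compr₂ φ) f g) (fun f => by simp)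
    (fun x ih a f => by
      rw [tl_post, tl_cup, tl_cup, map_add, LinearMap.add_apply, LinearMap.add_apply, ih]
      rfl) f

theorem cup_post_left {W : Type u} [AddCommGroup W] [Module k W] (φ : W →ₗ[k] X)
    (P : X →ₗ[k] Y →ₗ[k] Z) (f : C k A W) (g : C k A Y) :
    cup P (post φ f) g = cup (P ∘ₗ φ) f g :=
  ext_fam (fun f => cup P (post φ f) g) (fun f => cup (P ∘ₗ φ) f g) (fun f => by simp)
    (fun x ih a f => by
      rw [tl_cup, tl_cup, tl_post, LinearMap.add_apply, LinearMap.add_apply, ih]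
      rfl) f

theorem cup_post_right {W : Type u} [AddCommGroup W] [Module k W] (φ : W →ₗ[k] Y)
    (P : X →ₗ[k] Y →ₗ[k] Z) (f : C k A X) (g : C k A W) :
    cup P f (post φ g) = cup (P.compl₂ φ) f g :=
  ext_fam (fun f => cup P f (post φ g)) (fun f => cup (P.compl₂ φ) f g) (fun f => by simp)
    (fun x ih a f => by
      rw [tl_cup, tl_cup, tl_post, LinearMap.add_apply, LinearMap.add_apply, ih]
      rfl) f

theorem pull_cup (φ : B →ₗ[k] A) (P : X →ₗ[k] Y →ₗ[k] Z) (f : C k A X) (g : C k A Y) :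
    pull φ (cup P f g) = cup P (pull φ f) (pull φ g) :=
  ext_fam (fun f => pull φ (cup P f g)) (fun f => cup P (pull φ f) (pull φ g)) (fun f => by simp)
    (fun x ih a f => by
      rw [tl_pull, tl_cup, tl_cup, map_add, tl_pull, tl_pull, LinearMap.add_apply,
        LinearMap.add_apply, ih, pull_one, post_pull]) f

theorem sg_cup (s : k) (P : X →ₗ[k] Y →ₗ[k] Z) (f : C k A X) (g : C k A Y) :
    sg s (cup P f g) = cup P (sg s f) (sg s g) :=
  pull_cup _ P f g

theorem cup_assoc {U U' W : Type u} [AddCommGroup U] [Module k U] [AddCommGroup U'] [Module k U']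
    [AddCommGroup W] [Module k W] (P1 : X →ₗ[k] Y →ₗ[k] U) (P2 : U →ₗ[k] Z →ₗ[k] W)
    (P3 : Y →ₗ[k] Z →ₗ[k] U') (P4 : X →ₗ[k] U' →ₗ[k] W)
    (h : ∀ x y z, P2 (P1 x y) z = P4 x (P3 y z)) (f : C k A X) (g : C k A Y) (e : C k A Z) :
    cup P2 (cup P1 f g) e = cup P4 f (cup P3 g e) :=
  ext_fam (fun f => cup P2 (cup P1 f g) e) (fun f => cup P4 f (cup P3 g e)) (fun f => by simp [h])
    (fun x ih a f => by
      have h1 : P2 ∘ₗ P1 (f 1) = P3.compr₂ (P4 (f 1)) :=
        LinearMap.ext fun y => LinearMap.ext fun z => h _ y z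
      have h2 : P2 (P1 (f 1) (g 1)) = P4 (f 1) ∘ₗ P3 (g 1) := LinearMap.ext fun z => h _ _ z
      have h3 := ih (tl a f)
      rw [tl_cup, tl_cup, tl_cup, tl_cup, map_add, map_add, cup_one, h2]
      simp only [LinearMap.add_apply]
      rw [cup_post_left, post_cup, post_post, h1, h3, add_assoc]) f

theorem cr_assoc (f : C k A X) (a b : C k A k) : cr (cr f a) b = cr f (cr a b) :=
  cup_assoc _ _ _ _ (fun x y z => by simp [smul_smul, mul_comm]) f a b

theorem cr_one (f : C k A X) : cr f (cst 1) = f := by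
  rw [cr, cup_cst_right]
  exact LinearMap.ext fun x => by simp

theorem one_cr (a : C k A k) : cr (cst (1 : k)) a = a := by
  rw [cr, cup_cst_left]
  exact LinearMap.ext fun x => by simp

theorem post_cr (φ : X →ₗ[k] Y) (f : C k A X) (a : C k A k) :
    post φ (cr f a) = cr (post φ f) a := by
  have h : (LinearMap.lsmul k X).flip.compr₂ φ = (LinearMap.lsmul k Y).flip ∘ₗ φ :=
    LinearMap.ext fun x => LinearMap.ext fun c => by simp
  rw [cr, cr, post_cup, cup_post_left, h]

theorem pull_cr (φ : B →ₗ[k] A) (f : C k A X) (a : C k A k) :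
    pull φ (cr f a) = cr (pull φ f) (pull φ a) :=
  pull_cup _ _ f a

theorem pull_cpow (φ : B →ₗ[k] A) (v : C k A k) (n : ℕ) :
    pull φ (cpow v n) = cpow (pull φ v) n := by
  induction n with
  | zero => exact pull_cst _ _
  | succ n ih => rw [cpow, cpow, pull_cr, ih]

theorem cpow_add (v : C k A k) (m n : ℕ) : cpow v (m + n) = cr (cpow v m) (cpow v n) := by
  induction n with
  | zero => exact (cr_one _).symm
  | succ n ih => rw [← add_assoc, cpow, cpow, ih, cr_assoc]

theorem cpow_mul (v : C k A k) (m n : ℕ) : cpow v (m * n) = cpow (cpow v m) n := by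
  induction n with
  | zero => rfl
  | succ n ih => rw [Nat.mul_succ, cpow_add, ih, cpow]

theorem cpow_one (v : C k A k) : cpow v 1 = v :=
  one_cr v

theorem cup_trv (ε : A →ₐ[k] k) (h : C k A A) (f : C k A k) :
    cup (trv ε k).toLinearMap h f = cr (post ε.toLinearMap h) f := by
  have h1 : (trv ε k).toLinearMap = (LinearMap.lsmul k k).flip ∘ₗ ε.toLinearMap :=
    LinearMap.ext fun a => LinearMap.ext fun c => by simp [mul_comm]
  rw [cr, cup_post_left, h1]

theorem post_cur (a : A) (f : C k A X) : post (LinearMap.applyₗ a) (cur f) = tl a f := rfl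

theorem cur_cr (f : C k A X) (hf : f 1 = 0) (a : C k A k) : cur (cr f a) = cr (cur f) a := by
  refine LinearMap.ext fun x => LinearMap.ext fun b => ?_
  have h1 : post (LinearMap.applyₗ b) (cur (cr f a)) = post (LinearMap.applyₗ b) (cr (cur f) a) := by
    rw [post_cr, post_cur, post_cur, cr, tl_cup, hf, map_zero, map_zero, LinearMap.zero_apply,
      zero_add]
  exact LinearMap.congr_fun h1 x

theorem post_mk2 (φ : X →ₗ[k] Y) (v : A →ₗ[k] A →ₗ[k] X) :
    post φ (mk2 v) = mk2 (v.compr₂ φ) :=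
  ext_tl (by simp) fun a => ext_tl (by simp) fun b => by
    rw [tl_post, tl_post, tl_tl_mk2, tl_tl_mk2, post_cst]
    rfl

theorem pull_mk2 (φ : B →ₗ[k] A) (v : A →ₗ[k] A →ₗ[k] X) :
    pull φ (mk2 v) = mk2 (v.compl₁₂ φ φ) :=
  ext_tl (by simp) fun a => ext_tl (by simp) fun b => by
    rw [tl_pull, tl_pull, tl_tl_mk2, tl_tl_mk2, pull_cst]
    rfl

end EO
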