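import Pool.Agent.P.MP_42c3cc_al.C1a

/-! The differential. -/

noncomputable section

namespace EO

open TensorAlgebra LinearMap Module
open scoped TensorProduct

universe u

variable {k : Type u} [Field k] {A : Type u} [Ring A] [Algebra k A]
  {X Y Z : Type u} [AddCommGroup X] [Module k X] [AddCommGroup Y] [Module k Y]
  [AddCommGroup Z] [Module k Z] {B : Type u} [Ring B] [Algebra k B]

theorem C1b_post_ab {r : A →ₗ[k] End k X} {r' : A →ₗ[k] End k Y} {φ : X →ₗ[k] Y}
    (hr : ∀ a x, φ (r a x) = r' a (φ x)) (a : A) (f : C k A X) :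
    post φ (ab r a f) = ab r' a (post φ f) :=
  ext_tl (by rw [post_apply, ab_one, ab_one, hr, post_apply]) fun b => by
    rw [tl_post, tl_ab, tl_ab, tl_post]

theorem C1b_post_dr {r : A →ₗ[k] End k X} {r' : A →ₗ[k] End k Y} {φ : X →ₗ[k] Y}
    (hr : ∀ a x, φ (r a x) = r' a (φ x)) (f : C k A X) : post φ (dr r f) = dr r' (post φ f) :=
  ext_fam (fun f => post φ (dr r f)) (fun f => dr r' (post φ f))
    (fun f => by rw [post_apply, dr_one, dr_one, map_zero])
    (fun x ih a f => by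
      rw [tl_post, tl_dr, tl_dr, map_sub, map_neg, C1b_post_ab hr, tl_post, LinearMap.sub_apply, LinearMap.sub_apply,
        ih]) f

theorem C1b_post_lam {l : A →ₗ[k] End k X} {l' : A →ₗ[k] End k Y} {φ : X →ₗ[k] Y}
    (hl : ∀ a x, φ (l a x) = l' a (φ x)) (f : C k A X) : post φ (lam l f) = lam l' (post φ f) :=
  ext_tl (by rw [post_apply, lam_one, lam_one, map_zero]) fun b => by
    rw [tl_post, tl_lam, tl_lam]
    exact LinearMap.ext fun x => hl b (f x)

theorem C1b_del (l r : A →ₗ[k] End k X) (f : C k A X) : del l r f = lam l f + dr r f := rfl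

theorem C1b_ab_ab {r : A →ₗ[k] End k X} (hr : ∀ a b, r (a * b) = r b * r a) (a b : A)
    (f : C k A X) : ab r b (ab r a f) = ab r (a * b) f :=
  ext_tl (by rw [ab_one, ab_one, ab_one, hr]; rfl) fun c => by
    rw [tl_ab, tl_ab, tl_ab, mul_assoc]

theorem C1b_dr_ab {r : A →ₗ[k] End k X} (hr : ∀ a b, r (a * b) = r b * r a) (a : A)
    (f : C k A X) : dr r (ab r a f) = ab r a (dr r f) :=
  ext_tl (by rw [dr_one, ab_one, dr_one, map_zero]) fun b => by
    rw [tl_dr, tl_ab, tl_ab, tl_dr, C1b_ab_ab hr]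

theorem C1b_ab_lam {l : A →ₗ[k] End k X} (r : A →ₗ[k] End k X)
    (hl : ∀ a b, l (a * b) = l a * l b) (a : A) (f : C k A X) :
    ab r a (lam l f) = post (l a) (lam l f) :=
  ext_tl (by rw [ab_one, post_apply, lam_one, map_zero, map_zero]) fun b => by
    rw [tl_ab, tl_post, tl_lam, tl_lam, hl]
    rfl

theorem C1b_dr_dr {r : A →ₗ[k] End k X} (hr : ∀ a b, r (a * b) = r b * r a) (f : C k A X) :
    dr r (dr r f) = 0 :=
  ext_fam (fun f => dr r (dr r f)) (fun _ => 0) (fun f => dr_one _ _)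
    (fun x ih a f => by
      rw [tl_dr, tl_dr, map_sub, map_neg, C1b_dr_ab hr, sub_sub_cancel, ih, map_zero]) f

theorem C1b_pull_ab (r : A →ₗ[k] End k X) (φ : B →ₐ[k] A) (b : B) (f : C k A X) :
    pull φ.toLinearMap (ab r (φ b) f) = ab (r ∘ₗ φ.toLinearMap) b (pull φ.toLinearMap f) :=
  ext_tl (by rw [pull_one, ab_one, ab_one, pull_one]; rfl) fun c => by
    rw [tl_pull, tl_ab, tl_ab, tl_pull, AlgHom.toLinearMap_apply, AlgHom.toLinearMap_apply,
      map_mul φ]

theorem C1b_pull_dr (r : A →ₗ[k] End k X) (φ : B →ₐ[k] A) (f : C k A X) :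
    pull φ.toLinearMap (dr r f) = dr (r ∘ₗ φ.toLinearMap) (pull φ.toLinearMap f) :=
  ext_fam (fun f => pull φ.toLinearMap (dr r f))
    (fun f => dr (r ∘ₗ φ.toLinearMap) (pull φ.toLinearMap f))
    (fun f => by rw [pull_one, dr_one, dr_one])
    (fun x ih b f => by
      rw [tl_pull, tl_dr, tl_dr, map_sub, map_neg, tl_pull, LinearMap.sub_apply, LinearMap.sub_apply, ih,
        AlgHom.toLinearMap_apply, C1b_pull_ab]) f

theorem C1b_sg_ab (s : k) (r : A →ₗ[k] End k X) (a : A) (f : C k A X) :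
    sg s (ab r a f) = ab r a (sg s f) :=
  ext_tl (by rw [sg_one, ab_one, ab_one, sg_one]) fun c => by
    rw [tl_sg, tl_ab, tl_ab, tl_sg]

theorem C1b_sg_dr (s : k) (r : A →ₗ[k] End k X) (f : C k A X) :
    sg s (dr r f) = s • dr r (sg s f) :=
  ext_fam (fun f => sg s (dr r f)) (fun f => s • dr r (sg s f))
    (fun f => by rw [sg_one, LinearMap.smul_apply, dr_one, dr_one, smul_zero])
    (fun x ih a f => by
      rw [tl_sg, map_smul, tl_dr, tl_dr, map_sub, map_neg, C1b_sg_ab, tl_sg, map_smul, LinearMap.smul_apply,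
        LinearMap.smul_apply, LinearMap.sub_apply, LinearMap.sub_apply, ih]) f

theorem C1b_ab_cup {rX : A →ₗ[k] End k X} {lY rY : A →ₗ[k] End k Y} {rZ : A →ₗ[k] End k Z}
    {P : X →ₗ[k] Y →ₗ[k] Z} (h2 : ∀ a x y, P (rX a x) y = P x (lY a y))
    (h3 : ∀ a x y, rZ a (P x y) = P x (rY a y)) (a : A) (f : C k A X) (g : C k A Y) :
    ab rZ a (cup P f g) =
      cup P (ab rX a f) g + post (P (f 1)) (ab rY a g - post (lY a) g) := by
  refine ext_tl ?_ fun b => ?_
  · rw [ab_one, LinearMap.add_apply, cup_one, cup_one, post_apply, LinearMap.sub_apply, ab_one, ab_one, post_apply,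
      map_sub, h2, h3, add_sub_cancel]
  · have e : post (P (rX a (f 1))) (tl b g) = post (P (f 1)) (post (lY a) (tl b g)) :=
      LinearMap.ext fun x => h2 _ _ _
    rw [tl_ab, map_add, tl_cup, tl_cup, tl_post, map_sub, tl_ab, tl_ab, tl_post, ab_one, map_sub, e]
    abel

theorem C1b_dr_cup {rX : A →ₗ[k] End k X} {lY rY : A →ₗ[k] End k Y} {rZ : A →ₗ[k] End k Z}
    {P : X →ₗ[k] Y →ₗ[k] Z} (h2 : ∀ a x y, P (rX a x) y = P x (lY a y))
    (h3 : ∀ a x y, rZ a (P x y) = P x (rY a y)) (f : C k A X) (g : C k A Y) :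
    dr rZ (cup P f g) = cup P (dr rX f) g + cup P (sg (-1) f) (del lY rY g) :=
  ext_fam (fun f => dr rZ (cup P f g))
    (fun f => cup P (dr rX f) g + cup P (sg (-1) f) (del lY rY g))
    (fun f => by
      rw [dr_one, LinearMap.add_apply, cup_one, cup_one, dr_one, del_one, map_zero, map_zero, LinearMap.zero_apply,
        add_zero])
    (fun x ih a f => by
      rw [tl_dr, tl_cup, map_add, ← C1b_post_dr (r := rY) (fun a y => (h3 a _ y).symm),
        C1b_ab_cup h2 h3, map_add, tl_cup, tl_cup, dr_one, sg_one, tl_dr, tl_del, tl_sg]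
      simp only [map_zero, map_sub, map_neg, neg_smul, one_smul, LinearMap.sub_apply, LinearMap.add_apply, LinearMap.neg_apply,
        LinearMap.zero_apply, ih]
      abel) f

theorem del_del {l r : A →ₗ[k] End k X} (hl : ∀ a b, l (a * b) = l a * l b)
    (hr : ∀ a b, r (a * b) = r b * r a) (hlr : ∀ a b, l a * r b = r b * l a) (f : C k A X) :
    del l r (del l r f) = 0 := by
  refine ext_tl (del_one _ _ _) fun a => ?_
  rw [tl_del, tl_del, C1b_del, map_add, map_add, map_sub, map_sub, C1b_dr_dr hr, C1b_dr_ab hr,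
    C1b_ab_lam r hl, C1b_post_dr (r' := r) fun b x => LinearMap.congr_fun (hlr a b) x, map_zero]
  abel

theorem post_del {l r : A →ₗ[k] End k X} {l' r' : A →ₗ[k] End k Y} {φ : X →ₗ[k] Y}
    (hl : ∀ a x, φ (l a x) = l' a (φ x)) (hr : ∀ a x, φ (r a x) = r' a (φ x)) (f : C k A X) :
    post φ (del l r f) = del l' r' (post φ f) := by
  rw [C1b_del, C1b_del, map_add, C1b_post_lam hl, C1b_post_dr hr]

theorem pull_del (l r : A →ₗ[k] End k X) (φ : B →ₐ[k] A) (f : C k A X) :
    pull φ.toLinearMap (del l r f)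
      = del (l ∘ₗ φ.toLinearMap) (r ∘ₗ φ.toLinearMap) (pull φ.toLinearMap f) := by
  rw [C1b_del, C1b_del, map_add, C1b_pull_dr]
  congr 1
  exact ext_tl (by rw [pull_one, lam_one, lam_one]) fun b => by
    rw [tl_pull, tl_lam, tl_lam]
    rfl

theorem sg_del (s : k) (l r : A →ₗ[k] End k X) (f : C k A X) :
    sg s (del l r f) = s • del l r (sg s f) := by
  rw [C1b_del, C1b_del, map_add, C1b_sg_dr, smul_add]
  congr 1
  exact ext_tl (by rw [sg_one, LinearMap.smul_apply, lam_one, lam_one, smul_zero]) fun b => by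
    rw [tl_sg, map_smul, tl_lam, tl_lam]
    rfl

theorem del_cup {lX rX : A →ₗ[k] End k X} {lY rY : A →ₗ[k] End k Y} {lZ rZ : A →ₗ[k] End k Z}
    {P : X →ₗ[k] Y →ₗ[k] Z} (h1 : ∀ a x y, lZ a (P x y) = P (lX a x) y)
    (h2 : ∀ a x y, P (rX a x) y = P x (lY a y)) (h3 : ∀ a x y, rZ a (P x y) = P x (rY a y))
    (f : C k A X) (g : C k A Y) :
    del lZ rZ (cup P f g) = cup P (del lX rX f) g + cup P (sg (-1) f) (del lY rY g) := by
  rw [C1b_del, C1b_del lX, C1b_dr_cup h2 h3, map_add, LinearMap.add_apply, ← add_assoc]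
  congr 2
  refine ext_tl (by rw [lam_one, cup_one, lam_one, map_zero, LinearMap.zero_apply]) fun b => ?_
  rw [tl_lam, tl_cup, lam_one, tl_lam, map_zero, map_zero, LinearMap.zero_apply, zero_add, post_cup,
    cup_post_left, show P.compr₂ (lZ b) = P ∘ₗ lX b from
      LinearMap.ext fun x => LinearMap.ext fun y => h1 b x y]

/-- The left action on the coinduced module. -/
def coind (A : Type u) [Ring A] [Algebra k A] (X : Type u) [AddCommGroup X] [Module k X] :
    A →ₐ[k] End k (A →ₗ[k] X) :=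
  AlgHom.ofLinearMap ((LinearMap.llcomp k A A X).flip ∘ₗ (LinearMap.mul k A).flip)
    (by ext; simp) (fun a b => by ext; simp [mul_assoc])

@[simp] theorem coind_apply (a b : A) (φ : A →ₗ[k] X) : coind A X a φ b = φ (b * a) := rfl

theorem del_cur (l r : A →ₗ[k] End k X) (f : C k A X) (hf : f 1 = 0) :
    del (coind A X).toLinearMap (LinearMap.llcomp k A X X ∘ₗ r) (cur f)
      = post l.flip f - cur (del l r f) := by
  refine LinearMap.ext fun x => LinearMap.ext fun a => ?_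
  have h1 : post (LinearMap.applyₗ a) (lam (coind A X).toLinearMap (cur f)) = ab r a f :=
    ext_tl (by rw [post_apply, lam_one, ab_one, hf, map_zero, map_zero]) fun b => by
      rw [tl_post, tl_lam, tl_ab]
      rfl
  have h2 : post (LinearMap.applyₗ a) (dr (LinearMap.llcomp k A X X ∘ₗ r) (cur f)) =
      dr r (tl a f) := C1b_post_dr (fun _ _ => rfl) _
  have h3 : post (LinearMap.applyₗ a) (del (coind A X).toLinearMap
      (LinearMap.llcomp k A X X ∘ₗ r) (cur f)) = post (l a) f - tl a (del l r f) := by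
    rw [C1b_del, map_add, h1, h2, tl_del]
    abel
  exact LinearMap.congr_fun h3 x

theorem dl_dl (ε : A →ₐ[k] k) (ρ : A →ₐ[k] End k X) (f : C k A X) : dl ε ρ (dl ε ρ f) = 0 :=
  del_del (fun a b => map_mul ρ a b)
    (fun a b => LinearMap.ext fun x => by simp [smul_smul, mul_comm])
    (fun a b => LinearMap.ext fun x => by simp) f

theorem post_dl (ε : A →ₐ[k] k) {ρ : A →ₐ[k] End k X} {ρ' : A →ₐ[k] End k Y} {φ : X →ₗ[k] Y}
    (h : ∀ a x, φ (ρ a x) = ρ' a (φ x)) (f : C k A X) :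
    post φ (dl ε ρ f) = dl ε ρ' (post φ f) := post_del h (fun a x => by simp) f

theorem pull_dl (ε : A →ₐ[k] k) (ρ : A →ₐ[k] End k X) (φ : B →ₐ[k] A) (f : C k A X) :
    pull φ.toLinearMap (dl ε ρ f) = dl (ε.comp φ) (ρ.comp φ) (pull φ.toLinearMap f) :=
  pull_del _ _ φ f

theorem trv_comp (ε : A →ₐ[k] k) (φ : B →ₐ[k] A) : (trv ε X).comp φ = trv (ε.comp φ) X := rfl

theorem dl_cr (ε : A →ₐ[k] k) (ρ : A →ₐ[k] End k X) (f : C k A X) (a : C k A k) :
    dl ε ρ (cr f a) = cr (dl ε ρ f) a + cr (sg (-1) f) (dl ε (trv ε k) a) :=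
  del_cup (fun a x y => by simp) (fun a x y => by simp [smul_smul, mul_comm])
    (fun a x y => by simp [smul_smul, mul_comm]) f a

theorem sg_dl (s : k) (ε : A →ₐ[k] k) (ρ : A →ₐ[k] End k X) (f : C k A X) :
    sg s (dl ε ρ f) = s • dl ε ρ (sg s f) := sg_del s _ _ f

theorem dl_cur (ε : A →ₐ[k] k) (ρ : A →ₐ[k] End k X) (f : C k A X) (hf : f 1 = 0) :
    dl ε (coind A X) (cur f) = post ρ.toLinearMap.flip f - cur (dl ε ρ f) := by
  have h : (trv ε (A →ₗ[k] X)).toLinearMap = LinearMap.llcomp k A X X ∘ₗ (trv ε X).toLinearMap :=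
    LinearMap.ext fun a => LinearMap.ext fun φ => LinearMap.ext fun b => by simp
  rw [dl, h, del_cur _ _ f hf, dl]

theorem dl_cst (ε : A →ₐ[k] k) (ρ : A →ₐ[k] End k X) (x : X) :
    dl ε ρ (cst x) = 0 ↔ ∀ a, ρ a x = ε a • x := by
  have h1 : ∀ a, tl a (dl ε ρ (cst x)) = cst (ρ a x - ε a • x) := fun a => by
    rw [dl, tl_del, tl_cst, map_zero, sub_zero]
    exact ext_tl (by simp) fun b => by simp
  constructor
  · intro h a
    have h2 := LinearMap.congr_fun (h1 a) 1
    rw [h, map_zero, cst_one] at h2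
    exact sub_eq_zero.1 h2.symm
  · intro h
    exact ext_tl (del_one _ _ _) fun a => by rw [h1, h, sub_self, map_zero, map_zero]

theorem post_dH (ε : A →ₐ[k] k) (h : C k A A) :
    post ε.toLinearMap (dH h) = dl ε (trv ε k) (post ε.toLinearMap h) :=
  post_del (fun a x => by simp) (fun a x => by simp [mul_comm]) h

theorem del_mk2 (l r : A →ₗ[k] End k X) (v : A →ₗ[k] A →ₗ[k] X) (a b c : A) :
    tl c (tl b (tl a (del l r (mk2 v)))) 1
      = l a (v b c) - v (a * b) c + v a (b * c) - r c (v a b) := by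
  simp [tl_del, tl_dr]
  abel

theorem del_mk2_eq_zero (l r : A →ₗ[k] End k X) (v : A →ₗ[k] A →ₗ[k] X)
    (h : ∀ a b c, l a (v b c) - v (a * b) c + v a (b * c) - r c (v a b) = 0) :
    del l r (mk2 v) = 0 := by
  refine ext_tl (del_one _ _ _) fun a => ext_tl (by simp [tl_del]) fun b =>
    ext_tl (by simp [tl_del, tl_dr]) fun c => ext_tl ((del_mk2 l r v a b c).trans (h a b c))
      fun d => by simp [tl_del, tl_dr]

end EO
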