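import Pool.Agent.P.MP_42c3cc_al.C1b

/-! Degrees. -/

noncomputable section

namespace EO

open TensorAlgebra LinearMap Module
open scoped TensorProduct

universe u

variable {k : Type u} [Field k] {A : Type u} [Ring A] [Algebra k A]
  {X Y Z : Type u} [AddCommGroup X] [Module k X] [AddCommGroup Y] [Module k Y]
  [AddCommGroup Z] [Module k Z] {B : Type u} [Ring B] [Algebra k B]

theorem cst_mem (x : X) : (cst x : C k A X) ∈ Cn 0 := mem_Cn_zero.2 fun a => tl_cst a x

theorem eq_cst {f : C k A X} (h : f ∈ Cn 0) : f = cst (f 1) :=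
  ext_tl (cst_one _).symm fun a => (mem_Cn_zero.1 h a).trans (tl_cst a _).symm

theorem apply_one_eq_zero {n : ℕ} {f : C k A X} (h : f ∈ Cn n) (hn : 0 < n) : f 1 = 0 := by
  obtain ⟨m, rfl⟩ := Nat.exists_eq_succ_of_ne_zero hn.ne'
  exact (mem_Cn_succ.1 h).1

theorem post_mem (φ : X →ₗ[k] Y) {n : ℕ} {f : C k A X} (h : f ∈ Cn n) : post φ f ∈ Cn n := by
  induction n generalizing f with
  | zero => exact mem_Cn_zero.2 fun a => by rw [tl_post, mem_Cn_zero.1 h a, map_zero]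
  | succ n ih =>
    exact mem_Cn_succ.2 ⟨by rw [post_apply, (mem_Cn_succ.1 h).1, map_zero],
      fun a => ih ((mem_Cn_succ.1 h).2 a)⟩

theorem pull_mem (φ : B →ₗ[k] A) {n : ℕ} {f : C k A X} (h : f ∈ Cn n) : pull φ f ∈ Cn n := by
  induction n generalizing f with
  | zero => exact mem_Cn_zero.2 fun a => by rw [tl_pull, mem_Cn_zero.1 h _, map_zero]
  | succ n ih =>
    exact mem_Cn_succ.2 ⟨by rw [pull_one, (mem_Cn_succ.1 h).1],
      fun a => by rw [tl_pull]; exact ih ((mem_Cn_succ.1 h).2 _)⟩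

theorem mem_of_post {φ : X →ₗ[k] Y} (hφ : Function.Injective φ) {n : ℕ} {f : C k A X}
    (h : post φ f ∈ Cn n) : f ∈ Cn n := by
  induction n generalizing f with
  | zero => exact mem_Cn_zero.2 fun a => post_eq_zero hφ (mem_Cn_zero.1 h a)
  | succ n ih =>
    exact mem_Cn_succ.2 ⟨hφ ((mem_Cn_succ.1 h).1.trans (map_zero φ).symm),
      fun a => ih ((mem_Cn_succ.1 h).2 a)⟩

theorem sg_of_mem (s : k) {n : ℕ} {f : C k A X} (h : f ∈ Cn n) : sg s f = s ^ n • f := by
  induction n generalizing f with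
  | zero => rw [pow_zero, one_smul, eq_cst h, sg_cst]
  | succ n ih =>
    refine ext_tl (by simp [(mem_Cn_succ.1 h).1]) fun a => ?_
    rw [tl_sg, ih ((mem_Cn_succ.1 h).2 a), map_smul, smul_smul, pow_succ']

theorem C1c_ab_mem (r : A →ₗ[k] End k X) (a : A) {n : ℕ} {f : C k A X} (h : f ∈ Cn n) :
    ab r a f ∈ Cn n := by
  cases n with
  | zero => exact mem_Cn_zero.2 fun b => by rw [tl_ab, mem_Cn_zero.1 h]
  | succ n =>
    exact mem_Cn_succ.2 ⟨by rw [ab_one, (mem_Cn_succ.1 h).1, map_zero],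
      fun b => by rw [tl_ab]; exact (mem_Cn_succ.1 h).2 _⟩

theorem C1c_dr_mem (r : A →ₗ[k] End k X) {n : ℕ} {f : C k A X} (h : f ∈ Cn n) :
    dr r f ∈ Cn (n + 1) := by
  induction n generalizing f with
  | zero =>
    refine mem_Cn_succ.2 ⟨dr_one r f, fun a => ?_⟩
    rw [tl_dr, mem_Cn_zero.1 h, map_zero, sub_zero]
    exact neg_mem (C1c_ab_mem r a h)
  | succ n ih =>
    refine mem_Cn_succ.2 ⟨dr_one r f, fun a => ?_⟩
    rw [tl_dr]
    exact sub_mem (neg_mem (C1c_ab_mem r a h)) (ih ((mem_Cn_succ.1 h).2 a))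

theorem del_mem (l r : A →ₗ[k] End k X) {n : ℕ} {f : C k A X} (h : f ∈ Cn n) :
    del l r f ∈ Cn (n + 1) := by
  refine mem_Cn_succ.2 ⟨del_one l r f, fun a => ?_⟩
  have h1 := (mem_Cn_succ.1 (C1c_dr_mem r h)).2 a
  rw [tl_dr] at h1
  rw [tl_del, sub_sub, sub_eq_add_neg, neg_add, ← sub_eq_add_neg]
  exact add_mem (post_mem _ h) h1

theorem cup_mem (P : X →ₗ[k] Y →ₗ[k] Z) {m n : ℕ} {f : C k A X} {g : C k A Y} (hf : f ∈ Cn m)
    (hg : g ∈ Cn n) : cup P f g ∈ Cn (m + n) := by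
  induction m generalizing f with
  | zero =>
    rw [eq_cst hf, cup_cst_left, zero_add]
    exact post_mem _ hg
  | succ m ih =>
    rw [add_right_comm]
    refine mem_Cn_succ.2 ⟨by simp [(mem_Cn_succ.1 hf).1], fun a => ?_⟩
    rw [tl_cup, (mem_Cn_succ.1 hf).1, map_zero, map_zero, LinearMap.zero_apply, zero_add]
    exact ih ((mem_Cn_succ.1 hf).2 a)

theorem C1c_mem_of_apply {n : ℕ} {F : C k A (B →ₗ[k] X)}
    (h : ∀ b, post (LinearMap.applyₗ b) F ∈ Cn n) : F ∈ Cn n := by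
  induction n generalizing F with
  | zero =>
    exact mem_Cn_zero.2 fun a => LinearMap.ext fun x => LinearMap.ext fun b =>
      LinearMap.congr_fun (mem_Cn_zero.1 (h b) a) x
  | succ n ih =>
    exact mem_Cn_succ.2 ⟨LinearMap.ext fun b => (mem_Cn_succ.1 (h b)).1,
      fun a => ih fun b => (mem_Cn_succ.1 (h b)).2 a⟩

theorem cur_mem {n : ℕ} {f : C k A X} (h : f ∈ Cn (n + 1)) : cur f ∈ Cn n :=
  C1c_mem_of_apply fun a => by rw [post_cur]; exact (mem_Cn_succ.1 h).2 a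

theorem ins_mem (s : k) {m n : ℕ} {h : C k A A} (hh : h ∈ Cn (m + 1)) {f : C k A X}
    (hf : f ∈ Cn n) : ins s h f ∈ Cn (n + m) := by
  induction n generalizing f with
  | zero =>
    have h1 : cur f = 0 := LinearMap.ext fun x => LinearMap.ext fun a => by
      rw [cur_apply, mem_Cn_zero.1 hf]
      rfl
    have h2 : ins s h f = 0 := ext_tl (by rw [ins_one, mem_Cn_zero.1 hf]) fun a => by
      rw [tl_ins, mem_Cn_zero.1 hf, front, LinearMap.comp_apply, h1]
      simp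
    rw [h2]
    exact zero_mem _
  | succ n ih =>
    rw [add_right_comm]
    refine mem_Cn_succ.2 ⟨by rw [ins_one, (mem_Cn_succ.1 hh).1]; simp, fun a => ?_⟩
    rw [tl_ins]
    refine add_mem ?_ (Submodule.smul_mem _ _ (ih ((mem_Cn_succ.1 hf).2 a)))
    have h1 := cup_mem (LinearMap.applyₗ (R := k) (M := A) (M₂ := X)) hh (cur_mem hf)
    rw [show m + 1 + n = n + m + 1 by omega] at h1
    exact (mem_Cn_succ.1 h1).2 a

theorem mk2_mem (v : A →ₗ[k] A →ₗ[k] X) : mk2 v ∈ Cn 2 :=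
  mem_Cn_succ.2 ⟨mk2_one v, fun a => mem_Cn_succ.2 ⟨tl_mk2_one v a, fun b => by
    rw [tl_tl_mk2]; exact cst_mem _⟩⟩

theorem cpow_mem {d : ℕ} {v : C k A k} (h : v ∈ Cn d) (n : ℕ) : cpow v n ∈ Cn (d * n) := by
  induction n with
  | zero => exact cst_mem _
  | succ n ih => exact cup_mem _ ih h

theorem ext_Cn3 {f g : C k A X} (hf : f ∈ Cn 3) (hg : g ∈ Cn 3)
    (h : ∀ a b c, tl c (tl b (tl a f)) 1 = tl c (tl b (tl a g)) 1) : f = g := by
  obtain ⟨f0, f1⟩ := mem_Cn_succ.1 hf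
  obtain ⟨g0, g1⟩ := mem_Cn_succ.1 hg
  refine ext_tl (f0.trans g0.symm) fun a => ?_
  obtain ⟨f2, f3⟩ := mem_Cn_succ.1 (f1 a)
  obtain ⟨g2, g3⟩ := mem_Cn_succ.1 (g1 a)
  refine ext_tl (f2.trans g2.symm) fun b => ?_
  obtain ⟨f4, f5⟩ := mem_Cn_succ.1 (f3 b)
  obtain ⟨g4, g5⟩ := mem_Cn_succ.1 (g3 b)
  refine ext_tl (f4.trans g4.symm) fun c => ?_
  rw [eq_cst (f5 c), eq_cst (g5 c), h]

theorem pr_mem (n : ℕ) (f : C k A X) : pr n f ∈ Cn n := by
  induction n generalizing f with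
  | zero => exact cst_mem _
  | succ n ih => exact mem_Cn_succ.2 ⟨pr_succ_one n f, fun a => by rw [tl_pr_succ]; exact ih _⟩

theorem pr_of_mem {n : ℕ} {f : C k A X} (h : f ∈ Cn n) : pr n f = f := by
  induction n generalizing f with
  | zero => exact (eq_cst h).symm
  | succ n ih =>
    exact ext_tl (by rw [pr_succ_one, (mem_Cn_succ.1 h).1]) fun a => by
      rw [tl_pr_succ, ih ((mem_Cn_succ.1 h).2 a)]

theorem pr_of_ne {m n : ℕ} {f : C k A X} (h : f ∈ Cn m) (hn : n ≠ m) : pr n f = 0 := by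
  induction n generalizing m f with
  | zero => rw [pr_zero, apply_one_eq_zero h (Nat.pos_of_ne_zero hn.symm), map_zero]
  | succ n ih =>
    refine ext_tl (pr_succ_one n f) fun a => ?_
    rw [tl_pr_succ, map_zero]
    cases m with
    | zero => rw [mem_Cn_zero.1 h, map_zero]
    | succ m => exact ih ((mem_Cn_succ.1 h).2 a) (by omega)

theorem pr_post (n : ℕ) (φ : X →ₗ[k] Y) (f : C k A X) : pr n (post φ f) = post φ (pr n f) := by
  induction n generalizing f with
  | zero => rw [pr_zero, pr_zero, post_cst, post_apply]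
  | succ n ih => exact ext_tl (by simp) fun a => by rw [tl_pr_succ, tl_post, tl_post, tl_pr_succ, ih]

theorem pr_pull (n : ℕ) (φ : B →ₗ[k] A) (f : C k A X) : pr n (pull φ f) = pull φ (pr n f) := by
  induction n generalizing f with
  | zero => rw [pr_zero, pr_zero, pull_cst, pull_one]
  | succ n ih => exact ext_tl (by simp) fun a => by rw [tl_pr_succ, tl_pull, tl_pull, tl_pr_succ, ih]

theorem C1c_pr_ab (n : ℕ) (r : A →ₗ[k] End k X) (a : A) (f : C k A X) :
    pr n (ab r a f) = ab r a (pr n f) := by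
  cases n with
  | zero => exact ext_tl (by simp) fun b => by simp
  | succ n => exact ext_tl (by simp) fun b => by simp

theorem C1c_pr_dr (n : ℕ) (r : A →ₗ[k] End k X) (f : C k A X) :
    pr (n + 1) (dr r f) = dr r (pr n f) := by
  induction n generalizing f with
  | zero =>
    refine ext_tl (by simp) fun a => ?_
    rw [tl_pr_succ, tl_dr, tl_dr, map_sub, map_neg, C1c_pr_ab]
    simp
  | succ n ih =>
    refine ext_tl (by simp) fun a => ?_
    rw [tl_pr_succ, tl_dr, tl_dr, map_sub, map_neg, C1c_pr_ab, ih, tl_pr_succ]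

theorem pr_del (n : ℕ) (l r : A →ₗ[k] End k X) (f : C k A X) :
    pr (n + 1) (del l r f) = del l r (pr n f) := by
  have h1 : pr (n + 1) (lam l f) = lam l (pr n f) :=
    ext_tl (by simp) fun a => by rw [tl_pr_succ, tl_lam, tl_lam, pr_post]
  rw [del, LinearMap.add_apply, LinearMap.add_apply, map_add, h1, C1c_pr_dr]

theorem pr_zero_del (l r : A →ₗ[k] End k X) (f : C k A X) : pr 0 (del l r f) = 0 := by
  rw [pr_zero, del_one, map_zero]

theorem C1c_pr_cup_lt (P : X →ₗ[k] Y →ₗ[k] Z) {n d : ℕ} (hn : n < d) (f : C k A X) {g : C k A Y}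
    (hg : g ∈ Cn d) : pr n (cup P f g) = 0 := by
  induction n generalizing f with
  | zero => rw [pr_zero, cup_one, apply_one_eq_zero hg hn, map_zero, map_zero]
  | succ n ih =>
    refine ext_tl (by simp) fun a => ?_
    have h1 : pr n (tl a g) = 0 := by rw [← tl_pr_succ, pr_of_ne hg hn.ne, map_zero]
    rw [tl_pr_succ, tl_cup, map_add, pr_post, h1, ih (by omega)]
    simp

theorem pr_cup (P : X →ₗ[k] Y →ₗ[k] Z) (n : ℕ) {d : ℕ} (f : C k A X) {g : C k A Y}
    (hg : g ∈ Cn d) : pr (n + d) (cup P f g) = cup P (pr n f) g := by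
  induction n generalizing f with
  | zero =>
    rw [zero_add, pr_zero, cup_cst_left]
    cases d with
    | zero =>
      rw [pr_zero, cup_one]
      conv_rhs => rw [eq_cst hg, post_cst]
    | succ d =>
      refine ext_tl (by simp [(mem_Cn_succ.1 hg).1]) fun a => ?_
      rw [tl_pr_succ, tl_cup, map_add, C1c_pr_cup_lt P (Nat.lt_succ_self d) _ hg, add_zero,
        pr_of_mem (post_mem _ ((mem_Cn_succ.1 hg).2 a)), tl_post]
  | succ n ih =>
    rw [add_right_comm]
    refine ext_tl (by simp) fun a => ?_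
    have h1 : pr (n + d) (tl a g) = 0 := by
      rw [← tl_pr_succ, pr_of_ne hg (by omega), map_zero]
    rw [tl_pr_succ, tl_cup, tl_cup, map_add, pr_post, h1, ih, tl_pr_succ]
    simp

theorem pr_cup_lt (P : X →ₗ[k] Y →ₗ[k] Z) {n d : ℕ} (hn : n < d) (f : C k A X) {g : C k A Y}
    (hg : g ∈ Cn d) : pr n (cup P f g) = 0 := C1c_pr_cup_lt P hn f hg

theorem Cn_le_Bd (n : ℕ) : (Cn n : Submodule k (C k A X)) ≤ Bd := le_iSup Cn n

theorem Bd_sum {f : C k A X} (h : f ∈ Bd) :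
    ∃ N, ∀ N' ≥ N, f = ∑ n ∈ Finset.range N', pr n f := by
  refine Submodule.iSup_induction (motive := fun f : C k A X =>
    ∃ N, ∀ N' ≥ N, f = ∑ n ∈ Finset.range N', pr n f) Cn h (fun m f hf => ⟨m + 1, fun N hN => ?_⟩)
    ⟨0, fun N _ => by simp⟩ fun f g ⟨N, hN⟩ ⟨M, hM⟩ => ⟨max N M, fun L hL => ?_⟩
  · rw [Finset.sum_eq_single_of_mem m (Finset.mem_range.2 hN) fun n _ hn => pr_of_ne hf hn,
      pr_of_mem hf]
  · simp only [map_add, Finset.sum_add_distrib]
    rw [← hN L (le_of_max_le_left hL), ← hM L (le_of_max_le_right hL)]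

theorem C1c_map_Bd (L : C k A X →ₗ[k] C k B Y) (hL : ∀ n, ∀ f ∈ Cn n, L f ∈ Bd) {f : C k A X}
    (h : f ∈ Bd) : L f ∈ Bd :=
  (iSup_le hL : (Bd : Submodule k (C k A X)) ≤ Bd.comap L) h

theorem post_Bd (φ : X →ₗ[k] Y) {f : C k A X} (h : f ∈ Bd) : post φ f ∈ Bd :=
  C1c_map_Bd (post φ) (fun n _ hf => Cn_le_Bd n (post_mem φ hf)) h

theorem pull_Bd (φ : B →ₗ[k] A) {f : C k A X} (h : f ∈ Bd) : pull φ f ∈ Bd :=
  C1c_map_Bd (pull φ) (fun n _ hf => Cn_le_Bd n (pull_mem φ hf)) h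

theorem sg_Bd (s : k) {f : C k A X} (h : f ∈ Bd) : sg s f ∈ Bd := pull_Bd _ h

theorem del_Bd (l r : A →ₗ[k] End k X) {f : C k A X} (h : f ∈ Bd) : del l r f ∈ Bd :=
  C1c_map_Bd (del l r) (fun n _ hf => Cn_le_Bd (n + 1) (del_mem l r hf)) h

theorem cup_Bd (P : X →ₗ[k] Y →ₗ[k] Z) {f : C k A X} {g : C k A Y} (hf : f ∈ Bd) (hg : g ∈ Bd) :
    cup P f g ∈ Bd :=
  C1c_map_Bd (cup P f) (fun n g hg => C1c_map_Bd ((cup P).flip g)
    (fun m _ hf => Cn_le_Bd (m + n) (cup_mem P hf hg)) hf) hg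

theorem Bd_of_post {φ : X →ₗ[k] Y} (hφ : Function.Injective φ) {f : C k A X}
    (h : post φ f ∈ Bd) : f ∈ Bd := by
  obtain ⟨N, hN⟩ := Bd_sum h
  have h1 : post φ (f - ∑ n ∈ Finset.range N, pr n f) = 0 := by
    rw [map_sub, map_sum, sub_eq_zero]
    simpa only [pr_post] using hN N le_rfl
  rw [sub_eq_zero.1 (post_eq_zero hφ h1)]
  exact Submodule.sum_mem _ fun n _ => Cn_le_Bd n (pr_mem n f)

theorem fd_Cn [FiniteDimensional k A] [FiniteDimensional k X] (n : ℕ) :
    FiniteDimensional k (Cn n : Submodule k (C k A X)) := by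
  induction n with
  | zero =>
    refine FiniteDimensional.of_injective (LinearMap.applyₗ (1 : TensorAlgebra k A) ∘ₗ
      (Cn 0 : Submodule k (C k A X)).subtype) fun f g e => Subtype.ext ?_
    rw [eq_cst f.2, eq_cst g.2]
    exact congrArg cst e
  | succ n ih =>
    let L : (Cn (n + 1) : Submodule k (C k A X)) →ₗ[k] A →ₗ[k] (Cn n : Submodule k (C k A X)) :=
      { toFun := fun f => LinearMap.codRestrict _ (tl.flip f.1) (mem_Cn_succ.1 f.2).2
        map_add' := fun f g => LinearMap.ext fun a => Subtype.ext (map_add (tl a) f.1 g.1)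
        map_smul' := fun c f => LinearMap.ext fun a => Subtype.ext (map_smul (tl a) c f.1) }
    refine Module.Finite.of_injective L fun f g e => Subtype.ext ?_
    exact ext_tl ((mem_Cn_succ.1 f.2).1.trans (mem_Cn_succ.1 g.2).1.symm) fun a =>
      congrArg Subtype.val (LinearMap.congr_fun e a)

theorem C1c_tl_one (a : k) (f : C k k X) : tl a f = a • tl (1 : k) f := by
  rw [← LinearMap.smul_apply, ← map_smul, smul_eq_mul, mul_one]

theorem C1c_ext {f g : C k k X} (h1 : f 1 = g 1) (h : tl (1 : k) f = tl (1 : k) g) : f = g :=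
  ext_tl h1 fun a => by rw [C1c_tl_one a f, C1c_tl_one a g, h]

theorem C1c_tl_dl (f : C k k X) : tl (1 : k) (dl (AlgHom.id k k) (trv (AlgHom.id k k) X) f) =
    -dr (trv (AlgHom.id k k) X).toLinearMap (tl (1 : k) f) := by
  have h1 : ab (trv (AlgHom.id k k) X).toLinearMap 1 f = f :=
    ext_tl (by simp) fun b => by rw [tl_ab, one_mul]
  have h2 : post ((trv (AlgHom.id k k) X).toLinearMap 1) f = f :=
    LinearMap.ext fun x => by simp
  rw [dl, tl_del, h1, h2, sub_self, zero_sub]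

theorem C1c_tl_dl' {f : C k k X} (h : f 1 = 0) :
    tl (1 : k) (dl (AlgHom.id k k) (trv (AlgHom.id k k) X) f) =
      f - dl (AlgHom.id k k) (trv (AlgHom.id k k) X) (tl (1 : k) f) := by
  have h1 : lam (trv (AlgHom.id k k) X).toLinearMap (tl (1 : k) f) = f :=
    ext_tl (by rw [lam_one, h]) fun a => by
      rw [tl_lam, C1c_tl_one a f]
      exact LinearMap.ext fun x => by simp
  rw [C1c_tl_dl, dl, del, LinearMap.add_apply, h1]
  abel

theorem C1c_triv {n : ℕ} {f : C k k X} (hf : f ∈ Cn n) :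
    (Even n → tl (1 : k) (dl (AlgHom.id k k) (trv (AlgHom.id k k) X) f) = 0) ∧
      (Odd n → tl (1 : k) (dl (AlgHom.id k k) (trv (AlgHom.id k k) X) f) = f) := by
  induction n generalizing f with
  | zero =>
    refine ⟨fun _ => ?_, fun h => absurd h (by decide)⟩
    rw [C1c_tl_dl, mem_Cn_zero.1 hf, map_zero, neg_zero]
  | succ n ih =>
    obtain ⟨h0, h1⟩ := mem_Cn_succ.1 hf
    rw [C1c_tl_dl' h0]
    refine ⟨fun h => ?_, fun h => ?_⟩
    · rw [sub_eq_zero]
      refine C1c_ext (h0.trans (del_one _ _ _).symm) ((ih (h1 1)).2 ?_).symm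
      exact Nat.not_even_iff_odd.1 (Nat.even_add_one.1 h)
    · rw [sub_eq_self]
      refine C1c_ext (del_one _ _ _) (((ih (h1 1)).1 ?_).trans (map_zero _).symm)
      exact Nat.not_odd_iff_even.1 (Nat.odd_add_one.1 h)

/-- On the ground field a cocycle of odd degree vanishes. -/
theorem triv_odd {n : ℕ} (hn : Odd n) {f : C k k X} (hf : f ∈ Cn n)
    (h : dl (AlgHom.id k k) (trv (AlgHom.id k k) X) f = 0) : f = 0 := by
  rw [← (C1c_triv hf).2 hn, h, map_zero]

/-- On the ground field a cochain of even positive degree is a coboundary. -/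
theorem triv_even {n : ℕ} (hn : Odd n) {f : C k k X} (hf : f ∈ Cn (n + 1)) :
    ∃ g ∈ Cn n, dl (AlgHom.id k k) (trv (AlgHom.id k k) X) g = f := by
  obtain ⟨h0, h1⟩ := mem_Cn_succ.1 hf
  exact ⟨tl (1 : k) f, h1 1, C1c_ext ((del_one _ _ _).trans h0.symm) ((C1c_triv (h1 1)).2 hn)⟩

end EO
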