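import Pool.Agent.P.MP_42c3cc_al.C1c

/-! Insertion of a Hochschild cocycle: a derivation and a homotopy. -/

noncomputable section

namespace EO

open TensorAlgebra LinearMap Module
open scoped TensorProduct

universe u

variable {k : Type u} [Field k] {A : Type u} [Ring A] [Algebra k A]
  {X Y Z : Type u} [AddCommGroup X] [Module k X] [AddCommGroup Y] [Module k Y]
  [AddCommGroup Z] [Module k Z] {B : Type u} [Ring B] [Algebra k B]

theorem C2_front (h : C k A A) (f : C k A X) :
    front h f = cup LinearMap.applyₗ h (cur f) := rfl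

theorem C2_front_one (h : C k A A) (f : C k A X) : front h f 1 = tl (h 1) f 1 := by
  simp [front]

theorem C2_tl_front (h : C k A A) (a : A) (f : C k A X) :
    tl a (front h f) = tl a (tl (h 1) f) + front (tl a h) f := by
  rw [C2_front, C2_front, tl_cup, ← tl_post, post_cur]

theorem C2_front_post (h : C k A A) (φ : X →ₗ[k] Y) (f : C k A X) :
    front h (post φ f) = post φ (front h f) :=
  ext_fam (fun h => front h (post φ f)) (fun h => post φ (front h f))
    (fun h => by simp [C2_front_one])
    (fun x ih a h => by simp [C2_tl_front, ih]) h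

theorem C2_ins_post (s : k) (h : C k A A) (φ : X →ₗ[k] Y) (f : C k A X) :
    ins s h (post φ f) = post φ (ins s h f) :=
  ext_fam (fun f => ins s h (post φ f)) (fun f => post φ (ins s h f))
    (fun f => by simp [ins_one])
    (fun x ih a f => by simp [tl_ins, C2_front_post, ih]) f

theorem C2_front_cup (h : C k A A) (P : X →ₗ[k] Y →ₗ[k] Z) (f : C k A X) (g : C k A Y) :
    front h (cup P f g) = post (P (f 1)) (front h g) + cup P (front h f) g :=
  ext_fam (fun h => front h (cup P f g))
    (fun h => post (P (f 1)) (front h g) + cup P (front h f) g)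
    (fun h => by simp [C2_front_one, tl_cup])
    (fun x ih a h => by
      simp only [C2_tl_front, C2_front_one, tl_cup, map_add, tl_post, LinearMap.add_apply, ih]
      abel) h

theorem ins_cup (s : k) (h : C k A A) (P : X →ₗ[k] Y →ₗ[k] Z) (f : C k A X) (g : C k A Y) :
    ins s h (cup P f g) = cup P (ins s h f) g + cup P (sg s f) (ins s h g) :=
  ext_fam (fun f => ins s h (cup P f g))
    (fun f => cup P (ins s h f) g + cup P (sg s f) (ins s h g))
    (fun f => by simp [ins_one, tl_cup, add_comm])
    (fun x ih a f => by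
      simp only [tl_ins, C2_front_cup, C2_front_one, ins_one, tl_cup, map_add, map_smul, tl_post,
        tl_sg, sg_one, C2_ins_post, LinearMap.add_apply, LinearMap.smul_apply, smul_add, ih]
      abel) f

theorem ins_zero (s : k) (f : C k A X) : ins s 0 f = 0 :=
  ext_fam (fun f => ins s 0 f) (fun _ => 0) (fun f => by simp [ins_one])
    (fun x ih a f => by simp [tl_ins, C2_front, ih]) f

theorem C2_cur_cst (x : X) : cur (cst x : C k A X) = 0 :=
  LinearMap.ext fun y => LinearMap.ext fun a => by simp

theorem ins_cst (s : k) (h : C k A A) (x : X) : ins s h (cst x) = 0 :=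
  ext_tl (by simp [ins_one]) fun a => by simp [tl_ins, C2_front, C2_cur_cst]

theorem C2_pull_front (φ : B →ₗ[k] A) {h : C k A A} {h' : C k B B}
    (e : post φ h' = pull φ h) (f : C k A X) : pull φ (front h f) = front h' (pull φ f) := by
  have e' : cur (pull φ f) = post (LinearMap.lcomp k X φ) (pull φ (cur f)) :=
    LinearMap.ext fun y => LinearMap.ext fun a => by
      rw [cur_apply, tl_pull]
      rfl
  rw [C2_front, C2_front, pull_cup, ← e, cup_post_left, e', cup_post_right]
  rfl

theorem pull_ins (s : k) (φ : B →ₗ[k] A) {h : C k A A} {h' : C k B B}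
    (e : post φ h' = pull φ h) (f : C k A X) :
    pull φ (ins s h f) = ins s h' (pull φ f) :=
  ext_fam (fun f => pull φ (ins s h f)) (fun f => ins s h' (pull φ f))
    (fun f => by
      rw [pull_one, ins_one, ins_one, ← C2_front_one, ← C2_front_one, ← C2_pull_front φ e,
        pull_one])
    (fun x ih a f => by
      simp only [tl_pull, tl_ins, ← C2_pull_front φ e, map_add, map_smul, LinearMap.add_apply,
        LinearMap.smul_apply, ih]) f

theorem C2_ins_lam (s : k) {h : C k A A} (h1 : h 1 = 0) (l : A →ₗ[k] End k X) (f : C k A X) :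
    ins s h (lam l f) = cup l h f + s • lam l (ins s h f) := by
  have e : cur (lam l f) = post l.flip f :=
    LinearMap.ext fun y => LinearMap.ext fun a => by simp
  have e' : front h (lam l f) = cup l h f := by
    rw [C2_front, e, cup_post_right]
    rfl
  exact ext_tl (by simp [ins_one, h1]) fun a => by simp [tl_ins, e', C2_ins_post]

theorem C2_del_zero (r : A →ₗ[k] End k X) (f : C k A X) : del 0 r f = dr r f :=
  ext_tl (by simp) fun a => by simp [tl_del, tl_dr]

theorem C2_tl_dr_cst (r : A →ₗ[k] End k X) (x : X) (a : A) :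
    tl a (dr r (cst x)) = -cst (r a x) := by
  have e : ab r a (cst x) = cst (r a x) :=
    ext_tl (by rw [ab_one, cst_one, cst_one]) fun b => by rw [tl_ab, tl_cst, tl_cst]
  rw [tl_dr, tl_cst, map_zero, sub_zero, e]

theorem C2_cur_dr_cst (r : A →ₗ[k] End k X) (x : X) :
    cur (dr r (cst x)) = -cst (r.flip x) :=
  ext_tl (LinearMap.ext fun a => by
    rw [cur_apply, C2_tl_dr_cst, LinearMap.neg_apply, LinearMap.neg_apply, LinearMap.neg_apply,
      cst_one, cst_one, LinearMap.flip_apply]) fun b => by
    rw [map_neg, tl_cst, neg_zero]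
    refine LinearMap.ext fun y => LinearMap.ext fun a => ?_
    rw [tl_apply, cur_apply, C2_tl_dr_cst, ← tl_apply, map_neg, tl_cst, neg_zero]
    rfl

theorem C2_del_cur (r : A →ₗ[k] End k X) (f : C k A X) :
    del (coind A X).toLinearMap (LinearMap.llcomp k A X X ∘ₗ r) (cur f) =
      -cur (dr r f) - cst (r.flip (f 1)) := by
  have h := del_cur 0 r (f - cst (f 1)) (by simp)
  have z : post (0 : A →ₗ[k] End k X).flip (f - cst (f 1)) = 0 := rfl
  have e1 : cur (f - cst (f 1)) = cur f := by rw [map_sub, C2_cur_cst, sub_zero]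
  have e2 : cur (del 0 r (f - cst (f 1))) = cur (dr r f) + cst (r.flip (f 1)) := by
    rw [C2_del_zero, map_sub, map_sub, C2_cur_dr_cst, sub_neg_eq_add]
  rw [z, e1, e2, zero_sub, neg_add'] at h
  exact h

theorem C2_front_ab (r : A →ₗ[k] End k X) (h : C k A A) (a : A) (f : C k A X) :
    front h (ab r a f) = front (post (LinearMap.mul k A a) h) f := by
  have e2 : cur (ab r a f) = post (LinearMap.lcomp k X (LinearMap.mul k A a)) (cur f) :=
    LinearMap.ext fun y => LinearMap.ext fun b => by simp
  rw [C2_front, C2_front, e2, cup_post_right, cup_post_left]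
  rfl

theorem C2_dr_front0 (r : A →ₗ[k] End k X) (h : C k A A) (f : C k A X) :
    dr r (front h f) = front (dr (LinearMap.mul k A).flip h) f - front (sg (-1) h) (dr r f) -
      post (r.flip (f 1)) (sg (-1) h) := by
  have e := del_cup (lZ := 0) (rZ := r) (lX := 0) (rX := (LinearMap.mul k A).flip)
    (lY := (coind A X).toLinearMap) (rY := LinearMap.llcomp k A X X ∘ₗ r) (P := LinearMap.applyₗ)
    (fun _ _ _ => by simp) (fun _ _ _ => rfl) (fun _ _ _ => rfl) h (cur f)
  rw [C2_del_zero, C2_del_zero, C2_del_cur, map_sub, map_neg, cup_cst_right] at e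
  rw [C2_front, C2_front, C2_front, e, sub_sub, sub_eq_add_neg _ (_ + _), neg_add']
  rfl

theorem C2_dr_front (r : A →ₗ[k] End k X) {s : k} {h : C k A A}
    (hσ : sg (-1) h = (-s) • h) (hd : dH h = 0) (a : A) (f : C k A X) :
    tl a (dr r (front h f)) = -front h (ab r a f) + s • tl a (front h (dr r f)) +
      s • post (r.flip (f 1)) (tl a h) := by
  have e1 : dr (LinearMap.mul k A).flip h = -lam (LinearMap.mul k A) h :=
    eq_neg_of_add_eq_zero_right hd
  have e2 : ∀ (h : C k A A) (f : C k A X), front (-h) f = -front h f := fun h f => by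
    rw [C2_front, C2_front, map_neg, LinearMap.neg_apply]
  have e3 : ∀ (h : C k A A) (f : C k A X), front (s • h) f = s • front h f := fun h f => by
    rw [C2_front, C2_front, map_smul, LinearMap.smul_apply]
  have e4 : sg (-1) h = -(s • h) := hσ.trans (neg_smul s h)
  rw [C2_dr_front0, e1, e4, e2, e2, e3, C2_front_ab]
  simp only [map_sub, map_neg, map_smul, tl_post]
  rw [C2_tl_front, lam_one, map_zero, LinearMap.zero_apply, map_zero, tl_lam]
  abel

theorem C2_ins_dr (r : A →ₗ[k] End k X) {s : k} (hs : s * s = 1) {h : C k A A}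
    (h1 : h 1 = 0) (hσ : sg (-1) h = (-s) • h) (hd : dH h = 0) (f : C k A X) :
    dr r (ins s h f) = s • ins s h (dr r f) + s • cup r.flip (sg (-s) f) h := by
  have e : ∀ a (f : C k A X), ab r a (ins s h f) =
      ins s h (ab r a f) - front h (ab r a f) + ab r a (front h f) := fun a f =>
    ext_tl (by simp [ins_one, C2_front_one, h1]) fun b => by
      simp only [tl_ab, tl_ins, map_add, map_sub]
      abel
  have e' : ∀ a (f : C k A X), dr r (tl a (front h f)) =
      -ab r a (front h f) - tl a (dr r (front h f)) := fun a f => by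
    rw [tl_dr]
    abel
  refine ext_fam (fun f => dr r (ins s h f))
    (fun f => s • ins s h (dr r f) + s • cup r.flip (sg (-s) f) h)
    (fun f => by simp [ins_one, h1]) (fun x ih a f => ?_) f
  rw [tl_dr, tl_ins, map_add, e, e', C2_dr_front r hσ hd]
  simp only [tl_ins, tl_dr, tl_cup, tl_sg, sg_one, map_add, map_sub, map_neg, map_smul,
    LinearMap.add_apply, LinearMap.sub_apply, LinearMap.neg_apply, LinearMap.smul_apply, ih,
    smul_add, smul_sub, smul_neg, neg_smul, smul_smul, hs, one_smul]
  abel

theorem homotopy (ε : A →ₐ[k] k) (ρ : A →ₐ[k] End k X) {s : k} (hs : s * s = 1) {h : C k A A}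
    (h1 : h 1 = 0) (hσ : sg (-1) h = (-s) • h) (hd : dH h = 0) (f : C k A X) :
    dl ε ρ (ins s h f) - s • ins s h (dl ε ρ f)
      = (-s) • (cup ρ.toLinearMap h f - cr (sg (-s) f) (post ε.toLinearMap h)) := by
  have e : cr (sg (-s) f) (post ε.toLinearMap h) =
      cup (trv ε X).toLinearMap.flip (sg (-s) f) h := by
    rw [cr, cup_post_right]
    rfl
  rw [e, dl, del, LinearMap.add_apply, LinearMap.add_apply, map_add, C2_ins_lam s h1,
    C2_ins_dr _ hs h1 hσ hd]
  simp only [smul_add, smul_sub, neg_smul, smul_smul, hs, one_smul]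
  abel

end EO
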