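import Pool.Agent.P.MP_42c3cc_al.D1

/-! A cocycle with values in linear maps is represented by a map of modules. -/

noncomputable section

namespace EO

open TensorAlgebra LinearMap Module
open scoped TensorProduct

universe u

variable {k : Type u} [Field k] {A L K : Type u} [Ring A] [Algebra k A] [Ring L] [Algebra k L]
  [Ring K] [Algebra k K]

section
variable {M N N' : Type u} [AddCommGroup M] [Module k M] [AddCommGroup N] [Module k N]
  [AddCommGroup N'] [Module k N']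

theorem Cone_dl (ε : K →ₐ[k] k) (ρM : K →ₐ[k] End k M) (ρN : K →ₐ[k] End k N)
    (c : C k K (M →ₗ[k] N)) {f : C k K M} (hf : dl ε ρM f = 0) :
    dl ε ρN (cup LinearMap.id c f) = cup LinearMap.id (del (homL M ρN) (homR ρM N) c) f := by
  have h := del_cup (P := (LinearMap.id : (M →ₗ[k] N) →ₗ[k] M →ₗ[k] N)) (lX := homL M ρN)
    (rX := homR ρM N) (lY := ρM.toLinearMap) (rY := (trv ε M).toLinearMap) (lZ := ρN.toLinearMap)
    (rZ := (trv ε N).toLinearMap) (fun _ _ _ => rfl) (fun _ _ _ => rfl)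
    (fun a x y => (trv_apply ε a _).trans ((map_smul x _ y).symm.trans
      (congrArg x (trv_apply ε a y).symm))) c f
  rw [dl] at hf
  rw [hf, map_zero, add_zero] at h
  exact h

theorem Cone_post (ψ : N →ₗ[k] N') (c : C k K (M →ₗ[k] N)) (f : C k K M) :
    post ψ (cup LinearMap.id c f) = cup LinearMap.id (post (llcomp k M N N' ψ) c) f := by
  rw [post_cup, cup_post_left]
  rfl

theorem Cone_pull (j : K →ₐ[k] A) (ρM : A →ₐ[k] End k M) (ρN : A →ₐ[k] End k N)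
    (c : C k A (M →ₗ[k] N)) :
    del (homL M (ρN.comp j)) (homR (ρM.comp j) N) (pull j.toLinearMap c) =
      pull j.toLinearMap (del (homL M ρN) (homR ρM N) c) := by
  rw [pull_del]
  rfl

theorem Cone_cur0 {l r : A →ₗ[k] End k N} {l' r' : A →ₗ[k] End k N'} (φ : (A →ₗ[k] N) →ₗ[k] N')
    {ψ : N →ₗ[k] N'} (hl : ∀ a Φ, φ (coind A N a Φ) = l' a (φ Φ))
    (hr : ∀ a Φ, φ (r a ∘ₗ Φ) = r' a (φ Φ)) (hψ : ∀ x, φ (l.flip x) = ψ x) {d : ℕ} {c : C k A N}
    (hc : c ∈ Cn (d + 1)) (hd : del l r c = 0) : ∃ c1 ∈ Cn d, del l' r' c1 = post ψ c := by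
  refine ⟨post φ (cur c), post_mem _ (cur_mem hc), ?_⟩
  rw [← post_del (l := (coind A N).toLinearMap) (r := llcomp k A N N ∘ₗ r) hl hr,
    del_cur _ _ _ (apply_one_eq_zero hc d.succ_pos), hd, map_zero, sub_zero]
  exact LinearMap.ext fun x => hψ _

/-- Exchange of the two arguments. -/
def Cone_flip {X Y : Type u} [AddCommGroup X] [Module k X] [AddCommGroup Y] [Module k Y]
    (ev : X →ₗ[k] M →ₗ[k] N) (i : (A →ₗ[k] N) →ₗ[k] Y) : (A →ₗ[k] X) →ₗ[k] M →ₗ[k] Y :=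
  llcomp k M _ _ i ∘ₗ (LinearMap.lflip (R := k) (R₀ := k)).toLinearMap ∘ₗ llcomp k A _ _ ev

theorem Cone_cur (ρM : A →ₐ[k] End k M) (ρN : A →ₐ[k] End k N) {c : C k A (M →ₗ[k] N)} {d : ℕ}
    (hc : c ∈ Cn (d + 1)) (hd : del (homL M ρN) (homR ρM N) c = 0) :
    ∃ c1 ∈ Cn d, del (homL M (coind A N)) (homR ρM (A →ₗ[k] N)) c1 =
      post (llcomp k M N (A →ₗ[k] N) (io ρN)) c :=
  Cone_cur0 (Cone_flip LinearMap.id LinearMap.id)
    (fun _ _ => LinearMap.ext fun _ => LinearMap.ext fun _ => rfl)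
    (fun _ _ => LinearMap.ext fun _ => LinearMap.ext fun _ => rfl)
    (fun _ => LinearMap.ext fun _ => LinearMap.ext fun _ => rfl) hc hd

/-- The direct sum of two representations. -/
def Cone_prod (ρ : A →ₐ[k] End k M) (ρ' : A →ₐ[k] End k N) : A →ₐ[k] End k (M × N) :=
  (LinearMap.prodMapAlgHom k M N).comp (ρ.prod ρ')

theorem Cone_fst (ε : K →ₐ[k] k) {ρ : K →ₐ[k] End k M} {ρ' : K →ₐ[k] End k N}
    {ρ'' : K →ₐ[k] End k (M × N)} (h : ∀ a x, ρ'' a x = (ρ a x.1, ρ' a x.2)) (hv : Van ε ρ' 0)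
    (h1 : Eqv ρ'' ρ (LinearMap.fst k M N)) : Shift ε ρ'' ρ 0 (postV ε h1) := by
  have h2 : Eqv ρ'' ρ' (LinearMap.snd k M N) := fun a x => congrArg Prod.snd (h a x)
  have h3 : Eqv ρ ρ'' (LinearMap.inl k M N) := fun a x => by
    rw [h, inl_apply, inl_apply, map_zero]
  have h4 : Eqv ρ' ρ'' (LinearMap.inr k M N) := fun a x => by
    rw [h, inr_apply, inr_apply, map_zero]
  refine ⟨postV_T h1, fun n _ v => ⟨postV ε h3 (prV ε ρ n v), ?_⟩, fun a e ha he v hv0 => ⟨1, ?_⟩⟩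
  · obtain ⟨f, hf⟩ := cl_surj (prV ε ρ n v)
    rw [← hf]
    rfl
  · have e1 : v = postV ε h3 (postV ε h1 v) + postV ε h4 (postV ε h2 v) := by
      obtain ⟨f, rfl⟩ := cl_surj v
      rw [postV_cl, postV_cl, postV_cl, postV_cl, ← map_add]
      refine congrArg _ (Subtype.ext (LinearMap.ext fun x => ?_))
      exact (Prod.fst_add_snd (f.1 x)).symm
    rw [pow_one, e1, hv0, map_zero, zero_add, ← postV_T, T_eq_zero_of_van hv ha he,
      LinearMap.zero_apply, map_zero]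

theorem Cone_step {ε : K →ₐ[k] k} {ρM : K →ₐ[k] End k M} {ρN : K →ₐ[k] End k N}
    {Y : Type u} [AddCommGroup Y] [Module k Y] {ρY : K →ₐ[k] End k Y}
    {ρ' : K →ₐ[k] End k N'} {i : N →ₗ[k] Y} {p : Y →ₗ[k] N'} {h : SES ρN ρY ρ' i p}
    {c : V ε ρ' →ₗ[k] V ε ρN} (hc : Conn ε h c) (hY : Van ε ρY 0) {d : ℕ}
    {Ψ : V ε ρM →ₗ[k] V ε ρ'} (hΨ : Shift ε ρM ρ' d Ψ) : Shift ε ρM ρN (d + 1) (c ∘ₗ Ψ) := by
  refine ⟨fun a v => ?_, fun n hn v => ?_, fun a e ha he v hv => ?_⟩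
  · rw [comp_apply, comp_apply, hΨ.hT, hc.hT]
  · obtain ⟨m, rfl⟩ := Nat.exists_eq_add_one.2 (Nat.zero_lt_of_lt hn)
    obtain ⟨z, hz, hz'⟩ := hc.surj hY m v
    obtain ⟨w, hw⟩ := hΨ.surj m (Nat.le_of_succ_le_succ hn) z
    exact ⟨w, by rw [comp_apply, hw, hz, hz']⟩
  · obtain ⟨r, hr⟩ := hΨ.tors a e ha he (T ε ρM a v)
      ((hΨ.hT a v).trans (hc.ker_T hY ha he hv))
    exact ⟨r + 1, by rw [pow_succ, Module.End.mul_apply, hr]⟩

end

theorem exists_shift [FiniteDimensional k A] {M : Type u} [AddCommGroup M] [Module k M]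
    [FiniteDimensional k M] (ρM : A →ₐ[k] End k M) (d : ℕ) (N : Type u) [AddCommGroup N]
    [Module k N] [FiniteDimensional k N] (ρN : A →ₐ[k] End k N) (c : C k A (M →ₗ[k] N))
    (hc : c ∈ Cn d) (hd : del (homL M ρN) (homR ρM N) c = 0) :
    ∃ (N' : Type u) (_ : AddCommGroup N') (_ : Module k N') (_ : FiniteDimensional k N')
      (ρ' : A →ₐ[k] End k N') (φ : M →ₗ[k] N'), Eqv ρM ρ' φ ∧ Function.Injective φ ∧
      ∀ (K : Type u) [Ring K] [Algebra k K] (j : K →ₐ[k] A) (_ : Proj j) (εK : K →ₐ[k] k)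
        (hφ : Eqv (ρM.comp j) (ρ'.comp j) φ),
        ∃ Ψ, Shift εK (ρ'.comp j) (ρN.comp j) d Ψ ∧
          ∀ (f : Zc εK (ρM.comp j)) (g : Zc εK (ρN.comp j)),
            g.1 = cup LinearMap.id (pull j.toLinearMap c) f.1 →
            Ψ (postV εK hφ (cl _ _ f)) = cl _ _ g := by
  induction d generalizing N with
  | zero =>
    obtain ⟨c1, rfl⟩ : ∃ c1, c = cst c1 := ⟨_, eq_cst hc⟩
    have h1 : Eqv ρM ρN c1 := fun a x => by
      have h := LinearMap.congr_fun (congrArg (tl a) hd) 1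
      rw [tl_del, map_zero, LinearMap.sub_apply, LinearMap.sub_apply, post_apply, ab_one, dr_one,
        cst_one, LinearMap.zero_apply, sub_zero, sub_eq_zero] at h
      exact (LinearMap.congr_fun h x).symm
    refine ⟨N × (A →ₗ[k] M), inferInstance, inferInstance, inferInstance,
      Cone_prod ρN (coind A M), c1.prod (io ρM), fun a x => Prod.ext (h1 a x) (io_eqv ρM a x),
      fun x y h => io_inj ρM (congrArg Prod.snd h), fun K _ _ j hj εK hφ => ?_⟩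
    have h2 : Eqv ((Cone_prod ρN (coind A M)).comp j) (ρN.comp j) (LinearMap.fst k _ _) :=
      fun _ _ => rfl
    refine ⟨postV εK h2, Cone_fst εK (ρ' := (coind A M).comp j) (fun _ _ => rfl)
      (van_coind hj εK M) h2, fun f g hg => ?_⟩
    rw [pull_cst, cup_cst_left] at hg
    rw [postV_cl, postV_cl]
    exact congrArg _ (Subtype.ext hg.symm)
  | succ d ih =>
    obtain ⟨c1, hc1, e1⟩ := Cone_cur ρM ρN hc hd
    have e0 : ∀ x, (LinearMap.range (io ρN)).mkQ (io ρN x) = 0 := fun x =>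
      (Submodule.Quotient.mk_eq_zero _).2 ⟨x, rfl⟩
    have e2 : del (homL M (sgRep ρN)) (homR ρM (Sg ρN))
        (post (llcomp k M _ _ (LinearMap.range (io ρN)).mkQ) c1) = 0 := by
      have h := post_del (l := homL M (coind A N)) (r := homR ρM (A →ₗ[k] N))
        (l' := homL M (sgRep ρN)) (r' := homR ρM (Sg ρN))
        (φ := llcomp k M _ _ (LinearMap.range (io ρN)).mkQ) (fun _ _ => rfl) (fun _ _ => rfl) c1
      rw [← h, e1]
      exact LinearMap.ext fun x => LinearMap.ext fun m => e0 _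
    obtain ⟨N', i1, i2, i3, ρ', φ, hφ0, hinj, H⟩ := ih (Sg ρN) (sgRep ρN) _ (post_mem _ hc1) e2
    refine ⟨N', i1, i2, i3, ρ', φ, hφ0, hinj, fun K _ _ j hj εK hφ => ?_⟩
    obtain ⟨Ψ, hΨ, hl⟩ := H K j hj εK hφ
    obtain ⟨cn, hcn⟩ := exists_conn εK ((ses_Sg ρN).comp j)
    refine ⟨cn ∘ₗ Ψ, Cone_step hcn (van_coind hj εK N) hΨ, fun f g hg => ?_⟩
    have hG : cup LinearMap.id (pull j.toLinearMap c1) f.1 ∈ Bd :=
      cup_Bd _ (pull_Bd _ (Cn_le_Bd d hc1)) f.2.1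
    have e3 : dl εK ((coind A N).comp j) (cup LinearMap.id (pull j.toLinearMap c1) f.1) =
        post (io ρN) g.1 := by
      rw [Cone_dl εK (ρM.comp j) _ _ (mem_Zc.1 f.2).2, Cone_pull, e1, hg, Cone_post, post_pull]
    have hz : post (LinearMap.range (io ρN)).mkQ (cup LinearMap.id (pull j.toLinearMap c1) f.1) ∈
        Zc εK ((sgRep ρN).comp j) := by
      refine mem_Zc.2 ⟨post_Bd _ hG, ?_⟩
      rw [← post_dl εK ((ses_Sg ρN).comp j).hp, e3]
      exact LinearMap.ext fun x => e0 _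
    rw [comp_apply, hl f ⟨_, hz⟩ (Cone_post _ _ _)]
    exact hcn.rel _ ⟨_, hz⟩ g hG rfl e3

theorem exists_cone [FiniteDimensional k A] {M : Type u} [AddCommGroup M] [Module k M]
    [FiniteDimensional k M] (ρ : A →ₐ[k] End k M) {d : ℕ} (hd : 0 < d) (he : Even d)
    {h : C k A A} (hh : h ∈ Cn d) (h0 : dH h = 0) :
    ∃ (N : Type u) (_ : AddCommGroup N) (_ : Module k N) (_ : FiniteDimensional k N)
      (ρ' : A →ₐ[k] End k N) (φ : M →ₗ[k] N), Eqv ρ ρ' φ ∧ Function.Injective φ ∧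
      ∀ (K : Type u) [Ring K] [Algebra k K] (j : K →ₐ[k] A) (_ : Proj j) (εK : K →ₐ[k] k)
        (ρK : K →ₐ[k] End k M) (ρK' : K →ₐ[k] End k N) (_ : ρK = ρ.comp j) (_ : ρK' = ρ'.comp j)
        (hφ : Eqv ρK ρK' φ) (hK : C k K K) (a : Zk εK), hK ∈ Cn d → dH hK = 0 →
        post j.toLinearMap hK = pull j.toLinearMap h → post εK.toLinearMap hK = a.1 →
        ∃ Ψ, Shift εK ρK' ρK d Ψ ∧ ∀ v, Ψ (postV εK hφ v) = T εK ρK a v := by
  have e1 : del (homL M ρ) (homR ρ M) (post ρ.toLinearMap h) = 0 := by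
    rw [← post_del (l := LinearMap.mul k A) (r := (LinearMap.mul k A).flip)
      (fun a x => map_mul ρ a x) fun a x => map_mul ρ x a]
    exact (congrArg _ h0).trans (map_zero _)
  obtain ⟨N, i1, i2, i3, ρ', φ, hφ0, hinj, H⟩ :=
    exists_shift ρ d M ρ (post ρ.toLinearMap h) (post_mem _ hh) e1
  refine ⟨N, i1, i2, i3, ρ', φ, hφ0, hinj,
    fun K _ _ j hj εK ρK ρK' e e' hφ hK a hK1 hK2 hK3 hK4 => ?_⟩
  subst e e'
  obtain ⟨Ψ, hΨ, hl⟩ := H K j hj εK hφ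
  refine ⟨Ψ, hΨ, fun v => ?_⟩
  obtain ⟨f, rfl⟩ := cl_surj v
  have h1 := left_sub_right (ρ.comp j) hd he hK1 hK2 f.2
  rw [hK4] at h1
  have h2 : cup (ρ.comp j).toLinearMap hK f.1 ∈ Zc εK (ρ.comp j) := by
    have h3 := add_mem (Bc_le_Zc _ _ h1) (cr_mem_Zc f.2 a.2)
    rwa [sub_add_cancel] at h3
  have h3 : cup (ρ.comp j).toLinearMap hK f.1 =
      cup LinearMap.id (pull j.toLinearMap (post ρ.toLinearMap h)) f.1 := by
    rw [← post_pull, ← hK3, cup_post_left, cup_post_left]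
    rfl
  rw [hl f ⟨_, h2⟩ h3, T_cl]
  exact cl_eq.2 h1

end EO
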