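import Pool.Agent.P.MP_42c3cc_al.Acyc
import Pool.Agent.P.MP_42c3cc_al.Ab1

/-! Central extensions: definitions. -/

noncomputable section

namespace EO

open TensorAlgebra LinearMap Module
open scoped TensorProduct

universe u

variable {k : Type u} [Field k]

section
variable {A L K : Type u} [Ring A] [Algebra k A] [Ring L] [Algebra k L] [Ring K] [Algebra k K]

/-- `L` is the quotient of `A` by the augmentation ideal of the central algebra `K`. -/
structure Ctr (εL : L →ₐ[k] k) (π : A →ₐ[k] L) (j : K →ₐ[k] A) : Prop where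
  surj : Function.Surjective π
  ker : ∀ a, π a = 0 → a ∈ Ideal.span {b | ∃ x, εL (π (j x)) = 0 ∧ b = j x}
  cen : ∀ x a, j x * a = a * j x
  triv : ∀ x, π (j x) = algebraMap k L (εL (π (j x)))
  proj : Proj j

variable {M N : Type u} [AddCommGroup M] [Module k M] [AddCommGroup N] [Module k N]

/-- Left action on linear maps. -/
def homL (M : Type u) [AddCommGroup M] [Module k M] (ρ : A →ₐ[k] End k N) :
    A →ₗ[k] End k (M →ₗ[k] N) := LinearMap.llcomp k M N N ∘ₗ ρ.toLinearMap

/-- Right action on linear maps. -/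
def homR (ρ : A →ₐ[k] End k M) (N : Type u) [AddCommGroup N] [Module k N] :
    A →ₗ[k] End k (M →ₗ[k] N) := (LinearMap.llcomp k M M N).flip ∘ₗ ρ.toLinearMap

/-- `Ψ` is a shift of degree at most `d`. -/
structure Shift (ε : A →ₐ[k] k) (ρM : A →ₐ[k] End k M) (ρN : A →ₐ[k] End k N) (d : ℕ)
    (Ψ : V ε ρM →ₗ[k] V ε ρN) : Prop where
  hT : ∀ a v, Ψ (T ε ρM a v) = T ε ρN a (Ψ v)
  surj : ∀ n ≥ d, ∀ v, prV ε ρN n v ∈ LinearMap.range Ψ
  tors : ∀ (a : Zk ε) (e : ℕ), a.1 ∈ Cn e → 0 < e → ∀ v, Ψ v = 0 → ∃ r, (T ε ρM a ^ r) v = 0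

end

section
variable {A L K : Type u} [Ring A] [HopfAlgebra k A] [Ring L] [Bialgebra k L] [CommRing K]
  [Algebra k K]

/-- A central Hopf subalgebra. -/
structure CH (j : K →ₐ[k] A) : Prop where
  inj : Function.Injective j
  cen : ∀ x a, j x * a = a * j x
  com : ∀ x, Coalgebra.comul (R := k) (j x) ∈
    LinearMap.range (TensorProduct.map j.toLinearMap j.toLinearMap)
  ant : ∀ x, ∃ y, HopfAlgebra.antipode k (j x) = j y

/-- The quotient by the augmentation ideal of `K`. -/
structure Quo (j : K →ₐ[k] A) (π : A →ₐc[k] L) : Prop where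
  surj : Function.Surjective π
  ker : ∀ a, π a = 0 ↔ a ∈ Ideal.span {b | ∃ x, Coalgebra.counit (R := k) (j x) = 0 ∧ b = j x}

end

end EO
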