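import Pool.Agent.P.MP_42c3cc_al.D1

/-! Periodicity of the cohomology of a truncated polynomial algebra in one variable. -/

noncomputable section

namespace EO

open TensorAlgebra LinearMap Module
open scoped TensorProduct

universe u

variable {k : Type u} [Field k] {K : Type u} [CommRing K] [Algebra k K]

theorem F1_dec {ε : K →ₐ[k] k} {x : K} (hker : ∀ t, ε t = 0 → ∃ s, t = x * s) (a : K) :
    ∃ s, a = ε a • (1 : K) + x * s := by
  obtain ⟨s, hs⟩ := hker (a - ε a • (1 : K)) (by simp)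
  exact ⟨s, by rw [← hs, add_sub_cancel]⟩

/-- The periodicity map. -/
theorem F1_psi (ε : K →ₐ[k] k) (x : K) (N : ℕ) (hε : ε x = 0)
    (hx : x ^ (N + 1) = 0) (hx' : x ^ N ≠ 0) (hker : ∀ t, ε t = 0 → ∃ s, t = x * s)
    (hann : ∀ t, x * t = 0 → ∃ c : k, t = c • x ^ N) :
    ∃ Ψ : V ε (trv ε k) →ₗ[k] V ε (trv ε k),
      (∀ a v, Ψ (T ε (trv ε k) a v) = T ε (trv ε k) a (Ψ v)) ∧
      ∀ n v, ∃ w, prV ε (trv ε k) n w = w ∧ Ψ w = prV ε (trv ε k) (n + 2) v := by
  have hev : Eqv (coind K k) (trv ε k) (LinearMap.applyₗ (x ^ N) : (K →ₗ[k] k) →ₗ[k] k) := by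
    intro a φ
    obtain ⟨s, hs⟩ := F1_dec hker a
    have e : x ^ N * a = ε a • x ^ N := by
      conv_lhs => rw [hs]
      rw [mul_add, ← mul_assoc, ← pow_succ, hx, zero_mul, add_zero, mul_smul_comm, mul_one]
    rw [LinearMap.applyₗ_apply_apply, LinearMap.applyₗ_apply_apply, coind_apply, trv_apply, e,
      map_smul]
  have hU : ∀ a, ∀ φ ∈ LinearMap.ker (LinearMap.applyₗ (x ^ N) : (K →ₗ[k] k) →ₗ[k] k),
      coind K k a φ ∈ LinearMap.ker (LinearMap.applyₗ (x ^ N) : (K →ₗ[k] k) →ₗ[k] k) := by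
    intro a φ hφ
    rw [LinearMap.mem_ker] at hφ ⊢
    rw [hev, hφ, map_zero]
  have s1 : SES (subRep (coind K k) _ hU) (coind K k) (trv ε k) (Submodule.subtype _)
      (LinearMap.applyₗ (x ^ N)) := by
    refine ⟨fun _ _ => rfl, hev, Subtype.val_injective, fun c => ?_,
      (Submodule.range_subtype _).symm⟩
    obtain ⟨φ, hφ⟩ := Module.Projective.exists_dual_eq_one k hx'
    exact ⟨c • φ, by simp [hφ]⟩
  have hp : ∀ φ : K →ₗ[k] k,
      coind K k x φ ∈ LinearMap.ker (LinearMap.applyₗ (x ^ N) : (K →ₗ[k] k) →ₗ[k] k) := by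
    intro φ
    rw [LinearMap.mem_ker, hev, trv_apply, hε, zero_smul]
  have s2 : SES (trv ε k) (coind K k) (subRep (coind K k) _ hU) (io (trv ε k))
      (LinearMap.codRestrict _ (coind K k x) hp) := by
    refine ⟨io_eqv _, fun a φ => Subtype.ext ?_, io_inj _, fun φ => ?_, ?_⟩
    · refine LinearMap.ext fun b => ?_
      change φ (b * x * a) = φ (b * a * x)
      rw [mul_right_comm]
    · have h1 : φ.1 ∈ (LinearMap.ker (LinearMap.mulRight k x)).dualAnnihilator := by
        rw [Submodule.mem_dualAnnihilator]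
        intro t ht
        obtain ⟨c, rfl⟩ := hann t (by rw [mul_comm]; exact ht)
        have h2 : φ.1 (x ^ N) = 0 := φ.2
        rw [map_smul, h2, smul_zero]
      rw [← LinearMap.range_dualMap_eq_dualAnnihilator_ker] at h1
      obtain ⟨ψ, hψ⟩ := h1
      exact ⟨ψ, Subtype.ext hψ⟩
    · rw [LinearMap.ker_codRestrict]
      ext φ
      rw [LinearMap.mem_ker, LinearMap.mem_range]
      constructor
      · intro h
        refine ⟨φ 1, LinearMap.ext fun b => ?_⟩
        obtain ⟨s, hs⟩ := F1_dec hker b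
        have h1 : φ (s * x) = 0 := LinearMap.congr_fun h s
        change trv ε k b (φ 1) = φ b
        conv_rhs => rw [hs]
        rw [trv_apply, map_add, map_smul, mul_comm x, h1, add_zero]
      · rintro ⟨c, rfl⟩
        rw [← io_eqv, trv_apply, hε, zero_smul, map_zero]
  obtain ⟨c1, h1⟩ := exists_conn ε s1
  obtain ⟨c2, h2⟩ := exists_conn ε s2
  refine ⟨c2 ∘ₗ c1, fun a v => ?_, fun n v => ?_⟩
  · rw [LinearMap.comp_apply, LinearMap.comp_apply, h1.hT, h2.hT]
  · obtain ⟨z, hz, hz'⟩ := h2.surj (van_coind_self k) (n + 1) v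
    obtain ⟨w, hw, hw'⟩ := h1.surj (van_coind_self k) n z
    exact ⟨w, hw, by rw [LinearMap.comp_apply, hw', hz, hz']⟩

theorem F1_one (ε : K →ₐ[k] k) : (cst 1 : C k K k) ∈ Zc ε (trv ε k) :=
  ⟨Cn_le_Bd 0 (cst_mem 1), (dl_cst ε (trv ε k) 1).2 fun a => trv_apply ε a 1⟩

theorem F1_cl (ε : K →ₐ[k] k) (g : Zk ε) :
    T ε (trv ε k) g (cl ε (trv ε k) ⟨cst 1, F1_one ε⟩) = cl ε (trv ε k) g := by
  rw [T_cl]
  exact congrArg _ (Subtype.ext (one_cr g.1))

theorem F1_dl (ε : K →ₐ[k] k) (g : C k K k) {a b : K} (ha : ε a = 0) (hb : ε b = 0)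
    (hab : a * b = 0) : tl b (tl a (dl ε (trv ε k) g)) 1 = 0 := by
  rw [dl, tl_del, map_sub, map_sub, tl_ab, tl_dr, tl_post, hab, map_zero]
  simp [ha, hb]

/-- The trivial module. -/
theorem F1_triv [FiniteDimensional k K] (ε : K →ₐ[k] k) (x : K) (N : ℕ) (hN : 0 < N)
    (hε : ε x = 0) (hx : x ^ (N + 1) = 0) (hx' : x ^ N ≠ 0)
    (hker : ∀ t, ε t = 0 → ∃ s, t = x * s) (hann : ∀ t, x * t = 0 → ∃ c : k, t = c • x ^ N)
    {θ : Zk ε} (hθ : Cen ε 2 θ.1) (hne : tl x (tl (x ^ N) θ.1) 1 ≠ 0) :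
    FGT fun _ : Fin 1 => T ε (trv ε k) θ := by
  obtain ⟨Ψ, hT, hs⟩ := F1_psi ε x N hε hx hx' hker hann
  obtain ⟨w, hw, hw'⟩ := hs 0 (cl ε (trv ε k) θ)
  rw [zero_add, prV_cl_of_mem hθ.mem] at hw'
  obtain ⟨f, rfl⟩ := cl_surj w
  have e : cl ε (trv ε k) f = f.1 1 • cl ε (trv ε k) ⟨cst 1, F1_one ε⟩ := by
    rw [← hw, prV_cl, ← map_smul]
    refine congrArg _ (Subtype.ext ?_)
    change cst (f.1 1) = f.1 1 • cst (1 : k)
    rw [← map_smul, smul_eq_mul, mul_one]
  rw [e, map_smul] at hw'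
  have hl : f.1 1 ≠ 0 := by
    intro h
    rw [h, zero_smul] at hw'
    obtain ⟨g, -, hg⟩ := cl_eq_zero.1 hw'.symm
    refine hne ?_
    rw [← hg]
    exact F1_dl ε g (by rw [map_pow, hε, zero_pow hN.ne']) hε (by rw [← pow_succ, hx])
  obtain ⟨U, hU, hU'⟩ := fd_low (ε := ε) (trv ε k) 2
  obtain ⟨s, hs'⟩ := (Submodule.fg_iff_finiteDimensional U).2 hU
  refine nak (gr_V (trv ε k) (fun _ : Fin 1 => θ) (fun _ => 2) fun _ => hθ.mem) 0 two_pos s
    fun W _ hW => eq_top_of_prV _ fun n v => ?_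
  rcases lt_or_ge n 2 with hn | hn
  · refine Submodule.mem_sup_left (Submodule.span_le.2 hW ?_)
    rw [hs']
    exact hU' n hn v
  · obtain ⟨m, rfl⟩ := Nat.exists_eq_add_of_le' hn
    obtain ⟨z, -, hz⟩ := hs m v
    obtain ⟨g, rfl⟩ := cl_surj z
    refine Submodule.mem_sup_right ⟨(f.1 1)⁻¹ • cl ε (trv ε k) g, ?_⟩
    have hc := LinearMap.congr_fun (hθ.comm (trv ε k) g).eq (cl ε (trv ε k) ⟨cst 1, F1_one ε⟩)
    rw [Module.End.mul_apply, Module.End.mul_apply, F1_cl, F1_cl, ← hw', map_smul] at hc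
    rw [← hz, map_smul, hc, smul_smul, inv_mul_cancel₀ hl, one_smul, ← hT, F1_cl]

/-- From the trivial module to all modules. -/
theorem F1_all (ε : K →ₐ[k] k) (x : K) (N : ℕ) (hx : x ^ (N + 1) = 0)
    (hker : ∀ t, ε t = 0 → ∃ s, t = x * s) {θ : Zk ε}
    (h : FGT fun _ : Fin 1 => T ε (trv ε k) θ) : FGAll ε fun _ : Fin 1 => θ := by
  intro M _ _ _ ρ
  generalize hn : finrank k M = n
  induction n using Nat.strong_induction_on generalizing M with
  | _ n ih =>
    rcases subsingleton_or_nontrivial M with hM | hM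
    · have : Subsingleton (V ε ρ) := ⟨fun a b => by
        obtain ⟨f, rfl⟩ := cl_surj a
        obtain ⟨g, rfl⟩ := cl_surj b
        exact congrArg _ (Subsingleton.elim _ _)⟩
      exact fgt_of_fd _
    · obtain ⟨m, hm, hm0⟩ : ∃ m : M, ρ x m = 0 ∧ m ≠ 0 := by
        by_contra hc
        have hi : Function.Injective (ρ x) := by
          rw [← LinearMap.ker_eq_bot, LinearMap.ker_eq_bot']
          intro m hm
          by_contra h0
          exact hc ⟨m, hm, h0⟩
        have hi' := Module.End.iterate_injective hi (N + 1)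
        rw [← map_pow, hx, map_zero] at hi'
        obtain ⟨a, b, hab⟩ := exists_pair_ne M
        exact hab (hi' rfl)
      have hi : Eqv (trv ε k) ρ (LinearMap.toSpanSingleton k M m) := by
        intro a c
        obtain ⟨s, hs⟩ := F1_dec hker a
        have e : ρ a m = ε a • m := by
          conv_lhs => rw [hs]
          rw [map_add, map_smul, map_one, mul_comm x, map_mul, LinearMap.add_apply,
            Module.End.mul_apply, hm, map_zero, add_zero, LinearMap.smul_apply,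
            Module.End.one_apply]
        rw [trv_apply, LinearMap.toSpanSingleton_apply, LinearMap.toSpanSingleton_apply, map_smul,
          e, smul_smul, smul_eq_mul, mul_comm]
      have hinj : Function.Injective (LinearMap.toSpanSingleton k M m) :=
        fun a b hab => smul_left_injective k hm0 hab
      have hs := ses_quot hi hinj
      obtain ⟨c, hc⟩ := exists_conn ε hs
      have hlt : finrank k (M ⧸ LinearMap.range (LinearMap.toSpanSingleton k M m)) < n := by
        have h1 := Submodule.finrank_quotient_add_finrank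
          (LinearMap.range (LinearMap.toSpanSingleton k M m))
        rw [LinearMap.finrank_range_of_inj hinj, finrank_self] at h1
        omega
      exact fgt_exact (postV ε hs.hi) (postV ε hs.hp) (fun _ v => postV_T hs.hi θ v)
        (fun _ v => postV_T hs.hp θ v) hc.exY.le h
        (hilbert (fun _ _ => Commute.refl _) (ih _ hlt _ _ rfl))

theorem good_one [FiniteDimensional k K] (ε : K →ₐ[k] k) (x : K) (N : ℕ) (hN : 0 < N)
    (hx : x ^ (N + 1) = 0) (hx' : x ^ N ≠ 0) (hker : ∀ t, ε t = 0 → ∃ s, t = x * s)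
    (hann : ∀ t, x * t = 0 → ∃ c : k, t = c • x ^ N) {χ : K →ₗ[k] K →ₗ[k] K} (hχ : Sym2c χ)
    (hne : ε (χ (x ^ N) x) ≠ 0) : Good ε := by
  have hε : ε x = 0 := by
    have h := congrArg ε hx
    rw [map_pow, map_zero] at h
    exact eq_zero_of_pow_eq_zero h
  refine ⟨1, fun _ => χ, fun _ => ⟨_, sym2c_mem hχ ε⟩, fun _ => hχ, fun _ => rfl, ?_⟩
  refine F1_all ε x N hx hker (F1_triv ε x N hN hε hx hx' hker hann (sym2c_cen hχ ε) ?_)
  rw [tl_tl_mk2, cst_one]
  exact hne

end EO
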