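import Pool.Agent.P.MP_42c3cc_al.S2

/-! Tensor products. -/

noncomputable section

namespace EO

open TensorAlgebra LinearMap Module
open scoped TensorProduct

universe u

variable {k : Type u} [Field k] {K K' : Type u} [CommRing K] [Algebra k K] [CommRing K']
  [Algebra k K']

theorem good_of_bij {ε : K →ₐ[k] k} {φ : K' →ₐ[k] K} (hφ : Function.Bijective φ) (h : Good ε) :
    Good (ε.comp φ) := by
  obtain ⟨n, χ, θ, hχ, hθ, hF⟩ := h
  let e : K' ≃ₐ[k] K := AlgEquiv.ofBijective φ hφ
  have he : ∀ x, φ (e.symm x) = x := fun x => e.apply_symm_apply x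
  refine ⟨n, fun i => ((χ i).compl₁₂ φ.toLinearMap φ.toLinearMap).compr₂
    e.symm.toLinearEquiv.toLinearMap, fun i => pullZ φ (θ i), fun i => ⟨fun a b => ?_,
      fun a b c => ?_⟩, fun i => ?_, fgAll_pull hφ hF⟩
  · simp [(hχ i).symm (φ a) (φ b)]
  · apply hφ.1
    have := (hχ i).coc (φ a) (φ b) (φ c)
    simpa [he] using this
  · rw [pullZ_coe, hθ i, pull_mk2]
    congr 1
    ext a b
    simp [he]

theorem Fn_sym_left {χ : K →ₗ[k] K →ₗ[k] K} (h : Sym2c χ) :
    Sym2c (TensorProduct.map₂ χ (LinearMap.mul k K')) := by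
  constructor
  · intro a b
    induction a using TensorProduct.induction_on with
    | zero => simp
    | add x y hx hy => simp only [map_add, LinearMap.add_apply, hx, hy]
    | tmul a a' =>
      induction b using TensorProduct.induction_on with
      | zero => simp
      | add x y hx hy => simp only [map_add, LinearMap.add_apply, hx, hy]
      | tmul b b' => simp [h.symm a b, mul_comm a' b']
  · intro a b c
    induction a using TensorProduct.induction_on with
    | zero => simp
    | add x y hx hy =>
      simp only [map_add, LinearMap.add_apply, add_mul]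
      linear_combination hx + hy
    | tmul a a' =>
      induction b using TensorProduct.induction_on with
      | zero => simp
      | add x y hx hy =>
        simp only [map_add, LinearMap.add_apply, add_mul, mul_add]
        linear_combination hx + hy
      | tmul b b' =>
        induction c using TensorProduct.induction_on with
        | zero => simp
        | add x y hx hy =>
          simp only [map_add, mul_add]
          linear_combination hx + hy
        | tmul c c' =>
          simp only [Algebra.TensorProduct.tmul_mul_tmul, TensorProduct.map₂_apply_tmul,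
            TensorProduct.map_tmul, LinearMap.mul_apply', mul_assoc a' b' c']
          rw [← TensorProduct.sub_tmul, ← TensorProduct.add_tmul, ← TensorProduct.sub_tmul,
            h.coc a b c, TensorProduct.zero_tmul]

theorem Fn_sym_right {χ : K' →ₗ[k] K' →ₗ[k] K'} (h : Sym2c χ) :
    Sym2c (TensorProduct.map₂ (LinearMap.mul k K) χ) := by
  constructor
  · intro a b
    induction a using TensorProduct.induction_on with
    | zero => simp
    | add x y hx hy => simp only [map_add, LinearMap.add_apply, hx, hy]
    | tmul a a' =>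
      induction b using TensorProduct.induction_on with
      | zero => simp
      | add x y hx hy => simp only [map_add, LinearMap.add_apply, hx, hy]
      | tmul b b' => simp [h.symm a' b', mul_comm a b]
  · intro a b c
    induction a using TensorProduct.induction_on with
    | zero => simp
    | add x y hx hy =>
      simp only [map_add, LinearMap.add_apply, add_mul]
      linear_combination hx + hy
    | tmul a a' =>
      induction b using TensorProduct.induction_on with
      | zero => simp
      | add x y hx hy =>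
        simp only [map_add, LinearMap.add_apply, add_mul, mul_add]
        linear_combination hx + hy
      | tmul b b' =>
        induction c using TensorProduct.induction_on with
        | zero => simp
        | add x y hx hy =>
          simp only [map_add, mul_add]
          linear_combination hx + hy
        | tmul c c' =>
          simp only [Algebra.TensorProduct.tmul_mul_tmul, TensorProduct.map₂_apply_tmul,
            TensorProduct.map_tmul, LinearMap.mul_apply', mul_assoc a b c]
          rw [← TensorProduct.tmul_sub, ← TensorProduct.tmul_add, ← TensorProduct.tmul_sub,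
            h.coc a' b' c', TensorProduct.tmul_zero]

theorem Fn_proj :
    Proj (Algebra.TensorProduct.includeLeft : K →ₐ[k] K ⊗[k] K') := by
  refine ⟨TensorProduct.map
    (Algebra.TensorProduct.includeRight : K' →ₐ[k] K ⊗[k] K').toLinearMap LinearMap.id ∘ₗ
      (TensorProduct.comm k K K').toLinearMap, fun a => ?_, fun a x => ?_⟩
  · induction a using TensorProduct.induction_on with
    | zero => simp
    | add x y hx hy => rw [map_add, map_add, hx, hy]
    | tmul a a' => simp
  · induction a using TensorProduct.induction_on with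
    | zero => simp
    | add y z hy hz => rw [add_mul, map_add, map_add, hy, hz, add_mul]
    | tmul a a' => simp

theorem Fn_ctr (εL : K' →ₐ[k] k) (π : K ⊗[k] K' →ₐ[k] K') (εK : K →ₐ[k] k)
    (hπ : ∀ a b, π (a ⊗ₜ b) = εK a • b) :
    Ctr εL π (Algebra.TensorProduct.includeLeft : K →ₐ[k] K ⊗[k] K') := by
  refine ⟨fun b => ⟨1 ⊗ₜ b, by simp [hπ]⟩, fun a ha => ?_, fun x a => mul_comm _ _,
    fun x => ?_, Fn_proj⟩
  · have key : ∀ a : K ⊗[k] K', a - 1 ⊗ₜ π a ∈ Ideal.span {b | ∃ x, εL (π
        ((Algebra.TensorProduct.includeLeft : K →ₐ[k] K ⊗[k] K') x)) = 0 ∧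
        b = (Algebra.TensorProduct.includeLeft : K →ₐ[k] K ⊗[k] K') x} := by
      intro a
      induction a using TensorProduct.induction_on with
      | zero => simp
      | add x y hx hy =>
        have := Ideal.add_mem _ hx hy
        rw [map_add, TensorProduct.tmul_add]
        convert this using 1
        abel
      | tmul a b =>
        have h1 : a ⊗ₜ[k] b - 1 ⊗ₜ π (a ⊗ₜ b) = (1 ⊗ₜ b) *
            (Algebra.TensorProduct.includeLeft : K →ₐ[k] K ⊗[k] K') (a - εK a • 1) := by
          simp [hπ, TensorProduct.sub_tmul, mul_sub, TensorProduct.smul_tmul']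
        rw [h1]
        refine Ideal.mul_mem_left _ _ (Ideal.subset_span ⟨a - εK a • 1, ?_, rfl⟩)
        simp [hπ]
    have := key a
    rwa [ha, TensorProduct.tmul_zero, sub_zero] at this
  · simp [hπ, Algebra.algebraMap_eq_smul_one]

theorem Fn_aux [FiniteDimensional k K] [FiniteDimensional k K'] (εL : K' →ₐ[k] k)
    (π : K ⊗[k] K' →ₐ[k] K') (εK : K →ₐ[k] k) (hπ : ∀ a b, π (a ⊗ₜ b) = εK a • b)
    (h : Good ((εL.comp π).comp Algebra.TensorProduct.includeLeft)) (h' : Good εL) :
    Good (εL.comp π) := by
  obtain ⟨n, χ, θ, hχ, hθ, hF⟩ := h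
  obtain ⟨n', χ', θ', hχ', hθ', hF'⟩ := h'
  let j : K →ₐ[k] K ⊗[k] K' := Algebra.TensorProduct.includeLeft
  let χ1 : Fin n → K ⊗[k] K' →ₗ[k] K ⊗[k] K' →ₗ[k] K ⊗[k] K' :=
    fun i => TensorProduct.map₂ (χ i) (LinearMap.mul k K')
  let χ2 : Fin n' → K ⊗[k] K' →ₗ[k] K ⊗[k] K' →ₗ[k] K ⊗[k] K' :=
    fun i => TensorProduct.map₂ (LinearMap.mul k K) (χ' i)
  have s1 : ∀ i, Sym2c (χ1 i) := fun i => Fn_sym_left (hχ i)
  have s2' : ∀ i, Sym2c (χ2 i) := fun i => Fn_sym_right (hχ' i)
  let ζ : Fin n → Zk (εL.comp π) := fun i =>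
    ⟨mk2 ((χ1 i).compr₂ (εL.comp π).toLinearMap), sym2c_mem (s1 i) _⟩
  have e2 : ∀ i, (pullZ π (θ' i)).1 = mk2 ((χ2 i).compr₂ (εL.comp π).toLinearMap) := by
    intro i
    rw [pullZ_coe, hθ' i, pull_mk2]
    congr 1
    refine TensorProduct.ext' fun a b => TensorProduct.ext' fun a' b' => ?_
    simp [χ2, hπ, mul_left_comm, mul_assoc]
  have e1 : (fun i => pullZ j (ζ i)) = θ := by
    funext i
    refine Subtype.ext ?_
    rw [pullZ_coe, hθ i, pull_mk2]
    congr 1
    ext a b
    simp [χ1, j]
  have main := s2 (Fn_ctr εL π εK hπ) hF' (fun _ => 2)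
    (fun i => by rw [e2 i]; exact sym2c_cen (s2' i) _) ζ (fun _ => 2) (fun i => mk2 (χ1 i))
    (fun i => mk2 (χ i)) (fun _ => ⟨by norm_num, even_two⟩)
    (fun i => ⟨mk2_mem _, sym2c_dH (s1 i)⟩) (fun i => post_mk2 _ _)
    (fun i => ⟨mk2_mem _, sym2c_dH (hχ i)⟩)
    (fun i => by
      rw [post_mk2, pull_mk2]
      congr 1
      ext a b
      simp [χ1])
    (by
      change FGAll _ fun i => pullZ j (ζ i)
      rw [e1]; exact hF)
  refine ⟨n' + n, fun i => Sum.elim χ2 χ1 (finSumFinEquiv.symm i),
    fun i => Sum.elim (fun i => pullZ π (θ' i)) ζ (finSumFinEquiv.symm i), fun i => ?_,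
    fun i => ?_, fun M _ _ _ ρ => ?_⟩
  · beta_reduce
    rcases finSumFinEquiv.symm i with i | i
    · exact s2' i
    · exact s1 i
  · beta_reduce
    rcases finSumFinEquiv.symm i with i | i
    · exact e2 i
    · rfl
  · refine fgt_mono (fun i => ⟨finSumFinEquiv i, ?_⟩) (main M ρ)
    beta_reduce
    rw [Equiv.symm_apply_apply]

theorem good_tensor [FiniteDimensional k K] [FiniteDimensional k K'] (ε : K ⊗[k] K' →ₐ[k] k)
    (h : Good (ε.comp Algebra.TensorProduct.includeLeft))
    (h' : Good (ε.comp Algebra.TensorProduct.includeRight)) : Good ε := by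
  let εK : K →ₐ[k] k := ε.comp Algebra.TensorProduct.includeLeft
  let π : K ⊗[k] K' →ₐ[k] K' := Algebra.TensorProduct.lift ((Algebra.ofId k K').comp εK)
    (AlgHom.id k K') (fun _ _ => Commute.all _ _)
  have hπ : ∀ a b, π (a ⊗ₜ b) = εK a • b := fun a b => by
    simp [π, Algebra.smul_def, Algebra.ofId_apply]
  have e : (ε.comp Algebra.TensorProduct.includeRight).comp π = ε := by
    refine AlgHom.toLinearMap_injective (TensorProduct.ext' fun a b => ?_)
    have h1 : a ⊗ₜ[k] b = (a ⊗ₜ[k] (1 : K')) * ((1 : K) ⊗ₜ[k] b) := by simp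
    simp only [AlgHom.toLinearMap_apply, AlgHom.comp_apply, hπ, map_smul, smul_eq_mul]
    rw [h1, map_mul]
    rfl
  have := Fn_aux (ε.comp Algebra.TensorProduct.includeRight) π εK hπ (by rw [e]; exact h) h'
  rwa [e] at this

end EO
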