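import Pool.Agent.P.MP_42c3cc_al.D1

/-! A Hopf algebra is free over a local central Hopf subalgebra. -/

noncomputable section

namespace EO

open TensorAlgebra LinearMap Module
open scoped TensorProduct

universe u

variable {k : Type u} [Field k] {A L K : Type u} [Ring A] [HopfAlgebra k A] [Ring L]
  [Bialgebra k L] [CommRing K] [Algebra k K]

/-- The Galois map of a Hopf algebra reaches `1 ⊗ b`. -/
theorem Free_galois (W : Submodule k (A ⊗[k] A))
    (hW : ∀ c e : A, (c ⊗ₜ[k] (1 : A)) * Coalgebra.comul (R := k) e ∈ W) (b : A) :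
    (1 : A) ⊗ₜ[k] b ∈ W := by
  let F : A ⊗[k] (A ⊗[k] A) →ₗ[k] A ⊗[k] A :=
    (LinearMap.mul' k A ∘ₗ (HopfAlgebra.antipode k (A := A)).rTensor A).rTensor A ∘ₗ
      (TensorProduct.assoc k A A A).symm.toLinearMap
  have h1 : ∀ (x : A) (t : A ⊗[k] A),
      F (x ⊗ₜ t) = (HopfAlgebra.antipode k x ⊗ₜ[k] (1 : A)) * t := by
    intro x t
    induction t with
    | zero => simp
    | tmul y z => simp [F]
    | add s t hs ht => rw [TensorProduct.tmul_add, map_add, hs, ht, mul_add]
  have h2 : ∀ t : A ⊗[k] A, F ((Coalgebra.comul (R := k) (A := A)).lTensor A t) ∈ W := by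
    intro t
    induction t with
    | zero => simp
    | tmul y z => rw [LinearMap.lTensor_tmul, h1]; exact hW _ _
    | add s t hs ht => rw [map_add, map_add]; exact W.add_mem hs ht
  have h3 := h2 (Coalgebra.comul b)
  rw [← Coalgebra.coassoc_apply] at h3
  have h4 : F (TensorProduct.assoc k A A A ((Coalgebra.comul (R := k) (A := A)).rTensor A
      (Coalgebra.comul b))) = (1 : A) ⊗ₜ[k] b := by
    simp only [F, LinearMap.comp_apply, LinearEquiv.coe_coe, LinearEquiv.symm_apply_apply]
    rw [← LinearMap.comp_apply, ← LinearMap.rTensor_comp, LinearMap.comp_assoc,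
      HopfAlgebra.mul_antipode_rTensor_comul, LinearMap.rTensor_comp, LinearMap.comp_apply,
      Coalgebra.rTensor_counit_comul]
    simp
  rwa [h4] at h3

/-- The coaction of the quotient. -/
def Free_gam (π : A →ₐc[k] L) : A →ₐ[k] A ⊗[k] L :=
  (Algebra.TensorProduct.map (AlgHom.id k A) (π : A →ₐ[k] L)).comp (Bialgebra.comulAlgHom k A)

theorem Free_pi_j {j : K →ₐ[k] A} {π : A →ₐc[k] L} (hπ : Quo j π) (z : K) :
    π (j z) = Coalgebra.counit (R := k) (j z) • (1 : L) := by
  have h : π (j (z - algebraMap k K (Coalgebra.counit (R := k) (j z)))) = 0 := by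
    rw [hπ.ker]
    refine Ideal.subset_span ⟨_, ?_, rfl⟩
    rw [map_sub, map_sub, AlgHom.commutes, Bialgebra.counit_algebraMap, sub_self]
  rw [map_sub, map_sub, AlgHom.commutes, sub_eq_zero] at h
  rw [h, ← Algebra.algebraMap_eq_smul_one]
  exact (π : A →ₐ[k] L).commutes _

theorem Free_gam_j {j : K →ₐ[k] A} (hj : CH j) {π : A →ₐc[k] L} (hπ : Quo j π) (x : K) :
    Free_gam π (j x) = j x ⊗ₜ[k] (1 : L) := by
  obtain ⟨t, ht⟩ := hj.com x
  have h : ∀ t : K ⊗[k] K, Algebra.TensorProduct.map (AlgHom.id k A) (π : A →ₐ[k] L)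
      (TensorProduct.map j.toLinearMap j.toLinearMap t) =
      TensorProduct.rid k A ((Coalgebra.counit (R := k) (A := A)).lTensor A
        (TensorProduct.map j.toLinearMap j.toLinearMap t)) ⊗ₜ[k] (1 : L) := by
    intro t
    induction t with
    | zero => simp
    | tmul y z =>
      have := Free_pi_j hπ z
      simp [this, TensorProduct.smul_tmul]
    | add s t hs ht => simp only [map_add, hs, ht, TensorProduct.add_tmul]
  have h2 := h t
  rw [ht, Coalgebra.lTensor_counit_comul] at h2
  simpa [Free_gam] using h2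

theorem free_of_local [FiniteDimensional k A] {j : K →ₐ[k] A} (hj : CH j) {π : A →ₐc[k] L}
    (hπ : Quo j π) (hloc : ∀ x, Coalgebra.counit (R := k) (j x) = 0 → IsNilpotent x) :
    Proj j ∧ ∃ E : A →ₗ[k] K, (∀ a x, E (a * j x) = E a * x) ∧ E 1 = 1 ∧
      ∀ a, Coalgebra.counit (R := k) (j (E a)) = Coalgebra.counit (R := k) a := by
  classical
  let _ : Algebra K A := j.toRingHom.toAlgebra' hj.cen
  have hsm : ∀ (x : K) (a : A), x • a = j x * a := fun _ _ => rfl
  have : IsScalarTower k K A := ⟨fun c x a => by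
    rw [hsm, hsm, map_smul, smul_mul_assoc]⟩
  have : Module.Finite K A := Module.Finite.of_restrictScalars_finite k K A
  have : FiniteDimensional k L :=
    Module.Finite.of_surjective (π : A →ₐ[k] L).toLinearMap hπ.surj
  let bL := Module.finBasis k L
  choose b hb using fun i => hπ.surj (bL i)
  let m : Ideal K := RingHom.ker ((Bialgebra.counitAlgHom k A).comp j)
  have hm : m ≤ Ideal.jacobson ⊥ := by
    refine le_trans ?_ (nilradical_le_jacobson K |>.trans (le_of_eq ?_))
    · intro x hx
      exact mem_nilradical.2 (hloc x hx)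
    · exact (Ideal.jacobson_bot).symm
  have hsp : ⊤ ≤ Submodule.span K (Set.range b) := by
    refine Submodule.le_of_le_smul_of_le_jacobson_bot Module.Finite.fg_top hm ?_
    intro a _
    have h1 : π (a - ∑ i, bL.repr (π a) i • b i) = 0 := by
      rw [map_sub, map_sum]
      simp only [map_smul, hb]
      rw [bL.sum_repr, sub_self]
    rw [hπ.ker] at h1
    have h2 : ∀ y ∈ Ideal.span {b | ∃ x, Coalgebra.counit (R := k) (j x) = 0 ∧ b = j x},
        ∀ c : A, c * y ∈ m • (⊤ : Submodule K A) := by
      intro y hy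
      induction hy using Submodule.span_induction with
      | mem y hy =>
        obtain ⟨x, hx, rfl⟩ := hy
        intro c
        rw [← hj.cen, ← hsm]
        exact Submodule.smul_mem_smul hx trivial
      | zero => intro c; simp
      | add y z _ _ hy hz => intro c; rw [mul_add]; exact add_mem (hy c) (hz c)
      | smul e y _ hy => intro c; rw [smul_eq_mul, ← mul_assoc]; exact hy _
    have h3 := h2 _ h1 1
    rw [one_mul] at h3
    have h4 : ∑ i, bL.repr (π a) i • b i ∈ Submodule.span K (Set.range b) :=
      sum_mem fun i _ => Submodule.smul_of_tower_mem _ _ (Submodule.subset_span ⟨i, rfl⟩)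
    have := Submodule.add_mem_sup h4 h3
    rwa [add_sub_cancel] at this
  let Φ : (Fin (finrank k L) → A) →ₗ[k] A ⊗[k] L :=
    ∑ i, LinearMap.mulRight k (Free_gam π (b i)) ∘ₗ
      (TensorProduct.mk k A L).flip 1 ∘ₗ LinearMap.proj i
  have hΦ : ∀ a, Φ a = ∑ i, (a i ⊗ₜ[k] (1 : L)) * Free_gam π (b i) := by
    intro a
    simp [Φ, LinearMap.sum_apply]
  have hΦj : ∀ (c : A) (x : Fin (finrank k L) → K),
      Φ (fun i => c * j (x i)) = (c ⊗ₜ[k] (1 : L)) * Free_gam π (∑ i, x i • b i) := by
    intro c x
    rw [hΦ, map_sum, Finset.mul_sum]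
    refine Finset.sum_congr rfl fun i _ => ?_
    rw [hsm, map_mul, Free_gam_j hj hπ, ← mul_assoc, Algebra.TensorProduct.tmul_mul_tmul, one_mul]
  have hsurj : Function.Surjective Φ := by
    have h1 : ∀ c e : A, (c ⊗ₜ[k] (1 : L)) * Free_gam π e ∈ LinearMap.range Φ := by
      intro c e
      obtain ⟨x, rfl⟩ := (Submodule.mem_span_range_iff_exists_fun K).1 (hsp (Submodule.mem_top : e ∈ ⊤))
      exact ⟨_, hΦj c x⟩
    intro t
    change t ∈ LinearMap.range Φ
    induction t with
    | zero => simp
    | add s t hs ht => exact add_mem hs ht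
    | tmul a l =>
      obtain ⟨e, rfl⟩ := hπ.surj l
      have h2 := Free_galois (k := k) ((LinearMap.range Φ).comap
        (LinearMap.mulLeft k (a ⊗ₜ[k] (1 : L)) ∘ₗ
          (Algebra.TensorProduct.map (AlgHom.id k A) (π : A →ₐ[k] L)).toLinearMap)) (by
          intro c e
          have := h1 (a * c) e
          simp only [Submodule.mem_comap, LinearMap.comp_apply, AlgHom.toLinearMap_apply,
            map_mul, LinearMap.mulLeft_apply, Algebra.TensorProduct.map_tmul, map_one,
            AlgHom.id_apply, ← mul_assoc, Algebra.TensorProduct.tmul_mul_tmul, one_mul]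
          exact this) e
      simpa using h2
  have hinj : Function.Injective Φ := by
    refine (LinearMap.injective_iff_surjective_of_finrank_eq_finrank ?_).2 hsurj
    rw [Module.finrank_tensorProduct, Module.finrank_pi_fintype]
    simp [mul_comm]
  have hli : LinearIndependent K b := by
    rw [Fintype.linearIndependent_iff]
    intro x hx i
    have h1 := hΦj 1 x
    rw [hx, map_zero, mul_zero, ← map_zero Φ] at h1
    have h2 := congrFun (hinj h1) i
    simp only [one_mul, Pi.zero_apply] at h2
    exact hj.inj (h2.trans (map_zero j).symm)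
  let B : Basis (Fin (finrank k L)) K A := Basis.mk hli hsp
  have hB : ∀ a, ∑ i, j (B.repr a i) * b i = a := by
    intro a
    have := B.sum_repr a
    simpa only [B, Basis.mk_apply, hsm] using this
  have hBj : ∀ a x i, B.repr (a * j x) i = B.repr a i * x := by
    intro a x i
    rw [← hj.cen, ← hsm, map_smul, Finsupp.smul_apply, smul_eq_mul, mul_comm]
  refine ⟨⟨∑ i, TensorProduct.mk k A K (b i) ∘ₗ (B.coord i).restrictScalars k, ?_, ?_⟩, ?_⟩
  · intro a
    simp only [LinearMap.sum_apply, map_sum, LinearMap.comp_apply, LinearMap.restrictScalars_apply,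
      Basis.coord_apply, TensorProduct.mk_apply, TensorProduct.lift.tmul, LinearMap.compl₂_apply,
      LinearMap.mul_apply', AlgHom.toLinearMap_apply, ← hj.cen]
    exact hB a
  · intro a x
    simp only [LinearMap.sum_apply, LinearMap.comp_apply, LinearMap.restrictScalars_apply,
      Basis.coord_apply, TensorProduct.mk_apply, Finset.sum_mul,
      Algebra.TensorProduct.tmul_mul_tmul, mul_one, hBj]
  · let E0 : A →ₗ[k] K := ∑ i, Coalgebra.counit (R := k) (b i) • (B.coord i).restrictScalars k
    have hE0 : ∀ a, E0 a = ∑ i, Coalgebra.counit (R := k) (b i) • B.repr a i := by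
      intro a
      simp [E0, LinearMap.sum_apply]
    have h1 : ∀ a x, E0 (a * j x) = E0 a * x := by
      intro a x
      simp only [hE0, hBj, Finset.sum_mul, smul_mul_assoc]
    have h2 : ∀ a, Coalgebra.counit (R := k) (j (E0 a)) = Coalgebra.counit (R := k) a := by
      intro a
      conv_rhs => rw [← hB a]
      simp only [hE0, map_sum, map_smul, Bialgebra.counit_mul, smul_eq_mul, mul_comm]
    have hu : IsUnit (E0 1) := by
      have h3 : IsNilpotent (1 - E0 1) := by
        refine hloc _ ?_
        rw [map_sub, map_sub, h2, map_one, sub_self]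
      simpa using h3.isUnit_one_sub
    obtain ⟨v, hv⟩ := hu.exists_left_inv
    have hv1 : Coalgebra.counit (R := k) (j v) = 1 := by
      have := congrArg (fun y => Coalgebra.counit (R := k) (j y)) hv
      simpa [h2] using this
    refine ⟨LinearMap.mulLeft k v ∘ₗ E0, ?_, ?_, ?_⟩
    · intro a x
      simp [h1, mul_assoc]
    · simpa using hv
    · intro a
      simp [h2, hv1]

end EO
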