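import Pool.Agent.P.MP_42c3cc_al.D1

/-! The subalgebra generated by the p-th powers. -/

noncomputable section

namespace EO

open TensorAlgebra LinearMap Module
open scoped TensorProduct

universe u

variable {k : Type u} [Field k] {A K : Type u} [Ring A] [HopfAlgebra k A] [CommRing K] [Algebra k K]

theorem Frob_add_pow (k : Type u) [Field k] (p : ℕ) [Fact p.Prime] [CharP k p] {R : Type u}
    [CommRing R] [Algebra k R] (x y : R) : (x + y) ^ p = x ^ p + y ^ p := by
  rcases subsingleton_or_nontrivial R with h | h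
  · exact Subsingleton.elim _ _
  · have := charP_of_injective_algebraMap (algebraMap k R).injective p
    exact add_pow_char x y p

theorem Frob_ant_pow (a : A) (n : ℕ) :
    HopfAlgebra.antipode k (a ^ n) = HopfAlgebra.antipode k a ^ n := by
  induction n with
  | zero => rw [pow_zero, pow_zero, HopfAlgebra.antipode_one]
  | succ n ih => rw [pow_succ, HopfAlgebra.antipode_mul_antidistrib, ih, pow_succ']

theorem Frob_ant_alg (r : k) : HopfAlgebra.antipode k (algebraMap k A r) = algebraMap k A r := by
  rw [Algebra.algebraMap_eq_smul_one, map_smul, HopfAlgebra.antipode_one]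

theorem CH.frob (p : ℕ) [Fact p.Prime] [CharP k p] {j : K →ₐ[k] A} (hj : CH j) :
    CH (j.comp (Algebra.adjoin k (Set.range fun x : K => x ^ p)).val) := by
  have hp : p ≠ 0 := (Fact.out : p.Prime).ne_zero
  have hB : ∀ x : K, x ^ p ∈ Algebra.adjoin k (Set.range fun x : K => x ^ p) := fun x =>
    Algebra.subset_adjoin ⟨x, rfl⟩
  have hle : ∀ S : Subalgebra k K, (∀ x, x ^ p ∈ S) →
      Algebra.adjoin k (Set.range fun x : K => x ^ p) ≤ S := fun S h =>
    Algebra.adjoin_le (Set.range_subset_iff.2 h)
  refine ⟨hj.inj.comp Subtype.val_injective, fun x => hj.cen x.1, fun x => ?_, fun x => ?_⟩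
  · generalize Algebra.adjoin k (Set.range fun x : K => x ^ p) = B at *
    have h1 : ∀ t : K ⊗[k] K, t ^ p ∈ (Algebra.TensorProduct.map B.val B.val).range := fun t => by
      induction t using TensorProduct.induction_on with
      | zero =>
        rw [zero_pow hp]
        exact zero_mem _
      | tmul a b =>
        rw [Algebra.TensorProduct.tmul_pow]
        exact ⟨⟨_, hB a⟩ ⊗ₜ ⟨_, hB b⟩, rfl⟩
      | add a b ha hb =>
        rw [Frob_add_pow k]
        exact add_mem ha hb
    refine hle (((Algebra.TensorProduct.map (j.comp B.val) (j.comp B.val)).range).comap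
      ((Bialgebra.comulAlgHom k A).comp j)) (fun z => ?_) x.2
    obtain ⟨t, ht⟩ := hj.com z
    obtain ⟨s, hs⟩ := h1 t
    refine ⟨s, ?_⟩
    rw [map_pow, Algebra.TensorProduct.map_comp]
    change Algebra.TensorProduct.map j j (Algebra.TensorProduct.map B.val B.val s) = _
    rw [show Algebra.TensorProduct.map B.val B.val s = t ^ p from hs, map_pow]
    exact congrArg (· ^ p) ht
  · obtain ⟨x, hx⟩ := x
    change ∃ y, HopfAlgebra.antipode k (j x) = _
    induction hx using Algebra.adjoin_induction with
    | mem x hx =>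
      obtain ⟨z, rfl⟩ := hx
      obtain ⟨y, hy⟩ := hj.ant z
      refine ⟨⟨_, hB y⟩, ?_⟩
      rw [map_pow, Frob_ant_pow, hy, ← map_pow]
      rfl
    | algebraMap r => exact ⟨algebraMap k _ r, by rw [AlgHom.commutes, AlgHom.commutes, Frob_ant_alg]⟩
    | add a b _ _ ha hb =>
      obtain ⟨y, hy⟩ := ha
      obtain ⟨z, hz⟩ := hb
      exact ⟨y + z, by rw [map_add, map_add, map_add, hy, hz]⟩
    | mul a b _ _ ha hb =>
      obtain ⟨y, hy⟩ := ha
      obtain ⟨z, hz⟩ := hb
      exact ⟨z * y, by rw [map_mul, HopfAlgebra.antipode_mul_antidistrib, hy, hz, map_mul]⟩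

theorem idem_of_frob (p : ℕ) [Fact p.Prime] [CharP k p] (ε : K →ₐ[k] k)
    (h : Algebra.adjoin k (Set.range fun x : K => x ^ p) = ⊤) :
    IsIdempotentElem (RingHom.ker ε) := by
  have h0 : ∀ y : K, y - algebraMap k K (ε y) ∈ RingHom.ker ε := fun y => by
    rw [RingHom.mem_ker, map_sub, AlgHom.commutes, Algebra.algebraMap_self_apply, sub_self]
  have h1 : ∀ y : K, y - algebraMap k K (ε y) ∈ RingHom.ker ε * RingHom.ker ε := fun y => by
    have hy : y ∈ Algebra.adjoin k (Set.range fun x : K => x ^ p) := h ▸ Algebra.mem_top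
    induction hy using Algebra.adjoin_induction with
    | mem x hx =>
      obtain ⟨z, rfl⟩ := hx
      have e := Frob_add_pow k p (z - algebraMap k K (ε z)) (algebraMap k K (ε z))
      rw [sub_add_cancel] at e
      obtain ⟨n, hn⟩ := Nat.exists_eq_add_of_le' (Fact.out : p.Prime).two_le
      rw [map_pow, map_pow, sub_eq_of_eq_add e, hn, pow_add, pow_two]
      exact Ideal.mul_mem_left _ _ (Ideal.mul_mem_mul (h0 z) (h0 z))
    | algebraMap r =>
      rw [AlgHom.commutes, Algebra.algebraMap_self_apply, sub_self]
      exact zero_mem _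
    | add a b _ _ ha hb =>
      rw [map_add, map_add, add_sub_add_comm]
      exact add_mem ha hb
    | mul a b _ _ ha hb =>
      have e : a * b - algebraMap k K (ε (a * b)) = b * (a - algebraMap k K (ε a)) +
          algebraMap k K (ε a) * (b - algebraMap k K (ε b)) := by
        rw [map_mul, map_mul]
        ring
      rw [e]
      exact add_mem (Ideal.mul_mem_left _ _ ha) (Ideal.mul_mem_left _ _ hb)
  refine le_antisymm Ideal.mul_le_right fun y hy => ?_
  have := h1 y
  rwa [(RingHom.mem_ker.1 hy : ε y = 0), map_zero, sub_zero] at this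

theorem ch_primitive {x : A} (hx : Coalgebra.comul (R := k) x = x ⊗ₜ 1 + 1 ⊗ₜ x)
    (hc : ∀ a, x * a = a * x) :
    Coalgebra.counit (R := k) x = 0 ∧ CH (Ideal.kerLiftAlg (Polynomial.aeval (R := k) x)) := by
  have h0 : Coalgebra.counit (R := k) x = 0 := by
    have h := Coalgebra.rTensor_counit_comul (R := k) x
    rw [hx, map_add, rTensor_tmul, rTensor_tmul, Bialgebra.counit_one, add_eq_right] at h
    have := congrArg (fun t => Coalgebra.counit (R := k) (TensorProduct.lid k A t)) h
    simpa using this
  have hS : HopfAlgebra.antipode k x = -x := by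
    have h := HopfAlgebra.mul_antipode_rTensor_comul_apply (R := k) x
    rw [hx, h0, map_add, map_add, rTensor_tmul, rTensor_tmul, mul'_apply, mul'_apply,
      HopfAlgebra.antipode_one, mul_one, one_mul, map_zero] at h
    exact eq_neg_of_add_eq_zero_left h
  refine ⟨h0, Ideal.kerLiftAlg_injective _, fun y a => ?_, fun y => ?_, fun y => ?_⟩ <;>
    obtain ⟨f, rfl⟩ := Ideal.Quotient.mk_surjective y <;> rw [Ideal.kerLiftAlg_mk]
  · induction f using Polynomial.induction_on' with
    | add f g hf hg => rw [map_add, add_mul, mul_add, hf, hg]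
    | monomial n r =>
      rw [Polynomial.aeval_monomial, ← Algebra.smul_def, smul_mul_assoc, mul_smul_comm,
        ((show Commute x a from hc a).pow_left n).eq]
  · have e : (Bialgebra.comulAlgHom k A).comp (Polynomial.aeval x) =
        (Algebra.TensorProduct.map (Ideal.kerLiftAlg (Polynomial.aeval (R := k) x))
          (Ideal.kerLiftAlg (Polynomial.aeval (R := k) x))).comp (Polynomial.aeval
            (Ideal.Quotient.mk _ Polynomial.X ⊗ₜ 1 + 1 ⊗ₜ Ideal.Quotient.mk _ Polynomial.X)) := by
      refine Polynomial.algHom_ext ?_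
      simp only [AlgHom.comp_apply, Polynomial.aeval_X, map_add, Algebra.TensorProduct.map_tmul,
        Ideal.kerLiftAlg_mk, map_one]
      exact hx
    exact ⟨_, (DFunLike.congr_fun e f).symm⟩
  · have : ∃ g, HopfAlgebra.antipode k (Polynomial.aeval x f) = Polynomial.aeval (R := k) x g := by
      induction f using Polynomial.induction_on' with
      | add f g hf hg =>
        obtain ⟨y, hy⟩ := hf
        obtain ⟨z, hz⟩ := hg
        exact ⟨y + z, by rw [map_add, map_add, map_add, hy, hz]⟩
      | monomial n r =>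
        refine ⟨r • (-Polynomial.X) ^ n, ?_⟩
        rw [Polynomial.aeval_monomial, ← Algebra.smul_def, map_smul, map_smul, Frob_ant_pow, hS,
          map_pow, map_neg, Polynomial.aeval_X]
    obtain ⟨g, hg⟩ := this
    exact ⟨Ideal.Quotient.mk _ g, hg⟩

end EO
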