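import Pool.Agent.P.MP_42c3cc_al.C1c

/-! Scalar cochains of a bialgebra lift to Hochschild cochains. -/

noncomputable section

namespace EO

open TensorAlgebra LinearMap Module
open scoped TensorProduct

universe u

variable {k : Type u} [Field k] {A : Type u} [Ring A] [Bialgebra k A]
  {L : Type u} [Ring L] [Bialgebra k L]

/-- `hat f (a₁, ..., aₙ) = a₁' ... aₙ' f (a₁'', ..., aₙ'')`. -/
def hat : C k A k →ₗ[k] C k A A :=
  LinearMap.lcomp k A (TensorAlgebra.lift k
      ((ι k : A →ₗ[k] TensorAlgebra k A).lTensor A ∘ₗ Coalgebra.comul)).toLinearMap ∘ₗ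
    LinearMap.llcomp k _ _ A (TensorProduct.rid k A).toLinearMap ∘ₗ LinearMap.lTensorHom A

theorem hat_apply (f : C k A k) (x : TensorAlgebra k A) : hat f x = TensorProduct.rid k A
    (f.lTensor A (TensorAlgebra.lift k
      ((ι k : A →ₗ[k] TensorAlgebra k A).lTensor A ∘ₗ Coalgebra.comul) x)) := rfl

theorem hat_one (f : C k A k) : hat f 1 = f 1 • (1 : A) := by
  rw [hat_apply, map_one, Algebra.TensorProduct.one_def, lTensor_tmul, TensorProduct.rid_tmul]

/-- The recursion step of `hat`. -/
def hatG (G : A →ₗ[k] C k A k →ₗ[k] C k A k) : A ⊗[k] A →ₗ[k] C k A k →ₗ[k] C k A A :=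
  TensorProduct.lift
    ((LinearMap.llcomp k _ _ _).compl₁₂ (post ∘ₗ LinearMap.mul k A) (G.compr₂ hat))

theorem hatG_tmul (G : A →ₗ[k] C k A k →ₗ[k] C k A k) (a b : A) (f : C k A k) :
    hatG G (a ⊗ₜ b) f = post (LinearMap.mul k A a) (hat (G b f)) := rfl

theorem hat_tl (a : A) (f : C k A k) : tl a (hat f) = hatG tl (Coalgebra.comul a) f := by
  refine LinearMap.ext fun x => ?_
  rw [tl_apply, hat_apply, map_mul, lift_ι_apply, comp_apply]
  induction (Coalgebra.comul a : A ⊗[k] A) using TensorProduct.induction_on with
  | zero => simp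
  | add s t hs ht => simp only [map_add, add_mul, LinearMap.add_apply, hs, ht]
  | tmul b c =>
    rw [hatG_tmul, post_apply, hat_apply, lTensor_tmul]
    induction (TensorAlgebra.lift k ((ι k : A →ₗ[k] TensorAlgebra k A).lTensor A ∘ₗ
      Coalgebra.comul) x) using TensorProduct.induction_on with
    | zero => simp
    | add s t hs ht => simp only [map_add, mul_add, hs, ht]
    | tmul d y => simp [tl_apply]

theorem post_hat (f : C k A k) : post (Bialgebra.counitAlgHom k A).toLinearMap (hat f) = f := by
  refine ext_fam (fun f => post (Bialgebra.counitAlgHom k A).toLinearMap (hat f)) (fun f => f)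
    (fun f => by simp [hat_one]) (fun x ih a f => ?_) f
  have h : ∀ t : A ⊗[k] A, post (Bialgebra.counitAlgHom k A).toLinearMap (hatG tl t f) x =
      tl (TensorProduct.lid k A ((Coalgebra.counit : A →ₗ[k] k).rTensor A t)) f x := fun t => by
    induction t using TensorProduct.induction_on with
    | zero => simp
    | add s t hs ht => simp only [map_add, LinearMap.add_apply, hs, ht]
    | tmul b c =>
      have := ih (tl c f)
      simp only [post_apply, AlgHom.toLinearMap_apply, Bialgebra.counitAlgHom_apply] at this
      simp [hatG_tmul, this]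
  rw [tl_post, hat_tl, h, Coalgebra.rTensor_counit_comul, TensorProduct.lid_tmul, one_smul]

theorem hat_lam (f : C k A k) : lam (LinearMap.mul k A) (hat f) =
    hat (lam (trv (Bialgebra.counitAlgHom k A) k).toLinearMap f) := by
  refine ext_tl (by simp [hat_one]) fun a => ?_
  have h : ∀ t : A ⊗[k] A, hatG tl t (lam (trv (Bialgebra.counitAlgHom k A) k).toLinearMap f) =
      post (LinearMap.mul k A (TensorProduct.rid k A
        ((Coalgebra.counit : A →ₗ[k] k).lTensor A t))) (hat f) := fun t => by
    induction t using TensorProduct.induction_on with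
    | zero => simp
    | add s t hs ht => simp only [map_add, LinearMap.add_apply, hs, ht]
    | tmul b c =>
      have : post ((trv (Bialgebra.counitAlgHom k A) k).toLinearMap c) f =
          (Coalgebra.counit c : k) • f := LinearMap.ext fun x => by simp
      rw [hatG_tmul, tl_lam, this]
      simp
  rw [tl_lam, hat_tl, h, Coalgebra.lTensor_counit_comul, TensorProduct.rid_tmul, one_smul]

theorem hat_ab (a : A) (f : C k A k) : ab (LinearMap.mul k A).flip a (hat f) =
    hatG (ab (trv (Bialgebra.counitAlgHom k A) k).toLinearMap) (Coalgebra.comul a) f := by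
  refine ext_tl ?_ fun b => ?_
  · have h : ∀ t : A ⊗[k] A, hatG (ab (trv (Bialgebra.counitAlgHom k A) k).toLinearMap) t f 1 =
        f 1 • TensorProduct.rid k A ((Coalgebra.counit : A →ₗ[k] k).lTensor A t) := fun t => by
      induction t using TensorProduct.induction_on with
      | zero => simp
      | add s t hs ht => simp only [map_add, LinearMap.add_apply, hs, ht, smul_add]
      | tmul b c => simp [hatG_tmul, hat_one, smul_smul, mul_comm]
    rw [h, Coalgebra.lTensor_counit_comul]
    simp [hat_one]
  · rw [tl_ab, hat_tl, Bialgebra.comul_mul]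
    induction (Coalgebra.comul a : A ⊗[k] A) using TensorProduct.induction_on with
    | zero => simp
    | add s t hs ht => simp only [map_add, add_mul, LinearMap.add_apply, hs, ht]
    | tmul c d =>
      rw [hatG_tmul, tl_post, hat_tl]
      induction (Coalgebra.comul b : A ⊗[k] A) using TensorProduct.induction_on with
      | zero => simp
      | add s t hs ht => simp only [map_add, mul_add, LinearMap.add_apply, hs, ht]
      | tmul e g =>
        rw [Algebra.TensorProduct.tmul_mul_tmul, hatG_tmul, hatG_tmul, tl_ab]
        exact LinearMap.ext fun x => mul_assoc _ _ _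

theorem hat_post_dr (a : A) (g : C k A A) :
    post (LinearMap.mul k A a) (dr (LinearMap.mul k A).flip g) =
      dr (LinearMap.mul k A).flip (post (LinearMap.mul k A a) g) := by
  have e : ∀ g : C k A A, del 0 (LinearMap.mul k A).flip g = dr (LinearMap.mul k A).flip g :=
    fun g => by
      have : lam (0 : A →ₗ[k] End k A) g = 0 := ext_tl (by simp) fun b => by simp
      rw [del, LinearMap.add_apply, this, zero_add]
  rw [← e, ← e]
  exact post_del (fun _ _ => by simp) (fun b x => (mul_assoc a x b).symm) g

theorem hat_dr (f : C k A k) : dr (LinearMap.mul k A).flip (hat f) =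
    hat (dr (trv (Bialgebra.counitAlgHom k A) k).toLinearMap f) := by
  refine ext_fam (fun f => dr (LinearMap.mul k A).flip (hat f))
    (fun f => hat (dr (trv (Bialgebra.counitAlgHom k A) k).toLinearMap f))
    (fun f => by simp [hat_one]) (fun x ih a f => ?_) f
  rw [tl_dr, hat_ab, hat_tl, hat_tl]
  induction (Coalgebra.comul a : A ⊗[k] A) using TensorProduct.induction_on with
  | zero => simp
  | add s t hs ht =>
    simp only [map_add, LinearMap.add_apply, ← hs, ← ht, LinearMap.sub_apply, LinearMap.neg_apply]
    abel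
  | tmul b c =>
    rw [hatG_tmul, hatG_tmul, hatG_tmul, tl_dr, ← hat_post_dr]
    simp only [map_sub, map_neg, LinearMap.sub_apply, LinearMap.neg_apply, post_apply, ih]

theorem dH_hat (f : C k A k) : dH (hat f)
    = hat (dl (Bialgebra.counitAlgHom k A) (trv (Bialgebra.counitAlgHom k A) k) f) := by
  rw [dH, dl, del, del, LinearMap.add_apply, LinearMap.add_apply, map_add, hat_lam, hat_dr]

theorem hatG_mem {f : C k A k} {W : Submodule k (C k A A)}
    (h : ∀ a b, post (LinearMap.mul k A a) (hat (tl b f)) ∈ W) (t : A ⊗[k] A) :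
    hatG tl t f ∈ W := by
  induction t using TensorProduct.induction_on with
  | zero => rw [map_zero]; exact W.zero_mem
  | add s t hs ht => rw [map_add]; exact W.add_mem hs ht
  | tmul b c => exact h b c

theorem hat_mem {n : ℕ} {f : C k A k} (h : f ∈ Cn n) : hat f ∈ Cn n := by
  induction n generalizing f with
  | zero =>
    refine mem_Cn_zero.2 fun a => ?_
    rw [hat_tl]
    exact hatG_mem (W := ⊥) (fun b c => by simp [mem_Cn_zero.1 h c]) _
  | succ n ih =>
    refine mem_Cn_succ.2 ⟨by rw [hat_one, (mem_Cn_succ.1 h).1, zero_smul], fun a => ?_⟩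
    rw [hat_tl]
    exact hatG_mem (fun b c => post_mem _ (ih ((mem_Cn_succ.1 h).2 c))) _

theorem post_hat_pull (π : A →ₐc[k] L) (y : C k L k) :
    post (π : A →ₐ[k] L).toLinearMap (hat (pull (π : A →ₐ[k] L).toLinearMap y))
      = pull (π : A →ₐ[k] L).toLinearMap (hat y) := by
  refine ext_fam
    (fun y => post (π : A →ₐ[k] L).toLinearMap (hat (pull (π : A →ₐ[k] L).toLinearMap y)))
    (fun y => pull (π : A →ₐ[k] L).toLinearMap (hat y))
    (fun y => by simp [hat_one]) (fun x ih a y => ?_) y
  have e : (Coalgebra.comul ((π : A →ₐ[k] L).toLinearMap a) : L ⊗[k] L) = TensorProduct.map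
      (π : A →ₐ[k] L).toLinearMap (π : A →ₐ[k] L).toLinearMap (Coalgebra.comul a) :=
    (LinearMap.congr_fun (CoalgHomClass.map_comp_comul π) a).symm
  rw [tl_post, tl_pull, hat_tl, hat_tl, e]
  induction (Coalgebra.comul a : A ⊗[k] A) using TensorProduct.induction_on with
  | zero => simp
  | add s t hs ht => simp only [map_add, LinearMap.add_apply, hs, ht]
  | tmul b c =>
    rw [TensorProduct.map_tmul, hatG_tmul, hatG_tmul, tl_pull, ← post_pull, post_apply, post_apply,
      post_apply, ← ih]
    exact map_mul (π : A →ₐ[k] L) _ _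

theorem hat_step {K : Type u} [Ring K] [Algebra k K] (j : K →ₐ[k] A)
    (hK : ∀ x, Coalgebra.comul (R := k) (j x) ∈
      LinearMap.range (TensorProduct.map j.toLinearMap j.toLinearMap)) (W : Submodule k A)
    {f : C k A k} {x : TensorAlgebra k K}
    (h : ∀ b c : K, j b * pull j.toLinearMap (hat (tl (j c) f)) x ∈ W) (a : K) :
    tl a (pull j.toLinearMap (hat f)) x ∈ W := by
  obtain ⟨t, ht⟩ := hK a
  rw [tl_pull, hat_tl, show j.toLinearMap a = j a from rfl, ← ht]
  clear ht
  induction t using TensorProduct.induction_on with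
  | zero => simp
  | add s t hs ht =>
    simp only [map_add, LinearMap.add_apply]
    exact W.add_mem hs ht
  | tmul b c => exact h b c

theorem hat_sub {K : Type u} [Ring K] [Algebra k K] (j : K →ₐ[k] A) (hj : Function.Injective j)
    (hK : ∀ x, Coalgebra.comul (R := k) (j x) ∈
      LinearMap.range (TensorProduct.map j.toLinearMap j.toLinearMap)) (f : C k A k) :
    ∃ h : C k K K, post j.toLinearMap h = pull j.toLinearMap (hat f) := by
  have h : ∀ (x : TensorAlgebra k K) (f : C k A k), pull j.toLinearMap (hat f) x ∈ j.range := by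
    intro x
    induction x using word_ind with
    | h1 => exact fun f => by rw [pull_one, hat_one]; exact j.range.smul_mem j.range.one_mem _
    | hm a x ih =>
      exact fun f => hat_step j hK (Subalgebra.toSubmodule j.range)
        (fun b c => j.range.mul_mem ⟨b, rfl⟩ (ih _)) a
    | ha x y hx hy => exact fun f => by rw [map_add]; exact j.range.add_mem (hx f) (hy f)
    | hs c x hx => exact fun f => by rw [map_smul]; exact j.range.smul_mem (hx f) c
  choose g hg using fun x => h x f
  have hg' : ∀ x, j (g x) = pull j.toLinearMap (hat f) x := hg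
  exact ⟨⟨⟨g, fun x y => hj (by rw [map_add, hg', hg', hg', map_add])⟩,
    fun c x => hj (by simp only [RingHom.id_apply, map_smul, hg'])⟩, LinearMap.ext hg'⟩

theorem hat_sub_zero {K : Type u} [Ring K] [Algebra k K] (j : K →ₐ[k] A)
    (hK : ∀ x, Coalgebra.comul (R := k) (j x) ∈
      LinearMap.range (TensorProduct.map j.toLinearMap j.toLinearMap)) {f : C k A k}
    (hf : pull j.toLinearMap f = 0) : pull j.toLinearMap (hat f) = 0 := by
  refine ext_fam
    (fun f : {f : C k A k // pull j.toLinearMap f = 0} => pull j.toLinearMap (hat f.1))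
    (fun _ => 0) (fun f => ?_) (fun x ih a f => ?_) ⟨f, hf⟩
  · rw [pull_one, hat_one, ← pull_one j.toLinearMap, f.2, LinearMap.zero_apply, zero_smul,
      LinearMap.zero_apply]
  · refine hat_step j hK ⊥ (fun b c => ?_) a
    have := ih ⟨tl (j c) f.1, (tl_pull _ c f.1).symm.trans (by rw [f.2, map_zero])⟩
    exact (congrArg (j b * ·) this).trans (mul_zero _)

end EO
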