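import Pool.Agent.P.MP_42c3cc_al.D1
import Pool.Agent.P.MP_42c3cc_al.Hat

/-! Finite generation over the cohomology ring and over finitely many even classes. -/

noncomputable section

namespace EO

open TensorAlgebra LinearMap Module
open scoped TensorProduct

universe u

variable {k : Type u} [Field k]

theorem H6_dH {A : Type u} [Ring A] [Bialgebra k A] (z : Zk (Bialgebra.counitAlgHom k A)) :
    dH (hat z.1) = 0 := by
  rw [dH_hat, (mem_Zc.1 z.2).2, map_zero]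

theorem cen_of_bialg {A : Type u} [Ring A] [Bialgebra k A] {ε : A →ₐ[k] k}
    (hε : ε = Bialgebra.counitAlgHom k A) {d : ℕ} (hd : 0 < d) (he : Even d) {z : Zk ε}
    (hz : z.1 ∈ Cn d) : Cen ε d z.1 := by
  subst hε
  exact ⟨hd, he, hat z.1, hat_mem hz, H6_dH z, post_hat z.1⟩

section
variable {A : Type u} [Ring A] [Algebra k A] {ε : A →ₐ[k] k}
  {X : Type u} [AddCommGroup X] [Module k X]

theorem H6_cls {ρ : A →ₐ[k] End k X} {r : ℕ} {d : Fin r → ℕ} {x : Fin r → C k A X}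
    (hx : ∀ i, x i ∈ Zc ε ρ) {n : ℕ} (W : Submodule k (V ε ρ))
    (hW : ∀ (i : Fin r) (m : ℕ) (a : Zk ε), a.1 ∈ Cn m → m + d i = n →
      T ε ρ a (cl ε ρ ⟨x i, hx i⟩) ∈ W) (f : Zc ε ρ)
    (hf : f.1 ∈ AddSubgroup.closure {z | ∃ (i : Fin r) (m : ℕ) (a : C k A k), a ∈ Cn m ∧
        dl ε (trv ε k) a = 0 ∧ m + d i = n ∧ z = cr (x i) a} ⊔ (Bc ε ρ).toAddSubgroup) :
    cl ε ρ f ∈ W := by
  have key : AddSubgroup.closure {z | ∃ (i : Fin r) (m : ℕ) (a : C k A k), a ∈ Cn m ∧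
        dl ε (trv ε k) a = 0 ∧ m + d i = n ∧ z = cr (x i) a} ⊔ (Bc ε ρ).toAddSubgroup ≤
      ((W.comap (cl ε ρ)).map (Zc ε ρ).subtype).toAddSubgroup := by
    refine sup_le ((AddSubgroup.closure_le _).2 ?_) ?_
    · rintro _ ⟨i, m, a, ha, h0, hm, rfl⟩
      have haZ : a ∈ Zc ε (trv ε k) := ⟨Cn_le_Bd m ha, h0⟩
      exact ⟨⟨cr (x i) a, cr_mem_Zc (hx i) haZ⟩, hW i m ⟨a, haZ⟩ ha hm, rfl⟩
    · intro y hy
      refine ⟨⟨y, Bc_le_Zc ε ρ hy⟩, ?_, rfl⟩
      show cl ε ρ _ ∈ W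
      rw [cl_eq_zero.2 hy]
      exact W.zero_mem
  obtain ⟨g, hg, e⟩ := key hf
  have : g = f := Subtype.ext e
  exact this ▸ hg

/-- Scalar cocycles that keep `W`. -/
def H6_keep (ρ : A →ₐ[k] End k X) (W : Submodule k (V ε ρ)) : Submodule k (Zk ε) where
  carrier := {b | ∀ v ∈ W, T ε ρ b v ∈ W}
  add_mem' := fun {a b} ha hb v hv => by
    rw [T_add]; exact W.add_mem (ha v hv) (hb v hv)
  zero_mem' := fun v hv => by
    have := T_smul ρ (0 : k) (0 : Zk ε)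
    rw [zero_smul, zero_smul] at this
    rw [this]; exact W.zero_mem
  smul_mem' := fun c a ha v hv => by
    rw [T_smul]; exact W.smul_mem c (ha v hv)

theorem H6_keep_of_cl {ρ : A →ₐ[k] End k X} {W : Submodule k (V ε ρ)} {b : Zk ε}
    (h : cl ε (trv ε k) b ∈ (H6_keep ρ W).map (cl ε (trv ε k))) : b ∈ H6_keep ρ W := by
  obtain ⟨b', hb', e⟩ := h
  intro v hv
  rw [← T_congr ρ (cl_eq.1 e)]
  exact hb' v hv

theorem H6_keep_zero {ρ : A →ₐ[k] End k X} (W : Submodule k (V ε ρ)) {b : Zk ε}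
    (h : b.1 ∈ Cn 0) : b ∈ H6_keep ρ W := by
  intro v hv
  obtain ⟨f, rfl⟩ := cl_surj v
  have e : T ε ρ b (cl ε ρ f) = b.1 1 • cl ε ρ f := by
    rw [T_cl, ← map_smul]
    congr 1
    refine Subtype.ext ?_
    show cr f.1 b.1 = b.1 1 • f.1
    have h1 : b.1 = b.1 1 • (cst (1 : k) : C k A k) := by
      rw [← map_smul, smul_eq_mul, mul_one]; exact eq_cst h
    conv_lhs => rw [h1]
    rw [map_smul, cr_one]
  rw [e]
  exact W.smul_mem _ hv

theorem H6_gen [FiniteDimensional k A] (h : FGcAll ε) :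
    ∃ (r : ℕ) (R : Fin r → Zk ε) (d : Fin r → ℕ), (∀ i, (R i).1 ∈ Cn (d i + 1)) ∧ FGAll ε R := by
  classical
  obtain ⟨r, d, x, hx, hgen⟩ := h (Sg (trv ε k)) (sgRep (trv ε k))
  obtain ⟨c, hc⟩ := exists_conn ε (ses_Sg (trv ε k))
  have hxZ : ∀ i, x i ∈ Zc ε (sgRep (trv ε k)) := fun i => ⟨Cn_le_Bd _ (hx i).1, (hx i).2⟩
  choose R hR hRc using fun i => exists_homog (ρ := trv ε k) (d i + 1)
    (c (cl ε _ ⟨x i, hxZ i⟩))
  have hRc' : ∀ i, cl ε (trv ε k) (R i) = c (cl ε _ ⟨x i, hxZ i⟩) := fun i => by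
    rw [hRc, ← hc.deg, prV_cl_of_mem (hx i).1]
  refine ⟨r, R, d, hR, fun M _ _ _ ρ => ?_⟩
  have hA : ∀ W : Submodule k (V ε ρ), Stab (fun i => T ε ρ (R i)) W →
      ∀ n, ∀ a : Zk ε, a.1 ∈ Cn n → a ∈ H6_keep ρ W := by
    intro W hW n
    induction n using Nat.strong_induction_on with
    | _ n ih =>
      intro a ha
      cases n with
      | zero => exact H6_keep_zero W ha
      | succ n =>
        obtain ⟨z, hz, hcz⟩ := hc.surj (van_coind_self k) n (cl ε _ a)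
        obtain ⟨f, hf, hfz⟩ := exists_homog n z
        rw [hz] at hfz
        rw [prV_cl_of_mem ha, ← hfz] at hcz
        refine H6_keep_of_cl ?_
        rw [← hcz]
        refine H6_cls (d := d) hxZ (n := n)
          (((H6_keep ρ W).map (cl ε (trv ε k))).comap c) ?_ f (hgen n f.1 hf (mem_Zc.1 f.2).2)
        intro i m b hb hm
        refine Submodule.mem_comap.2 ?_
        rw [hc.hT, ← hRc', T_cl]
        refine ⟨_, ?_, rfl⟩
        intro v hv
        rw [T_mul ρ (a := R i) (b := b) rfl]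
        exact ih m (by omega) b hb _ (hW i v hv)
  obtain ⟨r', d', x', hx', hgen'⟩ := h M ρ
  have hxZ' : ∀ i, x' i ∈ Zc ε ρ := fun i => ⟨Cn_le_Bd _ (hx' i).1, (hx' i).2⟩
  refine ⟨Finset.univ.image fun i => cl ε ρ ⟨x' i, hxZ' i⟩, fun W hW hs => ?_⟩
  refine (eq_top_of_prV W fun n v => ?_).ge
  obtain ⟨f, hf, e⟩ := exists_homog n v
  rw [← e]
  refine H6_cls (d := d') hxZ' (n := n) W ?_ f (hgen' n f.1 hf (mem_Zc.1 f.2).2)
  intro i m b hb _
  exact hA W hW m b hb _ (hs (by simp))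

end

theorem fam_of_fgc {A : Type u} [Ring A] [Bialgebra k A] [FiniteDimensional k A] {ε : A →ₐ[k] k}
    (hε : ε = Bialgebra.counitAlgHom k A) (h : FGcAll ε) :
    ∃ (n : ℕ) (θ : Fin n → Zk ε) (d : Fin n → ℕ),
      (∀ i, (θ i).1 ∈ Cn (d i) ∧ 0 < d i ∧ Even (d i)) ∧ FGAll ε θ := by
  obtain ⟨r, R, d, hR, hF⟩ := H6_gen h
  subst hε
  refine ⟨r, fun i => ⟨cpow (R i).1 2, cpow_mem_Zc _ 2⟩, fun i => (d i + 1) * 2,
    fun i => ⟨cpow_mem (hR i) 2, by positivity, ⟨d i + 1, mul_two _⟩⟩, fun M _ _ _ ρ => ?_⟩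
  have := fgt_pow (fun i j => quasi_comm ρ (Nat.succ_pos (d i)) (hat_mem (hR i)) (H6_dH (R i))
    (post_hat (R i).1) (hR j)) (fun _ => 2) (fun _ => by omega) (hF M ρ)
  refine fgt_mono (fun i => ⟨i, ?_⟩) this
  exact (T_cpow ρ rfl).symm

section
variable {A : Type u} [Ring A] [Algebra k A] {ε : A →ₐ[k] k}
  {X : Type u} [AddCommGroup X] [Module k X]

/-- The cochains of degree `n` generated by the `x i`, together with the coboundaries. -/
def H6_sub (ε : A →ₐ[k] k) (ρ : A →ₐ[k] End k X) {r : ℕ} (d : Fin r → ℕ) (x : Fin r → C k A X)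
    (n : ℕ) : AddSubgroup (C k A X) :=
  AddSubgroup.closure {z | ∃ (i : Fin r) (m : ℕ) (a : C k A k), a ∈ Cn m ∧
    dl ε (trv ε k) a = 0 ∧ m + d i = n ∧ z = cr (x i) a} ⊔ (Bc ε ρ).toAddSubgroup

theorem H6_sub_cr {ρ : A →ₐ[k] End k X} {r : ℕ} {d : Fin r → ℕ} {x : Fin r → C k A X} {n e : ℕ}
    {y : C k A X} (hy : y ∈ H6_sub ε ρ d x n) {b : Zk ε} (hb : b.1 ∈ Cn e) :
    cr y b.1 ∈ H6_sub ε ρ d x (n + e) := by
  have key : H6_sub ε ρ d x n ≤
      (H6_sub ε ρ d x (n + e)).comap (cr.flip b.1 : C k A X →ₗ[k] C k A X).toAddMonoidHom := by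
    refine sup_le ((AddSubgroup.closure_le _).2 ?_) ?_
    · rintro _ ⟨i, m, a, ha, h0, hm, rfl⟩
      show cr (cr (x i) a) b.1 ∈ H6_sub ε ρ d x (n + e)
      refine AddSubgroup.mem_sup_left (AddSubgroup.subset_closure
        ⟨i, m + e, cr a b.1, cup_mem _ ha hb, ?_, by omega, cr_assoc _ _ _⟩)
      exact (mem_Zc.1 (cr_mem_Zc (ρ := trv ε k) ⟨Cn_le_Bd m ha, h0⟩ b.2)).2
    · intro y hy
      exact AddSubgroup.mem_sup_right (cr_mem_Bc hy b.2)
  exact key hy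

theorem H6_cst (ε : A →ₐ[k] k) (c : k) : (cst c : C k A k) ∈ Zc ε (trv ε k) :=
  ⟨Cn_le_Bd 0 (cst_mem c), (dl_cst ε _ c).2 fun a => trv_apply ε a c⟩

theorem H6_cr_cst (y : C k A X) (c : k) : cr y (cst c) = c • y := by
  have h1 : (cst c : C k A k) = c • (cst (1 : k) : C k A k) := by
    rw [← map_smul, smul_eq_mul, mul_one]
  rw [h1, map_smul, cr_one]

/-- The same as a subspace. -/
def H6_sub' (ε : A →ₐ[k] k) (ρ : A →ₐ[k] End k X) {r : ℕ} (d : Fin r → ℕ) (x : Fin r → C k A X)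
    (n : ℕ) : Submodule k (C k A X) where
  carrier := H6_sub ε ρ d x n
  add_mem' := fun ha hb => AddSubgroup.add_mem _ ha hb
  zero_mem' := AddSubgroup.zero_mem _
  smul_mem' := fun c y hy => by
    have := H6_sub_cr (e := 0) hy (b := ⟨cst c, H6_cst ε c⟩) (cst_mem c)
    rw [H6_cr_cst] at this
    exact this

end

theorem fgc_of_fam {A : Type u} [Ring A] [Algebra k A] {ε : A →ₐ[k] k} {σ : Type} (θ : σ → Zk ε)
    (d : σ → ℕ) (hθ : ∀ i, (θ i).1 ∈ Cn (d i)) (h : FGAll ε θ) : FGcAll ε := by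
  intro M _ _ _ ρ
  have hg := gr_V ρ θ d hθ
  obtain ⟨s, hs, hgen⟩ := hg.homog_gen (h M ρ)
  choose nn hnn using hs
  choose f hf hfc using fun v : s => exists_homog (nn v.1 v.2) v.1
  set e := s.equivFin.symm with he
  set d' : Fin s.card → ℕ := fun i => nn (e i).1 (e i).2 with hd'
  set x : Fin s.card → C k A M := fun i => (f (e i)).1 with hx
  refine ⟨s.card, d', x, fun i => ⟨hf _, (mem_Zc.1 (f (e i)).2).2⟩, fun n y hy hy0 => ?_⟩
  set U : ℕ → Submodule k (V ε ρ) := fun n =>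
    ((H6_sub' ε ρ d' x n).comap (Zc ε ρ).subtype).map (cl ε ρ) with hU
  have hW : (⊤ : Submodule k (V ε ρ)) ≤ ⨅ n, (U n).comap (prV ε ρ n) := by
    refine hgen _ ?_ ?_
    · intro j v hv
      simp only [Submodule.mem_iInf, Submodule.mem_comap] at hv ⊢
      intro n
      by_cases hn : n < d j
      · rw [hg.low j n v hn]; exact Submodule.zero_mem _
      · obtain ⟨n', rfl⟩ : ∃ n', n = n' + d j := ⟨n - d j, by omega⟩
        rw [hg.shift j n' v]
        obtain ⟨g, hg', e'⟩ := hv n'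
        rw [← e']
        exact ⟨⟨cr g.1 (θ j).1, cr_mem_Zc g.2 (θ j).2⟩, H6_sub_cr hg' (hθ j), rfl⟩
    · intro v hv
      simp only [SetLike.mem_coe, Submodule.mem_iInf, Submodule.mem_comap]
      intro n
      by_cases hn : n = nn v hv
      · refine ⟨f ⟨v, hv⟩, ?_, by rw [hfc, hn]⟩
        refine AddSubgroup.mem_sup_left (AddSubgroup.subset_closure
          ⟨e.symm ⟨v, hv⟩, 0, cst 1, cst_mem 1, (mem_Zc.1 (H6_cst ε 1)).2, ?_, ?_⟩)
        · simp [hd', hn]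
        · simp [hx, cr_one]
      · rw [← hnn v hv, hg.orth _ _ _ hn]; exact Submodule.zero_mem _
  have hyZ : y ∈ Zc ε ρ := ⟨Cn_le_Bd n hy, hy0⟩
  have h1 := hW (Submodule.mem_top (x := cl ε ρ ⟨y, hyZ⟩))
  simp only [Submodule.mem_iInf, Submodule.mem_comap] at h1
  obtain ⟨g, hg', e'⟩ := h1 n
  rw [prV_cl_of_mem hy] at e'
  have h2 : g.1 - y ∈ H6_sub ε ρ d' x n := AddSubgroup.mem_sup_right (cl_eq.1 e')
  have h3 : g.1 ∈ H6_sub ε ρ d' x n := hg'
  have := AddSubgroup.sub_mem _ h3 h2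
  rw [sub_sub_cancel] at this
  exact this

end EO
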