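import Pool.Agent.P.MP_42c3cc_al.D1

/-! Invariant derivations: Hopf algebras of height one, and characteristic zero. -/

noncomputable section

namespace EO

open TensorAlgebra LinearMap Module
open scoped TensorProduct

universe u

variable {k : Type u} [Field k] {A L K : Type u} [Ring A] [HopfAlgebra k A] [Ring L]
  [Bialgebra k L] [CommRing K] [Algebra k K]

/-- The map `x ⊗ y ↦ φ y • x`. -/
def Ht1_R (φ : K →ₗ[k] k) : K ⊗[k] K →ₗ[k] K :=
  (TensorProduct.rid k K).toLinearMap ∘ₗ LinearMap.lTensor K φ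

/-- The map `x ⊗ y ↦ φ x • y`. -/
def Ht1_L (φ : K →ₗ[k] k) : K ⊗[k] K →ₗ[k] K :=
  (TensorProduct.lid k K).toLinearMap ∘ₗ LinearMap.rTensor K φ

theorem Ht1_R_tmul (φ : K →ₗ[k] k) (x y : K) : Ht1_R φ (x ⊗ₜ y) = φ y • x := by simp [Ht1_R]

theorem Ht1_L_tmul (φ : K →ₗ[k] k) (x y : K) : Ht1_L φ (x ⊗ₜ y) = φ x • y := by simp [Ht1_L]

theorem Ht1_R_mul (ε : K →ₐ[k] k) (d : K →ₗ[k] k) (hd : ∀ x y, d (x * y) = ε x * d y + d x * ε y)
    (s t : K ⊗[k] K) : Ht1_R d (s * t) =
      Ht1_R ε.toLinearMap s * Ht1_R d t + Ht1_R ε.toLinearMap t * Ht1_R d s := by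
  induction s using TensorProduct.induction_on with
  | zero => simp
  | add s s' hs hs' =>
    simp only [add_mul, map_add, hs, hs']
    ring
  | tmul x y =>
    induction t using TensorProduct.induction_on with
    | zero => simp
    | add t t' ht ht' =>
      simp only [mul_add, map_add, ht, ht']
      ring
    | tmul x' y' =>
      simp only [Algebra.TensorProduct.tmul_mul_tmul, Ht1_R_tmul, hd, AlgHom.toLinearMap_apply,
        Algebra.smul_def, map_add, map_mul]
      ring

theorem Ht1_del {j : K →ₐ[k] A} (hj : CH j) : ∃ del : K →ₐ[k] K ⊗[k] K,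
    (∀ x, Ht1_R ((Bialgebra.counitAlgHom k A).comp j).toLinearMap (del x) = x) ∧
      ∀ x, Ht1_L ((Bialgebra.counitAlgHom k A).comp j).toLinearMap (del x) = x := by
  have hJ : Function.Injective (Algebra.TensorProduct.map j j) :=
    TensorProduct.map_injective_of_flat_flat j.toLinearMap j.toLinearMap hj.inj hj.inj
  let del : K →ₐ[k] K ⊗[k] K := (AlgEquiv.ofInjective _ hJ).symm.toAlgHom.comp
    (((Bialgebra.comulAlgHom k A).comp j).codRestrict (Algebra.TensorProduct.map j j).range
      fun x => hj.com x)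
  have hdel : ∀ x, Algebra.TensorProduct.map j j (del x) = Coalgebra.comul (R := k) (j x) :=
    fun x => congrArg Subtype.val ((AlgEquiv.ofInjective _ hJ).apply_symm_apply
      (((Bialgebra.comulAlgHom k A).comp j).codRestrict (Algebra.TensorProduct.map j j).range
        (fun x => hj.com x) x))
  have hR : ∀ t, j (Ht1_R ((Bialgebra.counitAlgHom k A).comp j).toLinearMap t) =
      TensorProduct.rid k A ((Coalgebra.counit (R := k)).lTensor A
        (Algebra.TensorProduct.map j j t)) := fun t => by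
    induction t using TensorProduct.induction_on with
    | zero => simp
    | add t t' ht ht' => simp only [map_add, ht, ht']
    | tmul x y => simp [Ht1_R_tmul]
  have hL : ∀ t, j (Ht1_L ((Bialgebra.counitAlgHom k A).comp j).toLinearMap t) =
      TensorProduct.lid k A ((Coalgebra.counit (R := k)).rTensor A
        (Algebra.TensorProduct.map j j t)) := fun t => by
    induction t using TensorProduct.induction_on with
    | zero => simp
    | add t t' ht ht' => simp only [map_add, ht, ht']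
    | tmul x y => simp [Ht1_L_tmul]
  refine ⟨del, fun x => hj.inj ?_, fun x => hj.inj ?_⟩
  · rw [hR, hdel, Coalgebra.lTensor_counit_comul, TensorProduct.rid_tmul, one_smul]
  · rw [hL, hdel, Coalgebra.rTensor_counit_comul, TensorProduct.lid_tmul, one_smul]

theorem exists_der {j : K →ₐ[k] A} (hj : CH j) (d : K →ₗ[k] k)
    (hd : ∀ x y, d (x * y) = Coalgebra.counit (R := k) (j x) * d y
      + d x * Coalgebra.counit (R := k) (j y)) :
    ∃ D : Derivation k K K, ∀ x, Coalgebra.counit (R := k) (j (D x)) = d x := by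
  obtain ⟨del, hR, hL⟩ := Ht1_del hj
  have h : ∀ t, ((Bialgebra.counitAlgHom k A).comp j) (Ht1_R d t) =
      d (Ht1_L ((Bialgebra.counitAlgHom k A).comp j).toLinearMap t) := fun t => by
    induction t using TensorProduct.induction_on with
    | zero => simp
    | add t t' ht ht' => simp only [map_add, ht, ht']
    | tmul x y => simp [Ht1_R_tmul, Ht1_L_tmul, mul_comm]
  refine ⟨Derivation.mk' (Ht1_R d ∘ₗ del.toLinearMap) fun a b => ?_, fun x => ?_⟩
  · simp only [LinearMap.comp_apply, AlgHom.toLinearMap_apply, map_mul, smul_eq_mul]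
    rw [Ht1_R_mul ((Bialgebra.counitAlgHom k A).comp j) d hd, hR, hR]
  · have h1 := h (del x)
    rw [hL] at h1
    exact h1

/-- The subspace spanned by `1` and the square of the augmentation ideal. -/
def Ht1_W (ε : K →ₐ[k] k) : Submodule k K :=
  Submodule.span k {1} ⊔ (RingHom.ker ε * RingHom.ker ε).restrictScalars k

theorem Ht1_sub (ε : K →ₐ[k] k) (y : K) : y - algebraMap k K (ε y) ∈ RingHom.ker ε := by
  simp [RingHom.mem_ker]

theorem Ht1_one_mem (ε : K →ₐ[k] k) (c : k) : algebraMap k K c ∈ Ht1_W ε :=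
  Submodule.mem_sup_left (Submodule.mem_span_singleton.2 ⟨c, (Algebra.algebraMap_eq_smul_one c).symm⟩)

theorem Ht1_mem_sq {ε : K →ₐ[k] k} {y : K} (h : y ∈ Ht1_W ε) (h' : y ∈ RingHom.ker ε) :
    y ∈ RingHom.ker ε * RingHom.ker ε := by
  obtain ⟨a, ha, z, hz, rfl⟩ := Submodule.mem_sup.1 h
  obtain ⟨c, rfl⟩ := Submodule.mem_span_singleton.1 ha
  have h1 : ε z = 0 := Ideal.mul_le_left (I := RingHom.ker ε) hz
  have h2 : c = 0 := by simpa [RingHom.mem_ker, h1] using h'
  rw [h2, zero_smul, zero_add]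
  exact hz

theorem Ht1_leibniz {ε : K →ₐ[k] k} {d : K →ₗ[k] k} (hd : ∀ y ∈ Ht1_W ε, d y = 0) (x y : K) :
    d (x * y) = ε x * d y + d x * ε y := by
  have h1 := hd _ (Submodule.mem_sup_right (Ideal.mul_mem_mul (Ht1_sub ε x) (Ht1_sub ε y)))
  have h2 := hd _ (Ht1_one_mem ε (ε x * ε y))
  have e : (x - algebraMap k K (ε x)) * (y - algebraMap k K (ε y)) =
      x * y - ε x • y - ε y • x + algebraMap k K (ε x * ε y) := by
    simp only [Algebra.smul_def, map_mul]
    ring
  rw [e, map_add, map_sub, map_sub, map_smul, map_smul, h2] at h1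
  simp only [smul_eq_mul] at h1
  linear_combination h1

theorem Ht1_chain {n : ℕ} (x : Fin n → K) (D : Derivation k K K) (i : Fin n)
    (h : ∀ l, D (x l) = if l = i then 1 else 0) (F : MvPolynomial (Fin n) k) :
    D (MvPolynomial.aeval x F) = MvPolynomial.aeval x (MvPolynomial.pderiv i F) := by
  induction F using MvPolynomial.induction_on with
  | C c => simp
  | add F G hF hG => simp only [map_add, hF, hG]
  | mul_X F l hF =>
    rw [map_mul, Derivation.leibniz, Derivation.leibniz, hF, MvPolynomial.aeval_X, h,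
      MvPolynomial.pderiv_X, Pi.single_apply]
    split_ifs <;> simp

theorem Ht1_coeff (p : ℕ) [Fact p.Prime] [CharP k p] {ε : K →ₐ[k] k} {n : ℕ} {x : Fin n → K}
    (hx : ∀ i, ε (x i) = 0) (D : Fin n → Derivation k K K)
    (h : ∀ i l, D i (x l) = if l = i then 1 else 0) (N : ℕ) : ∀ a : Fin n →₀ ℕ, a.degree = N →
      (∀ i, a i < p) → ∀ F : MvPolynomial (Fin n) k, MvPolynomial.aeval x F = 0 →
        F.coeff a = 0 := by
  induction N with
  | zero =>
    intro a ha _ F hF
    rw [(Finsupp.degree_eq_zero_iff a).1 ha]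
    have h1 := congrArg ε hF
    rw [map_zero, ← AlgHom.comp_apply, MvPolynomial.comp_aeval, funext hx] at h1
    have h2 : MvPolynomial.constantCoeff F = 0 := by simpa using h1
    exact h2
  | succ N ih =>
    intro a ha hp F hF
    obtain ⟨i, hi⟩ : ∃ i, a i ≠ 0 := by
      by_contra h0
      push Not at h0
      rw [Finsupp.ext h0 (g := 0)] at ha
      simp at ha
    obtain ⟨a', rfl⟩ : ∃ a', a = a' + Finsupp.single i 1 :=
      ⟨a - Finsupp.single i 1, (tsub_add_cancel_of_le
        (Finsupp.single_le_iff.2 (Nat.one_le_iff_ne_zero.2 hi))).symm⟩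
    have h1 := ih a' (by simpa using ha) (fun l => lt_of_le_of_lt (by simp) (hp l))
      (MvPolynomial.pderiv i F) (by rw [← Ht1_chain x (D i) i (h i), hF, map_zero])
    rw [MvPolynomial.coeff_pderiv] at h1
    refine (mul_eq_zero.1 h1).resolve_right fun h2 => ?_
    have h3 : ((a' i + 1 : ℕ) : k) = 0 := by exact_mod_cast h2
    rw [CharP.cast_eq_zero_iff k p] at h3
    have h4 : a' i + 1 < p := by simpa using hp i
    exact absurd (Nat.le_of_dvd (Nat.succ_pos _) h3) (not_le.2 h4)

theorem Ht1_card [FiniteDimensional k K] (p : ℕ) {n : ℕ} {x : Fin n → K}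
    (h : ∀ a : Fin n →₀ ℕ, (∀ i, a i < p) → ∀ F : MvPolynomial (Fin n) k,
      MvPolynomial.aeval x F = 0 → F.coeff a = 0) : p ^ n ≤ finrank k K := by
  classical
  let ι : (Fin n → Fin p) → Fin n →₀ ℕ := fun a => Finsupp.equivFunOnFinite.symm fun i => a i
  have hι : Function.Injective ι := fun a b e =>
    funext fun i => Fin.ext (congrFun (Finsupp.equivFunOnFinite.symm.injective e) i)
  have h1 : LinearIndependent k
      fun a => MvPolynomial.aeval x (MvPolynomial.monomial (ι a) (1 : k)) := by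
    rw [Fintype.linearIndependent_iff]
    intro g hg a
    have h2 := h (ι a) (fun i => (a i).2) (∑ b, MvPolynomial.monomial (ι b) (g b)) (by
      rw [← hg, map_sum]
      refine Finset.sum_congr rfl fun b _ => ?_
      rw [← map_smul, MvPolynomial.smul_monomial, smul_eq_mul, mul_one])
    simpa [MvPolynomial.coeff_sum, MvPolynomial.coeff_monomial, hι.eq_iff] using h2
  simpa using h1.fintype_card_le_finrank

theorem Ht1_gen {ε : K →ₐ[k] k} (S : Subalgebra k K) (hn : IsNilpotent (RingHom.ker ε))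
    (h : ∀ y ∈ RingHom.ker ε, ∃ s ∈ S, s ∈ RingHom.ker ε ∧
      y - s ∈ RingHom.ker ε * RingHom.ker ε) : S = ⊤ := by
  have h1 : ∀ r : ℕ, ∀ y ∈ RingHom.ker ε ^ (r + 1), ∃ s ∈ S, s ∈ RingHom.ker ε ^ (r + 1) ∧
      y - s ∈ RingHom.ker ε ^ (r + 2) := by
    intro r
    induction r with
    | zero => simpa [pow_two] using h
    | succ r ih =>
      intro y hy
      rw [pow_succ] at hy
      refine Submodule.mul_induction_on hy (fun u hu v hv => ?_) ?_
      · obtain ⟨s, hs, hs1, hs2⟩ := ih u hu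
        obtain ⟨t, ht, ht1, ht2⟩ := h v hv
        refine ⟨s * t, mul_mem hs ht, ?_, ?_⟩
        · rw [pow_succ]
          exact Ideal.mul_mem_mul hs1 ht1
        · rw [show u * v - s * t = s * (v - t) + (u - s) * v by ring]
          refine add_mem ?_ ?_
          · rw [pow_add _ (r + 1) 2, pow_two]
            exact Ideal.mul_mem_mul hs1 ht2
          · rw [show r + 1 + 2 = r + 2 + 1 from rfl, pow_succ]
            exact Ideal.mul_mem_mul hs2 hv
      · rintro u v ⟨s, hs, hs1, hs2⟩ ⟨t, ht, ht1, ht2⟩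
        refine ⟨s + t, add_mem hs ht, add_mem hs1 ht1, ?_⟩
        rw [show u + v - (s + t) = u - s + (v - t) by ring]
        exact add_mem hs2 ht2
  have h2 : ∀ (y : K) (r : ℕ), ∃ s ∈ S, y - s ∈ RingHom.ker ε ^ (r + 1) := by
    intro y r
    induction r with
    | zero => exact ⟨_, S.algebraMap_mem (ε y), by simp⟩
    | succ r ih =>
      obtain ⟨s, hs, hs1⟩ := ih
      obtain ⟨t, ht, -, ht1⟩ := h1 r _ hs1
      exact ⟨s + t, add_mem hs ht, by rwa [← sub_sub]⟩
  obtain ⟨N, hN⟩ := hn
  refine eq_top_iff.2 fun y _ => ?_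
  obtain ⟨s, hs, hs1⟩ := h2 y N
  rw [pow_succ, hN, zero_mul] at hs1
  rwa [sub_eq_zero.1 (Ideal.mem_bot.1 hs1)]

theorem height_one [FiniteDimensional k K] (p : ℕ) [Fact p.Prime] [CharP k p] {j : K →ₐ[k] A}
    (hj : CH j) (hp : ∀ x, Coalgebra.counit (R := k) (j x) = 0 → x ^ p = 0) :
    ∃ (n : ℕ) (x : Fin n → K), (∀ i, x i ^ p = 0) ∧ Algebra.adjoin k (Set.range x) = ⊤ ∧
      p ^ n ≤ finrank k K := by
  classical
  obtain ⟨ε, hε⟩ : ∃ ε : K →ₐ[k] k, ∀ x, Coalgebra.counit (R := k) (j x) = ε x :=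
    ⟨(Bialgebra.counitAlgHom k A).comp j, fun _ => rfl⟩
  have hder := exists_der hj
  simp only [hε] at hp hder
  have : IsNoetherianRing K := isNoetherian_of_tower k inferInstance
  have hn : IsNilpotent (RingHom.ker ε) :=
    (Ideal.FG.isNilpotent_iff_le_nilradical (IsNoetherian.noetherian _)).2
      fun x hx => ⟨p, hp x hx⟩
  let b := Module.finBasis k (K ⧸ Ht1_W ε)
  choose y hy using fun i => (Ht1_W ε).mkQ_surjective (b i)
  obtain ⟨x, hx, hxb⟩ : ∃ x : Fin (finrank k (K ⧸ Ht1_W ε)) → K, (∀ i, ε (x i) = 0) ∧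
      ∀ i, (Ht1_W ε).mkQ (x i) = b i :=
    ⟨fun i => y i - algebraMap k K (ε (y i)), fun i => Ht1_sub ε (y i), fun i => by
      rw [map_sub, hy, Submodule.mkQ_apply,
        (Submodule.Quotient.mk_eq_zero _).2 (Ht1_one_mem ε _), sub_zero]⟩
  refine ⟨_, x, fun i => hp _ (hx i), Ht1_gen _ hn fun z hz => ?_, Ht1_card p (x := x) ?_⟩
  · have h1 : ∑ i, b.repr ((Ht1_W ε).mkQ z) i • x i ∈ RingHom.ker ε := by
      simp [RingHom.mem_ker, hx]
    refine ⟨∑ i, b.repr ((Ht1_W ε).mkQ z) i • x i, sum_mem fun i _ =>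
      Subalgebra.smul_mem _ (Algebra.subset_adjoin (Set.mem_range_self i)) _, h1,
      Ht1_mem_sq ?_ (sub_mem hz h1)⟩
    rw [← Submodule.Quotient.mk_eq_zero, ← Submodule.mkQ_apply, map_sub, map_sum]
    simp only [map_smul, hxb]
    rw [b.sum_repr, sub_self]
  · choose D hD using fun i => hder (b.coord i ∘ₗ (Ht1_W ε).mkQ) (Ht1_leibniz fun z hz => by
      rw [LinearMap.comp_apply, Submodule.mkQ_apply, (Submodule.Quotient.mk_eq_zero _).2 hz,
        map_zero])
    let Mx : Matrix _ _ K := Matrix.of fun i l => D i (x l)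
    have h1 : ε.toRingHom.mapMatrix Mx = 1 := by
      ext i l
      have h2 : ε (D i (x l)) = if i = l then 1 else 0 := by
        rw [hD, LinearMap.comp_apply, hxb, Basis.coord_apply, b.repr_self, Finsupp.single_apply]
        simp only [eq_comm]
      exact h2
    have h2 : ε (Mx.det - 1) = 0 := by
      have h3 : ε Mx.det = (ε.toRingHom.mapMatrix Mx).det := RingHom.map_det ε.toRingHom Mx
      rw [map_sub, h3, h1, Matrix.det_one, map_one, sub_self]
    have h3 : IsUnit Mx.det := by
      have h4 := IsNilpotent.isUnit_add_one ⟨p, hp _ h2⟩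
      rwa [sub_add_cancel] at h4
    have h4 := Matrix.nonsing_inv_mul Mx h3
    refine fun a => Ht1_coeff p hx (fun i => ∑ l, Mx⁻¹ i l • D l) (fun i l => ?_) _ a rfl
    have h5 := congrFun (congrFun h4 i) l
    rw [Matrix.mul_apply, Matrix.one_apply] at h5
    have h6 : (∑ l', Mx⁻¹ i l' • D l') (x l) = ∑ l', Mx⁻¹ i l' * D l' (x l) := by
      have h7 := congrFun (map_sum (Derivation.coeFnAddMonoidHom (R := k) (A := K) (M := K))
        (fun l' => Mx⁻¹ i l' • D l') Finset.univ) (x l)
      rw [Finset.sum_apply] at h7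
      exact h7
    rw [h6]
    simp only [eq_comm (a := l)]
    exact h5

theorem Ht1_der_pow (D : Derivation k K K) (I : Ideal K) (r : ℕ) :
    ∀ y ∈ I ^ (r + 1), D y ∈ I ^ r := by
  induction r with
  | zero => simp
  | succ r ih =>
    intro y hy
    rw [pow_succ] at hy
    refine Submodule.mul_induction_on hy (fun u hu v hv => ?_) fun u v hu hv => ?_
    · rw [Derivation.leibniz, smul_eq_mul, smul_eq_mul]
      refine add_mem (Ideal.mul_mem_right _ _ hu) ?_
      rw [pow_succ']
      exact Ideal.mul_mem_mul hv (ih u hu)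
    · rw [map_add]
      exact add_mem hu hv

theorem cartier [FiniteDimensional k K] [CharZero k] {j : K →ₐ[k] A} (hj : CH j) :
    IsIdempotentElem (RingHom.ker ((Bialgebra.counitAlgHom k A).comp j)) := by
  have hder : ∀ d : K →ₗ[k] k, (∀ x y, d (x * y) = ((Bialgebra.counitAlgHom k A).comp j) x * d y +
      d x * ((Bialgebra.counitAlgHom k A).comp j) y) →
      ∃ D : Derivation k K K, ∀ x, ((Bialgebra.counitAlgHom k A).comp j) (D x) = d x :=
    exists_der hj
  generalize (Bialgebra.counitAlgHom k A).comp j = ε at hder ⊢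
  refine le_antisymm Ideal.mul_le_left fun x hx => ?_
  by_contra hx2
  obtain ⟨d, hd1, hd2⟩ := Submodule.exists_le_ker_of_notMem fun h => hx2 (Ht1_mem_sq h hx)
  obtain ⟨D, hD⟩ := hder d (Ht1_leibniz hd2)
  have : IsArtinianRing K := IsArtinianRing.of_finite k K
  obtain ⟨N, hN⟩ := IsArtinian.monotone_stabilizes (R := K) (M := K)
    ⟨fun r => OrderDual.toDual (RingHom.ker ε ^ (r + 1)),
      fun a b h => Ideal.pow_le_pow_right (Nat.succ_le_succ h)⟩
  have hJ : RingHom.ker ε ^ (N + 1) = RingHom.ker ε ^ (N + 1 + 1) := hN (N + 1) (Nat.le_succ N)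
  have h1 : ∀ r : ℕ, x ^ r ∈ RingHom.ker ε ^ (N + 1) → (1 : K) ∈ RingHom.ker ε ^ (N + 1) := by
    intro r
    induction r with
    | zero => simp
    | succ r ih =>
      intro h
      refine ih ?_
      have h2 := Ht1_der_pow D _ _ _ (hJ ▸ h)
      rw [Derivation.leibniz_pow, Nat.add_sub_cancel, smul_eq_mul] at h2
      obtain ⟨c, hc⟩ : ∃ c : k, c = (((r + 1 : ℕ) : k) * d x)⁻¹ := ⟨_, rfl⟩
      obtain ⟨y, hy⟩ : ∃ y : K, y = 1 - c • (r + 1) • D x := ⟨_, rfl⟩
      have h3 : y ∈ RingHom.ker ε := by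
        rw [RingHom.mem_ker, hy, map_sub, map_one, map_smul, map_nsmul, hD, nsmul_eq_mul, hc,
          smul_eq_mul, inv_mul_cancel₀ (mul_ne_zero (Nat.cast_ne_zero.2 r.succ_ne_zero) hd1),
          sub_self]
      obtain ⟨q, hq⟩ := one_sub_dvd_one_sub_pow y (N + 1)
      have h4 : x ^ r = algebraMap k K c * q * ((r + 1) • (x ^ r * D x)) + x ^ r * y ^ (N + 1) := by
        have h5 : 1 - y = algebraMap k K c * ((r + 1 : ℕ) * D x) := by
          rw [hy, sub_sub_cancel, Algebra.smul_def, nsmul_eq_mul]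
        rw [h5] at hq
        rw [nsmul_eq_mul]
        linear_combination x ^ r * hq
      rw [h4]
      exact add_mem (Ideal.mul_mem_left _ _ h2) (Ideal.mul_mem_left _ _ (Ideal.pow_mem_pow h3 _))
  have h2 := Ideal.pow_le_self (Nat.succ_ne_zero N) (h1 _ (Ideal.pow_mem_pow hx _))
  rw [RingHom.mem_ker, map_one] at h2
  exact one_ne_zero h2

end EO
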