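import Pool.Agent.P.MP_42c3cc_al.D1

/-! Inflation is onto for modules that are acyclic for the kernel. -/

noncomputable section

namespace EO

open TensorAlgebra LinearMap Module
open scoped TensorProduct

universe u

variable {k : Type u} [Field k] {A L K : Type u} [Ring A] [Algebra k A] [Ring L] [Algebra k L]
  [Ring K] [Algebra k K]

section

variable {εL : L →ₐ[k] k} {π : A →ₐ[k] L} {j : K →ₐ[k] A}
  {M N M' N' : Type u} [AddCommGroup M] [Module k M] [AddCommGroup N] [Module k N]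
  [AddCommGroup M'] [Module k M'] [AddCommGroup N'] [Module k N']

theorem Inf_lift (f : M →ₗ[k] N) (g : M' →ₗ[k] N) (h : ∀ x, f x ∈ LinearMap.range g) :
    ∃ s : M →ₗ[k] M', g ∘ₗ s = f := by
  obtain ⟨s, hs⟩ := Module.projective_lifting_property g.rangeRestrict (f.codRestrict _ h)
    g.surjective_rangeRestrict
  exact ⟨s, LinearMap.ext fun x => congrArg Subtype.val (LinearMap.congr_fun hs x)⟩

theorem Inf_one {ε : A →ₐ[k] k} {ρ : A →ₐ[k] End k N} {f : C k A N} (hf : f ∈ Zc ε ρ) (a : A) :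
    ρ a (f 1) = ε a • f 1 := (dl_cst ε ρ _).1 (pr_mem_Zc 0 hf).2 a

/-- The module `ρL` over `L` is the module of invariants of `ρ`. -/
structure Inf_Mod (εL : L →ₐ[k] k) (π : A →ₐ[k] L) (j : K →ₐ[k] A) (ρ : A →ₐ[k] End k N)
    (ρL : L →ₐ[k] End k M) (i : M →ₗ[k] N) : Prop where
  eqv : Eqv (ρL.comp π) ρ i
  inj : Function.Injective i
  rng : ∀ n, (∀ x, ρ (j x) n = εL (π (j x)) • n) → n ∈ LinearMap.range i

theorem Inf_exists (h : Ctr εL π j) (ρ : A →ₐ[k] End k N) :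
    ∃ (M : Submodule k N) (ρL : L →ₐ[k] End k M), Inf_Mod εL π j ρ ρL M.subtype := by
  let M : Submodule k N := ⨅ x, LinearMap.eqLocus (ρ (j x)) (εL (π (j x)) • LinearMap.id)
  have hM : ∀ n, n ∈ M ↔ ∀ x, ρ (j x) n = εL (π (j x)) • n := fun n => Submodule.mem_iInf _
  have hs : ∀ a, ∀ n ∈ M, ρ a n ∈ M := fun a n hn => (hM _).2 fun x => by
    rw [← Module.End.mul_apply, ← map_mul, h.cen, map_mul, Module.End.mul_apply, (hM n).1 hn,
      map_smul]
  have hk : RingHom.ker π.toRingHom ≤ RingHom.ker (subRep ρ M hs).toRingHom := fun a ha =>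
    Ideal.span_le.2 (by
      rintro _ ⟨x, hx, rfl⟩
      refine LinearMap.ext fun n => Subtype.ext ?_
      have := (hM n).1 n.2 x
      rwa [hx, zero_smul] at this) (h.ker a ha)
  have e := π.toRingHom.liftOfSurjective_comp_apply h.surj ⟨_, hk⟩
  refine ⟨M, ⟨π.toRingHom.liftOfSurjective h.surj ⟨_, hk⟩, fun c => ?_⟩, fun a n => ?_,
    M.injective_subtype, fun n hn => ⟨⟨n, (hM n).2 hn⟩, rfl⟩⟩
  · rw [← π.commutes c]
    exact (e _).trans ((subRep ρ M hs).commutes c)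
  · exact congrArg (fun T : End k M => (T n : N)) (e a)

theorem Inf_Mod.inv (h : Ctr εL π j) {ρ : A →ₐ[k] End k N} {ρL : L →ₐ[k] End k M} {i : M →ₗ[k] N}
    (H : Inf_Mod εL π j ρ ρL i) (m : M) (x : K) : ρ (j x) (i m) = εL (π (j x)) • i m := by
  rw [← H.eqv, ← map_smul, AlgHom.comp_apply]
  conv_lhs => rw [h.triv x, ρL.commutes]
  rfl

theorem Inf_dl {ρ : A →ₐ[k] End k N} {ρL : L →ₐ[k] End k M} {i : M →ₗ[k] N}
    (H : Eqv (ρL.comp π) ρ i) (g : C k L M) :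
    dl (εL.comp π) ρ (post i (pull π.toLinearMap g)) =
      post i (pull π.toLinearMap (dl εL ρL g)) := by
  rw [pull_dl, post_dl _ H]

theorem Inf_surj {ρ : A →ₐ[k] End k N}
    (hv : Van ((εL.comp π).comp j) (ρ.comp j) 0) {ρI : L →ₐ[k] End k M} {i : M →ₗ[k] A →ₗ[k] N}
    (H : Inf_Mod εL π j (coind A N) ρI i) {s : Sg ρ}
    (hs : ∀ x, sgRep ρ (j x) s = εL (π (j x)) • s) :
    s ∈ LinearMap.range ((LinearMap.range (io ρ)).mkQ ∘ₗ i) := by
  obtain ⟨c, hc⟩ := exists_conn ((εL.comp π).comp j) ((ses_Sg ρ).comp j)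
  let z : Zc ((εL.comp π).comp j) ((sgRep ρ).comp j) :=
    ⟨cst s, Cn_le_Bd 0 (cst_mem s), (dl_cst _ _ s).2 hs⟩
  have h1 : cl _ _ z ∈ LinearMap.ker c := by
    rw [LinearMap.mem_ker, ← prV_cl_of_mem (n := 0) (cst_mem s), hc.deg]
    exact hv 1 one_pos _
  rw [hc.exZ] at h1
  obtain ⟨v, h2⟩ := h1
  obtain ⟨g, rfl⟩ := cl_surj v
  obtain ⟨e, -, h3⟩ := cl_eq.1 h2
  obtain ⟨m, hm⟩ := H.rng (g.1 1) (Inf_one g.2)
  have h4 : (0 : Sg ρ) = (LinearMap.range (io ρ)).mkQ (g.1 1) - (cst s : C k K (Sg ρ)) 1 :=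
    (del_one _ _ e).symm.trans (LinearMap.congr_fun h3 1)
  rw [cst_one, ← hm] at h4
  exact ⟨m, sub_eq_zero.1 h4.symm⟩

end

theorem Inf_onto {εL : L →ₐ[k] k} {π : A →ₐ[k] L} {j : K →ₐ[k] A} (h : Ctr εL π j) (n : ℕ) :
    ∀ (N : Type u) [AddCommGroup N] [Module k N] (ρ : A →ₐ[k] End k N),
      Van ((εL.comp π).comp j) (ρ.comp j) 0 → ∀ (M : Type u) [AddCommGroup M] [Module k M]
        (ρL : L →ₐ[k] End k M) (i : M →ₗ[k] N) (H : Inf_Mod εL π j ρ ρL i) (v : V (εL.comp π) ρ),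
        prV _ ρ n v ∈ LinearMap.range (postV (εL.comp π) H.eqv ∘ₗ pullV εL ρL π) := by
  induction n with
  | zero =>
    intro N _ _ ρ _ M _ _ ρL i H v
    obtain ⟨f, rfl⟩ := cl_surj v
    obtain ⟨m, hm⟩ := H.rng (f.1 1) fun x => Inf_one f.2 (j x)
    refine ⟨cl εL ρL ⟨cst m, Cn_le_Bd 0 (cst_mem m), (dl_cst _ _ m).2 fun l => H.inj ?_⟩, ?_⟩
    · obtain ⟨a, rfl⟩ := h.surj l
      rw [map_smul, hm]
      exact (H.eqv a m).trans (hm ▸ Inf_one f.2 a)
    · refine congrArg (cl _ ρ) (Subtype.ext ?_)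
      change post i (pull π.toLinearMap (cst m)) = cst (f.1 1)
      rw [pull_cst, post_cst, hm]
  | succ n ih =>
    intro N _ _ ρ hv M _ _ ρL i H v
    obtain ⟨c, hc⟩ := exists_conn (εL.comp π) (ses_Sg ρ)
    obtain ⟨z, h1, h2⟩ := hc.surj (van_coind_self N) n v
    obtain ⟨MS, ρS, HS⟩ := Inf_exists h (sgRep ρ)
    obtain ⟨MI, ρI, HI⟩ := Inf_exists h (coind A N)
    obtain ⟨w, h3⟩ := ih _ (sgRep ρ) (van_shift ((ses_Sg ρ).comp j) (van_coind h.proj _ N)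
      fun n hn => hv n (by omega)) MS ρS _ HS z
    obtain ⟨w, rfl⟩ := cl_surj w
    obtain ⟨σ, hσ⟩ := Inf_lift MS.subtype ((LinearMap.range (io ρ)).mkQ ∘ₗ MI.subtype)
      fun s => Inf_surj hv HI (HS.inv h s)
    have a1 : post ((LinearMap.range (io ρ)).mkQ ∘ₗ MI.subtype) (post σ w.1) =
        post MS.subtype w.1 := by rw [post_post, hσ]
    have e1 : Eqv (ρI.comp π) (sgRep ρ) ((LinearMap.range (io ρ)).mkQ ∘ₗ MI.subtype) :=
      fun a x => congrArg (LinearMap.range (io ρ)).mkQ (HI.eqv a x)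
    have e2 : Eqv (ρL.comp π) (coind A N) (io ρ ∘ₗ i) :=
      fun a x => (congrArg (io ρ) (H.eqv a x)).trans (io_eqv ρ a _)
    have i2 : Function.Injective (io ρ ∘ₗ i) := (io_inj ρ).comp H.inj
    have a2 : post ((LinearMap.range (io ρ)).mkQ ∘ₗ MI.subtype) (dl εL ρI (post σ w.1)) = 0 := by
      refine pull_eq_zero (φ := π.toLinearMap) h.surj ?_
      rw [← post_pull, ← Inf_dl e1, post_pull, a1, ← post_pull, Inf_dl HS.eqv, (mem_Zc.1 w.2).2,
        map_zero, map_zero]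
    obtain ⟨y, hy⟩ := Inf_lift (post MI.subtype (dl εL ρI (post σ w.1))) (io ρ ∘ₗ i) fun t => by
      obtain ⟨x, hx⟩ := (Submodule.Quotient.mk_eq_zero _).1 (LinearMap.congr_fun a2 t)
      obtain ⟨m, rfl⟩ := H.rng x fun b => io_inj ρ (by
        rw [io_eqv, map_smul, hx]
        exact HI.inv h _ b)
      exact ⟨m, hx⟩
    replace hy : post (io ρ ∘ₗ i) y = post MI.subtype (dl εL ρI (post σ w.1)) := hy
    have b1 : post σ w.1 ∈ Bd := post_Bd _ w.2.1
    have a3 : dl (εL.comp π) (coind A N) (post MI.subtype (pull π.toLinearMap (post σ w.1))) =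
        post (io ρ ∘ₗ i) (pull π.toLinearMap y) := by
      rw [Inf_dl HI.eqv, post_pull, ← hy, post_pull]
    have hZ : y ∈ Zc εL ρL := ⟨Bd_of_post i2 (hy ▸ post_Bd _ (del_Bd _ _ b1)), by
      refine pull_eq_zero (φ := π.toLinearMap) h.surj (post_eq_zero i2 ?_)
      rw [← Inf_dl e2, ← a3, dl_dl]⟩
    refine ⟨cl εL ρL ⟨y, hZ⟩, ?_⟩
    rw [← h2, ← h1, ← h3]
    refine (hc.rel _ _ _ (post_Bd _ (pull_Bd _ b1)) ?_ a3).symm
    exact congrArg (pull π.toLinearMap) a1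

theorem fgt_of_van [FiniteDimensional k A] {εL : L →ₐ[k] k} {π : A →ₐ[k] L} {j : K →ₐ[k] A}
    (h : Ctr εL π j) {σ : Type} {θ : σ → Zk εL} (hθ : FGAll εL θ) (m : ℕ)
    (N : Type u) [AddCommGroup N] [Module k N] [FiniteDimensional k N] (ρ : A →ₐ[k] End k N)
    (hv : Van ((εL.comp π).comp j) (ρ.comp j) m) :
    FGT fun i => T (εL.comp π) ρ (pullZ π (θ i)) := by
  induction m generalizing N with
  | zero =>
    obtain ⟨M, ρL, H⟩ := Inf_exists h ρ
    refine fgt_range (postV (εL.comp π) H.eqv ∘ₗ pullV εL ρL π) (fun i v => ?_) ⊥ ?_ (hθ M ρL)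
    · rw [LinearMap.comp_apply, pullV_T, postV_T, LinearMap.comp_apply]
    · rw [sup_bot_eq]
      exact eq_top_of_prV _ fun n => Inf_onto h n N ρ hv M ρL _ H
  | succ m ih =>
    exact fgt_shift (ses_Sg ρ) (van_coind_self N) _
      (ih _ (sgRep ρ) (van_shift ((ses_Sg ρ).comp j) (van_coind h.proj _ N) hv))

end EO
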