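import Pool.Agent.P.MP_42c3cc_al.C2

/-! The p-th power of a transgressive cochain is transgressive. -/

noncomputable section

namespace EO

open TensorAlgebra LinearMap Module
open scoped TensorProduct

universe u

variable {k : Type u} [Field k] {A : Type u} [Ring A] [Algebra k A]
  {X Y Z : Type u} [AddCommGroup X] [Module k X] [AddCommGroup Y] [Module k Y]
  [AddCommGroup Z] [Module k Z] {B : Type u} [Ring B] [Algebra k B]

theorem kudo_neg (c : k) (f : C k A k) : (-c) • f = -(c • f) :=
  LinearMap.ext fun x => by simp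

/-- The twisted insertion operator. -/
def kudoT (h : C k A A) (w : C k A k) : End k (C k A k) := ins 1 h - cr.flip w

theorem kudoT_apply (h : C k A A) (w f : C k A k) : kudoT h w f = ins 1 h f - cr f w := rfl

theorem kudoT_cr (h : C k A A) (w z f : C k A k) :
    kudoT h w (cr z f) = cr (ins 1 h z) f + cr z (kudoT h w f) := by
  have h1 : ins 1 h (cr z f) = cr (ins 1 h z) f + cr z (ins 1 h f) := by
    have := ins_cup 1 h (LinearMap.lsmul k k).flip z f
    rwa [sg_one_eq] at this
  rw [kudoT_apply, kudoT_apply, h1, cr_assoc, map_sub]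
  abel

theorem kudo_dl (ε : A →ₐ[k] k) {e : ℕ} (he : Even e) {h : C k A A} (hh : h ∈ Cn (e + 1))
    (hd : dH h = 0) {w : C k A k} (hdw : dl ε (trv ε k) w = post ε.toLinearMap h) (f : C k A k) :
    dl ε (trv ε k) (kudoT h w f)
      = kudoT h w (dl ε (trv ε k) f) - cr (post ε.toLinearMap h) f := by
  have h1 := homotopy ε (trv ε k) (s := 1) (one_mul 1) (apply_one_eq_zero hh e.succ_pos)
    (by rw [sg_of_mem _ hh, pow_succ, he.neg_one_pow, one_mul]) hd f
  rw [one_smul, kudo_neg, one_smul, cup_trv, sub_eq_iff_eq_add] at h1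
  rw [kudoT_apply, kudoT_apply, map_sub, h1, dl_cr, hdw]
  abel

theorem kudo_sum (ε : A →ₐ[k] k) {e : ℕ} (he : Even e) {h : C k A A} (hh : h ∈ Cn (e + 1))
    (hd : dH h = 0) {w : C k A k} (hdw : dl ε (trv ε k) w = post ε.toLinearMap h) (m : ℕ) :
    dl ε (trv ε k) ((kudoT h w ^ m) (cst 1))
      = -∑ j ∈ Finset.range m, (m.choose (j + 1) : k) •
        cr ((ins 1 h ^ j) (post ε.toLinearMap h)) ((kudoT h w ^ (m - 1 - j)) (cst 1)) := by
  induction m with
  | zero =>
    rw [Finset.sum_range_zero, neg_zero, pow_zero, End.one_apply, dl_cst]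
    exact fun a => trv_apply ε a 1
  | succ m ih =>
    rw [pow_succ', End.mul_apply, kudo_dl ε he hh hd hdw, ih, map_neg, map_sum]
    have e1 : ∀ j ∈ Finset.range m, kudoT h w ((m.choose (j + 1) : k) •
        cr ((ins 1 h ^ j) (post ε.toLinearMap h)) ((kudoT h w ^ (m - 1 - j)) (cst 1))) =
        (m.choose (j + 1) : k) • cr ((ins 1 h ^ (j + 1)) (post ε.toLinearMap h))
          ((kudoT h w ^ (m - (j + 1))) (cst 1)) +
        (m.choose (j + 1) : k) • cr ((ins 1 h ^ j) (post ε.toLinearMap h))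
          ((kudoT h w ^ (m - j)) (cst 1)) := by
      intro j hj
      have hj' := Finset.mem_range.1 hj
      rw [map_smul, kudoT_cr, smul_add, show m - j = (m - 1 - j) + 1 by omega,
        show m - (j + 1) = m - 1 - j by omega, pow_succ', pow_succ']
      rfl
    rw [Finset.sum_congr rfl e1, Finset.sum_add_distrib]
    simp only [Nat.choose_succ_succ', Nat.cast_add, add_smul, Finset.sum_add_distrib,
      Nat.add_sub_cancel]
    rw [Finset.sum_range_succ', Finset.sum_range_succ, Nat.choose_succ_self]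
    simp only [Nat.choose_zero_right, Nat.cast_one, one_smul, pow_zero, End.one_apply,
      Nat.sub_zero, Nat.cast_zero, zero_smul, add_zero]
    abel

theorem kudo_mem {e : ℕ} {h : C k A A} (hh : h ∈ Cn (e + 1)) {w : C k A k} (hw : w ∈ Cn e)
    (m : ℕ) : (kudoT h w ^ m) (cst 1) ∈ Cn (e * m) := by
  induction m with
  | zero => exact cst_mem 1
  | succ m ih =>
    rw [pow_succ', End.mul_apply, kudoT_apply]
    exact sub_mem (ins_mem 1 hh ih) (cup_mem _ ih hw)

theorem kudo_pull {h : C k A A} (w : C k A k) (φ : B →ₗ[k] A) (hφ : pull φ h = 0) (m : ℕ) :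
    pull φ ((kudoT h w ^ m) (cst 1)) = (-1 : k) ^ m • cpow (pull φ w) m := by
  induction m with
  | zero => rw [pow_zero, pow_zero, one_smul, End.one_apply, pull_cst]; rfl
  | succ m ih =>
    rw [pow_succ', End.mul_apply, kudoT_apply, map_sub,
      pull_ins 1 φ (h' := 0) (by rw [hφ, map_zero]), ins_zero, pull_cr, ih, map_smul,
      LinearMap.smul_apply, pow_succ, mul_neg_one, kudo_neg, zero_sub]
    rfl

theorem kudo (p : ℕ) [Fact p.Prime] [CharP k p] (ε : A →ₐ[k] k) {e : ℕ} (he : Even e)
    {h : C k A A} (hh : h ∈ Cn (e + 1)) (hd : dH h = 0) {w : C k A k} (hw : w ∈ Cn e)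
    (hdw : dl ε (trv ε k) w = post ε.toLinearMap h) (φ : B →ₗ[k] A) (hφ : pull φ h = 0) :
    ∃ w' ∈ Cn (e * p), dl ε (trv ε k) w' = (ins 1 h ^ (p - 1)) (post ε.toLinearMap h) ∧
      pull φ w' = cpow (pull φ w) p := by
  have hp : p.Prime := Fact.out
  refine ⟨-(kudoT h w ^ p) (cst 1), neg_mem (kudo_mem hh hw p), ?_, ?_⟩
  · rw [map_neg, kudo_sum ε he hh hd hdw, neg_neg, Finset.sum_eq_single (p - 1)]
    · rw [Nat.sub_add_cancel hp.one_le, Nat.choose_self, Nat.cast_one, one_smul, Nat.sub_self,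
        pow_zero, End.one_apply, cr_one]
    · intro j hj hne
      have hj' := Finset.mem_range.1 hj
      rw [(CharP.cast_eq_zero_iff k p _).2 (hp.dvd_choose_self (by omega) (by omega)), zero_smul]
    · intro hn
      exact absurd (Finset.mem_range.2 (by have := hp.one_le; omega)) hn
  · rw [map_neg, kudo_pull w φ hφ, neg_one_pow_char, kudo_neg, one_smul, neg_neg]

end EO
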