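import Pool.Agent.P.MP_42c3cc_al.H6

/-! The quotient by a central Hopf subalgebra. -/

noncomputable section

namespace EO

open TensorAlgebra LinearMap Module
open scoped TensorProduct

universe u

variable {k : Type u} [Field k] {A L K : Type u} [Ring A] [HopfAlgebra k A] [Ring L]
  [Bialgebra k L] [CommRing K] [Algebra k K]

/-- The ideal generated by the augmentation ideal of `K`. -/
def augI (j : K →ₐ[k] A) : Ideal A :=
  Ideal.span {b | ∃ x, Coalgebra.counit (R := k) (j x) = 0 ∧ b = j x}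

theorem CH.twoSided {j : K →ₐ[k] A} (hj : CH j) : (augI j).IsTwoSided := by
  refine ⟨fun {a} b ha => ?_⟩
  induction ha using Submodule.span_induction with
  | mem x hx =>
    obtain ⟨y, hy, rfl⟩ := hx
    rw [hj.cen]
    exact Ideal.mul_mem_left _ _ (Ideal.subset_span ⟨y, hy, rfl⟩)
  | zero => rw [zero_mul]; exact zero_mem _
  | add x y _ _ hx hy => rw [add_mul]; exact add_mem hx hy
  | smul c x _ hx => rw [smul_eq_mul, mul_assoc]; exact Ideal.mul_mem_left _ _ hx

theorem Quot_sub_mem (j : K →ₐ[k] A) (x : K) :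
    j x - algebraMap k A (Coalgebra.counit (R := k) (j x)) ∈ augI j :=
  Ideal.subset_span ⟨x - algebraMap k K (Coalgebra.counit (R := k) (j x)), by simp, by simp⟩

theorem CH.hopfIdeal {j : K →ₐ[k] A} (hj : CH j) : (augI j).IsHopfIdeal k := by
  haveI := hj.twoSided
  have h1 : ∀ x ∈ augI j, Coalgebra.counit (R := k) x = 0 := fun x hx =>
    (Ideal.span_le (I := RingHom.ker (Bialgebra.counitAlgHom k A))).2
      (by rintro _ ⟨y, hy, rfl⟩; exact hy) hx
  have hm : ∀ y, Ideal.Quotient.mkₐ k (augI j) (j y) =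
      algebraMap k _ (Coalgebra.counit (R := k) (j y)) := fun y => by
    rw [← (Ideal.Quotient.mkₐ k (augI j)).commutes]
    exact Ideal.Quotient.eq.2 (Quot_sub_mem j y)
  have h2 : ∀ x ∈ augI j, ((Algebra.TensorProduct.map (Ideal.Quotient.mkₐ k (augI j))
      (Ideal.Quotient.mkₐ k (augI j))).comp (Bialgebra.comulAlgHom k A)) x = 0 := fun x hx => by
    refine (Ideal.span_le (I := RingHom.ker ((Algebra.TensorProduct.map
      (Ideal.Quotient.mkₐ k (augI j)) (Ideal.Quotient.mkₐ k (augI j))).comp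
        (Bialgebra.comulAlgHom k A)))).2 ?_ hx
    rintro _ ⟨y, hy, rfl⟩
    obtain ⟨t, ht⟩ := hj.com y
    have key : ∀ t : K ⊗[k] K, Algebra.TensorProduct.map (Ideal.Quotient.mkₐ k (augI j))
        (Ideal.Quotient.mkₐ k (augI j)) (TensorProduct.map j.toLinearMap j.toLinearMap t) =
        TensorProduct.map (Algebra.linearMap k _) (Ideal.Quotient.mkₐ k (augI j)).toLinearMap
          (LinearMap.rTensor A (Coalgebra.counit (R := k))
            (TensorProduct.map j.toLinearMap j.toLinearMap t)) := fun t => by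
      induction t using TensorProduct.induction_on with
      | zero => simp
      | tmul a b =>
        simp only [TensorProduct.map_tmul, AlgHom.toLinearMap_apply,
          Algebra.TensorProduct.map_tmul, LinearMap.rTensor_tmul, Algebra.linearMap_apply, hm a]
      | add a b ha hb => simp only [map_add, ha, hb]
    change Algebra.TensorProduct.map (Ideal.Quotient.mkₐ k (augI j))
      (Ideal.Quotient.mkₐ k (augI j)) (Coalgebra.comul (R := k) (j y)) = 0
    rw [← ht, key, ht, Coalgebra.rTensor_counit_comul, TensorProduct.map_tmul,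
      AlgHom.toLinearMap_apply, hm, hy, map_zero, TensorProduct.tmul_zero]
  refine { counit_eq_zero := h1, map_mkQ_comul_eq_zero := h2, antipode_mem := fun x hx => ?_ }
  induction hx using Submodule.span_induction with
  | mem x hx =>
    obtain ⟨y, hy, rfl⟩ := hx
    obtain ⟨z, hz⟩ := hj.ant y
    exact Ideal.subset_span ⟨z, by rw [← hz, HopfAlgebra.counit_antipode, hy], hz⟩
  | zero => rw [map_zero]; exact zero_mem _
  | add x y _ _ hx hy => rw [map_add]; exact add_mem hx hy
  | smul c x _ hx =>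
    rw [smul_eq_mul, HopfAlgebra.antipode_mul_antidistrib]
    exact Ideal.mul_mem_right _ _ hx

theorem quo_mk (j : K →ₐ[k] A) [(augI j).IsTwoSided] [(augI j).IsHopfIdeal k] :
    Quo j (Bialgebra.Quotient.mkBialgHom (R := k) (augI j)) :=
  ⟨Ideal.Quotient.mk_surjective, fun _ => Ideal.Quotient.eq_zero_iff_mem⟩

theorem Quo.triv {j : K →ₐ[k] A} {π : A →ₐc[k] L} (hπ : Quo j π) (x : K) :
    π (j x) = algebraMap k L (Coalgebra.counit (R := k) (j x)) := by
  have h := (hπ.ker _).2 (Quot_sub_mem j x)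
  rwa [map_sub, AlgHomClass.commutes, sub_eq_zero] at h

theorem Quo.ctr {j : K →ₐ[k] A} (hj : CH j) {π : A →ₐc[k] L} (hπ : Quo j π) (hp : Proj j) :
    Ctr (Bialgebra.counitAlgHom k L) (π : A →ₐ[k] L) j := by
  have h : ∀ a, Bialgebra.counitAlgHom k L ((π : A →ₐ[k] L) a) = Coalgebra.counit (R := k) a :=
    fun a => CoalgHomClass.counit_comp_apply π a
  refine ⟨hπ.surj, fun a ha => ?_, hj.cen, fun x => ?_, hp⟩
  · simp only [h]
    exact (hπ.ker a).1 ha
  · rw [h]
    exact hπ.triv x

/-- A bialgebra map that kills a Hopf ideal factors through the quotient. -/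
theorem exists_lift_quot (I : Ideal A) [I.IsTwoSided] [I.IsHopfIdeal k] (π : A →ₐc[k] L)
    (h : ∀ a ∈ I, π a = 0) : ∃ π' : (A ⧸ I) →ₐc[k] L, ∀ a, π' (Ideal.Quotient.mk I a) = π a :=
  ⟨BialgHom.ofAlgHom (Ideal.Quotient.liftₐ I (π : A →ₐ[k] L) h)
    (Ideal.Quotient.algHom_ext k (AlgHom.ext fun a => CoalgHomClass.counit_comp_apply π a))
    (Ideal.Quotient.algHom_ext k (AlgHom.ext fun a => by
      have e := CoalgHomClass.map_comp_comul_apply π a
      change Algebra.TensorProduct.map (Ideal.Quotient.liftₐ I (π : A →ₐ[k] L) h)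
        (Ideal.Quotient.liftₐ I (π : A →ₐ[k] L) h) (Algebra.TensorProduct.map
          (Ideal.Quotient.mkₐ k I) (Ideal.Quotient.mkₐ k I) (Coalgebra.comul (R := k) a)) =
        Coalgebra.comul (R := k) (π a)
      rw [← e, ← AlgHom.comp_apply, ← Algebra.TensorProduct.map_comp]
      rfl)), fun _ => rfl⟩

/-- The image of a central Hopf subalgebra under a surjection compatible with the antipodes. -/
theorem CH.image {j : K →ₐ[k] A} (hj : CH j) (I : Ideal A) [I.IsTwoSided] [I.IsHopfIdeal k] :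
    CH (Ideal.kerLiftAlg ((Ideal.Quotient.mkₐ k I).comp j)) := by
  refine ⟨Ideal.kerLiftAlg_injective _, fun x a => ?_, fun x => ?_, fun x => ?_⟩
  · obtain ⟨x, rfl⟩ := Ideal.Quotient.mk_surjective x
    obtain ⟨a, rfl⟩ := Ideal.Quotient.mk_surjective a
    rw [Ideal.kerLiftAlg_mk]
    change Ideal.Quotient.mk I (j x) * _ = _ * Ideal.Quotient.mk I (j x)
    rw [← map_mul, ← map_mul, hj.cen]
  · obtain ⟨x, rfl⟩ := Ideal.Quotient.mk_surjective x
    obtain ⟨t, ht⟩ := hj.com x
    refine ⟨TensorProduct.map (Ideal.Quotient.mkₐ k _).toLinearMap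
      (Ideal.Quotient.mkₐ k _).toLinearMap t, ?_⟩
    rw [Ideal.kerLiftAlg_mk]
    change _ = Coalgebra.comul (R := k) (Ideal.Quotient.mk I (j x))
    rw [Bialgebra.Quotient.comul_mk, ← ht, ← LinearMap.comp_apply, ← LinearMap.comp_apply,
      ← TensorProduct.map_comp, ← TensorProduct.map_comp]
    rfl
  · obtain ⟨x, rfl⟩ := Ideal.Quotient.mk_surjective x
    obtain ⟨y, hy⟩ := hj.ant x
    refine ⟨Ideal.Quotient.mk _ y, ?_⟩
    rw [Ideal.kerLiftAlg_mk, Ideal.kerLiftAlg_mk]
    change HopfAlgebra.antipode k (Ideal.Quotient.mk I (j x)) = Ideal.Quotient.mk I (j y)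
    rw [HopfAlgebra.Quotient.antipode_mk, hy]

theorem fgAll_of_van {A : Type u} [Ring A] [Algebra k A] [FiniteDimensional k A] {ε : A →ₐ[k] k}
    (h : ∀ (M : Type u) [AddCommGroup M] [Module k M] (ρ : A →ₐ[k] End k M), Van ε ρ 0)
    {σ : Type} (θ : σ → Zk ε) : FGAll ε θ := by
  intro M _ _ _ ρ
  obtain ⟨U, hU, h1⟩ := fd_low (ε := ε) ρ 1
  have hT : U = ⊤ := eq_top_of_prV U fun n v => by
    rcases Nat.eq_zero_or_pos n with rfl | hn
    · exact h1 0 one_pos v
    · rw [h M ρ n hn v]
      exact zero_mem _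
  subst hT
  haveI : FiniteDimensional k (V ε ρ) := Module.Finite.equiv Submodule.topEquiv
  exact fgt_of_fd _

theorem fgc_triv {A : Type u} [Ring A] [Algebra k A] {ε : A →ₐ[k] k}
    (h : ∀ a, a = algebraMap k A (ε a)) : FGcAll ε := by
  haveI : FiniteDimensional k A :=
    Module.Finite.of_surjective (Algebra.linearMap k A) fun a => ⟨ε a, (h a).symm⟩
  refine fgc_of_fam (σ := Empty) (fun e => e.elim) (fun e => e.elim) (fun e => e.elim)
    (fgAll_of_van (fun M _ _ ρ => van_of_retr (LinearMap.applyₗ 1) (fun a φ => ?_) fun x => ?_) _)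
  · rw [h a]
    simp [Algebra.algebraMap_eq_smul_one]
  · simp [io]

end EO
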