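import Pool.Agent.P.MP_42c3cc_al.S2
import Pool.Agent.P.MP_42c3cc_al.Quot

/-! The case of an idempotent augmentation ideal. -/

noncomputable section

namespace EO

open TensorAlgebra LinearMap Module
open scoped TensorProduct

universe u

section
variable {k : Type u} [Field k] {A : Type u} [Ring A] [Algebra k A]

/-- The algebra map attached to an idempotent. -/
def M0j (e : A) (he : e * e = e) : (k × k) →ₐ[k] A :=
  AlgHom.ofLinearMap
    (LinearMap.coprod (LinearMap.toSpanSingleton k A (1 - e)) (LinearMap.toSpanSingleton k A e))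
    (by simp) (fun x y => by
      have h1 : (1 - e) * (1 - e) = 1 - e := by rw [sub_mul, mul_sub, mul_sub, he]; simp
      have h2 : (1 - e) * e = 0 := by rw [sub_mul, he]; simp
      have h3 : e * (1 - e) = 0 := by rw [mul_sub, he]; simp
      simp only [LinearMap.coprod_apply, LinearMap.toSpanSingleton_apply, Prod.fst_mul,
        Prod.snd_mul, add_mul, mul_add, smul_mul_smul_comm, h1, h2, h3, he, smul_zero, add_zero,
        zero_add])

theorem M0j_apply (e : A) (he : e * e = e) (x : k × k) :
    M0j e he x = x.1 • (1 - e) + x.2 • e := rfl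

theorem M0proj (e : A) (he : e * e = e) : Proj (M0j (k := k) e he) := by
  have h1 : (1 - e) * (1 - e) = 1 - e := by rw [sub_mul, mul_sub, mul_sub, he]; simp
  have h2 : (1 - e) * e = 0 := by rw [sub_mul, he]; simp
  have h3 : e * (1 - e) = 0 := by rw [mul_sub, he]; simp
  refine ⟨(TensorProduct.mk k A (k × k)).flip (1, 0) ∘ₗ LinearMap.mulRight k (1 - e) +
    (TensorProduct.mk k A (k × k)).flip (0, 1) ∘ₗ LinearMap.mulRight k e, fun a => ?_,
    fun a x => ?_⟩
  · simp only [LinearMap.add_apply, LinearMap.comp_apply, LinearMap.mulRight_apply,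
      LinearMap.flip_apply, TensorProduct.mk_apply, map_add, TensorProduct.lift.tmul,
      LinearMap.compl₂_apply, AlgHom.toLinearMap_apply, M0j_apply, LinearMap.mul_apply',
      one_smul, zero_smul, add_zero, zero_add, mul_assoc, h1, he]
    rw [← mul_add]; simp
  · have a1 : ((1, 0) : k × k) * x = x.1 • ((1, 0) : k × k) := by ext <;> simp
    have a2 : ((0, 1) : k × k) * x = x.2 • ((0, 1) : k × k) := by ext <;> simp
    simp only [LinearMap.add_apply, LinearMap.comp_apply, LinearMap.mulRight_apply,
      LinearMap.flip_apply, TensorProduct.mk_apply, M0j_apply, add_mul,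
      Algebra.TensorProduct.tmul_mul_tmul, mul_one, a1, a2, mul_assoc, smul_mul_assoc, h1, h2, h3,
      he, smul_zero, add_zero, zero_add, mul_smul_comm, TensorProduct.tmul_smul,
      TensorProduct.smul_tmul']

theorem M0van (ε : (k × k) →ₐ[k] k) (M : Type u) [AddCommGroup M] [Module k M]
    (ρ : (k × k) →ₐ[k] End k M) : Van ε ρ 0 := by
  refine van_of_retr (ρ (1, 0) ∘ₗ LinearMap.applyₗ ((1, 0) : k × k) +
    ρ (0, 1) ∘ₗ LinearMap.applyₗ ((0, 1) : k × k)) (fun a φ => ?_) fun x => ?_
  · have a1 : ((1, 0) : k × k) * a = a.1 • ((1, 0) : k × k) := by ext <;> simp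
    have a2 : ((0, 1) : k × k) * a = a.2 • ((0, 1) : k × k) := by ext <;> simp
    have b1 : ∀ y, ρ a (ρ (1, 0) y) = a.1 • ρ (1, 0) y := fun y => by
      rw [← Module.End.mul_apply, ← map_mul, mul_comm, a1, map_smul, LinearMap.smul_apply]
    have b2 : ∀ y, ρ a (ρ (0, 1) y) = a.2 • ρ (0, 1) y := fun y => by
      rw [← Module.End.mul_apply, ← map_mul, mul_comm, a2, map_smul, LinearMap.smul_apply]
    simp only [LinearMap.add_apply, LinearMap.comp_apply, LinearMap.applyₗ_apply_apply,
      coind_apply, a1, a2, map_smul, map_add, b1, b2]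
  · have a1 : ((1, 0) : k × k) * (1, 0) + (0, 1) * (0, 1) = 1 := by ext <;> simp
    simp only [LinearMap.add_apply, LinearMap.comp_apply, LinearMap.applyₗ_apply_apply, io,
      LinearMap.flip_apply, AlgHom.toLinearMap_apply]
    rw [← Module.End.mul_apply, ← Module.End.mul_apply, ← map_mul, ← map_mul,
      ← LinearMap.add_apply, ← map_add, a1, map_one, Module.End.one_apply]

end

variable {k : Type u} [Field k] {A L K : Type u} [Ring A] [HopfAlgebra k A] [Ring L]
  [HopfAlgebra k L] [CommRing K] [Algebra k K] [FiniteDimensional k A]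

theorem main_idem {j : K →ₐ[k] A} (hj : CH j) {π : A →ₐc[k] L} (hπ : Quo j π)
    (h : IsIdempotentElem (RingHom.ker ((Bialgebra.counitAlgHom k A).comp j)))
    (hL : FGcAll (Bialgebra.counitAlgHom k L)) : FGcAll (Bialgebra.counitAlgHom k A) := by
  have : FiniteDimensional k K := FiniteDimensional.of_injective j.toLinearMap hj.inj
  have : IsNoetherianRing K := isNoetherian_of_tower k (inferInstance : IsNoetherian k K)
  have : FiniteDimensional k L :=
    Module.Finite.of_surjective (π : A →ₐ[k] L).toLinearMap hπ.surj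
  obtain ⟨e', he', hker⟩ :=
    (Ideal.isIdempotentElem_iff_of_fg _ (IsNoetherian.noetherian _)).1 h
  have he : j e' * j e' = j e' := by rw [← map_mul, he'.eq]
  have hε : (Bialgebra.counitAlgHom k L).comp (π : A →ₐ[k] L) = Bialgebra.counitAlgHom k A :=
    BialgHom.counitAlgHom_comp π
  have he0 : Coalgebra.counit (R := k) (j e') = 0 := by
    have : e' ∈ RingHom.ker ((Bialgebra.counitAlgHom k A).comp j) := by
      rw [hker]; exact Submodule.mem_span_singleton_self _
    exact this
  have hπe : (π : A →ₐ[k] L) (j e') = 0 := by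
    have := hπ.triv e'
    rw [he0, map_zero] at this
    exact this
  have hπj : ∀ x : k × k, (π : A →ₐ[k] L) (M0j (j e') he x) = algebraMap k L x.1 := fun x => by
    rw [M0j_apply, map_add, map_smul, map_smul, map_sub, hπe, map_one, sub_zero, smul_zero,
      add_zero, Algebra.algebraMap_eq_smul_one]
  have hC : Ctr (Bialgebra.counitAlgHom k L) (π : A →ₐ[k] L) (M0j (k := k) (j e') he) := by
    refine ⟨hπ.surj, fun a ha => ?_, fun x a => ?_, fun x => ?_, M0proj _ _⟩
    · refine Ideal.span_le.2 ?_ ((hπ.ker a).1 ha)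
      rintro _ ⟨x, hx, rfl⟩
      have hx' : x ∈ RingHom.ker ((Bialgebra.counitAlgHom k A).comp j) := hx
      rw [hker] at hx'
      obtain ⟨y, rfl⟩ := Submodule.mem_span_singleton.1 hx'
      rw [smul_eq_mul, map_mul]
      refine Ideal.mul_mem_left _ _ (Ideal.subset_span ⟨(0, 1), ?_, ?_⟩)
      · rw [hπj]; simp
      · simp [M0j_apply]
    · have hc := hj.cen e' a
      simp only [M0j_apply, add_mul, mul_add, smul_mul_assoc, mul_smul_comm, sub_mul, mul_sub,
        hc, one_mul, mul_one]
    · rw [hπj]; simp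
  obtain ⟨n, θ, d, hd, hθ⟩ := fam_of_fgc rfl hL
  have hmem : ∀ i, (pullZ (π : A →ₐ[k] L) (θ i)).1 ∈ Cn (d i) := fun i =>
    pull_mem _ (hd i).1
  have key := s2 hC (τ := Empty) hθ d
    (fun i => cen_of_bialg hε (hd i).2.1 (hd i).2.2 (hmem i)) (fun i => i.elim) (fun i => i.elim)
    (fun i => i.elim) (fun i => i.elim) (fun i => i.elim) (fun i => i.elim) (fun i => i.elim)
    (fun i => i.elim) (fun i => i.elim) (fgAll_of_van (M0van _) _)
  have := fgc_of_fam _ (Sum.elim d fun i => i.elim) (by
    rintro (i | i)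
    · exact hmem i
    · exact i.elim) key
  rwa [hε] at this

end EO
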