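import Pool.Agent.P.MP_42c3cc_al.D1

/-! Symmetric two-cocycles of a central subalgebra are transgressive. -/

noncomputable section

namespace EO

open TensorAlgebra LinearMap Module
open scoped TensorProduct

universe u

variable {k : Type u} [Field k] {A L K : Type u} [Ring A] [Algebra k A] [Ring L] [Algebra k L]
  [CommRing K] [Algebra k K]

theorem St1a_G {ε : A →ₐ[k] k} {j : K →ₐ[k] A} (hp : Proj j) {v : K →ₗ[k] K →ₗ[k] k}
    (hv : ∀ x y z, v (x * y) z = ε (j x) * v y z + v x (y * z) - v x y * ε (j z))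
    (γ : A →ₗ[k] A →ₗ[k] K) (hγ : ∀ a b x y, γ (a * j x) (b * j y) = x * y * γ a b)
    (hγ0 : ∀ a b, ε (j (γ a b)) = 0) :
    ∃ G : A →ₗ[k] A →ₗ[k] k, (∀ a b x, G (a * j x) b = ε (j x) * G a b + v x (γ a b)) ∧
      ∀ a b x, G a (b * j x) = ε (j x) * G a b + v x (γ a b) := by
  obtain ⟨s, hs1, hs2⟩ := hp
  obtain ⟨μ, hμ⟩ : ∃ μ, μ = TensorProduct.lift ((LinearMap.mul k A).compl₂ j.toLinearMap) :=
    ⟨_, rfl⟩
  rw [← hμ] at hs1
  have hμt : ∀ a x, μ (a ⊗ₜ x) = a * j x := fun a x => by simp [hμ]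
  obtain ⟨H, hH⟩ : ∃ H : A ⊗[k] K →ₗ[k] A ⊗[k] K →ₗ[k] k,
      ∀ a x b y, H (a ⊗ₜ x) (b ⊗ₜ y) = v (x * y) (γ a b) :=
    ⟨(TensorProduct.map₂ γ (LinearMap.mul k K)).compr₂ (TensorProduct.lift v.flip),
      fun a x b y => by simp⟩
  have key : ∀ (x : K) (t t' : A ⊗[k] K),
      H (t * (1 ⊗ₜ x)) t' = ε (j x) * H t t' + v x (γ (μ t) (μ t')) ∧
      H t (t' * (1 ⊗ₜ x)) = ε (j x) * H t t' + v x (γ (μ t) (μ t')) := by
    intro x t t'
    induction t using TensorProduct.induction_on with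
    | zero => simp
    | add t1 t2 h1 h2 =>
      simp only [add_mul, map_add, LinearMap.add_apply, h1.1, h1.2, h2.1, h2.2]
      constructor <;> ring
    | tmul a y =>
      induction t' using TensorProduct.induction_on with
      | zero => simp
      | add t1 t2 h1 h2 =>
        simp only [add_mul, map_add, h1.1, h1.2, h2.1, h2.2]
        constructor <;> ring
      | tmul b z =>
        have h := hv x (y * z) (γ a b)
        rw [hγ0, mul_zero, sub_zero] at h
        simp only [Algebra.TensorProduct.tmul_mul_tmul, mul_one, hH, hμt, hγ]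
        rw [← h]
        constructor
        · rw [mul_comm y x, mul_assoc]
        · rw [← mul_assoc, mul_comm _ x]
  refine ⟨H.compl₁₂ s s, fun a b x => ?_, fun a b x => ?_⟩
  · simp only [LinearMap.compl₁₂_apply, hs2, (key x _ _).1, hs1]
  · simp only [LinearMap.compl₁₂_apply, hs2, (key x _ _).2, hs1]

theorem St1a_u {ε : A →ₐ[k] k} {j : K →ₐ[k] A} (hp : Proj j) (hc : ∀ x a, j x * a = a * j x)
    {v : K →ₗ[k] K →ₗ[k] k} (hs : ∀ x y, v x y = v y x)
    (hv : ∀ x y z, v (x * y) z = ε (j x) * v y z + v x (y * z) - v x y * ε (j z))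
    (E : A →ₗ[k] K) (hE : ∀ a x, E (a * j x) = E a * x) (hEε : ∀ a, ε (j (E a)) = ε a) :
    ∃ u : A →ₗ[k] A →ₗ[k] k,
      (∀ a b x, u (a * j x) b = ε (j x) * u a b + v x (E (a * b)) - v x (E a) * ε b) ∧
      ∀ a b x, u a (b * j x) = ε (j x) * u a b + v x (E (a * b)) - v x (E b) * ε a := by
  obtain ⟨G, h1, h2⟩ := St1a_G hp hv
    ((LinearMap.mul k A).compr₂ E - (LinearMap.mul k K).compl₁₂ E E) (fun a b x y => by
      have e : a * j x * (b * j y) = a * b * j x * j y := by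
        rw [mul_assoc a, ← mul_assoc (j x), hc x b, ← mul_assoc, ← mul_assoc]
      simp only [LinearMap.sub_apply, LinearMap.compr₂_apply, LinearMap.compl₁₂_apply,
        LinearMap.mul_apply', e, hE]
      ring) (fun a b => by
      simp only [LinearMap.sub_apply, LinearMap.compr₂_apply, LinearMap.compl₁₂_apply,
        LinearMap.mul_apply', map_sub, map_mul, hEε, sub_self])
  simp only [LinearMap.sub_apply, LinearMap.compr₂_apply, LinearMap.compl₁₂_apply,
    LinearMap.mul_apply', map_sub] at h1 h2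
  refine ⟨v.compl₁₂ E E + G, fun a b x => ?_, fun a b x => ?_⟩
  · simp only [LinearMap.add_apply, LinearMap.compl₁₂_apply, h1, hE]
    rw [mul_comm (E a) x, hv, hEε]
    ring
  · simp only [LinearMap.add_apply, LinearMap.compl₁₂_apply, h2, hE]
    rw [mul_comm (E b) x, hs (E a) (x * E b), hv, hEε, hs (E b) (E a), mul_comm (E b) (E a)]
    ring

theorem St1a_ker {εL : L →ₐ[k] k} {π : A →ₐ[k] L} {j : K →ₐ[k] A} (hC : Ctr εL π j)
    (f : A →ₗ[k] k) (hf : ∀ a x, f (a * j x) = εL (π (j x)) * f a) {a b : A} (h : π a = π b) :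
    f a = f b := by
  have h1 := hC.ker (a - b) (by rw [map_sub, h, sub_self])
  have h2 : ∀ c ∈ Ideal.span {b | ∃ x, εL (π (j x)) = 0 ∧ b = j x}, ∀ r, f (r * c) = 0 := by
    intro c hc
    induction hc using Submodule.span_induction with
    | mem c hc =>
      obtain ⟨x, hx, rfl⟩ := hc
      intro r
      rw [hf, hx, zero_mul]
    | zero => simp
    | add c d _ _ hc hd => intro r; rw [mul_add, map_add, hc, hd, add_zero]
    | smul a c _ hc => intro r; rw [smul_eq_mul, ← mul_assoc, hc]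
  have h3 := h2 _ h1 1
  rwa [one_mul, map_sub, sub_eq_zero] at h3

theorem exists_trans {εL : L →ₐ[k] k} {π : A →ₐ[k] L} {j : K →ₐ[k] A} (hC : Ctr εL π j)
    (E : A →ₗ[k] K) (hE : ∀ a x, E (a * j x) = E a * x) (hE1 : E 1 = 1)
    (hEε : ∀ a, εL (π (j (E a))) = εL (π a)) {χ : K →ₗ[k] K →ₗ[k] K} (hχ : Sym2c χ) :
    ∃ (w : C k A k) (y : C k L k), w ∈ Cn 2 ∧ y ∈ Cn 3 ∧ dl εL (trv εL k) y = 0 ∧
      dl (εL.comp π) (trv (εL.comp π) k) w = pull π.toLinearMap y ∧
      pull j.toLinearMap w = mk2 (χ.compr₂ ((εL.comp π).comp j).toLinearMap) := by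
  obtain ⟨v, hvd⟩ : ∃ v, v = χ.compr₂ ((εL.comp π).comp j).toLinearMap := ⟨_, rfl⟩
  have hva : ∀ x y, v x y = εL (π (j (χ x y))) := fun x y => by
    rw [hvd]
    rfl
  have hs : ∀ x y, v x y = v y x := fun x y => by rw [hva, hva, hχ.symm]
  have hv : ∀ x y z, v (x * y) z =
      εL (π (j x)) * v y z + v x (y * z) - v x y * εL (π (j z)) := fun x y z => by
    have h := congrArg (fun t => εL (π (j t))) (hχ.coc x y z)
    simp only [map_sub, map_add, map_mul, map_zero] at h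
    simp only [hva]
    linear_combination -h
  obtain ⟨u, u1, u2⟩ := St1a_u (ε := εL.comp π) hC.proj hC.cen hs hv E hE hEε
  simp only [AlgHom.comp_apply] at u1 u2
  obtain ⟨u', hu'⟩ : ∃ u' : A →ₗ[k] A →ₗ[k] k,
      ∀ a b, u' a b = u a b - (u 1 1 - v 1 1) * (εL (π a) * εL (π b)) :=
    ⟨u - (u 1 1 - v 1 1) • (LinearMap.mul k k).compl₁₂ (εL.comp π).toLinearMap
      (εL.comp π).toLinearMap, fun a b => by simp⟩
  obtain ⟨sec, hsec⟩ := π.toLinearMap.exists_rightInverse_of_surjective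
    (LinearMap.range_eq_top.2 hC.surj)
  have hsec' : ∀ a, π (sec (π a)) = π a := fun a => LinearMap.congr_fun hsec (π a)
  obtain ⟨D, hD⟩ : ∃ D, D = dl (εL.comp π) (trv (εL.comp π) k) (mk2 u') := ⟨_, rfl⟩
  have hD3 : D ∈ Cn 3 := hD ▸ del_mem _ _ (mk2_mem u')
  have hd : ∀ a b c, tl c (tl b (tl a D)) 1 =
      εL (π a) * u b c - u (a * b) c + u a (b * c) - εL (π c) * u a b := fun a b c => by
    rw [hD, dl, del_mk2]
    simp only [AlgHom.toLinearMap_apply, trv_apply, AlgHom.comp_apply, smul_eq_mul, hu', map_mul]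
    ring
  have e1 : ∀ a b x, a * j x * b = a * b * j x := fun a b x => by
    rw [mul_assoc, hC.cen, mul_assoc]
  have k1 : ∀ a b c, tl c (tl b (tl (sec (π a)) D)) 1 = tl c (tl b (tl a D)) 1 := fun a b c =>
    St1a_ker hC (LinearMap.applyₗ (1 : TensorAlgebra k A) ∘ₗ tl c ∘ₗ tl b ∘ₗ tl.flip D)
      (fun a x => by
        change tl c (tl b (tl (a * j x) D)) 1 = _ * tl c (tl b (tl a D)) 1
        rw [hd, hd, e1, u1, u1, u1, mul_assoc a b c]
        simp only [map_mul]
        ring) (hsec' a)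
  have k2 : ∀ a b c, tl c (tl (sec (π b)) (tl a D)) 1 = tl c (tl b (tl a D)) 1 := fun a b c =>
    St1a_ker hC (LinearMap.applyₗ (1 : TensorAlgebra k A) ∘ₗ tl c ∘ₗ tl.flip (tl a D))
      (fun b x => by
        change tl c (tl (b * j x) (tl a D)) 1 = _ * tl c (tl b (tl a D)) 1
        rw [hd, hd, e1, ← mul_assoc a b (j x), u1, u1, u2, u2, mul_assoc a b c]
        ring) (hsec' b)
  have k3 : ∀ a b c, tl (sec (π c)) (tl b (tl a D)) 1 = tl c (tl b (tl a D)) 1 := fun a b c =>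
    St1a_ker hC (LinearMap.applyₗ (1 : TensorAlgebra k A) ∘ₗ tl.flip (tl b (tl a D)))
      (fun c x => by
        change tl (c * j x) (tl b (tl a D)) 1 = _ * tl c (tl b (tl a D)) 1
        rw [hd, hd, ← mul_assoc b c (j x), u2, u2, u2, mul_assoc a b c]
        simp only [map_mul]
        ring) (hsec' c)
  have hy : D = pull π.toLinearMap (pull sec D) := by
    refine ext_Cn3 hD3 (pull_mem _ (pull_mem _ hD3)) fun a b c => ?_
    simp only [tl_pull, pull_one, AlgHom.toLinearMap_apply]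
    rw [k1, k2, k3]
  refine ⟨mk2 u', pull sec D, mk2_mem u', pull_mem _ hD3, ?_, hD ▸ hy, ?_⟩
  · refine pull_eq_zero (φ := π.toLinearMap) hC.surj ?_
    rw [pull_dl, trv_comp, ← hy, hD, dl_dl]
  · rw [pull_mk2, ← hvd]
    congr 1
    refine LinearMap.ext fun x => LinearMap.ext fun y => ?_
    have h1 := u1 1 (j y) x
    have h2 := u2 1 1 y
    have h3 := hv x 1 1
    have h4 := hE 1 y
    simp only [one_mul, mul_one, map_one, hE1] at h1 h2 h3 h4
    simp only [LinearMap.compl₁₂_apply, AlgHom.toLinearMap_apply, hu']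
    rw [h1, h2, h4]
    linear_combination (-εL (π (j y))) * h3

end EO
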