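import Pool.Agent.P.MP_42c3cc_al.St1b

/-! In a Noetherian cohomology ring the tower of transgressions dies. -/

noncomputable section

namespace EO

open TensorAlgebra LinearMap Module
open scoped TensorProduct

universe u

variable {k : Type u} [Field k] {A L K : Type u} [Ring A] [Algebra k A] [Ring L] [Algebra k L]
  [Ring K] [Algebra k K]

theorem St1c_cr_mem {ε : A →ₐ[k] k} {f a : C k A k} (hf : f ∈ Zc ε (trv ε k))
    (ha : a ∈ Bc ε (trv ε k)) : cr f a ∈ Bc ε (trv ε k) := by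
  obtain ⟨g, hg, rfl⟩ := ha
  have h1 := sg_dl (-1) ε (trv ε k) f
  rw [(mem_Zc.1 hf).2, map_zero, eq_comm, smul_eq_zero_iff_right (neg_ne_zero.2 one_ne_zero)] at h1
  refine ⟨cr (sg (-1) f) g, cup_Bd _ (sg_Bd _ hf.1) hg, ?_⟩
  rw [dl_cr, h1, map_zero, LinearMap.zero_apply, zero_add, sg_sg, neg_mul_neg, one_mul, sg_one_eq]

theorem St1c_pull_dl (ε : L →ₐ[k] k) (π : A →ₐ[k] L) (f : C k L k) :
    pull π.toLinearMap (dl ε (trv ε k) f) =
      dl (ε.comp π) (trv (ε.comp π) k) (pull π.toLinearMap f) := by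
  rw [pull_dl, trv_comp]

/-- Classes that transgress from a cochain whose restriction lies in `S`. -/
def St1c_U (εL : L →ₐ[k] k) (π : A →ₐ[k] L) (j : K →ₐ[k] A) (S : Submodule k (C k K k)) :
    Submodule k (V εL (trv εL k)) :=
  (((Bd ⊓ S.comap (pull j.toLinearMap)).map (dl (εL.comp π) (trv (εL.comp π) k))).comap
    (pull π.toLinearMap ∘ₗ (Zc εL (trv εL k)).subtype)).map (cl εL (trv εL k))

theorem St1c_mem {εL : L →ₐ[k] k} {π : A →ₐ[k] L} {j : K →ₐ[k] A} {S : Submodule k (C k K k)}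
    {x : V εL (trv εL k)} : x ∈ St1c_U εL π j S ↔ ∃ (y : Zk εL) (w : C k A k), w ∈ Bd ∧
      pull j.toLinearMap w ∈ S ∧ dl (εL.comp π) (trv (εL.comp π) k) w = pull π.toLinearMap y.1 ∧
        cl εL (trv εL k) y = x :=
  ⟨fun ⟨y, ⟨w, hw, e⟩, e'⟩ => ⟨y, w, hw.1, hw.2, e, e'⟩,
    fun ⟨y, w, h1, h2, e, e'⟩ => ⟨y, ⟨w, ⟨h1, h2⟩, e⟩, e'⟩⟩

theorem exists_zeta (εL : L →ₐ[k] k) (π : A →ₐ[k] L) (j : K →ₐ[k] A)
    (htriv : ∀ x, π (j x) = algebraMap k L (εL (π (j x)))) {σ : Type} (θ : σ → Zk εL)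
    (dθ : σ → ℕ) (hθ : ∀ i, (θ i).1 ∈ Cn (dθ i) ∧ 0 < dθ i ∧ Even (dθ i))
    (hN : Noe fun i => T εL (trv εL k) (θ i)) (e : ℕ → ℕ) (he : StrictMono e)
    (he' : ∀ r, 0 < e r ∧ Even (e r)) (w : ℕ → C k A k) (y : ℕ → C k L k)
    (hw : ∀ r, w r ∈ Cn (e r)) (hy : ∀ r, y r ∈ Cn (e r + 1))
    (hy0 : ∀ r, dl εL (trv εL k) (y r) = 0)
    (hwy : ∀ r, dl (εL.comp π) (trv (εL.comp π) k) (w r) = pull π.toLinearMap (y r)) :
    ∃ (r : ℕ) (ζ : C k A k), ζ ∈ Cn (e r) ∧ dl (εL.comp π) (trv (εL.comp π) k) ζ = 0 ∧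
      pull j.toLinearMap ζ - pull j.toLinearMap (w r)
        ∈ Bc ((εL.comp π).comp j) (trv ((εL.comp π).comp j) k) := by
  have pp : ∀ f : C k L k, pull j.toLinearMap (pull π.toLinearMap f) =
      pull (π.comp j).toLinearMap f := fun f => pull_pull _ _ f
  have hle : ∀ x, x ∈ St1c_U εL π j (Bc ((εL.comp π).comp j) (trv ((εL.comp π).comp j) k)) →
      x ∈ St1c_U εL π j (Zc ((εL.comp π).comp j) (trv ((εL.comp π).comp j) k)) := fun x hx => by
    obtain ⟨y, w, h1, h2, h3, h4⟩ := St1c_mem.1 hx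
    exact St1c_mem.2 ⟨y, w, h1, Bc_le_Zc _ _ h2, h3, h4⟩
  have hT : ∀ i x, x ∈ St1c_U εL π j (Zc ((εL.comp π).comp j) (trv ((εL.comp π).comp j) k)) →
      T εL (trv εL k) (θ i) x ∈
        St1c_U εL π j (Bc ((εL.comp π).comp j) (trv ((εL.comp π).comp j) k)) := fun i x hx => by
    obtain ⟨y, w, h1, h2, h3, rfl⟩ := St1c_mem.1 hx
    refine St1c_mem.2 ⟨⟨cr y.1 (θ i).1, cr_mem_Zc y.2 (θ i).2⟩, cr w (pull π.toLinearMap (θ i).1),
      cup_Bd _ h1 (pull_Bd _ (θ i).2.1), ?_, ?_, (T_cl _ _ _ _).symm⟩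
    · rw [pull_cr, pp]
      exact St1c_cr_mem h2 (pull_even_mem ((εL.comp π).comp j) (π.comp j) htriv (hθ i).2.2
        (hθ i).2.1 (hθ i).1)
    · rw [dl_cr, ← St1c_pull_dl, (mem_Zc.1 (θ i).2).2, map_zero, map_zero, add_zero, h3, pull_cr]
  have hz : ∀ r, y r ∈ Zc εL (trv εL k) := fun r => ⟨Cn_le_Bd _ (hy r), hy0 r⟩
  obtain ⟨r, hr⟩ := hN.chain fun r => cl εL (trv εL k) ⟨y r, hz r⟩
  have G := gr_V (trv εL k) θ dθ fun i => (hθ i).1
  have hW := hr (⨅ n, (St1c_U εL π j (Zc ((εL.comp π).comp j) (trv ((εL.comp π).comp j) k)) ⊓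
    ⨅ _ : e r + 1 ≤ n, St1c_U εL π j (Bc ((εL.comp π).comp j) (trv ((εL.comp π).comp j) k))).comap
      (prV εL (trv εL k) n)) ?_ ?_
  · simp only [Submodule.mem_iInf, Submodule.mem_comap, Submodule.mem_inf] at hW
    have h0 := (hW (e r + 1)).2 le_rfl
    rw [prV_cl_of_mem (hy r)] at h0
    obtain ⟨y₀, w₀, -, h2, h3, h4⟩ := St1c_mem.1 h0
    obtain ⟨s, -, hs⟩ := cl_eq.1 h4
    refine ⟨r, pr (e r) (w r - w₀ + pull π.toLinearMap s), pr_mem _ _, ?_, ?_⟩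
    · have h5 : pr (e r + 1) (dl (εL.comp π) (trv (εL.comp π) k)
          (w r - w₀ + pull π.toLinearMap s)) = dl (εL.comp π) (trv (εL.comp π) k)
            (pr (e r) (w r - w₀ + pull π.toLinearMap s)) := pr_del _ _ _ _
      rw [← h5, map_add, map_sub, hwy, h3, ← St1c_pull_dl, hs, map_sub, sub_add_sub_cancel, sub_self,
        map_zero]
    · rw [map_add, map_sub, pr_of_mem (hw r), map_add, map_sub, pr_pull, pp, ← pr_pull,
        sub_add_eq_add_sub, sub_right_comm, add_sub_cancel_left]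
      exact Submodule.sub_mem _
        (pull_even_mem ((εL.comp π).comp j) (π.comp j) htriv (he' r).2 (he' r).1 (pr_mem _ _))
        (pr_mem_Bc _ h2)
  · intro i x hx
    simp only [Submodule.mem_iInf, Submodule.mem_comap, Submodule.mem_inf] at hx ⊢
    intro n
    have h1 : prV εL (trv εL k) n (T εL (trv εL k) (θ i) x) ∈
        St1c_U εL π j (Bc ((εL.comp π).comp j) (trv ((εL.comp π).comp j) k)) := by
      rcases lt_or_ge n (dθ i) with h | h
      · rw [G.low i n x h]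
        exact Submodule.zero_mem _
      · obtain ⟨m, rfl⟩ := Nat.exists_eq_add_of_le' h
        rw [G.shift i m x]
        exact hT i _ (hx m).1
    exact ⟨hle _ h1, fun _ => h1⟩
  · intro l hl
    simp only [Submodule.mem_iInf, Submodule.mem_comap, Submodule.mem_inf]
    intro n
    by_cases h : n = e l + 1
    · subst h
      rw [prV_cl_of_mem (hy l)]
      refine ⟨St1c_mem.2 ⟨_, w l, Cn_le_Bd _ (hw l), ⟨pull_Bd _ (Cn_le_Bd _ (hw l)), ?_⟩, hwy l, rfl⟩,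
        fun h => absurd (he hl) (by omega)⟩
      show dl _ _ (pull j.toLinearMap (w l)) = 0
      rw [← St1c_pull_dl, hwy, pp]
      exact pull_odd_eq_zero ((εL.comp π).comp j) εL (π.comp j) htriv (he' l).2.add_one (hy l)
        (hy0 l)
    · have h1 : prV εL (trv εL k) n (cl εL (trv εL k) ⟨y l, hz l⟩) = 0 := by
        rw [prV_cl, cl_eq_zero]
        show pr n (y l) ∈ _
        rw [pr_of_ne (hy l) h]
        exact Submodule.zero_mem _
      rw [h1]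
      exact ⟨Submodule.zero_mem _, fun _ => Submodule.zero_mem _⟩

end EO
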