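import Pool.Agent.P.MP_42c3cc_al.Trn
import Pool.Agent.P.MP_42c3cc_al.Quot
import Pool.Agent.P.MP_42c3cc_al.St1a
import Pool.Agent.P.MP_42c3cc_al.St1c
import Pool.Agent.P.MP_42c3cc_al.Free
import Pool.Agent.P.MP_42c3cc_al.Ht1

/-! The case of height one. -/

noncomputable section

namespace EO

open TensorAlgebra LinearMap Module
open scoped TensorProduct

universe u

variable {k : Type u} [Field k] {A L K : Type u} [Ring A] [HopfAlgebra k A] [Ring L]
  [HopfAlgebra k L] [CommRing K] [Algebra k K] [FiniteDimensional k A]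

theorem M1_dH {A K : Type u} [Ring A] [Algebra k A] [Ring K] [Algebra k K] {j : K →ₐ[k] A}
    (hj : Function.Injective j) {h : C k A A} {hK : C k K K} (h0 : dH h = 0)
    (e : post j.toLinearMap hK = pull j.toLinearMap h) : dH hK = 0 := by
  refine post_eq_zero (φ := j.toLinearMap) hj ?_
  have e1 : post j.toLinearMap (dH hK) = del (LinearMap.mul k A ∘ₗ j.toLinearMap)
      ((LinearMap.mul k A).flip ∘ₗ j.toLinearMap) (post j.toLinearMap hK) :=
    post_del (fun a x => map_mul j a x) (fun a x => map_mul j x a) hK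
  rw [e1, e, ← pull_del]
  exact (congrArg _ h0).trans (map_zero _)

theorem main_ht1 (p : ℕ) [Fact p.Prime] [CharP k p] {j : K →ₐ[k] A} (hj : CH j)
    {π : A →ₐc[k] L} (hπ : Quo j π)
    (hp : ∀ x, Coalgebra.counit (R := k) (j x) = 0 → x ^ p = 0)
    (hL : FGcAll (Bialgebra.counitAlgHom k L)) : FGcAll (Bialgebra.counitAlgHom k A) := by
  have : FiniteDimensional k K := FiniteDimensional.of_injective j.toLinearMap hj.inj
  have : FiniteDimensional k L := Module.Finite.of_surjective (π : A →ₐ[k] L).toLinearMap hπ.surj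
  have hp1 : 1 < p := (Fact.out : p.Prime).one_lt
  have hε : (Bialgebra.counitAlgHom k L).comp (π : A →ₐ[k] L) = Bialgebra.counitAlgHom k A :=
    BialgHomClass.counitAlgHom_comp π
  have hεa : ∀ a, Bialgebra.counitAlgHom k L ((π : A →ₐ[k] L) a) = Coalgebra.counit (R := k) a :=
    fun a => AlgHom.congr_fun hε a
  obtain ⟨n, x, hx, hgen, hdim⟩ := height_one p hj hp
  obtain ⟨m, χ, θK, hχ, hθK, hFK⟩ := good_trunc p hp1 n K
    (((Bialgebra.counitAlgHom k L).comp (π : A →ₐ[k] L)).comp j) x hx hgen hdim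
  obtain ⟨nL, θ, dθ, hθ, hFL⟩ := fam_of_fgc rfl hL
  have hN : Noe fun i => T _ (trv (Bialgebra.counitAlgHom k L) k) (θ i) :=
    hilbert (fun i i' => (cen_of_bialg rfl (hθ i).2.1 (hθ i).2.2 (hθ i).1).comm _ _) (hFL k _)
  obtain ⟨hP, E, hE, hE1, hEε⟩ := free_of_local hj hπ fun x hx => ⟨p, hp x hx⟩
  have hC := hπ.ctr hj hP
  have key : ∀ i, ∃ (r : ℕ) (ζ : C k A k), ζ ∈ Cn (2 * p ^ r) ∧
      dl ((Bialgebra.counitAlgHom k L).comp (π : A →ₐ[k] L))
        (trv ((Bialgebra.counitAlgHom k L).comp (π : A →ₐ[k] L)) k) ζ = 0 ∧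
      pull j.toLinearMap ζ - cpow (θK i).1 (p ^ r) ∈
        Bc (((Bialgebra.counitAlgHom k L).comp (π : A →ₐ[k] L)).comp j)
          (trv (((Bialgebra.counitAlgHom k L).comp (π : A →ₐ[k] L)).comp j) k) := by
    intro i
    obtain ⟨w, y, hw, hy, hy0, hwy, hwj⟩ :=
      exists_trans hC E hE hE1 (fun a => by rw [hεa, hεa, hEε]) (hχ i)
    choose w' y' h1 h2 h3 h4 h5 using
      exists_tower p π hπ.surj j _ rfl hj.com hC.triv hw hy hy0 hwy
    obtain ⟨r, ζ, z1, z2, z3⟩ := exists_zeta _ (π : A →ₐ[k] L) j hC.triv θ dθ hθ hN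
      (fun r => 2 * p ^ r) (fun a b hab => by
        have := Nat.pow_lt_pow_right hp1 hab
        show 2 * p ^ a < 2 * p ^ b
        omega)
      (fun r => ⟨by positivity, even_two_mul _⟩) w' y' h1 h2 h3 h4
    exact ⟨r, ζ, z1, z2, by rwa [h5, hwj, ← hθK] at z3⟩
  choose r ζ z1 z2 z3 using key
  choose hK hhK using fun i => hat_sub j hj.inj hj.com (ζ i)
  have hd : ∀ i, dH (hat (ζ i)) = 0 := fun i => by rw [dH_hat, ← hε, z2, map_zero]
  have main := s2 hC hFL dθ
    (fun i => cen_of_bialg hε (hθ i).2.1 (hθ i).2.2 (pull_mem _ (hθ i).1))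
    (fun i => ⟨ζ i, Cn_le_Bd _ (z1 i), z2 i⟩) (fun i => 2 * p ^ r i) (fun i => hat (ζ i)) hK
    (fun i => ⟨by positivity, even_two_mul _⟩) (fun i => ⟨hat_mem (z1 i), hd i⟩)
    (fun i => show post _ (hat (ζ i)) = ζ i by rw [hε]; exact post_hat _)
    (fun i => ⟨mem_of_post (φ := j.toLinearMap) hj.inj
      (by rw [hhK]; exact pull_mem _ (hat_mem (z1 i))), M1_dH hj.inj (hd i) (hhK i)⟩) hhK
    (fun M _ _ _ ρ => by
      have hc : ∀ i i', Commute (T _ ρ (θK i)) (T _ ρ (θK i')) := fun i i' =>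
        Cen.comm ρ (d := 2) (by rw [hθK]; exact sym2c_cen (hχ i) _) _
      refine fgt_mono (fun i => ⟨i, ?_⟩) (fgt_pow (fun i i' => ⟨1, by
        rw [one_smul]; exact (hc i i').eq⟩) (fun i => p ^ r i) (fun i => by positivity) (hFK M ρ))
      exact (T_cpow ρ (c := ⟨_, cpow_mem_Zc (θK i) (p ^ r i)⟩) rfl).symm.trans
        (T_congr ρ (z3 i)).symm)
  rw [← hε]
  exact fgc_of_fam _ (Sum.elim dθ fun i => 2 * p ^ r i)
    (by rintro (i | i); exacts [pull_mem _ (hθ i).1, z1 i]) main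

end EO
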