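import Pool.Agent.P.MP_42c3cc_al.M0
import Pool.Agent.P.MP_42c3cc_al.M1
import Pool.Agent.P.MP_42c3cc_al.Frob

/-! Central extensions in general: the Frobenius filtration. -/

noncomputable section

namespace EO

open TensorAlgebra LinearMap Module
open scoped TensorProduct

universe u

variable {k : Type u} [Field k] {A L K : Type u} [Ring A] [HopfAlgebra k A] [Ring L]
  [HopfAlgebra k L] [CommRing K] [Algebra k K] [FiniteDimensional k A]

omit [FiniteDimensional k A] in
theorem M2_quo {j : K →ₐ[k] A} {π : A →ₐc[k] L} (hπ : Quo j π) (I : Ideal A) [I.IsTwoSided]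
    [I.IsHopfIdeal k] (π' : (A ⧸ I) →ₐc[k] L) (h : ∀ a, π' (Ideal.Quotient.mk I a) = π a) :
    Quo (Ideal.kerLiftAlg ((Ideal.Quotient.mkₐ k I).comp j)) π' := by
  refine ⟨fun l => ?_, fun a => ?_⟩
  · obtain ⟨a, rfl⟩ := hπ.surj l
    exact ⟨_, h a⟩
  · obtain ⟨a, rfl⟩ := Ideal.Quotient.mk_surjective a
    refine ⟨fun h0 => ?_, fun ha => ?_⟩
    · have ha := (hπ.ker a).1 ((h a).symm.trans h0)
      clear h0
      induction ha using Submodule.span_induction with
      | mem b hb =>
        obtain ⟨x, hx, rfl⟩ := hb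
        exact Ideal.subset_span ⟨Ideal.Quotient.mk _ x, hx, rfl⟩
      | zero => exact (map_zero (Ideal.Quotient.mk I)).symm ▸ Submodule.zero_mem _
      | add b c _ _ hb hc => rw [map_add]; exact Submodule.add_mem _ hb hc
      | smul b c _ hc => rw [smul_eq_mul, map_mul]; exact Ideal.mul_mem_left _ _ hc
    · generalize Ideal.Quotient.mk I a = a' at ha
      induction ha using Submodule.span_induction with
      | mem b hb =>
        obtain ⟨x, hx, rfl⟩ := hb
        obtain ⟨x, rfl⟩ := Ideal.Quotient.mk_surjective x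
        exact (h (j x)).trans ((hπ.ker _).2 (Ideal.subset_span ⟨x, hx, rfl⟩))
      | zero => exact map_zero _
      | add b c _ _ hb hc => rw [map_add, hb, hc, add_zero]
      | smul b c _ hc => rw [smul_eq_mul, map_mul, hc, mul_zero]

theorem M2_aux (p : ℕ) [Fact p.Prime] [CharP k p] (n : ℕ) :
    ∀ (A L K : Type u) [Ring A] [HopfAlgebra k A] [Ring L] [HopfAlgebra k L] [CommRing K]
      [Algebra k K] [FiniteDimensional k A] (j : K →ₐ[k] A) (π : A →ₐc[k] L), finrank k K = n →
      CH j → Quo j π → FGcAll (Bialgebra.counitAlgHom k L) →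
      FGcAll (Bialgebra.counitAlgHom k A) := by
  induction n using Nat.strong_induction_on with
  | _ n ih =>
  intro A L K _ _ _ _ _ _ _ j π hn hj hπ hL
  have : FiniteDimensional k K := FiniteDimensional.of_injective j.toLinearMap hj.inj
  by_cases h : Algebra.adjoin k (Set.range fun x : K => x ^ p) = ⊤
  · exact main_idem hj hπ (idem_of_frob p _ h) hL
  have h1 := hj.frob p
  have := h1.twoSided
  have := h1.hopfIdeal
  have hlt : finrank k (Algebra.adjoin k (Set.range fun x : K => x ^ p)) < n := by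
    rw [← hn]
    exact Submodule.finrank_lt
      (s := Subalgebra.toSubmodule (Algebra.adjoin k (Set.range fun x : K => x ^ p))) fun e =>
      h (Algebra.toSubmodule_eq_top.1 e)
  refine ih _ hlt A _ _ _ _ rfl h1 (quo_mk _) ?_
  obtain ⟨π', hπ'⟩ := exists_lift_quot
    (augI (j.comp (Algebra.adjoin k (Set.range fun x : K => x ^ p)).val)) π fun a ha =>
      (hπ.ker a).2 (Ideal.span_mono (by rintro _ ⟨x, hx, rfl⟩; exact ⟨x, hx, rfl⟩) ha)
  have h2 := hj.image (augI (j.comp (Algebra.adjoin k (Set.range fun x : K => x ^ p)).val))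
  refine main_ht1 p h2 (M2_quo hπ _ π' hπ') (fun x hx => h2.inj ?_) hL
  obtain ⟨x, rfl⟩ := Ideal.Quotient.mk_surjective x
  have hx' : Bialgebra.counitAlgHom k A (j x) = 0 := hx
  rw [← map_pow, map_zero]
  refine Ideal.Quotient.eq_zero_iff_mem.2 (Ideal.subset_span
    ⟨⟨x ^ p, Algebra.subset_adjoin ⟨x, rfl⟩⟩, ?_, rfl⟩)
  show Bialgebra.counitAlgHom k A (j (x ^ p)) = 0
  rw [map_pow, map_pow, hx', zero_pow (Fact.out : p.Prime).ne_zero]

theorem main_central {j : K →ₐ[k] A} (hj : CH j) {π : A →ₐc[k] L} (hπ : Quo j π)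
    (hL : FGcAll (Bialgebra.counitAlgHom k L)) : FGcAll (Bialgebra.counitAlgHom k A) := by
  obtain ⟨p, hp⟩ := CharP.exists k
  rcases CharP.char_is_prime_or_zero k p with h | rfl
  · have : Fact p.Prime := ⟨h⟩
    exact M2_aux p _ A L K j π rfl hj hπ hL
  · have : CharZero k := CharP.charP_to_charZero k
    have : FiniteDimensional k K := FiniteDimensional.of_injective j.toLinearMap hj.inj
    exact main_idem hj hπ (cartier hj) hL

end EO
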