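import Mathlib

/-! A local and connected Hopf algebra has a central primitive element. -/

noncomputable section

namespace EO

open scoped TensorProduct

universe u

variable {k : Type u} [Field k] {A : Type u} [Ring A] [HopfAlgebra k A] [FiniteDimensional k A]

section PrimAux

open Coalgebra WithConv TensorProduct

theorem Prim_fix {M V : Type*} [AddCommGroup M] [Module k M] [AddCommGroup V] [Module k V]
    [FiniteDimensional k V] (T : M →ₗ[k] V →ₗ[k] V) (I : Submodule k M)
    (hmul : ∀ f ∈ I, ∀ g ∈ I, ∃ h ∈ I, ∀ v, T f (T g v) = T h v) (W : Submodule k V)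
    (hW : W ≠ ⊥) (hst : ∀ f ∈ I, ∀ v ∈ W, T f v ∈ W)
    (hinj : ∀ f ∈ I, ∀ v ∈ W, T f v = v → v = 0) : ∃ v ∈ W, v ≠ 0 ∧ ∀ f ∈ I, T f v = 0 := by
  induction hn : Module.finrank k W using Nat.strong_induction_on generalizing W with
  | _ n ih =>
    obtain ⟨v, hv, h0⟩ := (Submodule.ne_bot_iff W).1 hW
    have hle : I.map (T.flip v) ≤ W := by
      rintro _ ⟨f, hf, rfl⟩
      exact hst f hf v hv
    by_cases hb : I.map (T.flip v) = ⊥
    · exact ⟨v, hv, h0, fun f hf => (Submodule.eq_bot_iff _).1 hb _ ⟨f, hf, rfl⟩⟩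
    · have hlt : I.map (T.flip v) < W := lt_of_le_of_ne hle fun he => by
        obtain ⟨f, hf, e⟩ : v ∈ I.map (T.flip v) := he ▸ hv
        exact h0 (hinj f hf v hv e)
      obtain ⟨w, hw, h⟩ := ih _ (hn ▸ Submodule.finrank_lt_finrank_of_lt hlt) _ hb (by
        rintro f hf _ ⟨g, hg, rfl⟩
        obtain ⟨h, hh, e⟩ := hmul f hf g hg
        exact ⟨h, hh, (e v).symm⟩) (fun f hf w hw => hinj f hf w (hle hw)) rfl
      exact ⟨w, hle hw, h⟩

variable {B B' : Type u} [Ring B] [Algebra k B] [Ring B'] [Algebra k B']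

/-- Composition with an algebra map, on convolution algebras. -/
def Prim_post (φ : B →ₐ[k] B') : WithConv (A →ₗ[k] B) →+* WithConv (A →ₗ[k] B') where
  toFun F := toConv (φ.toLinearMap.comp F.ofConv)
  map_one' := by ext; simp
  map_mul' F G := congrArg toConv (LinearMap.algHom_comp_convMul_distrib φ F G)
  map_zero' := by ext; simp
  map_add' F G := by ext; simp

omit [FiniteDimensional k A] in
theorem Prim_post_apply (φ : B →ₐ[k] B') (F : WithConv (A →ₗ[k] B)) (h : A) :
    Prim_post φ F h = φ (F h) := rfl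

variable (k A) in
/-- Constants in the convolution algebra. -/
def Prim_cst (b : B) : WithConv (A →ₗ[k] B) :=
  toConv (LinearMap.toSpanSingleton k B b ∘ₗ counit)

omit [FiniteDimensional k A] in
theorem Prim_cst_apply (b : B) (h : A) : Prim_cst k A b h = counit (R := k) h • b := rfl

omit [FiniteDimensional k A] in
theorem Prim_cst_mul (b : B) (F : WithConv (A →ₗ[k] B)) (h : A) :
    (Prim_cst k A b * F) h = b * F h := by
  conv_rhs => rw [← one_mul F]
  simp only [(ℛ k h).convMul_apply, Prim_cst_apply, LinearMap.convOne_apply, Finset.mul_sum,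
    ← Algebra.smul_def, smul_mul_assoc, mul_smul_comm]

omit [FiniteDimensional k A] in
theorem Prim_mul_cst (b : B) (F : WithConv (A →ₗ[k] B)) (h : A) :
    (F * Prim_cst k A b) h = F h * b := by
  conv_rhs => rw [← mul_one F]
  simp only [(ℛ k h).convMul_apply, Prim_cst_apply, LinearMap.convOne_apply, Finset.sum_mul,
    mul_assoc, ← Algebra.smul_def]

variable (k A) in
/-- Contraction of the first factor with a linear form. -/
def Prim_E : (A →ₗ[k] k) →ₗ[k] A ⊗[k] A →ₗ[k] A :=
  (TensorProduct.lift.equiv (RingHom.id k) A A A).toLinearMap ∘ₗ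
    LinearMap.llcomp k A k (A →ₗ[k] A) (LinearMap.lsmul k A)

omit [FiniteDimensional k A] in
theorem Prim_E_tmul (f : A →ₗ[k] k) (a b : A) : Prim_E k A f (a ⊗ₜ b) = f a • b := rfl

theorem Prim_E_inj {t : A ⊗[k] A} (h : ∀ f, Prim_E k A f t = 0) : t = 0 := by
  let b := Module.finBasis k A
  have key : ∀ t : A ⊗[k] A, t = ∑ i, b i ⊗ₜ Prim_E k A (b.coord i) t := by
    intro t
    induction t with
    | zero => simp
    | tmul x y =>
      simp only [Prim_E_tmul, ← smul_tmul, ← sum_tmul, Module.Basis.coord_apply, b.sum_repr]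
    | add x y hx hy =>
      simp only [map_add, tmul_add, Finset.sum_add_distrib, ← hx, ← hy]
  rw [key t]
  simp [h]

variable (k A) in
/-- The reduced action of the dual algebra. -/
def Prim_T : (A →ₗ[k] k) →ₗ[k] A →ₗ[k] A :=
  (Prim_E k A).compl₂ (comul - (TensorProduct.mk k A A).flip 1)

omit [FiniteDimensional k A] in
theorem Prim_T_apply (f : A →ₗ[k] k) (a : A) :
    Prim_T k A f a = Prim_E k A f (comul a - a ⊗ₜ 1) := rfl

omit [FiniteDimensional k A] in
theorem Prim_T_eq (f : WithConv (A →ₗ[k] k)) (a : A) : Prim_T k A f.ofConv a =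
    (Prim_post (Algebra.ofId k A) f * (toConv LinearMap.id - 1) : WithConv (A →ₗ[k] A)) a := by
  rw [mul_sub, mul_one, Prim_T_apply, map_sub, Prim_E_tmul, ← (ℛ k a).eq, map_sum]
  simp only [ofConv_sub, LinearMap.sub_apply, (ℛ k a).convMul_apply, Prim_post_apply, Prim_E_tmul,
    Algebra.ofId_apply, Algebra.smul_def, LinearMap.id_apply, mul_one]

omit [FiniteDimensional k A] in
theorem Prim_T_one (f : A →ₗ[k] k) : Prim_T k A f 1 = 0 := by
  rw [Prim_T_apply, Bialgebra.comul_one, Algebra.TensorProduct.one_def, sub_self, map_zero]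

omit [FiniteDimensional k A] in
theorem Prim_T_mul (f g : WithConv (A →ₗ[k] k)) (a : A) :
    Prim_T k A f.ofConv (Prim_T k A g.ofConv a) = Prim_T k A (g * f).ofConv a := by
  rw [Prim_T_eq (g * f), map_mul, mul_assoc, (ℛ k a).convMul_apply, Prim_T_apply g.ofConv, map_sub,
    Prim_E_tmul, map_sub, map_smul, Prim_T_one, smul_zero, sub_zero, ← (ℛ k a).eq, map_sum,
    map_sum]
  simp only [Prim_E_tmul, map_smul, ← Prim_T_eq, Prim_post_apply, Algebra.ofId_apply,
    ← Algebra.smul_def]

omit [FiniteDimensional k A] in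
theorem Prim_T_unit {a : A} (h : counit (R := k) a = 0) :
    Prim_T k A (1 : WithConv (A →ₗ[k] k)).ofConv a = a := by
  rw [Prim_T_eq, map_one, one_mul]
  simp [h]

theorem Prim_P (hcon : ∀ f : WithConv (A →ₗ[k] k), f.ofConv 1 = 0 → IsUnit (1 - f))
    (N : Submodule k A) (hN : N ≠ ⊥) (hε : ∀ n ∈ N, counit (R := k) n = 0)
    (hst : ∀ f, ∀ n ∈ N, Prim_T k A f n ∈ N) :
    ∃ x ∈ N, x ≠ 0 ∧ comul (R := k) x = x ⊗ₜ 1 + 1 ⊗ₜ x := by
  obtain ⟨x, hx, h0, h⟩ := Prim_fix (Prim_T k A) (LinearMap.ker (LinearMap.applyₗ (1 : A)))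
    (fun f hf g _ => ⟨(toConv g * toConv f).ofConv, by
      have hf' : f 1 = 0 := hf
      simp [Algebra.TensorProduct.one_def, hf'], Prim_T_mul (toConv f) (toConv g)⟩)
    N hN (fun f _ => hst f) fun f hf v hv e => by
      obtain ⟨u, hu⟩ := (hcon (toConv f) hf).exists_right_inv
      rw [← Prim_T_unit (hε v hv), ← hu, ← Prim_T_mul, ofConv_sub, map_sub, LinearMap.sub_apply,
        Prim_T_unit (hε v hv), e, sub_self, map_zero]
  refine ⟨x, hx, h0, sub_eq_zero.1 (Prim_E_inj fun f => ?_)⟩
  have h1 := h (f - f 1 • (1 : WithConv (A →ₗ[k] k)).ofConv) (by simp)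
  rw [map_sub, map_smul, LinearMap.sub_apply, LinearMap.smul_apply, Prim_T_unit (hε x hx),
    Prim_T_apply] at h1
  rw [← sub_sub, map_sub, Prim_E_tmul, h1]

variable (k A) in
/-- The action of `A ⊗ A` on `A` by `a ⊗ b ↦ (y ↦ a y S b)`. -/
def Prim_Ps : A ⊗[k] A →ₗ[k] Module.End k A :=
  TensorProduct.lift ((LinearMap.mul k (Module.End k A)).compl₁₂ (LinearMap.mul k A)
    ((LinearMap.mul k A).flip ∘ₗ HopfAlgebra.antipode k))

omit [FiniteDimensional k A] in
theorem Prim_Ps_tmul (a b y : A) :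
    Prim_Ps k A (a ⊗ₜ b) y = a * (y * HopfAlgebra.antipode k b) := rfl

omit [FiniteDimensional k A] in
theorem Prim_Ps_mul (s t : A ⊗[k] A) (y : A) :
    Prim_Ps k A (s * t) y = Prim_Ps k A s (Prim_Ps k A t y) := by
  induction s with
  | zero => simp
  | add a b ha hb => simp only [add_mul, map_add, LinearMap.add_apply, ha, hb]
  | tmul a b =>
    induction t with
    | zero => simp
    | add c d hc hd => simp only [mul_add, map_add, LinearMap.add_apply, hc, hd]
    | tmul c d =>
      simp only [Algebra.TensorProduct.tmul_mul_tmul, Prim_Ps_tmul,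
        HopfAlgebra.antipode_mul_antidistrib, mul_assoc]

variable (k A) in
/-- The adjoint action. -/
def Prim_ad : A →ₗ[k] A →ₗ[k] A := Prim_Ps k A ∘ₗ comul

omit [FiniteDimensional k A] in
theorem Prim_ad_mul (g h y : A) : Prim_ad k A (g * h) y = Prim_ad k A g (Prim_ad k A h y) := by
  simp only [Prim_ad, LinearMap.comp_apply, Bialgebra.comul_mul, Prim_Ps_mul]

omit [FiniteDimensional k A] in
theorem Prim_ad_one (y : A) : Prim_ad k A 1 y = y := by
  simp [Prim_ad, Algebra.TensorProduct.one_def, Prim_Ps_tmul]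

omit [FiniteDimensional k A] in
theorem Prim_ad_sum (h y : A) : Prim_ad k A h y = ∑ i ∈ (ℛ k h).index,
    (ℛ k h).left i * (y * HopfAlgebra.antipode k ((ℛ k h).right i)) := by
  rw [Prim_ad, LinearMap.comp_apply, ← (ℛ k h).eq, map_sum, LinearMap.sum_apply]
  rfl

omit [FiniteDimensional k A] in
theorem Prim_ad_eq (y : A) : toConv ((Prim_ad k A).flip y) =
    toConv LinearMap.id * (Prim_cst k A y * toConv (HopfAlgebra.antipode k)) := by
  ext h
  simp only [(ℛ k h).convMul_apply, Prim_cst_mul, LinearMap.flip_apply, Prim_ad_sum,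
    LinearMap.id_apply]

omit [FiniteDimensional k A] in
theorem Prim_ad_split (y : A) : toConv ((Prim_ad k A).flip y) = Prim_cst k A y +
    toConv ((Prim_ad k A).flip y ∘ₗ (LinearMap.id - Algebra.linearMap k A ∘ₗ counit)) := by
  ext h
  simp [Prim_cst_apply, Algebra.algebraMap_eq_smul_one, Prim_ad_one]

omit [FiniteDimensional k A] in
theorem Prim_comul_ad {x : A} (hx : comul (R := k) x = x ⊗ₜ 1 + 1 ⊗ₜ x) :
    Prim_post (Bialgebra.comulAlgHom k A) (toConv ((Prim_ad k A).flip x)) =
      Prim_post Algebra.TensorProduct.includeLeft (toConv ((Prim_ad k A).flip x)) +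
      Prim_post Algebra.TensorProduct.includeLeft (toConv LinearMap.id) *
        (Prim_post Algebra.TensorProduct.includeRight (toConv ((Prim_ad k A).flip x)) *
          Prim_post Algebra.TensorProduct.includeLeft (toConv (HopfAlgebra.antipode k))) := by
  set p1 : WithConv (A →ₗ[k] A) →+* WithConv (A →ₗ[k] A ⊗[k] A) :=
    Prim_post Algebra.TensorProduct.includeLeft with hp1
  set p2 : WithConv (A →ₗ[k] A) →+* WithConv (A →ₗ[k] A ⊗[k] A) :=
    Prim_post Algebra.TensorProduct.includeRight with hp2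
  set I : WithConv (A →ₗ[k] A) := toConv LinearMap.id with hI
  set S : WithConv (A →ₗ[k] A) := toConv (HopfAlgebra.antipode k) with hS
  have i1 : I * S = 1 := LinearMap.id_mul_antipode
  have i2 : S * I = 1 := LinearMap.antipode_mul_id
  have e1 : Prim_post (Bialgebra.comulAlgHom k A) I = p1 I * p2 I := by
    ext h
    rw [(ℛ k h).convMul_apply]
    simp [hp1, hp2, hI, Prim_post_apply, (ℛ k h).eq]
  have e2 : Prim_post (Bialgebra.comulAlgHom k A) S = p2 S * p1 S := by
    refine left_inv_eq_right_inv (a := p1 I * p2 I) ?_ ?_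
    · rw [← e1, ← map_mul, i2, map_one]
    · rw [mul_assoc, ← mul_assoc (p2 I), ← map_mul, i1, map_one, one_mul, ← map_mul, i1, map_one]
  have e3 : Prim_post (Bialgebra.comulAlgHom k A) (Prim_cst k A x) =
      p1 (Prim_cst k A x) + p2 (Prim_cst k A x) := by
    ext h
    simp [hp1, hp2, Prim_post_apply, Prim_cst_apply, hx, smul_tmul']
  have e4 : p2 I * p1 (Prim_cst k A x) = p1 (Prim_cst k A x) * p2 I := by
    have : p1 (Prim_cst k A x) = Prim_cst k A (x ⊗ₜ 1) := by
      ext h
      simp [hp1, Prim_post_apply, Prim_cst_apply, smul_tmul']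
    ext h
    rw [this, Prim_cst_mul, Prim_mul_cst]
    simp [hp2, Prim_post_apply]
  have e5 : p2 I * p2 S = 1 := by rw [← map_mul, i1, map_one]
  simp only [Prim_ad_eq, map_mul, ← hI, ← hS, e1, e2, e3, mul_add, add_mul, mul_assoc]
  rw [← mul_assoc (p2 I) (p1 _), e4, mul_assoc, ← mul_assoc (p2 I) (p2 S), e5, one_mul]

omit [FiniteDimensional k A] in
theorem Prim_stab {x : A} (hx : comul (R := k) x = x ⊗ₜ 1 + 1 ⊗ₜ x) (f : A →ₗ[k] k) {h : A}
    (hh : counit (R := k) h = 0) : Prim_T k A f (Prim_ad k A h x) ∈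
      (LinearMap.ker (counit (R := k) (A := A))).map ((Prim_ad k A).flip x) := by
  have e := congrArg (fun F : WithConv (A →ₗ[k] A ⊗[k] A) => F h) (Prim_comul_ad hx)
  simp only [ofConv_add, LinearMap.add_apply, Prim_post_apply, LinearMap.flip_apply,
    Bialgebra.comulAlgHom_apply, Algebra.TensorProduct.includeLeft_apply] at e
  rw [Prim_T_apply, e, add_sub_cancel_left, Prim_ad_split, map_add, add_mul, mul_add, ofConv_add,
    LinearMap.add_apply, map_add]
  refine Submodule.add_mem _ ?_ ?_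
  · have e1 : Prim_post Algebra.TensorProduct.includeRight (Prim_cst k A x) =
        Prim_cst k A ((1 : A) ⊗ₜ[k] x) := by
      ext h
      simp [Prim_post_apply, Prim_cst_apply]
    have e2 : Prim_cst k A ((1 : A) ⊗ₜ[k] x) * Prim_post (A := A)
        Algebra.TensorProduct.includeLeft (toConv (HopfAlgebra.antipode k)) =
        Prim_post Algebra.TensorProduct.includeLeft (toConv (HopfAlgebra.antipode k)) *
          Prim_cst k A ((1 : A) ⊗ₜ[k] x) := by
      ext h
      rw [Prim_cst_mul, Prim_mul_cst]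
      simp [Prim_post_apply]
    rw [e1, e2, ← mul_assoc, ← map_mul, LinearMap.id_mul_antipode, map_one, one_mul,
      Prim_cst_apply, hh, zero_smul, map_zero]
    exact Submodule.zero_mem _
  · rw [(ℛ k h).convMul_apply, map_sum]
    refine Submodule.sum_mem _ fun i _ => ?_
    rw [(ℛ k _).convMul_apply, Finset.mul_sum, map_sum]
    refine Submodule.sum_mem _ fun j _ => ?_
    simp only [Prim_post_apply, Algebra.TensorProduct.includeLeft_apply,
      Algebra.TensorProduct.includeRight_apply, Algebra.TensorProduct.tmul_mul_tmul, Prim_E_tmul,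
      one_mul, mul_one]
    exact Submodule.smul_mem _ _ ⟨_, by simp, rfl⟩

end PrimAux

theorem exists_central_primitive
    (hloc : ∀ a : A, Coalgebra.counit (R := k) a = 0 → IsUnit (1 - a))
    (hcon : ∀ f : WithConv (A →ₗ[k] k), f.ofConv 1 = 0 → IsUnit (1 - f))
    (hA : ∃ a : A, a ≠ 0 ∧ Coalgebra.counit (R := k) a = 0) :
    ∃ x : A, x ≠ 0 ∧ Coalgebra.comul (R := k) x = x ⊗ₜ 1 + 1 ⊗ₜ x ∧ ∀ a, x * a = a * x := by
  obtain ⟨a, ha, ha'⟩ := hA
  obtain ⟨x, hε, h0, hx⟩ := Prim_P hcon (LinearMap.ker Coalgebra.counit)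
    ((Submodule.ne_bot_iff _).2 ⟨a, ha', ha⟩) (fun _ h => h) fun f n _ => by
      rw [LinearMap.mem_ker, Prim_T_eq (.toConv f)]
      change Prim_post (Bialgebra.counitAlgHom k A) _ n = 0
      have : Prim_post (Bialgebra.counitAlgHom k A) (.toConv LinearMap.id) = 1 := by
        ext; simp [Prim_post_apply]
      rw [map_mul, map_sub, this, map_one, sub_self, mul_zero]
      rfl
  induction hn : Module.finrank k ((LinearMap.ker (Coalgebra.counit (R := k) (A := A))).map
    ((Prim_ad k A).flip x)) using Nat.strong_induction_on generalizing x with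
  | _ n ih =>
    by_cases hb : (LinearMap.ker (Coalgebra.counit (R := k) (A := A))).map
        ((Prim_ad k A).flip x) = ⊥
    · refine ⟨x, h0, hx, fun b => ?_⟩
      have e : WithConv.toConv ((Prim_ad k A).flip x) = Prim_cst k A x := by
        rw [Prim_ad_split, add_eq_left]
        ext h
        exact (Submodule.eq_bot_iff _).1 hb _ ⟨_, by simp, rfl⟩
      have e' := congrArg
        (fun F : WithConv (A →ₗ[k] A) => (F * WithConv.toConv LinearMap.id).ofConv b) e
      simp only [Prim_ad_eq, mul_assoc, LinearMap.antipode_mul_id, mul_one, Prim_cst_mul,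
        Prim_mul_cst] at e'
      exact e'.symm
    · have hk : ∀ y ∈ (LinearMap.ker (Coalgebra.counit (R := k) (A := A))).map
          ((Prim_ad k A).flip x), Coalgebra.counit (R := k) y = 0 := by
        rintro _ ⟨h, -, rfl⟩
        have hε' : Coalgebra.counit (R := k) x = 0 := hε
        simp [Prim_ad_sum, hε']
      obtain ⟨y, hy, y0, hy'⟩ := Prim_P hcon _ hb hk (by
        rintro f _ ⟨h, hh, rfl⟩
        exact Prim_stab hx f hh)
      refine ih _ (hn ▸ Submodule.finrank_lt_finrank_of_lt (lt_of_le_of_ne ?_ fun he => ?_))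
        y (hk y hy) y0 hy' rfl
      · obtain ⟨h, hh, rfl⟩ := hy
        rintro _ ⟨g, hg, rfl⟩
        have hg' : Coalgebra.counit (R := k) g = 0 := hg
        exact ⟨g * h, by simp [hg'], Prim_ad_mul g h x⟩
      · rw [← he] at hy
        obtain ⟨g, hg, e⟩ := hy
        obtain ⟨u, hu⟩ := (hloc g hg).exists_left_inv
        refine y0 ?_
        rw [← Prim_ad_one (k := k) y, ← hu, Prim_ad_mul, map_sub, LinearMap.sub_apply, Prim_ad_one,
          show Prim_ad k A g y = y from e, sub_self, map_zero]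

end EO
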