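import Pool.Agent.P.MP_42c3cc_al.Inf
import Pool.Agent.P.MP_42c3cc_al.Cone

/-! Finite generation from classes that restrict to generators on the kernel. -/

noncomputable section

namespace EO

open TensorAlgebra LinearMap Module
open scoped TensorProduct

universe u

variable {k : Type u} [Field k] {A L K : Type u} [Ring A] [Algebra k A] [Ring L] [Algebra k L]
  [Ring K] [Algebra k K]

theorem S2_pow {V V' : Type u} [AddCommGroup V] [Module k V] [AddCommGroup V'] [Module k V']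
    {f : V →ₗ[k] V'} {S : End k V} {S' : End k V'} (h : ∀ v, f (S v) = S' (f v)) (n : ℕ) (v : V) :
    f ((S ^ n) v) = (S' ^ n) (f v) := by
  induction n with
  | zero => rfl
  | succ n ih => rw [pow_succ', pow_succ', End.mul_apply, End.mul_apply, h, ih]

section

variable {M N Q : Type u} [AddCommGroup M] [Module k M] [AddCommGroup N] [Module k N]
  [AddCommGroup Q] [Module k Q] {ε : K →ₐ[k] k} {ρM : K →ₐ[k] End k M} {ρN : K →ₐ[k] End k N}
  {ρQ : K →ₐ[k] End k Q} {φ : M →ₗ[k] N} {p : N →ₗ[k] Q} {d : ℕ} {Ψ : V ε ρN →ₗ[k] V ε ρM}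

theorem S2_new (h : SES ρM ρN ρQ φ p) (hΨ : Shift ε ρN ρM d Ψ) {a : Zk ε} {e : ℕ}
    (ha : a.1 ∈ Cn e) (he : 0 < e) (h1 : ∀ v, Ψ (postV ε h.hi v) = T ε ρM a v) (x : V ε ρQ) :
    ∃ r, (T ε ρQ a ^ r) x = 0 := by
  obtain ⟨c, hc⟩ := exists_conn ε h
  have h2 : postV ε h.hi (c x) = 0 := hc.exX.ge ⟨x, rfl⟩
  obtain ⟨y, hy⟩ := hc.exZ.le (show c (T ε ρQ a x) = 0 by rw [hc.hT, ← h1, h2, map_zero])
  obtain ⟨r, hr⟩ := hΨ.tors a e ha he (T ε ρN a y - postV ε h.hi (Ψ y))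
    (by rw [map_sub, hΨ.hT, h1, sub_self])
  have h3 : postV ε h.hp (postV ε h.hi (Ψ y)) = 0 := hc.exY.ge ⟨_, rfl⟩
  have h4 := congrArg (postV ε h.hp) hr
  rw [S2_pow (postV_T h.hp a), map_sub, h3, sub_zero, postV_T, hy, map_zero] at h4
  exact ⟨r + 1 + 1, by rw [pow_succ, pow_succ, End.mul_apply, End.mul_apply, h4]⟩

theorem S2_old (h : SES ρM ρN ρQ φ p) (hΨ : Shift ε ρN ρM d Ψ) {a : Zk ε} {e : ℕ}
    (ha : a.1 ∈ Cn e) (he : 0 < e) (h1 : ∀ v, ∃ r, (T ε ρM a ^ r) v = 0) (x : V ε ρQ) :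
    ∃ r, (T ε ρQ a ^ r) x = 0 := by
  obtain ⟨c, hc⟩ := exists_conn ε h
  obtain ⟨r₁, h2⟩ := h1 (c x)
  obtain ⟨y, hy⟩ := hc.exZ.le (show c ((T ε ρQ a ^ r₁) x) = 0 by rw [S2_pow (hc.hT a), h2])
  obtain ⟨r₂, h3⟩ := h1 (Ψ y)
  obtain ⟨r, hr⟩ := hΨ.tors a e ha he ((T ε ρN a ^ r₂) y) (by rw [S2_pow (hΨ.hT a), h3])
  have h4 := congrArg (postV ε h.hp) hr
  rw [S2_pow (postV_T h.hp a), S2_pow (postV_T h.hp a), hy, map_zero] at h4
  exact ⟨r + r₂ + r₁, by rw [pow_add, pow_add, End.mul_apply, End.mul_apply, h4]⟩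

end

theorem s2 [FiniteDimensional k A] {εL : L →ₐ[k] k} {π : A →ₐ[k] L} {j : K →ₐ[k] A}
    (hC : Ctr εL π j) {σ τ : Type} [Finite σ] [Finite τ] {θ : σ → Zk εL} (hθ : FGAll εL θ)
    (dθ : σ → ℕ) (hc : ∀ i, Cen (εL.comp π) (dθ i) (pullZ π (θ i)).1)
    (ζ : τ → Zk (εL.comp π)) (d : τ → ℕ) (h : τ → C k A A) (hK : τ → C k K K)
    (hd : ∀ i, 0 < d i ∧ Even (d i)) (hh : ∀ i, h i ∈ Cn (d i) ∧ dH (h i) = 0)
    (hζ : ∀ i, post (εL.comp π).toLinearMap (h i) = (ζ i).1)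
    (hhK : ∀ i, hK i ∈ Cn (d i) ∧ dH (hK i) = 0)
    (hj : ∀ i, post j.toLinearMap (hK i) = pull j.toLinearMap (h i))
    (hF : FGAll ((εL.comp π).comp j) fun i => pullZ j (ζ i)) :
    FGAll (εL.comp π) (Sum.elim (fun i => pullZ π (θ i)) ζ) := by
  classical
  have eK : ∀ i, post ((εL.comp π).comp j).toLinearMap (hK i) = (pullZ j (ζ i)).1 := fun i => by
    rw [AlgHom.comp_toLinearMap, ← post_post, hj, post_pull, hζ, pullZ_coe]
  have cK : ∀ i, Cen ((εL.comp π).comp j) (d i) (pullZ j (ζ i)).1 := fun i =>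
    ⟨(hd i).1, (hd i).2, hK i, (hhK i).1, (hhK i).2, eK i⟩
  have cA : ∀ i, Cen (εL.comp π) (Sum.elim dθ d i)
      (Sum.elim (fun i => pullZ π (θ i)) ζ i : Zk (εL.comp π)).1 := by
    rintro (i | i)
    · exact hc i
    · exact ⟨(hd i).1, (hd i).2, h i, (hh i).1, (hh i).2, hζ i⟩
  have key : ∀ (S : Finset τ) (M : Type u) [AddCommGroup M] [Module k M] [FiniteDimensional k M]
      (ρ : A →ₐ[k] End k M), (∀ i ∉ S, ∀ v, ∃ e,
        (T ((εL.comp π).comp j) (ρ.comp j) (pullZ j (ζ i)) ^ e) v = 0) →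
      FGT fun i => T (εL.comp π) ρ (Sum.elim (fun i => pullZ π (θ i)) ζ i) := by
    intro S
    induction S using Finset.induction_on with
    | empty =>
      intro M _ _ _ ρ ht
      have := fd_of_torsion (fun i i' => (cK i).comm (ρ.comp j) _) (hF M (ρ.comp j))
        fun i => ht i (Finset.notMem_empty i)
      obtain ⟨m, hm⟩ := (gr_V (ρ.comp j) _ d fun i => (cK i).mem).bounded
      exact fgt_mono (fun i => ⟨Sum.inl i, rfl⟩) (fgt_of_van hC hθ m M ρ hm)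
    | insert i₀ S _ ih =>
      intro M _ _ _ ρ ht
      obtain ⟨N, _, _, _, ρ', φ, h1, h2, H⟩ :=
        exists_cone ρ (hd i₀).1 (hd i₀).2 (hh i₀).1 (hh i₀).2
      have s := ses_quot h1 h2
      obtain ⟨Ψ, p1, p2⟩ := H K j hC.proj _ _ _ rfl rfl (s.comp j).hi (hK i₀) (pullZ j (ζ i₀))
        (hhK i₀).1 (hhK i₀).2 (hj i₀) (eK i₀)
      have hQ := ih _ _ fun i hi => by
        by_cases e : i = i₀
        · subst e
          exact S2_new (s.comp j) p1 (cK i).mem (hd i).1 p2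
        · exact S2_old (s.comp j) p1 (cK i).mem (hd i).1
            (ht i fun e' => (Finset.mem_insert.1 e').elim e hi)
      obtain ⟨Ψ', q1, q2⟩ := H A (AlgHom.id k A) proj_id _ ρ ρ' (AlgHom.comp_id _).symm
        (AlgHom.comp_id _).symm h1 (h i₀) (ζ i₀) (hh i₀).1 (hh i₀).2
        (by rw [AlgHom.toLinearMap_id, post_id, pull_id]) (hζ i₀)
      obtain ⟨c, hc'⟩ := exists_conn (εL.comp π) s
      obtain ⟨U, _, hU⟩ := fd_low (ε := εL.comp π) ρ (d i₀)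
      refine fgt_cone (gr_V ρ _ _ fun i => (cA i).mem) (Sum.inr i₀) (hd i₀).1
        (fun i => (cA (Sum.inr i₀)).comm ρ _) (postV _ s.hi) (postV _ s.hp) Ψ'
        (fun i => postV_T s.hp _) (fun i => q1.hT _) hc'.exY.le q2 U
        (eq_top_of_prV _ fun n v => ?_) (hilbert (fun i i' => (cA i).comm _ _) hQ)
      rcases lt_or_ge n (d i₀) with e | e
      · exact Submodule.mem_sup_right (hU n e v)
      · exact Submodule.mem_sup_left (q1.surj n e v)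
  have := Fintype.ofFinite τ
  exact fun M _ _ _ ρ => key Finset.univ M ρ fun i hi => absurd (Finset.mem_univ i) hi

end EO
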