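import Pool.Agent.P.MP_42c3cc_al.D1
import Pool.Agent.P.MP_42c3cc_al.Kudo
import Pool.Agent.P.MP_42c3cc_al.Hat

/-! A power of a transgressive class survives. -/

noncomputable section

namespace EO

open TensorAlgebra LinearMap Module
open scoped TensorProduct

universe u

variable {k : Type u} [Field k] {A L K : Type u} [Ring A] [Bialgebra k A] [Ring L] [Bialgebra k L]
  [Ring K] [Algebra k K]

theorem St1b_fac {A L : Type u} [Ring A] [Algebra k A] [Ring L] [Algebra k L]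
    (εA : A →ₐ[k] k) (φ : A →ₐ[k] L) (hφ : ∀ x, φ x = algebraMap k L (εA x)) (y : C k L k) :
    pull φ.toLinearMap y = pull εA.toLinearMap (pull (Algebra.ofId k L).toLinearMap y) := by
  rw [pull_pull]
  exact congrArg (fun ψ => pull ψ y) (LinearMap.ext hφ)

theorem St1b_ins_mem {A : Type u} [Ring A] [Algebra k A] {e n : ℕ} {h : C k A A}
    (hh : h ∈ Cn (e + 1)) {f : C k A k} (hf : f ∈ Cn n) (m : ℕ) :
    (ins 1 h ^ m) f ∈ Cn (n + e * m) := by
  induction m with
  | zero => exact hf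
  | succ m ih =>
    rw [pow_succ', Module.End.mul_apply, Nat.mul_succ, ← add_assoc]
    exact ins_mem 1 hh ih

theorem St1b_pull_pow (π : A →ₐc[k] L) (y f : C k L k) (m : ℕ) :
    (ins 1 (hat (pull (π : A →ₐ[k] L).toLinearMap y)) ^ m) (pull (π : A →ₐ[k] L).toLinearMap f) =
      pull (π : A →ₐ[k] L).toLinearMap ((ins 1 (hat y) ^ m) f) := by
  induction m with
  | zero => rfl
  | succ m ih =>
    rw [pow_succ', pow_succ', Module.End.mul_apply, Module.End.mul_apply, ih,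
      pull_ins 1 _ (post_hat_pull π y)]

theorem pull_odd_eq_zero {A L : Type u} [Ring A] [Algebra k A] [Ring L] [Algebra k L]
    (εA : A →ₐ[k] k) (εL : L →ₐ[k] k) (φ : A →ₐ[k] L) (hφ : ∀ x, φ x = algebraMap k L (εA x))
    {n : ℕ} (hn : Odd n) {y : C k L k} (hy : y ∈ Cn n) (h0 : dl εL (trv εL k) y = 0) :
    pull φ.toLinearMap y = 0 := by
  have e : εL.comp (Algebra.ofId k L) = AlgHom.id k k := Subsingleton.elim _ _
  have h1 := pull_dl εL (trv εL k) (Algebra.ofId k L) y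
  rw [h0, map_zero, trv_comp, e] at h1
  rw [St1b_fac εA φ hφ, triv_odd hn (pull_mem _ hy) h1.symm, map_zero]

theorem pull_even_mem {A L : Type u} [Ring A] [Algebra k A] [Ring L] [Algebra k L]
    (εA : A →ₐ[k] k) (φ : A →ₐ[k] L) (hφ : ∀ x, φ x = algebraMap k L (εA x))
    {n : ℕ} (hn : Even n) (h0 : 0 < n) {y : C k L k} (hy : y ∈ Cn n) :
    pull φ.toLinearMap y ∈ Bc εA (trv εA k) := by
  obtain ⟨m, rfl⟩ := Nat.exists_eq_succ_of_ne_zero h0.ne'
  obtain ⟨g, hg, e⟩ := triv_even (Nat.not_even_iff_odd.1 (Nat.even_add_one.1 hn))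
    (pull_mem (Algebra.ofId k L).toLinearMap hy)
  rw [St1b_fac εA φ hφ, ← e, pull_dl, trv_comp, AlgHom.id_comp]
  exact ⟨_, Cn_le_Bd m (pull_mem _ hg), rfl⟩

/-- The tower of transgressive cochains. -/
theorem exists_tower (p : ℕ) [Fact p.Prime] [CharP k p] (π : A →ₐc[k] L)
    (hπ : Function.Surjective π) (j : K →ₐ[k] A) (εL : L →ₐ[k] k) (hL : εL = Bialgebra.counitAlgHom k L)
    (hj : ∀ x, Coalgebra.comul (R := k) (j x) ∈
      LinearMap.range (TensorProduct.map j.toLinearMap j.toLinearMap))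
    (htriv : ∀ x, π (j x) = algebraMap k L (εL (π (j x)))) {w : C k A k} {y : C k L k}
    (hw : w ∈ Cn 2) (hy : y ∈ Cn 3) (hy0 : dl εL (trv εL k) y = 0)
    (hwy : dl (εL.comp (π : A →ₐ[k] L)) (trv (εL.comp (π : A →ₐ[k] L)) k) w = pull (π : A →ₐ[k] L).toLinearMap y) (r : ℕ) :
    ∃ (w' : C k A k) (y' : C k L k), w' ∈ Cn (2 * p ^ r) ∧ y' ∈ Cn (2 * p ^ r + 1) ∧
      dl εL (trv εL k) y' = 0 ∧
      dl (εL.comp (π : A →ₐ[k] L)) (trv (εL.comp (π : A →ₐ[k] L)) k) w' = pull (π : A →ₐ[k] L).toLinearMap y' ∧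
      pull j.toLinearMap w' = cpow (pull j.toLinearMap w) (p ^ r) := by
  induction r with
  | zero => exact ⟨w, y, hw, hy, hy0, hwy, (cpow_one _).symm⟩
  | succ r ih =>
    obtain ⟨w', y', h1, h2, h3, h4, h5⟩ := ih
    have hp : 1 ≤ p := (Fact.out : p.Prime).one_le
    have eA : εL.comp (π : A →ₐ[k] L) = Bialgebra.counitAlgHom k A := by
      rw [hL]
      exact BialgHomClass.counitAlgHom_comp π
    have hd : ∀ f : C k L k, pull (π : A →ₐ[k] L).toLinearMap (dl εL (trv εL k) f) =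
        dl (Bialgebra.counitAlgHom k A) (trv (Bialgebra.counitAlgHom k A) k)
          (pull (π : A →ₐ[k] L).toLinearMap f) := fun f => by
      rw [pull_dl, trv_comp, eA]
    rw [eA] at h4 ⊢
    have h6 : pull j.toLinearMap (pull (π : A →ₐ[k] L).toLinearMap y') = 0 := by
      rw [pull_pull]
      exact pull_odd_eq_zero (εL.comp ((π : A →ₐ[k] L).comp j)) εL ((π : A →ₐ[k] L).comp j) htriv
        (even_two_mul _).add_one h2 h3
    obtain ⟨w'', g1, g2, g3⟩ := kudo p (Bialgebra.counitAlgHom k A) (even_two_mul (p ^ r))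
      (hat_mem (pull_mem (π : A →ₐ[k] L).toLinearMap h2))
      (by rw [dH_hat, ← hd, h3, map_zero, map_zero]) h1 (by rw [post_hat, h4]) j.toLinearMap
      (hat_sub_zero j hj h6)
    rw [post_hat, St1b_pull_pow] at g2
    refine ⟨w'', _, by rwa [pow_succ, ← mul_assoc], ?_, ?_, g2, ?_⟩
    · have g4 := St1b_ins_mem (hat_mem h2) h2 (p - 1)
      have e : 2 * p ^ r + 1 + 2 * p ^ r * (p - 1) = 2 * p ^ (r + 1) + 1 := by
        obtain ⟨q, rfl⟩ := Nat.exists_eq_add_of_le' hp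
        rw [Nat.add_sub_cancel]
        ring
      rwa [e] at g4
    · refine pull_eq_zero (φ := (π : A →ₐ[k] L).toLinearMap) hπ ?_
      rw [hd, ← g2, dl_dl]
    · rw [g3, h5, pow_succ, cpow_mul]

end EO
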