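import Pool.Agent.P.MP_42c3cc_al.F1

/-! The truncated polynomial algebra in one variable. -/

noncomputable section

namespace EO

open TensorAlgebra LinearMap Module
open scoped TensorProduct

universe u

open Polynomial

variable {k : Type u} [Field k]

theorem Tr_div {g : k[X]} (hg : g.Monic) : ∃ Q : k[X] →ₗ[k] k[X], ∀ f, f %ₘ g + g * Q f = f := by
  refine ⟨⟨⟨fun f => f /ₘ g, fun f f' => mul_left_cancel₀ hg.ne_zero ?_⟩,
    fun c f => mul_left_cancel₀ hg.ne_zero ?_⟩, fun f => modByMonic_add_div f g⟩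
  · have h1 := modByMonic_add_div (f + f') g
    rw [add_modByMonic] at h1
    linear_combination h1 - modByMonic_add_div f g - modByMonic_add_div f' g
  · have h1 := modByMonic_add_div (c • f) g
    rw [smul_modByMonic, smul_eq_C_mul, smul_eq_C_mul] at h1
    rw [RingHom.id_apply, smul_eq_C_mul, smul_eq_C_mul]
    linear_combination h1 - Polynomial.C c * modByMonic_add_div f g

theorem Tr_coc {g : k[X]} (hg : g.Monic) :
    ∃ χ : AdjoinRoot g →ₗ[k] AdjoinRoot g →ₗ[k] AdjoinRoot g, Sym2c χ ∧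
      ∀ f f' : k[X], f.degree < g.degree → f'.degree < g.degree → f * f' = g →
        χ (AdjoinRoot.mk g f) (AdjoinRoot.mk g f') = 1 := by
  obtain ⟨Q, hQ⟩ := Tr_div hg
  obtain ⟨s, hs⟩ : ∃ s, s = AdjoinRoot.modByMonicHom hg := ⟨_, rfl⟩
  have h1 : ∀ a, AdjoinRoot.mk g (s a) = a := hs ▸ AdjoinRoot.mk_leftInverse hg
  have h2 : ∀ f, s (AdjoinRoot.mk g f) = f %ₘ g := hs ▸ AdjoinRoot.modByMonicHom_mk hg
  have h3 : ∀ a b, s (a * b) + g * Q (s a * s b) = s a * s b := fun a b => by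
    have h4 := hQ (s a * s b)
    rwa [← h2, map_mul, h1, h1] at h4
  obtain ⟨χ, hχ⟩ : ∃ χ : AdjoinRoot g →ₗ[k] AdjoinRoot g →ₗ[k] AdjoinRoot g,
      ∀ a b, χ a b = AdjoinRoot.mk g (Q (s a * s b)) :=
    ⟨((LinearMap.mul k k[X]).compl₁₂ s s).compr₂ ((AdjoinRoot.mkₐ g).toLinearMap ∘ₗ Q),
      fun _ _ => rfl⟩
  refine ⟨χ, ⟨fun a b => by rw [hχ, hχ, mul_comm], fun a b c => ?_⟩, fun f f' hf hf' e => ?_⟩
  · have h4 : s a * Q (s b * s c) - Q (s (a * b) * s c) + Q (s a * s (b * c)) -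
        Q (s a * s b) * s c = 0 := by
      refine mul_left_cancel₀ hg.ne_zero ?_
      have h5 := h3 (a * b) c
      rw [mul_assoc] at h5
      linear_combination s a * h3 b c - h5 + h3 a (b * c) - s c * h3 a b
    have h6 := congrArg (AdjoinRoot.mk g) h4
    rwa [map_sub, map_add, map_sub, map_mul (AdjoinRoot.mk g), map_mul (AdjoinRoot.mk g), h1, h1,
      map_zero, ← hχ, ← hχ, ← hχ, ← hχ] at h6
  · have h4 : Q g = 1 := by
      refine mul_left_cancel₀ hg.ne_zero ?_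
      have h5 := hQ g
      rw [modByMonic_self hg, zero_add] at h5
      rw [h5, mul_one]
    rw [hχ, h2, h2, (modByMonic_eq_self_iff hg).2 hf, (modByMonic_eq_self_iff hg).2 hf', e, h4,
      map_one]

theorem good_adjoinRoot (N : ℕ) (hN : 0 < N)
    (ε : AdjoinRoot ((X : k[X]) ^ (N + 1)) →ₐ[k] k) : Good ε := by
  have hg : ((X : k[X]) ^ (N + 1)).Monic := monic_X_pow _
  have := (AdjoinRoot.powerBasis' hg).finite
  obtain ⟨χ, hχ, h1⟩ := Tr_coc hg
  obtain ⟨x, hx⟩ : ∃ x, x = AdjoinRoot.mk ((X : k[X]) ^ (N + 1)) X := ⟨_, rfl⟩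
  have h2 : x ^ (N + 1) = 0 := by rw [hx, ← map_pow, AdjoinRoot.mk_self]
  have h3 : ∀ f : k[X], ∃ (s : AdjoinRoot ((X : k[X]) ^ (N + 1))) (c : k),
      AdjoinRoot.mk _ f = x * s + c • 1 := fun f => ⟨AdjoinRoot.mk _ f.divX, f.coeff 0, by
    conv_lhs => rw [← X_mul_divX_add f]
    rw [map_add, map_mul, hx, ← Algebra.algebraMap_eq_smul_one]
    rfl⟩
  have h4 : ε x = 0 := pow_eq_zero_iff (Nat.succ_ne_zero N) |>.1 (by rw [← map_pow, h2, map_zero])
  have h5 : ∀ n, n < N + 1 → ((X : k[X]) ^ n).degree < ((X : k[X]) ^ (N + 1)).degree :=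
    fun n hn => by
      rw [degree_X_pow, degree_X_pow]
      exact_mod_cast hn
  refine good_one ε x N hN h2 (fun h => ?_) (fun t ht => ?_) (fun t ht => ?_) hχ ?_
  · rw [hx, ← map_pow, AdjoinRoot.mk_eq_zero] at h
    exact (degree_le_of_dvd h (monic_X_pow N).ne_zero).not_gt (h5 N (Nat.lt_succ_self N))
  · induction t using AdjoinRoot.induction_on with
    | ih f =>
      obtain ⟨s, c, e⟩ := h3 f
      rw [e, map_add, map_mul, h4, zero_mul, zero_add, map_smul, map_one, smul_eq_mul,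
        mul_one] at ht
      exact ⟨s, by rw [e, ht, zero_smul, add_zero]⟩
  · induction t using AdjoinRoot.induction_on with
    | ih f =>
      rw [hx, ← map_mul, AdjoinRoot.mk_eq_zero, pow_succ'] at ht
      obtain ⟨f', rfl⟩ := (mul_dvd_mul_iff_left X_ne_zero).1 ht
      obtain ⟨s, c, e⟩ := h3 f'
      refine ⟨c, ?_⟩
      rw [map_mul, map_pow, ← hx, e, mul_add, ← mul_assoc, ← pow_succ, h2, zero_mul, zero_add,
        mul_smul_comm, mul_one]
  · have h6 := h1 (X ^ N) (X ^ 1) (h5 N (Nat.lt_succ_self N)) (h5 1 (Nat.succ_lt_succ hN))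
      (pow_add _ _ _).symm
    rw [map_pow, pow_one, ← hx] at h6
    rw [h6, map_one]
    exact one_ne_zero

end EO
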