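import Pool.Agent.P.MP_42c3cc_al.Fn
import Pool.Agent.P.MP_42c3cc_al.Tr
import Pool.Agent.P.MP_42c3cc_al.Quot

/-! Truncated polynomial algebras in several variables. -/

noncomputable section

namespace EO

open TensorAlgebra LinearMap Module
open scoped TensorProduct

universe u

variable {k : Type u} [Field k]

theorem Trn_base (ε : k →ₐ[k] k) : Good ε := by
  refine ⟨0, Fin.elim0, Fin.elim0, fun i => i.elim0, fun i => i.elim0, fgAll_of_van ?_ _⟩
  intro M _ _ ρ
  have h : ∀ (a : k) (x : M), ρ a x = a • x := fun a x => by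
    have e : ρ a = algebraMap k (End k M) a := ρ.commutes a
    rw [e, Module.algebraMap_end_apply]
  refine van_of_retr (LinearMap.applyₗ 1) (fun a φ => ?_) fun x => by simp [io]
  rw [h, LinearMap.applyₗ_apply_apply, LinearMap.applyₗ_apply_apply, coind_apply, ← map_smul,
    smul_eq_mul, mul_comm]

open Polynomial in
theorem Trn_model (N : ℕ) (hN : 0 < N) (n : ℕ) : ∃ (R : Type u) (_ : CommRing R) (_ : Algebra k R)
    (_ : FiniteDimensional k R), finrank k R = (N + 1) ^ n ∧ (∀ ε : R →ₐ[k] k, Good ε) ∧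
    ∀ (K : Type u) [CommRing K] [Algebra k K] (x : Fin n → K), (∀ i, x i ^ (N + 1) = 0) →
      ∃ φ : R →ₐ[k] K, ∀ i, x i ∈ φ.range := by
  induction n with
  | zero =>
    exact ⟨k, inferInstance, inferInstance, inferInstance, by simp, Trn_base,
      fun K _ _ x _ => ⟨Algebra.ofId k K, fun i => i.elim0⟩⟩
  | succ n ih =>
    obtain ⟨R, _, _, _, h1, h2, h3⟩ := ih
    have hm : ((X : k[X]) ^ (N + 1)).Monic := monic_X_pow _
    let pb := AdjoinRoot.powerBasis' hm
    have : FiniteDimensional k (AdjoinRoot ((X : k[X]) ^ (N + 1))) := pb.finite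
    have hd : finrank k (AdjoinRoot ((X : k[X]) ^ (N + 1))) = N + 1 := by
      rw [pb.finrank, AdjoinRoot.powerBasis'_dim, natDegree_X_pow]
    refine ⟨R ⊗[k] AdjoinRoot ((X : k[X]) ^ (N + 1)), inferInstance, inferInstance, inferInstance,
      by rw [finrank_tensorProduct, h1, hd, pow_succ],
      fun ε => good_tensor ε (h2 _) (good_adjoinRoot N hN _), fun K _ _ x hx => ?_⟩
    obtain ⟨φ, hφ⟩ := h3 K (fun i => x i.succ) fun i => hx _
    let ψ : AdjoinRoot ((X : k[X]) ^ (N + 1)) →ₐ[k] K :=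
      AdjoinRoot.liftAlgHom _ (Algebra.ofId k K) (x 0) (by simp [hx])
    refine ⟨Algebra.TensorProduct.productMap φ ψ, fun i => ?_⟩
    rw [Algebra.TensorProduct.productMap_range]
    refine Fin.cases ?_ (fun i => ?_) i
    · exact le_sup_right (a := φ.range) ⟨AdjoinRoot.root _, by simp [ψ]⟩
    · exact le_sup_left (b := ψ.range) (hφ i)

theorem good_trunc (p : ℕ) (hp : 1 < p) (n : ℕ) (K : Type u) [CommRing K] [Algebra k K]
    [FiniteDimensional k K] (ε : K →ₐ[k] k) (x : Fin n → K) (hx : ∀ i, x i ^ p = 0)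
    (hgen : Algebra.adjoin k (Set.range x) = ⊤) (hdim : p ^ n ≤ finrank k K) : Good ε := by
  obtain ⟨N, rfl⟩ : ∃ N, p = N + 1 := ⟨p - 1, by omega⟩
  obtain ⟨R, _, _, _, h1, h2, h3⟩ := Trn_model (k := k) N (by omega) n
  obtain ⟨φ, hφ⟩ := h3 K x hx
  have hs : Function.Surjective φ := by
    rw [← AlgHom.range_eq_top, eq_top_iff, ← hgen, Algebra.adjoin_le_iff]
    rintro _ ⟨i, rfl⟩
    exact hφ i
  have hd : finrank k R = finrank k K :=
    le_antisymm (h1 ▸ hdim) (LinearMap.finrank_le_finrank_of_surjective (f := φ.toLinearMap) hs)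
  have hi : Function.Injective φ :=
    (LinearMap.injective_iff_surjective_of_finrank_eq_finrank (f := φ.toLinearMap) hd).2 hs
  let e := AlgEquiv.ofBijective φ ⟨hi, hs⟩
  have h := good_of_bij (φ := e.symm.toAlgHom) e.symm.bijective (h2 (ε.comp φ))
  have e' : (ε.comp φ).comp e.symm.toAlgHom = ε :=
    AlgHom.ext fun y => congrArg ε (e.apply_symm_apply y)
  rwa [e'] at h

end EO
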