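import Pool.Agent.P.MP_42c3cc_al.M2
import Pool.Agent.P.MP_42c3cc_al.Prim

/-! Local and connected Hopf algebras. -/

noncomputable section

namespace EO

open TensorAlgebra LinearMap Module
open scoped TensorProduct

universe u

variable {k : Type u} [Field k]

theorem U_con {A L : Type u} [Ring A] [Bialgebra k A] [Ring L] [Bialgebra k L]
    [FiniteDimensional k L] (π : A →ₐc[k] L) (hπ : Function.Surjective π)
    (hcon : ∀ f : WithConv (A →ₗ[k] k), f.ofConv 1 = 0 → IsUnit (1 - f))
    (f : WithConv (L →ₗ[k] k)) (hf : f.ofConv 1 = 0) : IsUnit (1 - f) := by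
  have : FiniteDimensional k (WithConv (L →ₗ[k] k)) :=
    (WithConv.linearEquiv k (L →ₗ[k] k)).symm.finiteDimensional
  rw [← Algebra.lmul_isUnit_iff (R := k), LinearMap.isUnit_iff_ker_eq_bot, eq_bot_iff]
  intro v hv
  have hv' : (1 - f) * v = 0 := hv
  have h1 := hcon (WithConv.toConv (f.ofConv ∘ₗ π.toCoalgHom.toLinearMap))
    ((congrArg f.ofConv (map_one π)).trans hf)
  have h2 := LinearMap.convMul_comp_coalgHom_distrib (1 - f) v π.toCoalgHom
  have h3 : (1 : WithConv (L →ₗ[k] k)).ofConv ∘ₗ π.toCoalgHom.toLinearMap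
      = (1 : WithConv (A →ₗ[k] k)).ofConv := by
    ext a
    simp
  rw [hv', WithConv.ofConv_zero, LinearMap.zero_comp, WithConv.ofConv_sub, LinearMap.sub_comp,
    h3, WithConv.toConv_sub, WithConv.toConv_ofConv, eq_comm,
    WithConv.ofConv_eq_zero, h1.mul_right_eq_zero, WithConv.toConv_eq_zero] at h2
  refine WithConv.ext (LinearMap.ext fun l => ?_)
  obtain ⟨a, rfl⟩ := hπ l
  exact LinearMap.congr_fun h2 a

theorem U_aux (n : ℕ) : ∀ (A : Type u) [Ring A] [HopfAlgebra k A] [FiniteDimensional k A],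
    finrank k A = n → (∀ a : A, Coalgebra.counit (R := k) a = 0 → IsUnit (1 - a)) →
    (∀ f : WithConv (A →ₗ[k] k), f.ofConv 1 = 0 → IsUnit (1 - f)) →
    FGcAll (Bialgebra.counitAlgHom k A) := by
  induction n using Nat.strong_induction_on with
  | _ n ih =>
  intro A _ _ _ hn hloc hcon
  by_cases hA : ∃ a : A, a ≠ 0 ∧ Coalgebra.counit (R := k) a = 0
  swap
  · refine fgc_triv fun a => sub_eq_zero.1 (by_contra fun h => hA ⟨_, h, ?_⟩)
    simp
  obtain ⟨x, hx0, hx, hc⟩ := exists_central_primitive hloc hcon hA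
  obtain ⟨h0, hj⟩ := ch_primitive hx hc
  have := hj.twoSided
  have := hj.hopfIdeal
  have hq := quo_mk (Ideal.kerLiftAlg (Polynomial.aeval (R := k) x))
  have : FiniteDimensional k (A ⧸ augI (Ideal.kerLiftAlg (Polynomial.aeval (R := k) x))) :=
    Module.Finite.of_surjective (Ideal.Quotient.mkₐ k _).toLinearMap Ideal.Quotient.mk_surjective
  refine main_central hj hq (ih _ ?_ _ rfl (fun a ha => ?_) (U_con _ hq.surj hcon))
  · have e : Ideal.kerLiftAlg (Polynomial.aeval (R := k) x) (Ideal.Quotient.mk _ Polynomial.X)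
        = x := (Ideal.kerLiftAlg_mk _ _).trans (Polynomial.aeval_X x)
    have hm : x ∈ augI (Ideal.kerLiftAlg (Polynomial.aeval (R := k) x)) :=
      Ideal.subset_span ⟨_, e.symm ▸ h0, e.symm⟩
    have h1 := LinearMap.finrank_range_add_finrank_ker
      (Ideal.Quotient.mkₐ k (augI (Ideal.kerLiftAlg (Polynomial.aeval (R := k) x)))).toLinearMap
    rw [LinearMap.range_eq_top.2 Ideal.Quotient.mk_surjective, finrank_top, hn] at h1
    have h2 : finrank k (LinearMap.ker (Ideal.Quotient.mkₐ k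
        (augI (Ideal.kerLiftAlg (Polynomial.aeval (R := k) x)))).toLinearMap) ≠ 0 := fun e =>
      hx0 ((Submodule.eq_bot_iff _).1 (Submodule.finrank_eq_zero.1 e) x
        (Ideal.Quotient.eq_zero_iff_mem.2 hm))
    omega
  · obtain ⟨a, rfl⟩ := Ideal.Quotient.mk_surjective a
    have h1 := (hloc a ha).map
      (Ideal.Quotient.mk (augI (Ideal.kerLiftAlg (Polynomial.aeval (R := k) x))))
    rwa [RingHom.map_sub, RingHom.map_one] at h1

theorem main_unip (A : Type u) [Ring A] [HopfAlgebra k A] [FiniteDimensional k A]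
    (hloc : ∀ a : A, Coalgebra.counit (R := k) a = 0 → IsUnit (1 - a))
    (hcon : ∀ f : WithConv (A →ₗ[k] k), f.ofConv 1 = 0 → IsUnit (1 - f)) :
    FGcAll (Bialgebra.counitAlgHom k A) := U_aux _ A rfl hloc hcon

end EO
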