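import Pool.Agent.P.MP_42c3cc_al.C1c
import Pool.Agent.P.MP_42c3cc_al.Ab0

/-! Cohomology of the standard complex: definitions. -/

noncomputable section

namespace EO

open TensorAlgebra LinearMap Module
open scoped TensorProduct

universe u

variable {k : Type u} [Field k] {A : Type u} [Ring A] [Algebra k A]
  {X Y Z : Type u} [AddCommGroup X] [Module k X] [AddCommGroup Y] [Module k Y]
  [AddCommGroup Z] [Module k Z] {B : Type u} [Ring B] [Algebra k B]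

/-- Cocycles. -/
def Zc (ε : A →ₐ[k] k) (ρ : A →ₐ[k] End k X) : Submodule k (C k A X) :=
  Bd ⊓ LinearMap.ker (dl ε ρ)

/-- Coboundaries. -/
def Bc (ε : A →ₐ[k] k) (ρ : A →ₐ[k] End k X) : Submodule k (C k A X) := Bd.map (dl ε ρ)

theorem mem_Zc {ε : A →ₐ[k] k} {ρ : A →ₐ[k] End k X} {f : C k A X} :
    f ∈ Zc ε ρ ↔ f ∈ Bd ∧ dl ε ρ f = 0 := Iff.rfl

theorem mem_Bc {ε : A →ₐ[k] k} {ρ : A →ₐ[k] End k X} {f : C k A X} :
    f ∈ Bc ε ρ ↔ ∃ g ∈ Bd, dl ε ρ g = f := Iff.rfl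

theorem Bc_le_Zc (ε : A →ₐ[k] k) (ρ : A →ₐ[k] End k X) : Bc ε ρ ≤ Zc ε ρ := by
  rintro _ ⟨g, hg, rfl⟩
  exact ⟨del_Bd _ _ hg, dl_dl ε ρ g⟩

/-- Total cohomology. -/
abbrev V (ε : A →ₐ[k] k) (ρ : A →ₐ[k] End k X) : Type u :=
  Zc ε ρ ⧸ (Bc ε ρ).comap (Zc ε ρ).subtype

/-- The class of a cocycle. -/
def cl (ε : A →ₐ[k] k) (ρ : A →ₐ[k] End k X) : Zc ε ρ →ₗ[k] V ε ρ := Submodule.mkQ _

theorem cl_surj {ε : A →ₐ[k] k} {ρ : A →ₐ[k] End k X} (x : V ε ρ) : ∃ f, cl ε ρ f = x :=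
  Submodule.mkQ_surjective _ x

theorem cl_eq_zero {ε : A →ₐ[k] k} {ρ : A →ₐ[k] End k X} {f : Zc ε ρ} :
    cl ε ρ f = 0 ↔ f.1 ∈ Bc ε ρ := Submodule.Quotient.mk_eq_zero _

theorem cl_eq {ε : A →ₐ[k] k} {ρ : A →ₐ[k] End k X} {f g : Zc ε ρ} :
    cl ε ρ f = cl ε ρ g ↔ f.1 - g.1 ∈ Bc ε ρ := by
  rw [← sub_eq_zero, ← map_sub, cl_eq_zero]; rfl

/-- The map induced on cohomology. -/
def liftV {ε : A →ₐ[k] k} {ρ : A →ₐ[k] End k X} {ε' : B →ₐ[k] k} {ρ' : B →ₐ[k] End k Y}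
    (Φ : C k A X →ₗ[k] C k B Y) (hZ : ∀ f ∈ Zc ε ρ, Φ f ∈ Zc ε' ρ')
    (hB : ∀ f ∈ Bc ε ρ, Φ f ∈ Bc ε' ρ') : V ε ρ →ₗ[k] V ε' ρ' :=
  Submodule.mapQ _ _ (Φ.restrict hZ) fun f hf => hB f.1 hf

theorem liftV_cl {ε : A →ₐ[k] k} {ρ : A →ₐ[k] End k X} {ε' : B →ₐ[k] k} {ρ' : B →ₐ[k] End k Y}
    (Φ : C k A X →ₗ[k] C k B Y) (hZ : ∀ f ∈ Zc ε ρ, Φ f ∈ Zc ε' ρ')
    (hB : ∀ f ∈ Bc ε ρ, Φ f ∈ Bc ε' ρ') (f : Zc ε ρ) :
    liftV Φ hZ hB (cl ε ρ f) = cl ε' ρ' ⟨Φ f, hZ f f.2⟩ := rfl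

/-- Scalar cocycles. -/
abbrev Zk (ε : A →ₐ[k] k) : Type u := Zc ε (trv ε k)

theorem cr_mem_Zc {ε : A →ₐ[k] k} {ρ : A →ₐ[k] End k X} {f : C k A X} (hf : f ∈ Zc ε ρ)
    {a : C k A k} (ha : a ∈ Zc ε (trv ε k)) : cr f a ∈ Zc ε ρ :=
  ⟨cup_Bd _ hf.1 ha.1, by
    show dl ε ρ (cr f a) = 0
    rw [dl_cr, (mem_Zc.1 hf).2, (mem_Zc.1 ha).2]; simp⟩

theorem cr_mem_Bc {ε : A →ₐ[k] k} {ρ : A →ₐ[k] End k X} {f : C k A X} (hf : f ∈ Bc ε ρ)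
    {a : C k A k} (ha : a ∈ Zc ε (trv ε k)) : cr f a ∈ Bc ε ρ := by
  obtain ⟨g, hg, rfl⟩ := hf
  exact ⟨cr g a, cup_Bd _ hg ha.1, by rw [dl_cr, (mem_Zc.1 ha).2]; simp⟩

/-- Right multiplication by a scalar cocycle. -/
def T (ε : A →ₐ[k] k) (ρ : A →ₐ[k] End k X) (a : Zk ε) : End k (V ε ρ) :=
  liftV (cr.flip a.1) (fun _ hf => cr_mem_Zc hf a.2) fun _ hf => cr_mem_Bc hf a.2

theorem T_cl (ε : A →ₐ[k] k) (ρ : A →ₐ[k] End k X) (a : Zk ε) (f : Zc ε ρ) :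
    T ε ρ a (cl ε ρ f) = cl ε ρ ⟨cr f.1 a.1, cr_mem_Zc f.2 a.2⟩ := rfl

/-- `φ` is a map of modules. -/
def Eqv (ρ : A →ₐ[k] End k X) (ρ' : A →ₐ[k] End k Y) (φ : X →ₗ[k] Y) : Prop :=
  ∀ a x, φ (ρ a x) = ρ' a (φ x)

theorem post_mem_Zc {ε : A →ₐ[k] k} {ρ : A →ₐ[k] End k X} {ρ' : A →ₐ[k] End k Y} {φ : X →ₗ[k] Y}
    (h : Eqv ρ ρ' φ) {f : C k A X} (hf : f ∈ Zc ε ρ) : post φ f ∈ Zc ε ρ' :=
  ⟨post_Bd _ hf.1, by
    show dl ε ρ' (post φ f) = 0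
    rw [← post_dl ε h, (mem_Zc.1 hf).2, map_zero]⟩

/-- The map induced by a map of modules. -/
def postV (ε : A →ₐ[k] k) {ρ : A →ₐ[k] End k X} {ρ' : A →ₐ[k] End k Y} {φ : X →ₗ[k] Y}
    (h : Eqv ρ ρ' φ) : V ε ρ →ₗ[k] V ε ρ' :=
  liftV (post φ) (fun _ hf => post_mem_Zc h hf) (by
    rintro _ ⟨g, hg, rfl⟩
    exact ⟨post φ g, post_Bd _ hg, (post_dl ε h g).symm⟩)

theorem postV_cl (ε : A →ₐ[k] k) {ρ : A →ₐ[k] End k X} {ρ' : A →ₐ[k] End k Y} {φ : X →ₗ[k] Y}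
    (h : Eqv ρ ρ' φ) (f : Zc ε ρ) :
    postV ε h (cl ε ρ f) = cl ε ρ' ⟨post φ f.1, post_mem_Zc h f.2⟩ := rfl

theorem pull_mem_Zc {ε : A →ₐ[k] k} {ρ : A →ₐ[k] End k X} (φ : B →ₐ[k] A) {f : C k A X}
    (hf : f ∈ Zc ε ρ) : pull φ.toLinearMap f ∈ Zc (ε.comp φ) (ρ.comp φ) :=
  ⟨pull_Bd _ hf.1, by
    show dl _ _ (pull φ.toLinearMap f) = 0
    rw [← pull_dl, (mem_Zc.1 hf).2, map_zero]⟩

theorem pull_mem_Bc {ε : A →ₐ[k] k} {ρ : A →ₐ[k] End k X} (φ : B →ₐ[k] A) {f : C k A X}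
    (hf : f ∈ Bc ε ρ) : pull φ.toLinearMap f ∈ Bc (ε.comp φ) (ρ.comp φ) := by
  obtain ⟨g, hg, rfl⟩ := hf
  exact ⟨pull φ.toLinearMap g, pull_Bd _ hg, (pull_dl ε ρ φ g).symm⟩

/-- Change of rings. -/
def pullV (ε : A →ₐ[k] k) (ρ : A →ₐ[k] End k X) (φ : B →ₐ[k] A) :
    V ε ρ →ₗ[k] V (ε.comp φ) (ρ.comp φ) :=
  liftV (pull φ.toLinearMap) (fun _ hf => pull_mem_Zc φ hf) fun _ hf => pull_mem_Bc φ hf

theorem pullV_cl (ε : A →ₐ[k] k) (ρ : A →ₐ[k] End k X) (φ : B →ₐ[k] A) (f : Zc ε ρ) :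
    pullV ε ρ φ (cl ε ρ f) = cl _ _ ⟨pull φ.toLinearMap f.1, pull_mem_Zc φ f.2⟩ := rfl

/-- Change of rings for scalar cocycles. -/
def pullZ {ε : A →ₐ[k] k} (φ : B →ₐ[k] A) (a : Zk ε) : Zk (ε.comp φ) :=
  ⟨pull φ.toLinearMap a.1, by rw [← trv_comp]; exact pull_mem_Zc φ a.2⟩

theorem pullZ_coe {ε : A →ₐ[k] k} (φ : B →ₐ[k] A) (a : Zk ε) :
    (pullZ φ a).1 = pull φ.toLinearMap a.1 := rfl

theorem pr_mem_Zc {ε : A →ₐ[k] k} {ρ : A →ₐ[k] End k X} (n : ℕ) {f : C k A X} (hf : f ∈ Zc ε ρ) :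
    pr n f ∈ Zc ε ρ :=
  ⟨Cn_le_Bd n (pr_mem n f), by
    show dl ε ρ (pr n f) = 0
    have h : pr (n + 1) (dl ε ρ f) = dl ε ρ (pr n f) := pr_del n _ _ f
    rw [← h, (mem_Zc.1 hf).2, map_zero]⟩

theorem pr_mem_Bc {ε : A →ₐ[k] k} {ρ : A →ₐ[k] End k X} (n : ℕ) {f : C k A X} (hf : f ∈ Bc ε ρ) :
    pr n f ∈ Bc ε ρ := by
  obtain ⟨g, -, rfl⟩ := hf
  cases n with
  | zero => exact (pr_zero_del _ _ g).symm ▸ Submodule.zero_mem _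
  | succ n => exact ⟨pr n g, Cn_le_Bd n (pr_mem n g), (pr_del n _ _ g).symm⟩

/-- The part of degree `n` of a class. -/
def prV (ε : A →ₐ[k] k) (ρ : A →ₐ[k] End k X) (n : ℕ) : End k (V ε ρ) :=
  liftV (pr n) (fun _ hf => pr_mem_Zc n hf) fun _ hf => pr_mem_Bc n hf

theorem prV_cl (ε : A →ₐ[k] k) (ρ : A →ₐ[k] End k X) (n : ℕ) (f : Zc ε ρ) :
    prV ε ρ n (cl ε ρ f) = cl ε ρ ⟨pr n f.1, pr_mem_Zc n f.2⟩ := rfl

/-- A short exact sequence of modules. -/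
structure SES (ρX : A →ₐ[k] End k X) (ρY : A →ₐ[k] End k Y) (ρZ : A →ₐ[k] End k Z)
    (i : X →ₗ[k] Y) (p : Y →ₗ[k] Z) : Prop where
  hi : Eqv ρX ρY i
  hp : Eqv ρY ρZ p
  inj : Function.Injective i
  surj : Function.Surjective p
  ex : LinearMap.ker p = LinearMap.range i

theorem SES.comp {ρX : A →ₐ[k] End k X} {ρY : A →ₐ[k] End k Y} {ρZ : A →ₐ[k] End k Z}
    {i : X →ₗ[k] Y} {p : Y →ₗ[k] Z} (h : SES ρX ρY ρZ i p) (φ : B →ₐ[k] A) :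
    SES (ρX.comp φ) (ρY.comp φ) (ρZ.comp φ) i p :=
  ⟨fun _ => h.hi _, fun _ => h.hp _, h.inj, h.surj, h.ex⟩

/-- The connecting map of the long exact sequence. -/
structure Conn (ε : A →ₐ[k] k) {ρX : A →ₐ[k] End k X} {ρY : A →ₐ[k] End k Y}
    {ρZ : A →ₐ[k] End k Z} {i : X →ₗ[k] Y} {p : Y →ₗ[k] Z} (h : SES ρX ρY ρZ i p)
    (c : V ε ρZ →ₗ[k] V ε ρX) : Prop where
  rel : ∀ (g : C k A Y) (z : Zc ε ρZ) (x : Zc ε ρX), g ∈ Bd → post p g = z.1 →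
    dl ε ρY g = post i x.1 → c (cl ε ρZ z) = cl ε ρX x
  hT : ∀ a v, c (T ε ρZ a v) = T ε ρX a (c v)
  deg : ∀ n v, c (prV ε ρZ n v) = prV ε ρX (n + 1) (c v)
  deg0 : ∀ v, prV ε ρX 0 (c v) = 0
  exX : LinearMap.ker (postV ε h.hi) = LinearMap.range c
  exY : LinearMap.ker (postV ε h.hp) = LinearMap.range (postV ε h.hi)
  exZ : LinearMap.ker c = LinearMap.range (postV ε h.hp)

/-- The representation on a quotient. -/
def quotRep (ρ : A →ₐ[k] End k X) (N : Submodule k X) (hN : ∀ a, ∀ x ∈ N, ρ a x ∈ N) :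
    A →ₐ[k] End k (X ⧸ N) :=
  AlgHom.ofLinearMap
    { toFun := fun a => N.mapQ N (ρ a) (hN a)
      map_add' := fun a b => by ext; simp
      map_smul' := fun c a => by ext; simp }
    (by ext; simp) (fun a b => by ext; simp)

@[simp] theorem quotRep_mk (ρ : A →ₐ[k] End k X) (N : Submodule k X)
    (hN : ∀ a, ∀ x ∈ N, ρ a x ∈ N) (a : A) (x : X) :
    quotRep ρ N hN a (N.mkQ x) = N.mkQ (ρ a x) := rfl

/-- The representation on a stable subspace. -/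
def subRep (ρ : A →ₐ[k] End k X) (N : Submodule k X) (hN : ∀ a, ∀ x ∈ N, ρ a x ∈ N) :
    A →ₐ[k] End k N :=
  AlgHom.ofLinearMap
    { toFun := fun a => (ρ a).restrict (hN a)
      map_add' := fun a b => by ext; simp
      map_smul' := fun c a => by ext; simp }
    (by ext; simp) (fun a b => by ext; simp)

@[simp] theorem subRep_coe (ρ : A →ₐ[k] End k X) (N : Submodule k X)
    (hN : ∀ a, ∀ x ∈ N, ρ a x ∈ N) (a : A) (x : N) : (subRep ρ N hN a x : X) = ρ a x := rfl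

theorem ses_quot {ρX : A →ₐ[k] End k X} {ρY : A →ₐ[k] End k Y} {i : X →ₗ[k] Y}
    (hi : Eqv ρX ρY i) (inj : Function.Injective i) :
    SES ρX ρY (quotRep ρY (LinearMap.range i) (by
      rintro a _ ⟨x, rfl⟩; exact ⟨ρX a x, hi a x⟩)) i (LinearMap.range i).mkQ :=
  ⟨hi, fun _ _ => rfl, inj, Submodule.mkQ_surjective _, Submodule.ker_mkQ _⟩

/-- The embedding in the coinduced module. -/
def io (ρ : A →ₐ[k] End k X) : X →ₗ[k] A →ₗ[k] X := ρ.toLinearMap.flip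

theorem io_eqv (ρ : A →ₐ[k] End k X) : Eqv ρ (coind A X) (io ρ) := fun a x => by
  ext b; simp [io]

theorem io_inj (ρ : A →ₐ[k] End k X) : Function.Injective (io ρ) := fun x y h => by
  simpa [io] using LinearMap.congr_fun h 1

/-- The cosyzygy. -/
abbrev Sg (ρ : A →ₐ[k] End k X) : Type u := (A →ₗ[k] X) ⧸ LinearMap.range (io ρ)

/-- The representation on the cosyzygy. -/
def sgRep (ρ : A →ₐ[k] End k X) : A →ₐ[k] End k (Sg ρ) :=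
  quotRep (coind A X) (LinearMap.range (io ρ)) (by
    rintro a _ ⟨x, rfl⟩; exact ⟨ρ a x, io_eqv ρ a x⟩)

theorem ses_Sg (ρ : A →ₐ[k] End k X) :
    SES ρ (coind A X) (sgRep ρ) (io ρ) (LinearMap.range (io ρ)).mkQ :=
  ses_quot (io_eqv ρ) (io_inj ρ)

/-- No cohomology above degree `m`. -/
def Van (ε : A →ₐ[k] k) (ρ : A →ₐ[k] End k X) (m : ℕ) : Prop := ∀ n > m, ∀ v, prV ε ρ n v = 0

/-- `A` is projective as a right module over `K`. -/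
def Proj {K : Type u} [Ring K] [Algebra k K] (j : K →ₐ[k] A) : Prop :=
  ∃ s : A →ₗ[k] A ⊗[k] K, (∀ a, TensorProduct.lift
      ((LinearMap.mul k A).compl₂ j.toLinearMap) (s a) = a) ∧
    ∀ a x, s (a * j x) = s a * (1 ⊗ₜ x)

/-- A scalar cochain of even positive degree `d` with a Hochschild cocycle above it. -/
def Cen (ε : A →ₐ[k] k) (d : ℕ) (z : C k A k) : Prop :=
  0 < d ∧ Even d ∧ ∃ h : C k A A, h ∈ Cn d ∧ dH h = 0 ∧ post ε.toLinearMap h = z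

/-- The cohomology of every finite dimensional module is finitely generated under `θ`. -/
def FGAll (ε : A →ₐ[k] k) {σ : Type} (θ : σ → Zk ε) : Prop :=
  ∀ (M : Type u) [AddCommGroup M] [Module k M] [FiniteDimensional k M] (ρ : A →ₐ[k] End k M),
    FGT fun i => T ε ρ (θ i)

/-- Finite generation over the cohomology ring, written with cochains. -/
def FGc (ε : A →ₐ[k] k) (ρ : A →ₐ[k] End k X) : Prop :=
  ∃ (r : ℕ) (d : Fin r → ℕ) (x : Fin r → C k A X), (∀ i, x i ∈ Cn (d i) ∧ dl ε ρ (x i) = 0) ∧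
    ∀ (n : ℕ) (y : C k A X), y ∈ Cn n → dl ε ρ y = 0 →
      y ∈ AddSubgroup.closure {z | ∃ (i : Fin r) (m : ℕ) (a : C k A k), a ∈ Cn m ∧
        dl ε (trv ε k) a = 0 ∧ m + d i = n ∧ z = cr (x i) a} ⊔ (Bc ε ρ).toAddSubgroup

/-- `FGc` for all finite dimensional modules. -/
def FGcAll (ε : A →ₐ[k] k) : Prop :=
  ∀ (M : Type u) [AddCommGroup M] [Module k M] [FiniteDimensional k M] (ρ : A →ₐ[k] End k M),
    FGc ε ρ

/-- A symmetric Hochschild two-cocycle. -/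
structure Sym2c {K : Type u} [CommRing K] [Algebra k K] (χ : K →ₗ[k] K →ₗ[k] K) : Prop where
  symm : ∀ a b, χ a b = χ b a
  coc : ∀ a b c, a * χ b c - χ (a * b) c + χ a (b * c) - χ a b * c = 0

/-- The cohomology is finitely generated under finitely many symmetric two-cocycles. -/
def Good {K : Type u} [CommRing K] [Algebra k K] (ε : K →ₐ[k] k) : Prop :=
  ∃ (n : ℕ) (χ : Fin n → K →ₗ[k] K →ₗ[k] K) (θ : Fin n → Zk ε), (∀ i, Sym2c (χ i)) ∧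
    (∀ i, (θ i).1 = mk2 ((χ i).compr₂ ε.toLinearMap)) ∧ FGAll ε θ

end EO
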