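import Pool.Agent.P.MP_42c3cc_al.V0
import Pool.Agent.P.MP_42c3cc_al.C2

/-! The action of scalar cocycles on cohomology. -/

noncomputable section

namespace EO

open TensorAlgebra LinearMap Module
open scoped TensorProduct

universe u

variable {k : Type u} [Field k] {A : Type u} [Ring A] [Algebra k A]
  {X Y Z : Type u} [AddCommGroup X] [Module k X] [AddCommGroup Y] [Module k Y]
  [AddCommGroup Z] [Module k Z] {B : Type u} [Ring B] [Algebra k B]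

variable {ε : A →ₐ[k] k}

theorem V1_cr_Bc {ρ : A →ₐ[k] End k X} {f : C k A X} (hf : f ∈ Zc ε ρ) {a : C k A k}
    (ha : a ∈ Bc ε (trv ε k)) : cr f a ∈ Bc ε ρ := by
  obtain ⟨g, hg, rfl⟩ := ha
  refine ⟨cr (sg (-1) f) g, cup_Bd _ (sg_Bd _ hf.1) hg, ?_⟩
  have h1 : dl ε ρ (sg (-1) f) = 0 := by
    have h2 := sg_dl (-1) ε ρ f
    rw [(mem_Zc.1 hf).2, map_zero, neg_smul, one_smul] at h2
    exact neg_eq_zero.1 h2.symm
  rw [dl_cr, h1, sg_sg, neg_mul_neg, one_mul, sg_one_eq, map_zero, LinearMap.zero_apply, zero_add]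

theorem V1_sum {ρ : A →ₐ[k] End k X} (v : V ε ρ) :
    ∃ N, ∀ N' ≥ N, v = ∑ n ∈ Finset.range N', prV ε ρ n v := by
  obtain ⟨f, rfl⟩ := cl_surj v
  obtain ⟨N, hN⟩ := Bd_sum f.2.1
  refine ⟨N, fun N' h => ?_⟩
  simp only [prV_cl]
  rw [← map_sum]
  refine congrArg (cl ε ρ) (Subtype.ext ?_)
  rw [Submodule.coe_sum]
  exact hN N' h

theorem T_mul (ρ : A →ₐ[k] End k X) {a b c : Zk ε} (h : c.1 = cr a.1 b.1) :
    T ε ρ c = T ε ρ b * T ε ρ a := by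
  refine LinearMap.ext fun v => ?_
  obtain ⟨f, rfl⟩ := cl_surj v
  rw [Module.End.mul_apply, T_cl, T_cl, T_cl]
  exact congrArg (cl ε ρ) (Subtype.ext (by
    show cr f.1 c.1 = cr (cr f.1 a.1) b.1
    rw [h, cr_assoc]))

theorem V1_T_cr (ρ : A →ₐ[k] End k X) (a b : Zk ε) :
    T ε ρ ⟨cr a.1 b.1, cr_mem_Zc a.2 b.2⟩ = T ε ρ b * T ε ρ a := T_mul ρ rfl

theorem T_congr (ρ : A →ₐ[k] End k X) {a b : Zk ε} (h : a.1 - b.1 ∈ Bc ε (trv ε k)) :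
    T ε ρ a = T ε ρ b := by
  refine LinearMap.ext fun v => ?_
  obtain ⟨f, rfl⟩ := cl_surj v
  rw [T_cl, T_cl, cl_eq]
  show cr f.1 a.1 - cr f.1 b.1 ∈ Bc ε ρ
  rw [← map_sub]
  exact V1_cr_Bc f.2 h

theorem T_smul (ρ : A →ₐ[k] End k X) (s : k) (a : Zk ε) : T ε ρ (s • a) = s • T ε ρ a := by
  refine LinearMap.ext fun v => ?_
  obtain ⟨f, rfl⟩ := cl_surj v
  rw [LinearMap.smul_apply, T_cl, T_cl, ← map_smul]
  exact congrArg (cl ε ρ) (Subtype.ext (map_smul (cr f.1) s a.1))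

theorem T_add (ρ : A →ₐ[k] End k X) (a b : Zk ε) : T ε ρ (a + b) = T ε ρ a + T ε ρ b := by
  refine LinearMap.ext fun v => ?_
  obtain ⟨f, rfl⟩ := cl_surj v
  rw [LinearMap.add_apply, T_cl, T_cl, T_cl, ← map_add]
  exact congrArg (cl ε ρ) (Subtype.ext (map_add (cr f.1) a.1 b.1))

theorem cpow_mem_Zc (a : Zk ε) (q : ℕ) : cpow a.1 q ∈ Zc ε (trv ε k) := by
  induction q with
  | zero => exact ⟨Cn_le_Bd 0 (cst_mem _), (dl_cst ε (trv ε k) 1).2 fun a => trv_apply ε a 1⟩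
  | succ q ih => exact cr_mem_Zc ih a.2

theorem T_cpow (ρ : A →ₐ[k] End k X) {a c : Zk ε} {q : ℕ} (h : c.1 = cpow a.1 q) :
    T ε ρ c = T ε ρ a ^ q := by
  induction q generalizing c with
  | zero =>
    refine LinearMap.ext fun v => ?_
    obtain ⟨f, rfl⟩ := cl_surj v
    rw [pow_zero, Module.End.one_apply, T_cl]
    exact congrArg (cl ε ρ) (Subtype.ext (by
      show cr f.1 c.1 = f.1
      rw [h]
      exact cr_one _))
  | succ q ih =>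
    rw [T_mul ρ (a := ⟨cpow a.1 q, cpow_mem_Zc a q⟩) (b := a) h,
      ih (c := ⟨cpow a.1 q, cpow_mem_Zc a q⟩) rfl, pow_succ']

theorem postV_T {ρ : A →ₐ[k] End k X} {ρ' : A →ₐ[k] End k Y} {φ : X →ₗ[k] Y} (h : Eqv ρ ρ' φ)
    (a : Zk ε) (v : V ε ρ) : postV ε h (T ε ρ a v) = T ε ρ' a (postV ε h v) := by
  obtain ⟨f, rfl⟩ := cl_surj v
  rw [T_cl, postV_cl, postV_cl, T_cl]
  exact congrArg (cl ε ρ') (Subtype.ext (post_cr φ f.1 a.1))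

theorem pullV_T (ρ : A →ₐ[k] End k X) (φ : B →ₐ[k] A) (a : Zk ε) (v : V ε ρ) :
    pullV ε ρ φ (T ε ρ a v) = T (ε.comp φ) (ρ.comp φ) (pullZ φ a) (pullV ε ρ φ v) := by
  obtain ⟨f, rfl⟩ := cl_surj v
  rw [T_cl, pullV_cl, pullV_cl, T_cl]
  exact congrArg (cl _ _) (Subtype.ext (pull_cr φ.toLinearMap f.1 a.1))

theorem postV_prV {ρ : A →ₐ[k] End k X} {ρ' : A →ₐ[k] End k Y} {φ : X →ₗ[k] Y} (h : Eqv ρ ρ' φ)
    (n : ℕ) (v : V ε ρ) : postV ε h (prV ε ρ n v) = prV ε ρ' n (postV ε h v) := by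
  obtain ⟨f, rfl⟩ := cl_surj v
  rw [prV_cl, postV_cl, postV_cl, prV_cl]
  exact congrArg (cl ε ρ') (Subtype.ext (pr_post n φ f.1).symm)

theorem pullV_prV (ρ : A →ₐ[k] End k X) (φ : B →ₐ[k] A) (n : ℕ) (v : V ε ρ) :
    pullV ε ρ φ (prV ε ρ n v) = prV (ε.comp φ) (ρ.comp φ) n (pullV ε ρ φ v) := by
  obtain ⟨f, rfl⟩ := cl_surj v
  rw [prV_cl, pullV_cl, pullV_cl, prV_cl]
  exact congrArg (cl _ _) (Subtype.ext (pr_pull n φ.toLinearMap f.1).symm)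

theorem gr_V (ρ : A →ₐ[k] End k X) {σ : Type} (θ : σ → Zk ε) (d : σ → ℕ)
    (h : ∀ i, (θ i).1 ∈ Cn (d i)) : Gr (fun i => T ε ρ (θ i)) (prV ε ρ) d := by
  refine ⟨V1_sum, fun n v => ?_, fun m n v hmn => ?_, fun i n v => ?_, fun i n v hn => ?_⟩
  · obtain ⟨f, rfl⟩ := cl_surj v
    rw [prV_cl, prV_cl]
    exact congrArg (cl ε ρ) (Subtype.ext (pr_of_mem (pr_mem n f.1)))
  · obtain ⟨f, rfl⟩ := cl_surj v
    rw [prV_cl, prV_cl, ← (cl ε ρ).map_zero]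
    exact congrArg (cl ε ρ) (Subtype.ext (pr_of_ne (pr_mem n f.1) hmn))
  · obtain ⟨f, rfl⟩ := cl_surj v
    rw [T_cl, prV_cl, prV_cl, T_cl]
    exact congrArg (cl ε ρ) (Subtype.ext (pr_cup _ n f.1 (h i)))
  · obtain ⟨f, rfl⟩ := cl_surj v
    rw [T_cl, prV_cl, ← (cl ε ρ).map_zero]
    exact congrArg (cl ε ρ) (Subtype.ext (pr_cup_lt _ hn f.1 (h i)))

theorem eq_top_of_prV {ρ : A →ₐ[k] End k X} (W : Submodule k (V ε ρ))
    (h : ∀ n v, prV ε ρ n v ∈ W) : W = ⊤ := by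
  refine eq_top_iff.2 fun v _ => ?_
  obtain ⟨N, hN⟩ := V1_sum v
  rw [hN N le_rfl]
  exact Submodule.sum_mem _ fun n _ => h n v

theorem exists_homog {ρ : A →ₐ[k] End k X} (n : ℕ) (v : V ε ρ) :
    ∃ f : Zc ε ρ, f.1 ∈ Cn n ∧ cl ε ρ f = prV ε ρ n v := by
  obtain ⟨f, rfl⟩ := cl_surj v
  exact ⟨⟨pr n f.1, pr_mem_Zc n f.2⟩, pr_mem n f.1, (prV_cl ε ρ n f).symm⟩

theorem prV_cl_of_mem {ρ : A →ₐ[k] End k X} {n : ℕ} {f : Zc ε ρ} (h : f.1 ∈ Cn n) :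
    prV ε ρ n (cl ε ρ f) = cl ε ρ f := by
  rw [prV_cl]
  exact congrArg (cl ε ρ) (Subtype.ext (pr_of_mem h))

theorem fd_low [FiniteDimensional k A] [FiniteDimensional k X] (ρ : A →ₐ[k] End k X) (m : ℕ) :
    ∃ U : Submodule k (V ε ρ), FiniteDimensional k U ∧ ∀ n < m, ∀ v, prV ε ρ n v ∈ U := by
  induction m with
  | zero => exact ⟨⊥, inferInstance, fun n hn => absurd hn (Nat.not_lt_zero n)⟩
  | succ m ih =>
    obtain ⟨U, hU, hm⟩ := ih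
    have := fd_Cn (k := k) (A := A) (X := X) m
    have : FiniteDimensional k ((Cn m).comap (Zc ε ρ).subtype) :=
      FiniteDimensional.of_injective
        ((Zc ε ρ).subtype.restrict (p := (Cn m).comap (Zc ε ρ).subtype) (q := Cn m) fun _ hx => hx)
        fun x y e => Subtype.ext (Subtype.ext (congrArg (fun z : Cn m => (z : C k A X)) e))
    refine ⟨U ⊔ ((Cn m).comap (Zc ε ρ).subtype).map (cl ε ρ), inferInstance, fun n hn v => ?_⟩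
    rcases Nat.lt_succ_iff_lt_or_eq.1 hn with h | rfl
    · exact Submodule.mem_sup_left (hm n h v)
    · obtain ⟨f, hf, e⟩ := exists_homog n v
      exact Submodule.mem_sup_right ⟨f, hf, e⟩

theorem ins_Bd (s : k) {m : ℕ} {h : C k A A} (hh : h ∈ Cn (m + 1)) {f : C k A X} (hf : f ∈ Bd) :
    ins s h f ∈ Bd :=
  C1c_map_Bd (ins s h) (fun n _ hg => Cn_le_Bd (n + m) (ins_mem s hh hg)) hf

theorem left_sub_right (ρ : A →ₐ[k] End k X) {d : ℕ} (hd : 0 < d) (he : Even d) {h : C k A A}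
    (hh : h ∈ Cn d) (h0 : dH h = 0) {f : C k A X} (hf : f ∈ Zc ε ρ) :
    cup ρ.toLinearMap h f - cr f (post ε.toLinearMap h) ∈ Bc ε ρ := by
  obtain ⟨m, rfl⟩ := Nat.exists_eq_succ_of_ne_zero hd.ne'
  refine ⟨ins (-1) h f, ins_Bd _ hh hf.1, ?_⟩
  have e := homotopy ε ρ (s := -1) (by ring) (apply_one_eq_zero hh hd)
    (by rw [sg_of_mem _ hh, he.neg_one_pow, neg_neg]) h0 f
  rw [(mem_Zc.1 hf).2, map_zero, smul_zero, sub_zero, neg_neg, one_smul, sg_one_eq] at e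
  exact e

theorem Cen.mem {d : ℕ} {z : C k A k} (h : Cen ε d z) : z ∈ Cn d := by
  obtain ⟨-, -, g, hg, -, rfl⟩ := h
  exact post_mem _ hg

theorem Cen.comm (ρ : A →ₐ[k] End k X) {d : ℕ} {a : Zk ε} (h : Cen ε d a.1) (b : Zk ε) :
    Commute (T ε ρ a) (T ε ρ b) := by
  obtain ⟨hd, he, g, hg, h0, e⟩ := h
  have h1 := left_sub_right (trv ε k) hd he hg h0 b.2
  rw [cup_trv, e] at h1
  have h2 := T_congr ρ (a := ⟨cr a.1 b.1, cr_mem_Zc a.2 b.2⟩) (b := ⟨cr b.1 a.1, cr_mem_Zc b.2 a.2⟩)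
    h1
  rw [V1_T_cr, V1_T_cr] at h2
  exact h2.symm

theorem V1_quasi {s : k} (hs : s * s = 1) {m n : ℕ} {h : C k A A} (hh : h ∈ Cn (m + 1))
    (hσ : sg (-1) h = (-s) • h) (h0 : dH h = 0) {b : C k A k} (hb : b ∈ Zc ε (trv ε k))
    (hn : b ∈ Cn n) :
    cr (post ε.toLinearMap h) b - (-s) ^ n • cr b (post ε.toLinearMap h) ∈ Bc ε (trv ε k) := by
  have e := homotopy ε (trv ε k) hs (apply_one_eq_zero hh (Nat.succ_pos m)) hσ h0 b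
  rw [(mem_Zc.1 hb).2, map_zero, smul_zero, sub_zero, cup_trv, sg_of_mem _ hn, map_smul cr,
    LinearMap.smul_apply] at e
  refine mem_Bc.2 ⟨(-s) • ins s h b, Submodule.smul_mem _ _ (ins_Bd s hh (mem_Zc.1 hb).1), ?_⟩
  rw [map_smul (dl ε (trv ε k)), e, smul_smul, neg_mul_neg, hs, one_smul]

theorem V1_T_quasi (ρ : A →ₐ[k] End k X) {a b : Zk ε} {c : k}
    (h : cr a.1 b.1 - c • cr b.1 a.1 ∈ Bc ε (trv ε k)) :
    T ε ρ b * T ε ρ a = c • (T ε ρ a * T ε ρ b) := by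
  rw [← V1_T_cr, ← V1_T_cr, ← T_smul]
  refine T_congr ρ ?_
  rw [Submodule.coe_smul]
  exact h

theorem quasi_comm (ρ : A →ₐ[k] End k X) {m n : ℕ} (hm : 0 < m) {h : C k A A} (hh : h ∈ Cn m)
    (h0 : dH h = 0) {a b : Zk ε} (ha : post ε.toLinearMap h = a.1) (hb : b.1 ∈ Cn n) :
    ∃ c : k, T ε ρ a * T ε ρ b = c • (T ε ρ b * T ε ρ a) := by
  obtain ⟨m, rfl⟩ := Nat.exists_eq_succ_of_ne_zero hm.ne'
  have hs : ((-1 : k) ^ m) * (-1) ^ m = 1 := by rw [← mul_pow, neg_mul_neg, one_mul, one_pow]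
  have hs' : (-(-1 : k) ^ m) * -(-1) ^ m = 1 := by rw [neg_mul_neg, hs]
  have h1 := V1_quasi hs hh (by rw [sg_of_mem _ hh, pow_succ, mul_neg_one]) h0 b.2 hb
  rw [ha] at h1
  refine ⟨(-(-1 : k) ^ m) ^ n, ?_⟩
  rw [V1_T_quasi ρ h1, smul_smul, ← mul_pow, hs', one_pow, one_smul]

theorem sym2c_dH {K : Type u} [CommRing K] [Algebra k K] {χ : K →ₗ[k] K →ₗ[k] K} (h : Sym2c χ) :
    dH (mk2 χ) = 0 :=
  del_mk2_eq_zero _ _ _ fun a b c => h.coc a b c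

theorem sym2c_cen {K : Type u} [CommRing K] [Algebra k K] {χ : K →ₗ[k] K →ₗ[k] K} (h : Sym2c χ)
    (ε : K →ₐ[k] k) : Cen ε 2 (mk2 (χ.compr₂ ε.toLinearMap)) :=
  ⟨two_pos, even_two, mk2 χ, mk2_mem χ, sym2c_dH h, post_mk2 _ _⟩

theorem sym2c_mem {K : Type u} [CommRing K] [Algebra k K] {χ : K →ₗ[k] K →ₗ[k] K} (h : Sym2c χ)
    (ε : K →ₐ[k] k) : mk2 (χ.compr₂ ε.toLinearMap) ∈ Zc ε (trv ε k) :=
  ⟨Cn_le_Bd 2 (mk2_mem _), by
    show dl ε (trv ε k) _ = 0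
    rw [← post_mk2, ← post_dH, sym2c_dH h, map_zero]⟩

end EO
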